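import Mathlib

/-! Regular sequences modulo an ideal; regular local rings are domains and their maximal ideal is
generated by a regular sequence. -/

set_option autoImplicit false

namespace Pool.Agent.P.MP_fcbc4b_ag

open IsLocalRing

universe u

variable {R : Type*} [CommRing R]

/-- `l` is a weakly regular sequence modulo `J`. -/
def RegSeq : Ideal R → List R → Prop
  | _, [] => True
  | J, x :: l => (∀ a, x * a ∈ J → a ∈ J) ∧ RegSeq (J ⊔ Ideal.span {x}) l

lemma regSeq_nil (J : Ideal R) : RegSeq J [] := trivial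

lemma regSeq_cons (J : Ideal R) (x : R) (l : List R) :
    RegSeq J (x :: l) ↔ (∀ a, x * a ∈ J → a ∈ J) ∧ RegSeq (J ⊔ Ideal.span {x}) l := Iff.rfl

lemma mem_sup_span_singleton {J : Ideal R} {x y : R} :
    y ∈ J ⊔ Ideal.span {x} ↔ ∃ c, y - c * x ∈ J := by
  constructor
  · intro h
    obtain ⟨j, hj, w, hw, rfl⟩ := Submodule.mem_sup.mp h
    obtain ⟨c, rfl⟩ := Ideal.mem_span_singleton'.mp hw
    exact ⟨c, by simpa using hj⟩
  · rintro ⟨c, hc⟩
    have : y = (y - c * x) + c * x := by ring
    rw [this]
    exact Submodule.add_mem_sup hc (Ideal.mem_span_singleton'.mpr ⟨c, rfl⟩)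

/-- Extension lemma. -/
lemma regSeq_ext (l : List R) : ∀ (J₁ K : Ideal R) (z : R), (∀ b, z * b ∈ J₁ ↔ b ∈ K) →
    RegSeq K l → RegSeq (J₁ ⊔ Ideal.span {z}) l → RegSeq J₁ l := by
  induction l with
  | nil => intros; trivial
  | cons y l ih =>
    intro J₁ K z hK h1 h2
    refine ⟨?_, ?_⟩
    · intro a ha
      have : a ∈ J₁ ⊔ Ideal.span {z} := h2.1 a (Submodule.mem_sup_left ha)
      obtain ⟨c, hc⟩ := mem_sup_span_singleton.mp this
      have h3 : z * (y * c) ∈ J₁ := by
        have : z * (y * c) = y * a - y * (a - c * z) := by ring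
        rw [this]; exact J₁.sub_mem ha (J₁.mul_mem_left _ hc)
      have h4 : c ∈ K := h1.1 c ((hK _).mp h3)
      have h5 := (hK c).mpr h4
      have : a = (a - c * z) + z * c := by ring
      rw [this]; exact J₁.add_mem hc h5
    · refine ih (J₁ ⊔ Ideal.span {y}) (K ⊔ Ideal.span {y}) z ?_ h1.2 ?_
      · intro b
        constructor
        · intro hb
          obtain ⟨c, hc⟩ := mem_sup_span_singleton.mp hb
          have h3 : y * c ∈ J₁ ⊔ Ideal.span {z} := by
            refine mem_sup_span_singleton.mpr ⟨b, ?_⟩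
            have : y * c - b * z = -(z * b - c * y) := by ring
            rw [this]; exact J₁.neg_mem hc
          obtain ⟨c', hc'⟩ := mem_sup_span_singleton.mp (h2.1 c h3)
          refine mem_sup_span_singleton.mpr ⟨c', (hK _).mp ?_⟩
          have : z * (b - c' * y) = (z * b - c * y) + y * (c - c' * z) := by ring
          rw [this]; exact J₁.add_mem hc (J₁.mul_mem_left _ hc')
        · intro hb
          obtain ⟨c, hc⟩ := mem_sup_span_singleton.mp hb
          refine mem_sup_span_singleton.mpr ⟨z * c, ?_⟩
          have : z * b - z * c * y = z * (b - c * y) := by ring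
          rw [this]; exact (hK _).mpr hc
      · have := h2.2
        rwa [sup_right_comm] at this

lemma nzd_pow {J : Ideal R} {x : R} (h : ∀ a, x * a ∈ J → a ∈ J) (v : ℕ) :
    ∀ a, x ^ v * a ∈ J → a ∈ J := by
  induction v with
  | zero => simp
  | succ v ih =>
    intro a ha
    apply ih; apply h
    rwa [← mul_assoc, ← pow_succ']

lemma regSeq_pow_head {J : Ideal R} {x : R} {l : List R} (h : RegSeq J (x :: l)) (v : ℕ) :
    RegSeq (J ⊔ Ideal.span {x ^ (v + 1)}) l := by
  induction v with
  | zero => simpa using h.2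
  | succ v ih =>
    refine regSeq_ext l _ (J ⊔ Ideal.span {x}) (x ^ (v + 1)) ?_ h.2 ?_
    · intro b
      constructor
      · intro hb
        obtain ⟨c, hc⟩ := mem_sup_span_singleton.mp hb
        refine mem_sup_span_singleton.mpr ⟨c, nzd_pow h.1 (v + 1) _ ?_⟩
        have : x ^ (v + 1) * (b - c * x) = x ^ (v + 1) * b - c * x ^ (v + 1 + 1) := by ring
        rwa [this]
      · intro hb
        obtain ⟨c, hc⟩ := mem_sup_span_singleton.mp hb
        refine mem_sup_span_singleton.mpr ⟨c, ?_⟩
        have : x ^ (v + 1) * b - c * x ^ (v + 1 + 1) = x ^ (v + 1) * (b - c * x) := by ring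
        rw [this]; exact J.mul_mem_left _ hc
    · have : J ⊔ Ideal.span {x ^ (v + 1 + 1)} ⊔ Ideal.span {x ^ (v + 1)}
          = J ⊔ Ideal.span {x ^ (v + 1)} := by
        rw [sup_assoc]; congr 1
        apply sup_eq_right.mpr
        rw [Ideal.span_singleton_le_span_singleton]
        exact ⟨x, by ring⟩
      rwa [this]

lemma regSeq_pow (q : ℕ) (hq : 1 ≤ q) (l : List R) : ∀ J : Ideal R, RegSeq J l →
    RegSeq J (l.map (· ^ q)) := by
  induction l with
  | nil => intros; trivial
  | cons x l ih =>
    intro J h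
    obtain ⟨v, rfl⟩ : ∃ v, q = v + 1 := ⟨q - 1, by omega⟩
    exact ⟨nzd_pow h.1 _, ih _ (regSeq_pow_head h v)⟩

lemma regSeq_comap {S : Type*} [CommRing S] (f : R →+* S) (hf : Function.Surjective f)
    (l : List R) : ∀ K : Ideal S, RegSeq K (l.map f) → RegSeq (K.comap f) l := by
  induction l with
  | nil => intros; trivial
  | cons x l ih =>
    intro K h
    refine ⟨fun a ha => h.1 _ (by simpa using ha), ?_⟩
    have := ih _ h.2
    have e : (K ⊔ Ideal.span {f x}).comap f = K.comap f ⊔ Ideal.span {x} := by
      ext y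
      rw [Ideal.mem_comap, mem_sup_span_singleton, mem_sup_span_singleton]
      constructor
      · rintro ⟨c, hc⟩
        obtain ⟨c, rfl⟩ := hf c
        exact ⟨c, by simpa using hc⟩
      · rintro ⟨c, hc⟩
        exact ⟨f c, by simpa using hc⟩
    rwa [e] at this

theorem regular_aux (d : ℕ) : ∀ (R : Type u) [CommRing R] [IsLocalRing R] [IsNoetherianRing R]
    (s : Finset R), s.card ≤ d → Ideal.span (s : Set R) = maximalIdeal R →
    ((d : ℕ∞) : WithBot ℕ∞) ≤ ringKrullDim R →
    IsDomain R ∧ ∃ l : List R, l.length = d ∧ RegSeq ⊥ l ∧ Ideal.ofList l = maximalIdeal R := by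
  induction d with
  | zero =>
    intro R _ _ _ s hs hspan _
    have : s = ∅ := Finset.card_eq_zero.mp (by omega)
    subst this
    have hm : maximalIdeal R = ⊥ := by simpa using hspan.symm
    have : (⊥ : Ideal R).IsPrime := hm ▸ inferInstance
    exact ⟨IsDomain.of_bot_isPrime R, [], rfl, trivial, by simp [hm]⟩
  | succ d ih =>
    intro R _ _ _ s hs hspan hdim
    classical
    have hdim1 : (1 : WithBot ℕ∞) ≤ ringKrullDim R := by
      refine le_trans ?_ hdim
      norm_cast; omega
    have hnotmin : maximalIdeal R ∉ minimalPrimes R := by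
      intro h
      have h0 := Ideal.height_eq_zero_iff.mpr h
      rw [← IsLocalRing.maximalIdeal_height_eq_ringKrullDim, h0] at hdim1
      exact absurd hdim1 (by norm_num)
    have hfin : (minimalPrimes R).Finite := Ideal.finite_minimalPrimes_of_isNoetherianRing R ⊥
    have hx : ∃ x ∈ maximalIdeal R, x ∉ maximalIdeal R ^ 2 ∧ ∀ P ∈ minimalPrimes R, x ∉ P := by
      by_contra hcon
      push Not at hcon
      have hsub : ((maximalIdeal R : Ideal R) : Set R) ⊆
          ⋃ i ∈ ((insert (maximalIdeal R ^ 2) hfin.toFinset : Finset (Ideal R)) : Set (Ideal R)),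
            ((id i : Ideal R) : Set R) := by
        intro x hx
        simp only [Set.mem_iUnion]
        by_cases h2 : x ∈ maximalIdeal R ^ 2
        · exact ⟨_, by simp, h2⟩
        · obtain ⟨P, hP, hxP⟩ := hcon x hx h2
          exact ⟨P, by simp [hP], hxP⟩
      obtain ⟨i, hi, hle⟩ := (Ideal.subset_union_prime (maximalIdeal R ^ 2) (maximalIdeal R ^ 2)
        (fun i hi h1 _ => by
          rcases Finset.mem_insert.mp hi with h | h
          · exact absurd h h1
          · exact (hfin.mem_toFinset.mp h).1.1)).mp hsub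
      rcases Finset.mem_insert.mp hi with h | h
      · subst h
        have : maximalIdeal R = ⊥ := by
          refine Submodule.eq_bot_of_le_smul_of_le_jacobson_bot (maximalIdeal R) _
            (IsNoetherian.noetherian _) ?_ (IsLocalRing.maximalIdeal_le_jacobson _)
          simpa [pow_two] using hle
        apply hnotmin
        refine ⟨⟨inferInstance, bot_le⟩, fun y _ _ => ?_⟩
        rw [this]; exact bot_le
      · have hP := hfin.mem_toFinset.mp h
        have : i = maximalIdeal R :=
          ((IsLocalRing.maximalIdeal.isMaximal R).eq_of_le hP.1.1.ne_top hle).symm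
        exact hnotmin (this ▸ hP)
    obtain ⟨x, hxm, hx2, hxP⟩ := hx
    obtain ⟨c, -, hc⟩ := Submodule.mem_span_finset.mp (hspan ▸ hxm : x ∈ Ideal.span (s : Set R))
    have hy : ∃ y ∈ s, IsUnit (c y) := by
      by_contra hcon
      push Not at hcon
      apply hx2
      rw [← hc, pow_two]
      refine Ideal.sum_mem _ fun y hy => Ideal.mul_mem_mul (hcon y hy) ?_
      rw [← hspan]; exact Ideal.subset_span hy
    obtain ⟨y, hys, hyu⟩ := hy
    set I : Ideal R := Ideal.span {x} with hI
    have hIm : I ≤ maximalIdeal R := by rwa [hI, Ideal.span_singleton_le_iff_mem]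
    have hItop : I ≠ ⊤ := fun h => (IsLocalRing.maximalIdeal.isMaximal R).ne_top (top_le_iff.mp (h ▸ hIm))
    have : Nontrivial (R ⧸ I) := Ideal.Quotient.nontrivial_iff.mpr hItop
    have : IsLocalRing (R ⧸ I) := IsLocalRing.of_surjective' (Ideal.Quotient.mk I)
      Ideal.Quotient.mk_surjective
    have hmap : (maximalIdeal R).map (Ideal.Quotient.mk I) = maximalIdeal (R ⧸ I) :=
      IsLocalRing.map_maximalIdeal_of_surjective _ Ideal.Quotient.mk_surjective
    have hspan' : Ideal.span (((s.erase y).image (Ideal.Quotient.mk I) : Finset (R ⧸ I)) : Set (R ⧸ I))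
        = maximalIdeal (R ⧸ I) := by
      rw [← hmap, ← hspan, Ideal.map_span]
      apply le_antisymm
      · apply Ideal.span_mono
        intro z hz
        simp only [Finset.coe_image, Set.mem_image, Finset.mem_coe] at hz ⊢
        obtain ⟨w, hw, rfl⟩ := hz
        exact ⟨w, Finset.mem_of_mem_erase hw, rfl⟩
      · rw [Ideal.span_le]
        rintro _ ⟨w, hw, rfl⟩
        by_cases hwy : w = y
        · subst hwy
          have h0 : Ideal.Quotient.mk I x = 0 :=
            Ideal.Quotient.eq_zero_iff_mem.mpr (Ideal.mem_span_singleton_self x)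
          rw [← hc, ← Finset.add_sum_erase s _ hys, map_add, smul_eq_mul, map_mul] at h0
          have h1 : Ideal.Quotient.mk I (c w) * Ideal.Quotient.mk I w ∈
              Ideal.span (((s.erase w).image (Ideal.Quotient.mk I) : Finset (R ⧸ I)) : Set (R ⧸ I)) := by
            rw [eq_neg_of_add_eq_zero_left h0]
            apply Submodule.neg_mem
            rw [map_sum]
            refine Ideal.sum_mem _ fun z hz => ?_
            rw [smul_eq_mul, map_mul]
            exact Ideal.mul_mem_left _ _ (Ideal.subset_span (by simpa using ⟨z, by simpa [and_comm] using hz, rfl⟩))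
          exact (Ideal.unit_mul_mem_iff_mem _ (hyu.map _)).mp h1
        · exact Ideal.subset_span (by simpa using ⟨w, ⟨hw, hwy⟩, rfl⟩)
    have hdim' : ((d : ℕ∞) : WithBot ℕ∞) ≤ ringKrullDim (R ⧸ I) := by
      have h1 := ringKrullDim_le_ringKrullDim_quotient_add_encard ({x} : Set R) (by
        intro z hz
        rw [Set.mem_singleton_iff.mp hz]
        exact (IsLocalRing.maximalIdeal_le_jacobson (⊥ : Ideal R)).trans
          (by rw [Ideal.jacobson_bot]) hxm)
      rw [Set.encard_singleton] at h1
      have h2 := hdim.trans h1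
      rw [← hI] at h2
      generalize ringKrullDim (R ⧸ I) = k at h2
      induction k with
      | bot => simp at h2
      | coe k =>
        norm_cast at h2 ⊢
        induction k with
        | top => simp
        | coe k => norm_cast at h2 ⊢; omega
    obtain ⟨hdom, l', hl', hreg, hgen⟩ := ih (R ⧸ I) _ (by
      refine Finset.card_image_le.trans ?_
      rw [Finset.card_erase_of_mem hys]; omega) hspan' hdim'
    have hIprime : I.IsPrime := (Ideal.Quotient.isDomain_iff_prime I).mp hdom
    obtain ⟨P, hP, hPI⟩ := Ideal.exists_minimalPrimes_le (I := ⊥) (J := I) bot_le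
    have hPbot : P = ⊥ := by
      refine Submodule.eq_bot_of_le_smul_of_le_jacobson_bot (maximalIdeal R) _
        (IsNoetherian.noetherian _) ?_ (IsLocalRing.maximalIdeal_le_jacobson _)
      intro z hz
      obtain ⟨a, rfl⟩ := Ideal.mem_span_singleton'.mp (hPI hz)
      have : a ∈ P := ((hP.1.1.mem_or_mem hz).resolve_right (hxP P hP))
      rw [mul_comm]
      exact Ideal.mul_mem_mul hxm this
    have : (⊥ : Ideal R).IsPrime := hPbot ▸ hP.1.1
    have hD : IsDomain R := IsDomain.of_bot_isPrime R
    obtain ⟨l, rfl⟩ : ∃ l : List R, l.map (Ideal.Quotient.mk I) = l' :=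
      (List.map_surjective_iff.mpr Ideal.Quotient.mk_surjective) l'
    have hx0 : x ≠ 0 := fun h => hx2 (h ▸ Submodule.zero_mem _)
    refine ⟨hD, x :: l, by simpa using hl', ⟨fun a ha => ?_, ?_⟩, ?_⟩
    · simpa [hx0] using ha
    · have := regSeq_comap _ Ideal.Quotient.mk_surjective l _ hreg
      rwa [← RingHom.ker_eq_comap_bot, Ideal.mk_ker, ← bot_sup_eq I] at this
    · rw [← Ideal.map_ofList, ← hmap] at hgen
      have := congrArg (Ideal.comap (Ideal.Quotient.mk I)) hgen
      rw [Ideal.comap_map_of_surjective _ Ideal.Quotient.mk_surjective,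
        Ideal.comap_map_of_surjective _ Ideal.Quotient.mk_surjective,
        ← RingHom.ker_eq_comap_bot, Ideal.mk_ker, sup_eq_left.mpr hIm] at this
      rw [Ideal.ofList_cons, ← hI, sup_comm, this]

/-- A regular local ring is a domain whose maximal ideal is generated by a regular sequence. -/
theorem regular_seq (R : Type u) [CommRing R] [IsRegularLocalRing R] :
    IsDomain R ∧ ∃ l : List R, ((l.length : ℕ∞) : WithBot ℕ∞) = ringKrullDim R ∧ RegSeq ⊥ l ∧
      Ideal.ofList l = maximalIdeal R := by
  obtain ⟨s, hs, hspan⟩ := Submodule.FG.exists_span_finset_card_eq_spanFinrank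
    (IsNoetherian.noetherian (maximalIdeal R))
  have h := IsRegularLocalRing.spanFinrank_maximalIdeal (R := R)
  obtain ⟨hD, l, hl, h1, h2⟩ := regular_aux s.card R s le_rfl hspan (by rw [hs, ← h]; rfl)
  exact ⟨hD, l, by rw [hl, hs, ← h]; rfl, h1, h2⟩

end Pool.Agent.P.MP_fcbc4b_ag
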