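import Pool.Agent.P.MP_fcbc4b_ag.Final

/-! Finite free resolutions over regular local rings; height one primes of a regular ring are
locally principal. -/

set_option autoImplicit false

namespace Pool.Agent.P.MP_fcbc4b_ag

open IsLocalRing TensorProduct

/-- `M` has a resolution by `n` finite free modules. -/
def FFR (A : Type) [CommRing A] : ℕ → (M : Type) → [AddCommGroup M] → [Module A M] → Prop
  | 0, M, _, _ => ∀ m : M, m = 0
  | n + 1, M, _, _ => ∃ (k : ℕ) (f : (Fin k → A) →ₗ[A] M), Function.Surjective f ∧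
      FFR A n (LinearMap.ker f)

lemma ffr_lift {A A' : Type} [CommRing A] [CommRing A'] [IsLocalRing A] [IsNoetherianRing A]
    (π : A →+* A') (hπ : Function.Surjective π) {x : A} (hx : x ∈ maximalIdeal A)
    (hπx : π x = 0) (hker : ∀ a, π a = 0 → ∃ b, a = x * b) (hreg : ∀ a, x * a = 0 → a = 0)
    (n : ℕ) : ∀ (M M' : Type) [AddCommGroup M] [Module A M] [Module.Finite A M] [AddCommGroup M']
      [Module A' M'] (p : M →ₛₗ[π] M'), Function.Surjective p →
      (∀ m, p m = 0 → ∃ m', m = x • m') → (∀ m : M, x • m = 0 → m = 0) → FFR A' n M' →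
      FFR A n M := by
  have nak : ∀ (M : Type) [AddCommGroup M] [Module A M] [Module.Finite A M] (N : Submodule A M),
      (∀ m : M, ∃ y ∈ N, ∃ m', m = y + x • m') → N = ⊤ := by
    intro M _ _ _ N h
    refine top_le_iff.mp (Submodule.le_of_le_smul_of_le_jacobson_bot (I := maximalIdeal A)
      Module.Finite.fg_top (maximalIdeal_le_jacobson _) fun m _ => ?_)
    obtain ⟨y, hy, m', rfl⟩ := h m
    exact Submodule.add_mem_sup hy (Submodule.smul_mem_smul hx trivial)
  induction n with
  | zero =>
    intro M M' _ _ _ _ _ p _ h1 _ h3 m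
    have := nak M ⊥ fun m => ⟨0, rfl, by simpa using h1 m (h3 _)⟩
    have h4 : m ∈ (⊥ : Submodule A M) := by rw [this]; trivial
    exact h4
  | succ n ih =>
    intro M M' _ _ _ _ _ p hp h1 h2 ⟨k, g, hg, h3⟩
    choose v hv using fun i : Fin k => hp (g (Pi.single i 1))
    set f : (Fin k → A) →ₗ[A] M := Fintype.linearCombination A v with hf
    have hfg : ∀ w, p (f w) = g (fun i => π (w i)) := by
      intro w
      have e : (fun i => π (w i)) = ∑ i, π (w i) • (Pi.single i 1 : Fin k → A') := by
        ext j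
        simp [Pi.single_apply]
      rw [e, hf, Fintype.linearCombination_apply, map_sum, map_sum]
      refine Finset.sum_congr rfl fun i _ => ?_
      rw [p.map_smulₛₗ, map_smul, hv]
    have hlift : ∀ w : Fin k → A', ∃ w' : Fin k → A, (fun i => π (w' i)) = w := fun w => by
      choose w' hw' using fun i => hπ (w i)
      exact ⟨w', funext hw'⟩
    have hsurj : Function.Surjective f := by
      refine LinearMap.range_eq_top.mp (nak M _ fun m => ?_)
      obtain ⟨w, hw⟩ := hg (p m)
      obtain ⟨w, rfl⟩ := hlift w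
      obtain ⟨m', hm'⟩ := h1 (m - f w) (by rw [map_sub, hfg, hw, sub_self])
      exact ⟨f w, ⟨w, rfl⟩, m', by rw [← hm']; abel⟩
    let q : LinearMap.ker f →ₛₗ[π] LinearMap.ker g :=
      { toFun := fun w => ⟨fun i => π (w.1 i), by
          rw [LinearMap.mem_ker, ← hfg, LinearMap.mem_ker.mp w.2, map_zero]⟩
        map_add' := fun a b => by ext i; simp
        map_smul' := fun a b => by ext i; simp }
    refine ⟨k, f, hsurj, ih _ _ q (fun w => ?_) (fun w hw => ?_) (fun w hw => ?_) h3⟩
    · obtain ⟨w', hw'⟩ := hlift w.1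
      obtain ⟨m', hm'⟩ := h1 (f w') (by rw [hfg, hw']; exact w.2)
      obtain ⟨u, rfl⟩ := hsurj m'
      refine ⟨⟨w' - x • u, by rw [LinearMap.mem_ker, map_sub, map_smul, hm', sub_self]⟩, ?_⟩
      ext i
      simp [q, hπx, ← hw']
    · choose u hu using fun i => hker (w.1 i) (congrFun (congrArg Subtype.val hw) i)
      have e : w.1 = x • u := funext hu
      refine ⟨⟨u, h2 _ ?_⟩, Subtype.ext e⟩
      rw [← map_smul, ← e]
      exact w.2
    · ext i
      exact hreg _ (congrFun (congrArg Subtype.val hw) i)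

lemma exists_not_mem_sq {A : Type} [CommRing A] [IsLocalRing A] [IsNoetherianRing A]
    (h : maximalIdeal A ≠ ⊥) : ∃ x ∈ maximalIdeal A, x ∉ maximalIdeal A ^ 2 := by
  by_contra hcon
  push Not at hcon
  refine h (Submodule.eq_bot_of_le_smul_of_le_jacobson_bot (maximalIdeal A) _
    (IsNoetherian.noetherian _) (fun x hx => ?_) (maximalIdeal_le_jacobson _))
  simpa [pow_two] using hcon x hx

lemma max_ne_bot {A : Type} [CommRing A] [IsLocalRing A] {d : ℕ}
    (hdim : (((d + 1 : ℕ) : ℕ∞) : WithBot ℕ∞) ≤ ringKrullDim A) : maximalIdeal A ≠ ⊥ := by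
  intro h
  rw [← IsLocalRing.maximalIdeal_height_eq_ringKrullDim, h, Ideal.height_bot] at hdim
  norm_cast at hdim

theorem ffr_aux (d : ℕ) : ∀ (A : Type) [CommRing A] [IsLocalRing A] [IsNoetherianRing A]
    (s : Finset A), s.card ≤ d → Ideal.span (s : Set A) = maximalIdeal A →
    ((d : ℕ∞) : WithBot ℕ∞) ≤ ringKrullDim A →
    ∀ (M : Type) [AddCommGroup M] [Module A M] [Module.Finite A M], FFR A (d + 1) M := by
  induction d with
  | zero =>
    intro A _ _ _ s hs hspan _ M _ _ _
    have : s = ∅ := Finset.card_eq_zero.mp (by omega)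
    subst this
    have hm : maximalIdeal A = ⊥ := by simpa using hspan.symm
    let := (isField_iff_maximalIdeal_eq.mpr hm).toField
    let e := (Module.finBasis A M).equivFun.symm
    exact ⟨_, e.toLinearMap, e.surjective, fun m => Subtype.ext (e.injective (by simpa using m.2))⟩
  | succ d ih =>
    intro A _ _ _ s hs hspan hdim M _ _ _
    have hD := (regular_aux (d + 1) A s hs hspan hdim).1
    obtain ⟨x, hx, hx2⟩ := exists_not_mem_sq (max_ne_bot hdim)
    have hx0 : x ≠ 0 := fun h => hx2 (h ▸ Submodule.zero_mem _)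
    obtain ⟨_, s', h1, h2, h3⟩ := quot_step d s hs hspan hdim x hx hx2
    obtain ⟨k, f, hf⟩ := Module.Finite.exists_fin' A M
    refine ⟨k, f, hf, ?_⟩
    set N := LinearMap.ker f
    have := Module.Finite.of_restrictScalars_finite A (A ⧸ Ideal.span {x}) (QuotSMulTop x N)
    let p : N →ₛₗ[Ideal.Quotient.mk (Ideal.span {x})] QuotSMulTop x N :=
      { toFun := Submodule.Quotient.mk
        map_add' := fun _ _ => rfl
        map_smul' := fun _ _ => rfl }
    refine ffr_lift (Ideal.Quotient.mk (Ideal.span {x})) Ideal.Quotient.mk_surjective hx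
      (Ideal.Quotient.eq_zero_iff_mem.mpr (Ideal.mem_span_singleton_self x))
      (fun a ha => Ideal.mem_span_singleton.mp (Ideal.Quotient.eq_zero_iff_mem.mp ha))
      (fun a ha => (mul_eq_zero.mp ha).resolve_left hx0) (d + 1) N _ p
      (Submodule.Quotient.mk_surjective _) (fun m hm => ?_) (fun m hm => ?_) (ih _ s' h1 h2 h3 _)
    · obtain ⟨m', -, h4⟩ := (Submodule.mem_smul_pointwise_iff_exists _ _ _).mp
        ((Submodule.Quotient.mk_eq_zero _).mp hm)
      exact ⟨m', h4.symm⟩
    · ext i
      exact (mul_eq_zero.mp (congrFun (congrArg Subtype.val hm) i)).resolve_left hx0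

lemma stab_of_ffr {A : Type} (S : Type) [CommRing A] [CommRing S] [Algebra A S] [Module.Flat A S]
    (n : ℕ) : ∀ (M : Type) [AddCommGroup M] [Module A M], FFR A n M →
      Module.Projective S (S ⊗[A] M) → Module.IsStablyFree S (S ⊗[A] M) := by
  induction n with
  | zero =>
    intro M _ _ h _
    have : Subsingleton M := ⟨fun a b => by rw [h a, h b]⟩
    infer_instance
  | succ n ih =>
    intro M _ _ ⟨k, f, hf, h⟩ hP
    have h1 : Function.Exact ((LinearMap.ker f).subtype.baseChange S) (f.baseChange S) :=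
      lTensor_exact S (LinearMap.exact_subtype_ker_map f) hf
    have h2 : Function.Injective ((LinearMap.ker f).subtype.baseChange S) :=
      Module.Flat.lTensor_preserves_injective_linearMap _ (Submodule.subtype_injective _)
    have h3 : Function.Surjective (f.baseChange S) := LinearMap.lTensor_surjective S hf
    obtain ⟨l, hl⟩ := Module.projective_lifting_property (f.baseChange S) LinearMap.id h3
    obtain ⟨e, -⟩ := h1.splitSurjectiveEquiv h2 ⟨l, hl⟩
    have hfree : Module.Free S (S ⊗[A] LinearMap.ker f × S ⊗[A] M) := Module.Free.of_equiv e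
    have hK := ih _ h (Module.Projective.of_split (LinearMap.inl S _ (S ⊗[A] M))
      (LinearMap.fst S _ _) (LinearMap.ext fun _ => rfl))
    obtain ⟨N, _, _, _, _, hN⟩ := Module.IsStablyFree.exist_free_prod S (S ⊗[A] LinearMap.ker f)
    have hfin : Module.Finite S (S ⊗[A] LinearMap.ker f × S ⊗[A] M) := Module.Finite.equiv e
    have : Module.Finite S (S ⊗[A] LinearMap.ker f) :=
      Module.Finite.of_surjective (LinearMap.fst S _ (S ⊗[A] M)) LinearMap.fst_surjective
    have : Module.Free S (S ⊗[A] M × (S ⊗[A] LinearMap.ker f × N)) :=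
      Module.Free.of_equiv (((LinearEquiv.prodComm S _ _).prodCongr (LinearEquiv.refl S N)).trans
        (LinearEquiv.prodAssoc S _ _ _))
    exact Module.IsStablyFree.of_free_prod S _ (S ⊗[A] LinearMap.ker f × N)

lemma mem_of_loc {S : Type} [CommRing S] {K : Ideal S} {a : S}
    (h : ∀ 𝔫 : Ideal S, 𝔫.IsMaximal → ∃ s, s ∉ 𝔫 ∧ s * a ∈ K) : a ∈ K := by
  by_contra ha
  have hne : K.colon {a} ≠ ⊤ := fun h => ha (by
    have : (1 : S) ∈ K.colon {a} := by rw [h]; trivial
    simpa using this)
  obtain ⟨𝔫, h𝔫, hle⟩ := Ideal.exists_le_maximal _ hne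
  obtain ⟨s, hs, h1⟩ := h 𝔫 h𝔫
  exact hs (hle (by simpa using h1))

lemma invertible_of_lp {S : Type} [CommRing S] [IsDomain S] {J : Ideal S} (hJ : J ≠ ⊥)
    (h : ∀ 𝔫 : Ideal S, 𝔫.IsMaximal → ∃ g ∈ J, ∃ s, s ∉ 𝔫 ∧ ∀ y ∈ J, g ∣ s * y) :
    Module.Invertible S J := by
  obtain ⟨a, haJ, ha⟩ := Submodule.exists_mem_ne_zero_of_ne_bot hJ
  have h1 : J * (Ideal.span {a}).colon J = Ideal.span {a} := by
    refine le_antisymm (Ideal.mul_le.mpr fun x hx y hy => ?_) ?_
    · rw [mul_comm]
      exact Submodule.mem_colon.mp hy x hx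
    · rw [Ideal.span_singleton_le_iff_mem]
      refine mem_of_loc fun 𝔫 h𝔫 => ?_
      obtain ⟨g, hg, s, hs, h2⟩ := h 𝔫 h𝔫
      obtain ⟨b, hb⟩ := h2 a haJ
      refine ⟨s, hs, hb ▸ Ideal.mul_mem_mul hg (Submodule.mem_colon.mpr fun y hy => ?_)⟩
      obtain ⟨c, hc⟩ := h2 y hy
      refine Ideal.mem_span_singleton.mpr ⟨c, mul_left_cancel₀ (fun h0 => hs ?_) (a := s) ?_⟩
      · rw [h0]
        exact 𝔫.zero_mem
      · rw [smul_eq_mul]
        linear_combination b * hc - c * hb
  set K := FractionRing S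
  have h2 : IsUnit (IsLocalization.coeSubmodule K J) := by
    refine isUnit_of_mul_isUnit_left (y := IsLocalization.coeSubmodule K ((Ideal.span {a}).colon J))
      ?_
    rw [← IsLocalization.coeSubmodule_mul, h1, IsLocalization.coeSubmodule_span_singleton]
    refine IsUnit.of_mul_eq_one (Submodule.span S {(algebraMap S K a)⁻¹}) ?_
    rw [Submodule.span_mul_span, Set.singleton_mul_singleton,
      mul_inv_cancel₀ (by simpa using ha), Submodule.one_eq_span]
  obtain ⟨u, hu⟩ := h2
  have h3 : Module.Invertible S (Submodule.map (Algebra.linearMap S K) J) := by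
    change Module.Invertible S (IsLocalization.coeSubmodule K J)
    exact hu ▸ inferInstance
  exact Module.Invertible.congr (Submodule.equivMapOfInjective (Algebra.linearMap S K)
    (IsFractionRing.injective S K) J).symm

lemma principal_of_ffr {A S : Type} [CommRing A] [CommRing S] [Algebra A S] (M : Submonoid A)
    [IsLocalization M S] (p : Ideal A) {n : ℕ} (h : FFR A n p)
    (hinv : Module.Invertible S (p.map (algebraMap A S))) :
    (p.map (algebraMap A S)).IsPrincipal := by
  have := IsLocalization.flat S M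
  have e := (IsLocalizedModule.isBaseChange M S (Algebra.idealMap S p)).equiv
  have h1 := stab_of_ffr S _ p h (Module.Projective.of_equiv e.symm)
  have hst := Module.IsStablyFree.equiv e
  obtain ⟨e'⟩ := Module.Invertible.free_iff_linearEquiv.mp
    (Module.free_of_isStablyFree_of_invertible S (p.map (algebraMap A S)))
  refine ⟨e'.symm 1, le_antisymm (fun y hy => ?_) ?_⟩
  · refine Submodule.mem_span_singleton.mpr ⟨e' ⟨y, hy⟩, ?_⟩
    rw [← Submodule.coe_smul, ← map_smul, smul_eq_mul, mul_one, e'.symm_apply_apply]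
  · rw [Submodule.span_singleton_le_iff_mem]
    exact (e'.symm 1).2

lemma regular_loc {R : Type} [CommRing R] [IsRegularRing R] (M : Submonoid R) :
    IsRegularRing (Localization M) :=
  isRegularRing_iff.mpr fun p _ => IsRegularLocalRing.of_ringEquiv
    (IsLocalization.localizationLocalizationAtPrimeIsoLocalization M p).toRingEquiv

theorem lp_aux (d : ℕ) : ∀ (R : Type) [CommRing R] [IsRegularRing R] (𝔪 Q : Ideal R),
    𝔪.IsPrime → Q.IsPrime → 𝔪.height < d → Q.height = 1 →
    ∃ g ∈ Q, ∃ s, s ∉ 𝔪 ∧ ∀ y ∈ Q, g ∣ s * y := by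
  induction d with
  | zero => intro R _ _ 𝔪 Q _ _ h; simp at h
  | succ d ih =>
    intro R _ _ 𝔪 Q h𝔪 hQ hd h1
    by_cases hle : Q ≤ 𝔪
    swap
    · obtain ⟨g, hg, hg'⟩ := Set.not_subset.mp hle
      exact ⟨g, hg, g, hg', fun y _ => dvd_mul_right _ _⟩
    set A := Localization.AtPrime 𝔪
    have hA : IsRegularRing A := regular_loc _
    have hdis : Disjoint (𝔪.primeCompl : Set R) (Q : Set R) :=
      Set.disjoint_left.mpr fun a ha ha' => ha (hle ha')
    set p := Q.map (algebraMap R A) with hp
    have hpp : p.IsPrime := IsLocalization.isPrime_of_isPrime_disjoint _ A Q hQ hdis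
    have hp1 : p.height = 1 := (IsLocalization.height_map_of_disjoint _ Q hdis).trans h1
    obtain ⟨s, hs, hspan⟩ := Submodule.FG.exists_span_finset_card_eq_spanFinrank
      (IsNoetherian.noetherian (maximalIdeal A))
    have hdim : ((s.card : ℕ∞) : WithBot ℕ∞) ≤ ringKrullDim A := by
      rw [hs, ← IsRegularLocalRing.spanFinrank_maximalIdeal (R := A)]; rfl
    have hD := (regular_seq A).1
    have hp0 : p ≠ ⊥ := p.ne_bot_of_height_eq_one hp1
    have hm0 : maximalIdeal A ≠ ⊥ := fun h => hp0 (le_bot_iff.mp (h ▸ le_maximalIdeal hpp.ne_top))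
    obtain ⟨x, hx, hx2⟩ := exists_not_mem_sq hm0
    have hx0 : x ≠ 0 := fun h => hx2 (h ▸ Submodule.zero_mem _)
    have hxp : Prime x := by
      obtain ⟨c, hc⟩ : ∃ c, s.card = c + 1 := Nat.exists_eq_succ_of_ne_zero fun h => hm0 (by
        rw [← hspan, Finset.card_eq_zero.mp h]; simp)
      obtain ⟨_, s', h2, h3, h4⟩ := quot_step c s hc.le hspan (hc ▸ hdim) x hx hx2
      exact (Ideal.span_singleton_prime hx0).mp
        ((Ideal.Quotient.isDomain_iff_prime _).mp (regular_aux c _ s' h2 h3 h4).1)
    have hpr : p.IsPrincipal := by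
      by_cases hxp' : x ∈ p
      · exact ⟨x, p.eq_span_singleton_of_height_eq_one hp1 hxp' hxp⟩
      refine p.isPrincipal_of_isPrincipal_localizationAway_of_prime hxp hxp' ?_
      set S := Localization.Away x
      have hS : IsRegularRing S := regular_loc _
      have hDS : IsDomain S := IsLocalization.Away.isDomain S hx0
      have hdis' := (Ideal.disjoint_powers_iff_notMem_of_isPrime x).mpr hxp'
      have hJ := IsLocalization.isPrime_of_isPrime_disjoint (Submonoid.powers x) S p hpp hdis'
      have hJ1 : (p.map (algebraMap A S)).height = 1 :=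
        (IsLocalization.height_map_of_disjoint _ p hdis').trans hp1
      have hinv := invertible_of_lp (Ideal.ne_bot_of_height_eq_one hJ1) fun 𝔫 h𝔫 => by
        refine ih S 𝔫 _ h𝔫.isPrime hJ ?_ hJ1
        have h2 : 𝔫.under A < maximalIdeal A := by
          refine lt_of_le_of_ne (le_maximalIdeal (h𝔫.isPrime.comap _).ne_top) fun h => ?_
          exact h𝔫.ne_top (𝔫.eq_top_of_isUnit_mem (show x ∈ 𝔫.under A from h ▸ hx)
            (IsLocalization.Away.algebraMap_isUnit x))
        have h3 := Ideal.height_add_one_le_of_lt_of_isPrime h2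
        rw [IsLocalization.height_under (Submonoid.powers x),
          ← IsLocalization.height_under 𝔪.primeCompl (maximalIdeal A),
          IsLocalization.AtPrime.under_maximalIdeal A 𝔪] at h3
        have h4 := h3.trans_lt hd
        rw [Nat.cast_add, Nat.cast_one] at h4
        exact (WithTop.add_lt_add_iff_right WithTop.one_ne_top).mp h4
      exact principal_of_ffr (Submonoid.powers x) p (ffr_aux s.card A s le_rfl hspan hdim p) hinv
    obtain ⟨γ, hγ⟩ := hpr
    obtain ⟨⟨g, u⟩, hg⟩ := (IsLocalization.mem_map_algebraMap_iff 𝔪.primeCompl A).mp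
      (show γ ∈ p by rw [hγ]; exact Submodule.mem_span_singleton_self γ)
    obtain ⟨t, ht, h2⟩ := exists_mul_le_of_loc 𝔪 Q (Ideal.span {(g : R)})
      (IsNoetherian.noetherian _) (by
        rw [← hp, hγ, Submodule.span_singleton_le_iff_mem]
        refine (Ideal.mul_unit_mem_iff_mem _ (IsLocalization.map_units A u)).mp ?_
        rw [hg]
        exact Ideal.mem_map_of_mem _ (Ideal.mem_span_singleton_self _))
    exact ⟨g, g.2, t, ht, fun y hy => Ideal.mem_span_singleton.mp (h2 y hy)⟩

end Pool.Agent.P.MP_fcbc4b_ag
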