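import Pool.Agent.P.MP_fcbc4b_ag.APoly
import Pool.Agent.P.MP_fcbc4b_ag.AUfd

/-! Removal of the height one components; the containment theorem for all ideals. -/

set_option autoImplicit false

namespace Pool.Agent.P.MP_fcbc4b_ag

open IsLocalRing

variable {R : Type} [CommRing R]

lemma zero_loc [IsRegularRing R] {P Q : Ideal R} [P.IsPrime] [hQ : Q.IsPrime] (hle : Q ≤ P) :
    ∃ K : Ideal R, K.IsPrime ∧ K ≤ Q ∧ ∃ t, t ∉ P ∧ ∀ a ∈ K, t * a = 0 := by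
  have := (regular_seq (Localization.AtPrime P)).1
  set K := RingHom.ker (algebraMap R (Localization.AtPrime P))
  obtain ⟨t, ht, h⟩ := exists_mul_le_of_loc P K ⊥ (IsNoetherian.noetherian _)
    (Ideal.map_le_iff_le_comap.mpr fun a ha => by
      rw [Ideal.mem_comap, RingHom.mem_ker.mp ha]
      exact Ideal.zero_mem _)
  exact ⟨K, RingHom.ker_isPrime _, fun a ha => (hQ.mem_or_mem (show t * a ∈ Q by
    rw [h a ha]; exact Q.zero_mem)).resolve_left fun h => ht (hle h), t, ht, h⟩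

lemma lp_one [IsRegularRing R] {Q : Ideal R} [hQ : Q.IsPrime] (h1 : Q.height = 1) (𝔪 : Ideal R)
    (h𝔪 : 𝔪.IsPrime) :
    ∃ g ∈ Q, ∃ s, s ∉ 𝔪 ∧ (∀ y ∈ Q, g ∣ s * y) ∧ ∀ a, g * a = 0 → s * a = 0 := by
  by_cases hle : Q ≤ 𝔪
  swap
  · obtain ⟨g, hg, hg'⟩ := Set.not_subset.mp hle
    exact ⟨g, hg, g, hg', fun y _ => dvd_mul_right _ _, fun _ h => h⟩
  obtain ⟨n, hn⟩ := ENat.ne_top_iff_exists.mp (Ideal.height_ne_top h𝔪.ne_top)
  obtain ⟨g, hg, s, hs, h2⟩ := lp_aux (n + 1) R 𝔪 Q h𝔪 hQ (by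
    rw [← hn]; exact_mod_cast Nat.lt_succ_self n) h1
  obtain ⟨K, hK, hKQ, t, ht, h3⟩ := zero_loc hle
  have hgK : g ∉ K := fun hgK => by
    have hQK : Q ≤ K := fun y hy => by
      obtain ⟨c, hc⟩ := h2 y hy
      exact (hK.mem_or_mem (show s * y ∈ K from hc ▸ K.mul_mem_right _ hgK)).resolve_left
        fun h => hs (hle (hKQ h))
    have : Q ∈ minimalPrimes R := ⟨⟨hQ, bot_le⟩, fun Q' hQ' hQ'Q y hy =>
      (hQ'.1.mem_or_mem (show t * y ∈ Q' by rw [h3 y (hQK hy)]; exact Q'.zero_mem)).resolve_left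
        fun h => ht (hle (hQ'Q h))⟩
    rw [Ideal.height_eq_zero_iff.mpr this] at h1
    exact zero_ne_one h1
  refine ⟨g, hg, t * s, fun h => (h𝔪.mem_or_mem h).elim ht hs, fun y hy => ?_, fun a ha => ?_⟩
  · rw [mul_assoc]
    exact (h2 y hy).mul_left _
  · rw [mul_right_comm, h3 a ((hK.mem_or_mem (show g * a ∈ K by
      rw [ha]; exact K.zero_mem)).resolve_left hgK), zero_mul]

section lp

variable {Q : Ideal R} (hQ : ∀ 𝔪 : Ideal R, 𝔪.IsPrime →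
  ∃ g ∈ Q, ∃ s, s ∉ 𝔪 ∧ (∀ y ∈ Q, g ∣ s * y) ∧ ∀ a, g * a = 0 → s * a = 0)
include hQ

lemma le_mul_colon {I : Ideal R} (hI : I ≤ Q) : I ≤ Q * I.colon Q := by
  intro r hr
  refine mem_of_loc fun 𝔪 h𝔪 => ?_
  obtain ⟨g, hg, s, hs, h1, -⟩ := hQ 𝔪 h𝔪.isPrime
  obtain ⟨b, hb⟩ := h1 r (hI hr)
  refine ⟨s * s, fun h => hs ((h𝔪.isPrime.mem_or_mem h).elim id id), ?_⟩
  rw [mul_assoc, hb, mul_left_comm]
  refine Ideal.mul_mem_mul hg (Submodule.mem_colon.mpr fun y hy => ?_)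
  obtain ⟨c, hc⟩ := h1 y hy
  have : (s * b) • y = s * c * r := by
    rw [smul_eq_mul]
    linear_combination b * hc - c * hb
  rw [this]
  exact I.mul_mem_left _ hr

variable {S : Set (Ideal R)} (hS : ∀ P ∈ S, P.IsPrime) (hsat : sat S hS Q ≤ Q)
include hsat

lemma sat_cancel (K : Ideal R) : sat S hS (Q * K) ≤ Q * sat S hS K := by
  intro r hr
  have hrQ : r ∈ Q := hsat fun P hP =>
    let ⟨t, ht, h⟩ := hr P hP
    ⟨t, ht, Ideal.mul_le_left (I := Q) (J := K) h⟩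
  refine mem_of_loc fun 𝔪 h𝔪 => ?_
  obtain ⟨g, hg, s, hs, h1, h2⟩ := hQ 𝔪 h𝔪.isPrime
  obtain ⟨b, hb⟩ := h1 r hrQ
  refine ⟨s * s, fun h => hs ((h𝔪.isPrime.mem_or_mem h).elim id id), ?_⟩
  rw [mul_assoc, hb, mul_left_comm]
  refine Ideal.mul_mem_mul hg fun P hP => ?_
  obtain ⟨t, ht, h3⟩ := hr P hP
  have h4 : Ideal.span {s} * Q ≤ Ideal.span {g} := fun z hz => by
    obtain ⟨y, hy, rfl⟩ := Ideal.mem_span_singleton_mul.mp hz
    exact Ideal.mem_span_singleton.mpr (h1 y hy)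
  have h5 := Ideal.mul_mem_mul (Ideal.mem_span_singleton_self s) h3
  rw [← mul_assoc (Ideal.span {s})] at h5
  obtain ⟨k, hk, h6⟩ := Ideal.mem_span_singleton_mul.mp (Ideal.mul_mono_left h4 h5)
  have h7 := h2 (t * b - k) (by linear_combination -t * hb - h6)
  refine ⟨t, ht, ?_⟩
  rw [show t * (s * b) = s * k by linear_combination h7]
  exact K.mul_mem_left _ hk

lemma sat_cancel_pow (K : Ideal R) (m : ℕ) : sat S hS (Q ^ m * K) ≤ Q ^ m * sat S hS K := by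
  induction m with
  | zero => simp
  | succ m ih =>
    rw [pow_succ', mul_assoc, mul_assoc]
    exact (sat_cancel hQ hS hsat _).trans (Ideal.mul_mono_right ih)

end lp

theorem gen_gen [IsRegularRing R] {S : Set (Ideal R)} {h : ℕ} (h2 : 2 ≤ h) (hfin : S.Finite)
    (hS : ∀ P ∈ S, P.IsPrime) (hh : ∀ P ∈ S, P.height ≤ (h : ℕ∞)) (I : Ideal R) :
    (∀ t a, (∀ P ∈ S, t ∉ P) → t * a ∈ I → a ∈ I) →
    (∀ P ∈ S, ∀ Q : Ideal R, Q.IsPrime → I ≤ Q → Q < P → Q.height ≠ 0) →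
    ∃ B : ℕ, 2 ≤ B ∧ ∀ n, sat S hS (I ^ (h * (n - n / B))) ≤ I ^ n := by
  induction I using WellFoundedGT.induction with
  | ind I ih =>
  intro hnzd hz
  by_cases H : ∃ Q ∈ I.minimalPrimes, (∃ P ∈ S, Q ≤ P) ∧ Q.height = 1
  · obtain ⟨Q, hQ, ⟨P, hP, hQP⟩, h1⟩ := H
    have := hQ.1.1
    have hlp := lp_one h1
    have hI : I = Q * I.colon Q := le_antisymm (le_mul_colon hlp hQ.1.2)
      (Ideal.mul_le.mpr fun x hx y hy => by
        rw [mul_comm]
        exact Submodule.mem_colon.mp hy x hx)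
    have hle : I ≤ I.colon Q := fun a ha => Submodule.mem_colon.mpr fun y _ =>
      I.mul_mem_right _ ha
    have hlt : I < I.colon Q := lt_of_le_of_ne hle fun he => by
      obtain ⟨r, hr, hr'⟩ := Submodule.exists_sub_one_mem_and_smul_eq_zero_of_fg_of_le_smul Q I
        (IsNoetherian.noetherian _) (by rw [← he] at hI; exact hI.le)
      obtain ⟨Q₀, hQ₀, hQ₀Q⟩ := Ideal.exists_minimalPrimes_le (I := ⊥) (J := Q) bot_le
      have h3 : I ≤ Q₀ := fun a ha => (hQ₀.1.1.mem_or_mem (show r * a ∈ Q₀ by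
        rw [← smul_eq_mul, hr' a ha]; exact Q₀.zero_mem)).resolve_left fun h =>
          this.ne_top ((Ideal.eq_top_iff_one _).mpr (by simpa using Q.sub_mem (hQ₀Q h) hr))
      have := hQ₀.1.1
      rw [le_antisymm (hQ.2 ⟨hQ₀.1.1, h3⟩ hQ₀Q) hQ₀Q, Ideal.height_eq_zero_iff.mpr hQ₀] at h1
      exact zero_ne_one h1
    obtain ⟨B, hB, hB'⟩ := ih _ hlt (fun t a ht ha => Submodule.mem_colon.mpr fun y hy =>
      hnzd t _ ht (by simpa [mul_assoc] using Submodule.mem_colon.mp ha y hy))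
      fun P hP Q' hQ' h3 => hz P hP Q' hQ' (hle.trans h3)
    refine ⟨B, hB, fun n => ?_⟩
    rw [hI, mul_pow, mul_pow]
    refine (sat_cancel_pow hlp hS (fun a ha => ?_) _ _).trans
      (Ideal.mul_mono (Ideal.pow_le_pow_right ?_) (hB' n))
    · obtain ⟨t, ht, h3⟩ := ha P hP
      exact (this.mem_or_mem h3).resolve_left fun h => ht (hQP h)
    · have h3 : n / B ≤ n / 2 := Nat.div_le_div_left hB (by omega)
      exact le_trans (by omega) (Nat.mul_le_mul_right _ h2)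
  · obtain ⟨B, hB, hB'⟩ := gen_all (I := I) (S := {P ∈ S | I ≤ P}) h2 (hfin.subset fun _ h => h.1)
      (fun P hP => hS P hP.1) (fun _ h => h.2) (fun t a ht ha => by
        obtain ⟨t', ht', h3⟩ := avoid hfin hS (Ideal.span {t} ⊔ I) fun P hP hle =>
          ht P ⟨hP, le_sup_right.trans hle⟩
            (hle (Ideal.mem_sup_left (Ideal.mem_span_singleton_self t)))
        refine hnzd t' a h3 ?_
        obtain ⟨c, i, hi, rfl⟩ := Ideal.mem_span_singleton_sup.mp ht'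
        rw [add_mul, mul_assoc]
        exact I.add_mem (I.mul_mem_left _ ha) (I.mul_mem_right _ hi))
      (fun P hP => hh P hP.1) (fun P hP Q hQ hlt => by
        have h3 := hz P hP.1 Q hQ.1.1 hQ.1.2 hlt
        have h4 : Q.height ≠ 1 := fun h => H ⟨Q, hQ, ⟨P, hP.1, hlt.le⟩, h⟩
        exact Order.add_one_le_of_lt (lt_of_le_of_ne (Order.one_le_iff_ne_zero.mpr h3) h4.symm))
    exact ⟨B, hB, fun n r hr => hB' n fun P hP => hr P hP.1⟩

theorem gen_full [IsRegularRing R] (I : Ideal R) {h : ℕ} (h2 : 2 ≤ h)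
    (hh : ∀ P ∈ associatedPrimes R (R ⧸ I), P.height ≤ (h : ℕ∞)) :
    ∃ B : ℕ, 2 ≤ B ∧ ∀ n, sat (associatedPrimes R (R ⧸ I)) (fun _ hP => hP.1)
      (I ^ (h * (n - n / B))) ≤ I ^ n := by
  refine gen_gen h2 (associatedPrimes.finite R (R ⧸ I)) _ hh I (fun t a ht ha => ?_)
    fun P hP Q hQ hIQ hlt h0 => ?_
  · by_contra hna
    have : t ∈ ⋃ p ∈ associatedPrimes R (R ⧸ I), (p : Set R) := by
      rw [biUnion_associatedPrimes_eq_zero_divisors]
      exact ⟨Ideal.Quotient.mk I a, fun h => hna (Ideal.Quotient.eq_zero_iff_mem.mp h),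
        Ideal.Quotient.eq_zero_iff_mem.mpr ha⟩
    obtain ⟨P, hP, hgP⟩ := Set.mem_iUnion₂.mp this
    exact ht P hP hgP
  · have := hP.1
    obtain ⟨K, hK, hKQ, t, ht, h3⟩ := zero_loc hlt.le
    have hQK : Q ≤ K := (Ideal.height_eq_zero_iff.mp h0).2 ⟨hK, bot_le⟩ hKQ
    obtain ⟨-, x, hx⟩ := isAssociatedPrime_iff.mp hP
    obtain ⟨a, rfl⟩ := Ideal.Quotient.mk_surjective x
    have hmem : ∀ y, y ∈ P ↔ y * a ∈ I := fun y => by
      rw [hx, Submodule.mem_colon_singleton, Submodule.mem_bot]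
      exact Ideal.Quotient.eq_zero_iff_mem
    obtain ⟨y, hyP, hyQ⟩ := Set.exists_of_ssubset hlt
    refine ht ((hmem t).mpr ?_)
    rw [h3 a (hQK ((hQ.mem_or_mem (hIQ ((hmem y).mp hyP))).resolve_left hyQ))]
    exact I.zero_mem

lemma ass_subset [IsNoetherianRing R] {I : Ideal R} (hI : I.IsRadical) :
    associatedPrimes R (R ⧸ I) ⊆ I.minimalPrimes := by
  intro P hP
  obtain ⟨hPp, x, hx⟩ := isAssociatedPrime_iff.mp hP
  obtain ⟨a, rfl⟩ := Ideal.Quotient.mk_surjective x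
  have hmem : ∀ y, y ∈ P ↔ y * a ∈ I := fun y => by
    rw [hx, Submodule.mem_colon_singleton, Submodule.mem_bot]
    exact Ideal.Quotient.eq_zero_iff_mem
  have ha : a ∉ sInf I.minimalPrimes := fun ha => hPp.ne_top ((Ideal.eq_top_iff_one _).mpr
    ((hmem 1).mpr (by rwa [Ideal.sInf_minimalPrimes, hI.radical, ← one_mul a] at ha)))
  rw [Ideal.mem_sInf] at ha
  push Not at ha
  obtain ⟨Q, hQ, haQ⟩ := ha
  have hPQ : P ≤ Q := fun y hy => (hQ.1.1.mem_or_mem (hQ.1.2 ((hmem y).mp hy))).resolve_right haQ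
  rwa [le_antisymm hPQ (hQ.2 ⟨hPp, fun y hy => (hmem y).mpr (I.mul_mem_right _ hy)⟩ hPQ)]

end Pool.Agent.P.MP_fcbc4b_ag
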