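import Pool.Agent.P.MP_fcbc4b_ag.AGlob

/-! The containment theorem from the data at a finite set of primes. -/

set_option autoImplicit false

namespace Pool.Agent.P.MP_fcbc4b_ag

open IsLocalRing Polynomial

variable {R : Type} [CommRing R] [IsRegularRing R] {I : Ideal R} {S : Set (Ideal R)} {h c : ℕ}
  (d : Data I S h c)
include d

theorem fin_step' (k a₁ a₂ n m : ℕ) (hk : 1 ≤ k) (hm : 1 ≤ m) (hα : h * (k * a₁ + a₂) ≤ m)
    (hc : (sat S d.prime (I ^ (h * k - h + 1)) ⊓ I ^ k) ^ a₁ * I ^ a₂ ≤ I ^ n) : sat S d.prime (I ^ m) ≤ I ^ n := by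
  intro u hu
  by_contra hu'
  have hne : (I ^ n).colon {u} ≠ ⊤ := fun h => hu' (by
    have : (1 : R) ∈ (I ^ n).colon {u} := by rw [h]; trivial
    simpa using this)
  obtain ⟨𝔪, h𝔪, hle⟩ := Ideal.exists_le_maximal _ hne
  set A := Localization.AtPrime 𝔪
  set ι := algebraMap R A with hι
  obtain ⟨r, hr⟩ : ∃ r, ι u ∉ maximalIdeal A ^ r := by
    by_contra hcon
    push Not at hcon
    obtain ⟨t, ht⟩ := (IsLocalization.map_eq_zero_iff 𝔪.primeCompl A u).mp
      (krull_sup ⊥ (ι u) fun n => by simpa using hcon n)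
    exact t.2 (hle (by simp [ht]))
  set α := k * a₁ + a₂ with hα'
  set D := α * (c + 1) * r + 1 with hD
  obtain ⟨B, _, φ, σ, H⟩ := exists_big A D (by omega)
  set z := σ (ι u) with hz
  set j := (h * D + c) / m + 1 with hj
  have hj' : h * D + c < m * j := Nat.lt_mul_div_succ _ hm
  have h1 : z ^ j ∈ cl φ ((I.map ι).map φ) :=
    root_mem' 𝔪.primeCompl H d (by omega) hu j hj'
  have h2 : z ^ (j * k) ∈ cl φ (((sat S d.prime (I ^ (h * k - h + 1)) ⊓ I ^ k).map ι).map φ) := by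
    rw [IsLocalization.map_inf 𝔪.primeCompl]
    refine H.inf_cl _ _ (root_mem_sat 𝔪.primeCompl H d (by omega) hu _ _ ?_) ?_
    · rw [Nat.add_sub_cancel' (Nat.le_mul_of_pos_right h hk), ← mul_assoc, mul_right_comm]
      have h2 := Nat.mul_lt_mul_of_pos_right hj' hk
      have h3 : c ≤ c * k := Nat.le_mul_of_pos_right c hk
      rw [add_mul] at h2
      omega
    · rw [Ideal.map_pow, Ideal.map_pow, pow_mul]
      exact cl_pow h1 k
  have h3 : z ^ (j * α) ∈ cl φ (((I ^ n).map ι).map φ) := by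
    have := cl_mul (cl_pow h2 a₁) (cl_pow h1 a₂)
    rw [← pow_mul, ← pow_mul, ← pow_add, ← Ideal.map_pow, ← Ideal.map_pow, ← Ideal.map_pow,
      ← Ideal.map_pow, ← Ideal.map_mul, ← Ideal.map_mul, mul_assoc, ← mul_add] at this
    exact cl_mono (Ideal.map_mono (Ideal.map_mono hc)) this
  have h4 : j * α ≤ D + α * (c + 1) := by
    rw [hj, add_mul, one_mul, mul_add α, mul_one, ← add_assoc D, Nat.add_le_add_iff_right]
    apply Nat.le_of_mul_le_mul_left _ hm
    calc m * ((h * D + c) / m * α) = m * ((h * D + c) / m) * α := by ring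
      _ ≤ (h * D + c) * α := Nat.mul_le_mul_right _ (Nat.mul_div_le _ _)
      _ = h * α * D + 1 * (α * c) := by ring
      _ ≤ m * D + m * (α * c) := by gcongr
      _ = m * (D + α * c) := by ring
  obtain ⟨e, he⟩ := Nat.exists_eq_add_of_le h4
  have h5 : z ^ (α * (c + 1)) ∈ (maximalIdeal A).map φ := by
    refine cl_le_max (Ideal.map_mono ((colon_map_loc 𝔪.primeCompl A _ u).trans ?_))
      (H.colon_cl ((I ^ n).map ι) (ι u) _ ?_)
    · rw [← Localization.AtPrime.map_eq_maximalIdeal]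
      exact Ideal.map_mono hle
    · rw [← H.root, ← pow_add, he, pow_add]
      exact Ideal.mul_mem_right _ _ h3
  refine hr (H.mem_of_cl _ _ (le_cl _ ?_))
  rw [← H.root, hD, pow_succ, pow_mul, Ideal.map_pow]
  exact Ideal.mul_mem_right _ _ (Ideal.pow_mem_pow h5 r)

theorem key_claim' (h2 : 2 ≤ h) (𝔮 : Ideal R) [𝔮.IsPrime] (C : ℕ) :
    ∀ᶠ k in Filter.atTop, ∀ u ∈ sat S d.prime (I ^ (h * k - h + 1)) ⊓ I ^ k, ∃ (n' n β : ℕ) (s : R), s ∉ 𝔮 ∧
      k * n' + 1 ≤ n + β ∧ s * u ^ n' ∈ I ^ (k * n' + 1) ⊔ 𝔮 ^ (C * β) * I ^ n := by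
  classical
  have hS' : ∀ P ∈ {P ∈ S | P.height = (h : ℕ∞)}, P.IsPrime := fun P hP => d.prime P hP.1
  set J : Ideal R := sat _ hS' I with hJ
  set A := Localization.AtPrime 𝔮
  set ι := algebraMap R A with hι
  obtain ⟨c₁, c₂, hc₁, H2⟩ := two_step A (J.map ι) (by
    intro P hP hle
    obtain ⟨P', hP', h1⟩ := sat_le_prime (d.fin.subset fun _ h => h.1) hS' (hP.comap ι)
      (Ideal.map_le_iff_le_comap.mp hle)
    have : 2 ≤ (P.under R).height := d.two P' hP'.1 hP'.2 _ (hP.comap ι) h1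
    rwa [IsLocalization.height_under 𝔮.primeCompl] at this)
  obtain ⟨c₃, H3⟩ := key_big (I.map ι)
  obtain ⟨h', rfl⟩ : ∃ h', h = h' + 1 := ⟨h - 1, by omega⟩
  set c₄ := c₃ * (1 + c₂ * C) with hc₄
  set b := (1 + c₁ * h') * c₄ + 1 with hb
  filter_upwards [Filter.eventually_ge_atTop b, Filter.eventually_gt_atTop c] with k hk hkc u hu
  obtain ⟨k', rfl⟩ : ∃ k', k = k' + 1 := ⟨k - 1, by omega⟩
  have hm₀ : (h' + 1) * (k' + 1) - (h' + 1) + 1 = (h' + 1) * k' + 1 := by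
    rw [mul_add, mul_one, Nat.add_sub_cancel]
  rw [hm₀] at hu
  set k := k' + 1 with hk'
  set m := (h' + 1) * k' + 1 with hm
  set D := c₁ * (m * k) with hD
  have hkm : k ≤ m := by rw [hm, hk']; nlinarith
  have hk1 : 1 ≤ k := by omega
  have hq : 1 ≤ m * k := Nat.mul_pos (by omega) hk1
  have hD1 : 1 ≤ D := Nat.mul_pos hc₁ hq
  have hbk : b ≤ c₁ * k := hk.trans (Nat.le_mul_of_pos_left _ hc₁)
  obtain ⟨j, hj⟩ : ∃ j, c₁ * k + 1 = b + j := Nat.exists_eq_add_of_le (by omega)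
  obtain ⟨B, _, φ, σ, H⟩ := exists_big A D hD1
  obtain ⟨E, hE, H4⟩ := H2 (m * k) (m * b) hq (by gcongr) B φ σ H
  set z := σ (ι u) with hz
  have hT : (h' + 1) * D + c < m * (h' * c₁ * k + j) + m * b := by
    rw [← mul_add, add_assoc, add_comm j, ← hj, hD]
    nlinarith
  have h3 := H3 B φ σ D H (z ^ (h' * c₁ * k + j)) (z ^ b) ((fun γ => σ γ ^ (m * b)) '' (J.map ι))
    (Ideal.span {z ^ b} ⊔ E)
    (by
      rw [← pow_add]
      exact root_mem' 𝔮.primeCompl H d hD1 hu.1 _ (by rwa [mul_add m]))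
    (by
      rintro _ ⟨γ, hγ, rfl⟩
      refine root_mul_mem' 𝔮.primeCompl H d hD1 hu.1 _ _ hT ?_ γ fun P hP hP' => ?_
      · have : 1 ≤ j := by omega
        rw [Nat.add_sub_cancel, hD]
        nlinarith
      · obtain ⟨s, hs, hs'⟩ := sat_mul (I := I) hS' (P := P) ⟨hP, hP'⟩
        have hle : Ideal.span {s} * J ≤ I := by
          intro y hy
          obtain ⟨y', hy', rfl⟩ := Ideal.mem_span_singleton_mul.mp hy
          exact hs' y' hy'
        refine ⟨s, hs, Ideal.map_mono hle ?_⟩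
        rw [Ideal.map_mul]
        exact Ideal.mul_mem_mul (Ideal.mem_map_of_mem _ (Ideal.mem_span_singleton_self s)) hγ)
    (fun r hr => H4 r _ fun γ hγ => hr _ ⟨γ, hγ, rfl⟩)
  set T := h' * c₁ * k + j + b with hT'
  have h4 := cl_pow h3 (D + c₂ * (C * D))
  have h5 : φ (ι (u ^ (T * c₄))) ∈
      cl φ ((((I ^ (k * b) ⊔ 𝔮 ^ (C * D)) * I ^ (D * c₄)).map ι).map φ) := by
    rw [← pow_add, ← pow_mul, ← pow_mul, show T * (c₃ * (D + c₂ * (C * D))) = D * (T * c₄) by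
      rw [hc₄]; ring, pow_mul, H.root, ← map_pow, ← map_pow, mul_pow, ← pow_mul,
      show c₃ * (D + c₂ * (C * D)) = D * c₄ by rw [hc₄]; ring] at h4
    refine cl_mono ?_ h4
    rw [Ideal.map_mul, Ideal.map_mul, Ideal.map_sup, Ideal.map_sup, Ideal.map_pow, Ideal.map_pow,
      Ideal.map_pow, Ideal.map_pow, Ideal.map_pow, Ideal.map_pow]
    refine Ideal.mul_mono_left (Ideal.sup_pow_add_le_pow_sup_pow.trans (sup_le_sup ?_ ?_))
    · rw [Ideal.span_singleton_pow, Ideal.span_singleton_le_iff_mem, ← pow_mul, mul_comm b,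
        pow_mul z, H.root, pow_mul, ← Ideal.map_pow φ _ k, ← Ideal.map_pow ι]
      exact Ideal.pow_mem_pow (Ideal.mem_map_of_mem φ (Ideal.mem_map_of_mem ι hu.2)) _
    · rw [pow_mul, Localization.AtPrime.map_eq_maximalIdeal]
      exact Ideal.pow_right_mono hE _
  obtain ⟨s, hs, h6⟩ := (IsLocalization.algebraMap_mem_map_algebraMap_iff 𝔮.primeCompl _ _ _).mp
    (H.mem_of_cl _ _ h5)
  have hkT : k * (T * c₄) + k = k * b + D * c₄ := by
    have e1 : T = h' * c₁ * k + (c₁ * k + 1) := by rw [hT', hj]; ring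
    rw [e1, hD, hb, hm, hk']
    ring
  refine ⟨T * c₄, D * c₄, D, s, hs, ?_, ?_⟩
  · have : k * b ≤ D := by
      rw [hD, mul_comm m, mul_left_comm]
      gcongr
      exact hk.trans (hkm.trans (Nat.le_mul_of_pos_left _ hc₁))
    omega
  · rw [Ideal.sup_mul, ← pow_add] at h6
    have h7 : I ^ (k * b + D * c₄) ≤ I ^ (k * (T * c₄) + 1) := Ideal.pow_le_pow_right (by omega)
    exact SetLike.le_def.mp (sup_le_sup_right h7 _) h6

theorem gen_two' (h2 : 2 ≤ h) :
    ∃ B : ℕ, 2 ≤ B ∧ ∀ n, sat S d.prime (I ^ (h * (n - n / B))) ≤ I ^ n := by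
  obtain ⟨k, N, hk, hN⟩ := rees_step' I (fun k => sat S d.prime (I ^ (h * k - h + 1)) ⊓ I ^ k)
    (fun k => inf_le_right) (fun 𝔓 h𝔓 => by
      obtain ⟨C, hC⟩ := rees_val I 𝔓 h𝔓
      have := h𝔓.1.1
      filter_upwards [key_claim' d h2 (𝔓.comap (algebraMap R (reesAlgebra I))) C] with k hk u hu
      obtain ⟨n', n, β, s, h1, h3, h4⟩ := hk u hu
      exact hC k u hu.2 n' n β s h1 h3 h4)
  set B := k * (N + 1) + 1 with hB
  have hB2 : 2 ≤ B := by
    have : 0 < k * (N + 1) := Nat.mul_pos hk (Nat.succ_pos N)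
    omega
  refine ⟨B, hB2, fun n => ?_⟩
  rcases Nat.eq_zero_or_pos n with rfl | hn
  · simp
  have hdm := Nat.div_add_mod n B
  refine fin_step' d k ((N + 1) * (n / B)) (n % B) n _ hk ?_ ?_ ?_
  · have : n / B < n := Nat.div_lt_self hn (by omega)
    exact Nat.mul_pos (by omega) (by omega)
  · have : n - n / B = k * ((N + 1) * (n / B)) + n % B := by
      apply Nat.sub_eq_of_eq_add
      rw [← hdm]
      conv_rhs => rw [hdm]
      rw [hB]; ring
    rw [this]
  · rw [pow_mul]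
    refine (Ideal.mul_mono_left (Ideal.pow_right_mono hN _)).trans ?_
    rw [← pow_mul, ← pow_add, hdm]

end Pool.Agent.P.MP_fcbc4b_ag
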