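import Pool.Agent.P.MP_fcbc4b_ag.Final

/-! Symbolic powers with respect to a finite set of primes, in big algebras. -/

set_option autoImplicit false

namespace Pool.Agent.P.MP_fcbc4b_ag

open IsLocalRing

section general

variable {R : Type} [CommRing R]

/-- The elements that lie in `K` locally at every prime of `S`. -/
def sat (S : Set (Ideal R)) (hS : ∀ P ∈ S, P.IsPrime) (K : Ideal R) : Ideal R where
  carrier := {r | ∀ P ∈ S, ∃ t : R, t ∉ P ∧ t * r ∈ K}
  zero_mem' := fun P hP => ⟨1, (Ideal.ne_top_iff_one _).mp (hS P hP).ne_top, by simp⟩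
  add_mem' := by
    intro a b ha hb P hP
    obtain ⟨s, hs, h1⟩ := ha P hP
    obtain ⟨t, ht, h2⟩ := hb P hP
    refine ⟨s * t, fun h => ((hS P hP).mem_or_mem h).elim hs ht, ?_⟩
    have : s * t * (a + b) = t * (s * a) + s * (t * b) := by ring
    rw [this]
    exact Ideal.add_mem _ (Ideal.mul_mem_left _ _ h1) (Ideal.mul_mem_left _ _ h2)
  smul_mem' := by
    intro c a ha P hP
    obtain ⟨s, hs, h1⟩ := ha P hP
    refine ⟨s, hs, ?_⟩
    rw [smul_eq_mul, mul_left_comm]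
    exact Ideal.mul_mem_left _ _ h1

variable {S : Set (Ideal R)} {hS : ∀ P ∈ S, P.IsPrime}

lemma le_sat (K : Ideal R) : K ≤ sat S hS K := fun r hr P hP =>
  ⟨1, (Ideal.ne_top_iff_one _).mp (hS P hP).ne_top, by simpa using hr⟩

lemma sat_nzd {K : Ideal R} {t a : R} (ht : ∀ P ∈ S, t ∉ P) (h : t * a ∈ K) : a ∈ sat S hS K :=
  fun P hP => ⟨t, ht P hP, h⟩

/-- The data used in the containment theorem. -/
structure Data (I : Ideal R) (S : Set (Ideal R)) (h c : ℕ) : Prop where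
  fin : S.Finite
  prime : ∀ P ∈ S, P.IsPrime
  nzd : ∀ t a, (∀ P ∈ S, t ∉ P) → t * a ∈ I → a ∈ I
  ht : ∀ P ∈ S, P.height ≤ (h : ℕ∞)
  red : ∀ P ∈ S, ∃ (s : R) (n : ℕ) (x : Fin n → R), s ∉ P ∧ (n : ℕ∞) ≤ P.height ∧
    (∀ i, x i ∈ I) ∧ ∀ M, Ideal.span {s ^ M} * I ^ (M + c) ≤ Ideal.span (Set.range x) ^ M
  two : ∀ P ∈ S, P.height = (h : ℕ∞) → ∀ Q : Ideal R, Q.IsPrime →
    (∀ t a, t ∉ P → t * a ∈ I → a ∈ Q) → 2 ≤ Q.height

end general

variable {R : Type} [CommRing R] [IsNoetherianRing R] {I : Ideal R} {S : Set (Ideal R)} {h c : ℕ}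

lemma sat_mul (hS : ∀ P ∈ S, P.IsPrime) {P : Ideal R} (hP : P ∈ S) :
    ∃ s, s ∉ P ∧ ∀ y ∈ sat S hS I, s * y ∈ I := by
  have := hS P hP
  refine exists_mul_le_of_loc P _ I (IsNoetherian.noetherian _) ?_
  rw [Ideal.map_le_iff_le_comap]
  intro y hy
  obtain ⟨t, ht, h⟩ := hy P hP
  exact (IsLocalization.algebraMap_mem_map_algebraMap_iff P.primeCompl _ _ _).mpr ⟨t, ht, h⟩

omit [IsNoetherianRing R] in
lemma sat_le_prime (hfin : S.Finite) (hS : ∀ P ∈ S, P.IsPrime) {Q : Ideal R} (hQ : Q.IsPrime)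
    (h : sat S hS I ≤ Q) : ∃ P ∈ S, ∀ t a, t ∉ P → t * a ∈ I → a ∈ Q := by
  classical
  by_contra hcon
  push Not at hcon
  choose! t a ht ha haQ using hcon
  have h1 : ∏ P ∈ hfin.toFinset, a P ∈ sat S hS I := fun P hP => ⟨t P, ht P hP, by
    rw [← Finset.mul_prod_erase _ a (hfin.mem_toFinset.mpr hP), ← mul_assoc]
    exact Ideal.mul_mem_right _ _ (ha P hP)⟩
  obtain ⟨P, hP, h2⟩ := hQ.prod_mem_iff.mp (h h1)
  exact haQ P (hfin.mem_toFinset.mp hP) h2

variable {A B : Type} [CommRing A] [IsLocalRing A] [CommRing B] {φ : A →+* B} {σ : A → B} {D : ℕ}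

omit [IsNoetherianRing R] in
lemma bs_at' (H : IsBig D φ σ) (hD : 1 ≤ D) (ι : R →+* A) (d : Data I S h c) {P : Ideal R}
    (hP : P ∈ S) (h' : ℕ) (hh : P.height ≤ (h' : ℕ∞)) {m : ℕ} {u : R}
    (hu : u ∈ sat S d.prime (I ^ m)) (j l k : ℕ) {γ : A} {s' : R} (hs' : s' ∉ P)
    (hγ : ι s' * γ ∈ I.map ι) (hM : (h' + k) * D + c < m * j + l) :
    ∃ s, s ∉ P ∧ φ (ι s) * (σ (ι u) ^ j * σ γ ^ l) ∈ cl φ (((I ^ (k + 1)).map ι).map φ) := by
  obtain ⟨s, n, x, hs, hn, hx, hsx⟩ := d.red P hP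
  have hn' : n ≤ h' := by exact_mod_cast hn.trans hh
  obtain ⟨t, ht, htu⟩ := hu P hP
  have hPp := d.prime P hP
  obtain ⟨M, hMe⟩ : ∃ M, m * j + l = M + c := ⟨m * j + l - c, by omega⟩
  refine ⟨s ^ M * (t ^ j * s' ^ l), fun h1 => ?_, mem_cl.mpr fun N => ?_⟩
  · rcases hPp.mem_or_mem h1 with h1 | h1
    · exact hs (hPp.mem_of_pow_mem _ h1)
    · exact (hPp.mem_or_mem h1).elim (fun h1 => ht (hPp.mem_of_pow_mem _ h1))
        fun h1 => hs' (hPp.mem_of_pow_mem _ h1)
  set s₁ := s ^ M * (t ^ j * s' ^ l) with hs₁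
  have hX : Ideal.span (Set.range fun i => ι (x i)) = (Ideal.span (Set.range x)).map ι := by
    rw [Ideal.map_span, ← Set.range_comp]; rfl
  have h1 := H.bs n (fun i => ι (x i))
    (ι s₁ ::ₘ (Multiset.replicate j (ι u) + Multiset.replicate l γ)) M k D N (by
      have h4 := Ideal.mem_map_of_mem ι htu
      rw [Ideal.map_pow] at h4
      have h5 : ι (t * u) ^ j * (ι s' * γ) ^ l ∈ (I ^ (M + c)).map ι := by
        rw [← hMe, Ideal.map_pow, pow_add, pow_mul]
        exact Ideal.mul_mem_mul (Ideal.pow_mem_pow h4 j) (Ideal.pow_mem_pow hγ l)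
      have h6 := Ideal.mul_mem_mul
        (Ideal.mem_map_of_mem ι (Ideal.mem_span_singleton_self (s ^ M))) h5
      rw [← Ideal.map_mul] at h6
      have h7 := Ideal.map_mono (f := ι) (hsx M) h6
      have e : (ι s₁ ::ₘ (Multiset.replicate j (ι u) + Multiset.replicate l γ)).prod =
          ι (s ^ M) * (ι (t * u) ^ j * (ι s' * γ) ^ l) := by
        simp only [Multiset.prod_cons, Multiset.prod_add, Multiset.prod_replicate, hs₁, map_mul,
          map_pow]
        ring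
      rw [hX, ← Ideal.map_pow, e]
      exact h7) (by
      have : (n + k) * D ≤ (h' + k) * D := by gcongr
      omega)
  simp only [Multiset.map_cons, Multiset.map_add, Multiset.map_replicate, Multiset.prod_cons,
    Multiset.prod_add, Multiset.prod_replicate] at h1
  obtain ⟨D', rfl⟩ : ∃ D', D = D' + 1 := ⟨D - 1, by omega⟩
  rw [← H.root, pow_succ (σ _), mul_assoc]
  refine Ideal.mul_mem_left _ _ (SetLike.le_def.mp (sup_le_sup_right ?_ _) h1)
  rw [Ideal.map_pow, Ideal.map_pow]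
  refine Ideal.pow_right_mono (Ideal.span_le.mpr ?_) _
  rintro _ ⟨i, rfl⟩
  simp only [H.root]
  exact Ideal.mem_map_of_mem _ (Ideal.mem_map_of_mem _ (hx i))

variable [IsNoetherianRing A] [Algebra R A] (M : Submonoid R) [IsLocalization M A]
  (H : IsBig D φ σ) (d : Data I S h c)
include M H d
omit [IsNoetherianRing R]

lemma remove_s' (K K' : Ideal R) (hK : ∀ t a, (∀ P ∈ S, t ∉ P) → t * a ∈ K → a ∈ K')
    (w : B) (hw : ∀ P ∈ S, ∃ s, s ∉ P ∧
      φ (algebraMap R A s) * w ∈ cl φ ((K.map (algebraMap R A)).map φ)) :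
    w ∈ cl φ ((K'.map (algebraMap R A)).map φ) := by
  obtain ⟨t, ht, h1⟩ := avoid d.fin d.prime
    (((cl φ ((K.map (algebraMap R A)).map φ)).colon {w}).comap
      (φ.comp (algebraMap R A))) (by
      intro P hP hle
      obtain ⟨t, ht, h1⟩ := hw P hP
      exact ht (hle (by simpa using h1)))
  refine cl_mono (Ideal.map_mono ((colon_map_loc M A K t).trans (Ideal.map_mono fun a ha => ?_)))
    (H.colon_cl _ _ _ (by simpa using ht))
  exact hK t a h1 (by rw [mul_comm]; simpa using ha)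

variable (hD : 1 ≤ D) {m : ℕ} {u : R} (hu : u ∈ sat S d.prime (I ^ m))
include hD hu

omit M [IsNoetherianRing A] [IsLocalization M A] in
lemma root_at {P : Ideal R} (hP : P ∈ S) (h' : ℕ) (hh : P.height ≤ (h' : ℕ∞)) (j k : ℕ)
    (hM : (h' + k) * D + c < m * j) : ∃ s, s ∉ P ∧ φ (algebraMap R A s) *
      σ (algebraMap R A u) ^ j ∈ cl φ (((I ^ (k + 1)).map (algebraMap R A)).map φ) := by
  simpa using bs_at' H hD (algebraMap R A) d hP h' hh hu j 0 k (γ := 0) (s' := 1)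
    ((Ideal.ne_top_iff_one _).mp (d.prime P hP).ne_top) (by simp) (by simpa using hM)

lemma root_mem' (j : ℕ) (hM : h * D + c < m * j) :
    σ (algebraMap R A u) ^ j ∈ cl φ ((I.map (algebraMap R A)).map φ) := by
  refine remove_s' M H d I I d.nzd _ fun P hP => ?_
  simpa using root_at H d hD hu hP h (d.ht P hP) j 0 (by simpa using hM)

lemma root_mem_sat (j k : ℕ) (hM : (h + k) * D + c < m * j) :
    σ (algebraMap R A u) ^ j ∈
      cl φ (((sat S d.prime (I ^ (k + 1))).map (algebraMap R A)).map φ) :=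
  remove_s' M H d (I ^ (k + 1)) _ (fun _ _ ht ha => sat_nzd ht ha) _
    fun P hP => root_at H d hD hu hP h (d.ht P hP) j k hM

lemma root_mul_mem' (j l : ℕ) (hM : h * D + c < m * j + l) (hM' : (h - 1) * D + c < m * j) (γ : A)
    (hγ : ∀ P ∈ S, P.height = (h : ℕ∞) →
      ∃ s, s ∉ P ∧ algebraMap R A s * γ ∈ I.map (algebraMap R A)) :
    σ (algebraMap R A u) ^ j * σ γ ^ l ∈ cl φ ((I.map (algebraMap R A)).map φ) := by
  refine remove_s' M H d I I d.nzd _ fun P hP => ?_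
  by_cases hP' : P.height = (h : ℕ∞)
  · obtain ⟨s, hs, hs'⟩ := hγ P hP hP'
    simpa using bs_at' H hD (algebraMap R A) d hP h (d.ht P hP) hu j l 0 hs hs'
      (by simpa using hM)
  · have hle : P.height ≤ ((h - 1 : ℕ) : ℕ∞) := by
      have := lt_of_le_of_ne (d.ht P hP) hP'
      cases h with
      | zero => simp at this
      | succ h =>
        rw [Nat.cast_add, Nat.cast_one] at this
        exact Order.le_of_lt_add_one this
    obtain ⟨s, hs, h1⟩ := root_at H d hD hu hP _ hle j 0 (by simpa using hM')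
    refine ⟨s, hs, ?_⟩
    rw [← mul_assoc]
    exact Ideal.mul_mem_right _ _ (by simpa using h1)

end Pool.Agent.P.MP_fcbc4b_ag
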