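import Mathlib

/-! Reductions generated by `dim A` elements over an infinite residue field. -/

set_option autoImplicit false

namespace Pool.Agent.P.MP_fcbc4b_ag

open IsLocalRing MvPolynomial

variable {A : Type} [CommRing A] {σ : Type}

section chain

variable [DecidableEq σ] (g : σ → A) (o : σ)

/-- The substitution of `g j * X o` for the variables in `insert o s`. -/
noncomputable def subs (s : Finset σ) : MvPolynomial σ A →ₐ[A] MvPolynomial σ A :=
  aeval fun j => if j = o ∨ j ∈ s then C (g j) * X o else X j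

lemma subs_height [IsDomain A] (hg : g o ≠ 0) (s : Finset σ) (hs : o ∉ s) :
    (s.card : ℕ∞) ≤ (RingHom.ker (subs g o s)).height := by
  induction s using Finset.induction_on with
  | empty => simp
  | insert j s hj ih =>
    have hjo : j ≠ o := fun h => hs (h ▸ Finset.mem_insert_self _ _)
    have h1 := ih fun h => hs (Finset.mem_insert_of_mem h)
    have := RingHom.ker_isPrime (subs g o s)
    have := RingHom.ker_isPrime (subs g o (insert j s))
    have e : subs g o (insert j s) =
        (aeval fun l => if l = j then C (g j) * X o else X l).comp (subs g o s) := by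
      ext1 l
      by_cases h1 : l = o ∨ l ∈ s
      · have h2 : l = o ∨ l ∈ insert j s := h1.imp id Finset.mem_insert_of_mem
        simp [subs, h1, h2, hjo.symm, -Finset.mem_insert]
      · by_cases h2 : l = j
        · subst h2
          simp [subs, h1]
        · have h3 : ¬(l = o ∨ l ∈ insert j s) := by
            rw [Finset.mem_insert]
            tauto
          simp [subs, h1, h2, h3, -Finset.mem_insert]
    have hlt : RingHom.ker (subs g o s) < RingHom.ker (subs g o (insert j s)) := by
      refine lt_of_le_of_ne (fun f hf => ?_) fun h => ?_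
      · rw [RingHom.mem_ker] at hf ⊢
        rw [e, AlgHom.comp_apply, hf, map_zero]
      · have h2 : C (g o) * X j - C (g j) * X o ∈ RingHom.ker (subs g o (insert j s)) := by
          rw [RingHom.mem_ker]
          simp [subs]
          ring
        rw [← h, RingHom.mem_ker] at h2
        have h3 := congrArg (coeff (Finsupp.single j 1)) h2
        have h4 : Finsupp.single o 1 ≠ Finsupp.single j 1 := fun h =>
          hjo (Finsupp.single_left_injective one_ne_zero h).symm
        simp [subs, hjo, hj, coeff_X, h4, hg] at h3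
    rw [Finset.card_insert_of_notMem hj, Nat.cast_succ]
    exact (add_le_add_left h1 1).trans (Ideal.height_add_one_le_of_lt_of_isPrime hlt)

end chain

variable [IsLocalRing A] [Fintype σ]

lemma avoid_lin [Infinite (ResidueField A)] (T : Set (Ideal (MvPolynomial σ A))) (hT : T.Finite)
    (h1 : ∀ p ∈ T, ∀ a ∈ maximalIdeal A, C a ∈ p) (h2 : ∀ p ∈ T, ∃ j, X j ∉ p) :
    ∃ a : σ → A, ∀ p ∈ T, ∑ j, C (a j) * X j ∉ p := by
  classical
  let V : Ideal (MvPolynomial σ A) → Submodule (ResidueField A) (σ → ResidueField A) := fun p =>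
    { carrier := {v | ∃ a : σ → A, (∀ j, residue A (a j) = v j) ∧ ∑ j, C (a j) * X j ∈ p}
      zero_mem' := ⟨0, by simp, by simp⟩
      add_mem' := by
        rintro v w ⟨a, ha, ha'⟩ ⟨b, hb, hb'⟩
        refine ⟨a + b, fun j => by simp [ha, hb], ?_⟩
        simpa [add_mul, Finset.sum_add_distrib] using add_mem ha' hb'
      smul_mem' := by
        rintro r v ⟨a, ha, ha'⟩
        obtain ⟨r, rfl⟩ := residue_surjective r
        refine ⟨fun j => r * a j, fun j => by simp [ha], ?_⟩
        simpa [Finset.mul_sum, mul_assoc] using p.mul_mem_left (C r) ha' }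
  have hV : ⊤ ∉ hT.toFinset.image V := by
    intro h
    obtain ⟨p, hp, e⟩ := Finset.mem_image.mp h
    rw [hT.mem_toFinset] at hp
    obtain ⟨j, hj⟩ := h2 p hp
    obtain ⟨a, ha, ha'⟩ : Pi.single j 1 ∈ V p := by rw [e]; trivial
    refine hj ?_
    have e1 : (X j : MvPolynomial σ A) =
        ∑ l, C (a l) * X l - ∑ l, C (a l - (Pi.single j 1 : σ → A) l) * X l := by
      rw [← Finset.sum_sub_distrib, Finset.sum_eq_single j]
      · simp [sub_mul]
      · intro l _ hl
        simp [hl]
      · simp
    rw [e1]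
    refine sub_mem ha' (sum_mem fun l _ => Ideal.mul_mem_right _ _ (h1 p hp _ ?_))
    rw [← residue_eq_zero_iff, map_sub, ha]
    by_cases hl : l = j
    · subst hl
      simp
    · simp [hl]
  obtain ⟨v, hv⟩ := (Set.ne_univ_iff_exists_notMem _).mp
    (Subspace.biUnion_ne_univ_of_top_notMem hV)
  choose a ha using fun j => residue_surjective (v j)
  refine ⟨a, fun p hp h => hv ?_⟩
  exact Set.mem_iUnion₂.mpr ⟨V p, Finset.mem_image_of_mem V (hT.mem_toFinset.mpr hp), a, ha, h⟩

lemma exists_forms [IsNoetherianRing A] [Infinite (ResidueField A)] (K : Ideal (MvPolynomial σ A))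
    (hK : ∀ a ∈ maximalIdeal A, C a ∈ K) (b : ℕ)
    (hb : ∀ p : Ideal (MvPolynomial σ A), p.IsPrime → K ≤ p → (b : ℕ∞) ≤ p.height) (i : ℕ) :
    ∃ a : Fin i → σ → A, ∀ p : Ideal (MvPolynomial σ A), p.IsPrime → K ≤ p →
      (∀ l, ∑ j, C (a l j) * X j ∈ p) → (∃ j, X j ∉ p) → ((b + i : ℕ) : ℕ∞) ≤ p.height := by
  induction i with
  | zero => exact ⟨fun l => l.elim0, fun p hp h _ _ => hb p hp h⟩
  | succ i ih =>
    obtain ⟨a, ha⟩ := ih
    let L := K ⊔ Ideal.span (Set.range fun l => ∑ j, C (a l j) * X j)
    obtain ⟨a', ha'⟩ := avoid_lin {p | p ∈ L.minimalPrimes ∧ ∃ j, X j ∉ p}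
      ((Ideal.finite_minimalPrimes_of_isNoetherianRing _ L).subset fun p hp => hp.1)
      (fun p hp x hx => hp.1.1.2 (Ideal.mem_sup_left (hK x hx))) fun p hp => hp.2
    refine ⟨Fin.cons a' a, fun p hp h1 h2 ⟨j, hj⟩ => ?_⟩
    have hL : L ≤ p := sup_le h1 (Ideal.span_le.mpr (by
      rintro _ ⟨l, rfl⟩
      exact h2 l.succ))
    obtain ⟨q, hq, hqp⟩ := Ideal.exists_minimalPrimes_le hL
    have hq' := hq.1.1
    have h3 : ∃ j, X j ∉ q := ⟨j, fun h => hj (hqp h)⟩
    have h4 := ha q hq' (le_sup_left.trans hq.1.2)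
      (fun l => hq.1.2 (Ideal.mem_sup_right (Ideal.subset_span ⟨l, rfl⟩))) h3
    have hlt : q < p := lt_of_le_of_ne hqp fun e => ha' q ⟨hq, h3⟩ (e ▸ h2 0)
    rw [← add_assoc, Nat.cast_succ]
    exact (add_le_add_left h4 1).trans (Ideal.height_add_one_le_of_lt_of_isPrime hlt)

omit [Fintype σ] in
theorem exists_reduction [IsNoetherianRing A] [IsDomain A] [Infinite (ResidueField A)] {d : ℕ}
    (hd : ringKrullDim A = d) (I : Ideal A) (hI : I ≤ maximalIdeal A) :
    ∃ (x : Fin d → A) (c : ℕ), (∀ i, x i ∈ I) ∧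
      I ^ (c + 1) ≤ Ideal.span (Set.range x) * I ^ c := by
  classical
  by_cases h0 : I = ⊥
  · exact ⟨0, 0, fun _ => zero_mem _, by simp [h0]⟩
  obtain ⟨n, g, hg⟩ :=
    Submodule.fg_iff_exists_fin_generating_family.mp (IsNoetherian.noetherian I)
  have hgI : ∀ j, g j ∈ I := fun j => hg ▸ Submodule.subset_span ⟨j, rfl⟩
  obtain ⟨o, ho⟩ : ∃ o, g o ≠ 0 := by
    by_contra h
    push Not at h
    refine h0 (hg.symm.trans (Submodule.span_eq_bot.mpr ?_))
    rintro _ ⟨j, rfl⟩
    exact h j
  let K₀ := RingHom.ker (subs g o (Finset.univ.erase o))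
  have hK₀ : K₀.IsPrime := RingHom.ker_isPrime _
  have hn : 1 ≤ n := Nat.pos_of_ne_zero (by rintro rfl; exact o.elim0)
  obtain ⟨a, ha⟩ := exists_forms (K₀ ⊔ (maximalIdeal A).map C)
    (fun a ha => Ideal.mem_sup_right (Ideal.mem_map_of_mem _ ha)) n (by
      intro p hp hle
      have h1 := subs_height g o ho (Finset.univ.erase o) (Finset.notMem_erase _ _)
      have hlt : K₀ < p := by
        refine lt_of_le_of_ne (le_sup_left.trans hle) fun e => ho ?_
        have h2 : C (g o) ∈ K₀ :=
          e ▸ hle (Ideal.mem_sup_right (Ideal.mem_map_of_mem _ (hI (hgI o))))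
        rw [RingHom.mem_ker] at h2
        simpa [subs] using h2
      refine le_trans ?_ ((add_le_add_left h1 1).trans
        (Ideal.height_add_one_le_of_lt_of_isPrime hlt))
      rw [Finset.card_erase_of_mem (Finset.mem_univ o), Finset.card_univ, Fintype.card_fin]
      exact_mod_cast (by omega : n ≤ n - 1 + 1)) d
  let x : Fin d → A := fun l => ∑ j, a l j * g j
  have hx : ∀ l, x l ∈ I := fun l => sum_mem fun j _ => I.mul_mem_left _ (hgI j)
  let Φ : MvPolynomial (Fin n) A →ₐ[A] Polynomial A := aeval fun j => Polynomial.monomial 1 (g j)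
  have hΦ : ∀ f, Φ f ∈ reesAlgebra I := by
    intro f
    induction f using MvPolynomial.induction_on with
    | C r => rw [algHom_C]; exact Subalgebra.algebraMap_mem _ _
    | add p q hp hq => rw [map_add]; exact add_mem hp hq
    | mul_X p j hp =>
      rw [map_mul, aeval_X]
      exact mul_mem hp (reesAlgebra.monomial_mem.mpr (by simpa using hgI j))
  let Y : ℕ → Ideal A := fun i => Nat.casesOn i ⊥ fun i => Ideal.span (Set.range x) * I ^ i
  let G : ℕ → Ideal A := fun i => Y i ⊔ maximalIdeal A * I ^ i
  have hG : ∀ i j, I ^ i * G j ≤ G (i + j) := by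
    intro i j
    rw [Ideal.mul_sup]
    refine sup_le_sup ?_ (by rw [mul_left_comm, ← pow_add])
    cases j with
    | zero => simp [Y]
    | succ j =>
      change I ^ i * (_ * I ^ j) ≤ _ * I ^ (i + j)
      rw [mul_left_comm, ← pow_add]
  let E : Ideal (MvPolynomial (Fin n) A) :=
    { carrier := {f | ∀ i, (Φ f).coeff i ∈ G i}
      zero_mem' := fun i => by simp
      add_mem' := fun hf hf' i => by
        rw [map_add, Polynomial.coeff_add]
        exact add_mem (hf i) (hf' i)
      smul_mem' := fun r f hf i => by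
        rw [smul_eq_mul, map_mul, Polynomial.coeff_mul]
        refine sum_mem fun c hc => ?_
        rw [← Finset.HasAntidiagonal.mem_antidiagonal.mp hc]
        exact hG _ _ (Ideal.mul_mem_mul (hΦ r _) (hf _)) }
  have hmono : ∀ f i r, Φ f = Polynomial.monomial i r → r ∈ G i → f ∈ E := by
    intro f i r e hr j
    rw [e, Polynomial.coeff_monomial]
    split_ifs with h
    · exact h ▸ hr
    · exact zero_mem _
  let N : Ideal (MvPolynomial (Fin n) A) := (maximalIdeal A).comap constantCoeff
  have hN : N.IsPrime := Ideal.IsPrime.comap _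
  have hX : ∀ j, X j ∈ E.radical := by
    intro j
    by_contra hcon
    obtain ⟨p, hp, hEp, hdis⟩ := Ideal.exists_le_prime_disjoint E
      (N.primeCompl ⊔ Submonoid.powers (X j)) (by
        rw [Set.disjoint_left]
        intro f hf hf'
        obtain ⟨s, hs, _, ⟨i, rfl⟩, rfl⟩ := Submonoid.mem_sup.mp hf'
        refine hcon ⟨i, hmono _ i (g j ^ i) (by simp [Φ, Polynomial.monomial_pow]) ?_⟩
        have h1 := hf i
        have h2 : (Φ s).coeff 0 = constantCoeff s := by
          have : Polynomial.constantCoeff.comp (Φ : MvPolynomial (Fin n) A →+* Polynomial A) = constantCoeff := by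
            ext <;> simp [Φ]
          exact DFunLike.congr_fun this s
        have h3 : Φ (X j ^ i) = Polynomial.monomial i (g j ^ i) := by
          simp [Φ, Polynomial.monomial_pow]
        rw [map_mul, h3] at h1
        have h4 := Polynomial.coeff_mul_monomial (Φ s) i 0 (g j ^ i)
        rw [zero_add] at h4
        rw [h4, h2] at h1
        exact (Ideal.unit_mul_mem_iff_mem _ (notMem_maximalIdeal.mp hs)).mp h1)
    have hXp : X j ∉ p := fun h => Set.disjoint_left.mp hdis h
      (Submonoid.mem_sup_right (Submonoid.mem_powers _))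
    have hpN : p ≤ N := fun f hf => by
      by_contra h
      exact Set.disjoint_left.mp hdis hf (Submonoid.mem_sup_left h)
    have h1 := ha p hp (le_trans (sup_le (fun f hf => ?_) ?_) hEp) (fun l => hEp ?_) ⟨j, hXp⟩
    · have hlt : p < N := lt_of_le_of_ne hpN fun e => hXp (by rw [e]; simp [N])
      have h2 := (add_le_add_left h1 1).trans (Ideal.height_add_one_le_of_lt_of_isPrime hlt)
      have h3 := Ideal.height_le_ringKrullDim_of_isPrime (I := N)
      rw [MvPolynomial.ringKrullDim_of_isNoetherianRing, hd] at h3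
      have h4 := (WithBot.coe_le_coe.mpr h2).trans h3
      simp only [Nat.card_eq_fintype_card, Fintype.card_fin] at h4
      have h5 : n + d + 1 ≤ d + n := by exact_mod_cast h4
      omega
    · refine hmono f 0 0 ?_ (zero_mem _)
      have e : Φ = (aeval fun _ => Polynomial.X).comp (subs g o (Finset.univ.erase o)) := by
        ext1 l
        have : l = o ∨ l ∈ Finset.univ.erase o := by
          by_cases h : l = o <;> simp [h]
        simp [Φ, subs, this, Polynomial.C_mul_X_eq_monomial, -Finset.mem_erase]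
      rw [e, AlgHom.comp_apply, RingHom.mem_ker.mp hf, map_zero, map_zero]
    · rw [Ideal.map_le_iff_le_comap]
      intro r hr
      exact hmono _ 0 r (by simp) (Ideal.mem_sup_right (by simpa using hr))
    · refine hmono _ 1 (x l) (by simp [Φ, x, Polynomial.C_mul_monomial]) (Ideal.mem_sup_left ?_)
      change _ ∈ _ * I ^ 0
      rw [pow_zero, mul_one]
      exact Ideal.subset_span ⟨l, rfl⟩
  obtain ⟨M, hM⟩ := Ideal.exists_pow_le_of_le_radical_of_fg
    (show Ideal.span (Set.range X) ≤ E.radical from Ideal.span_le.mpr (by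
      rintro _ ⟨j, rfl⟩
      exact hX j)) (IsNoetherian.noetherian _)
  have hlift : ∀ i, ∀ r ∈ I ^ i, ∃ f ∈ Ideal.span (Set.range X) ^ i,
      Φ f = Polynomial.monomial i r := by
    intro i
    induction i with
    | zero => exact fun r _ => ⟨C r, by simp, by simp⟩
    | succ i ih =>
      intro r hr
      rw [pow_succ] at hr
      refine Submodule.mul_induction_on hr (fun r hr s hs => ?_) ?_
      · obtain ⟨f, hf, e⟩ := ih r hr
        rw [← hg] at hs
        obtain ⟨b, rfl⟩ := (Submodule.mem_span_range_iff_exists_fun A).mp hs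
        refine ⟨f * ∑ j, C (b j) * X j, ?_, ?_⟩
        · rw [pow_succ]
          exact Ideal.mul_mem_mul hf
            (sum_mem fun j _ => Ideal.mul_mem_left _ _ (Ideal.subset_span ⟨j, rfl⟩))
        · rw [map_mul, e, ← Polynomial.monomial_mul_monomial]
          simp [Φ, Polynomial.C_mul_monomial]
      · rintro r s ⟨f, hf, e⟩ ⟨f', hf', e'⟩
        exact ⟨f + f', add_mem hf hf', by rw [map_add, e, e', map_add]⟩
  refine ⟨x, M, hx, Submodule.le_of_le_smul_of_le_jacobson_bot (I := maximalIdeal A)
    (IsNoetherian.noetherian _) (maximalIdeal_le_jacobson _) fun r hr => ?_⟩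
  obtain ⟨f, hf, e⟩ := hlift _ r hr
  have := hM (Ideal.pow_le_pow_right M.le_succ hf) (M + 1)
  rwa [e, Polynomial.coeff_monomial, if_pos rfl] at this

end Pool.Agent.P.MP_fcbc4b_ag
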