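import Pool.Agent.P.MP_fcbc4b_ag.AFinal
import Pool.Agent.P.MP_fcbc4b_ag.ARed

/-! Passage to the polynomial ring, where the residue fields at the given primes are infinite. -/

set_option autoImplicit false

namespace Pool.Agent.P.MP_fcbc4b_ag

open IsLocalRing Polynomial

variable {R : Type} [CommRing R]

lemma red_pow {I J : Ideal R} {s : R} {c : ℕ} (h : Ideal.span {s} * I ^ (c + 1) ≤ J * I ^ c)
    {c' : ℕ} (hc : c ≤ c') (M : ℕ) : Ideal.span {s ^ M} * I ^ (M + c') ≤ J ^ M := by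
  have key : ∀ M, Ideal.span {s ^ M} * I ^ (M + c) ≤ J ^ M * I ^ c := by
    intro M
    induction M with
    | zero => simp
    | succ M ih =>
      calc Ideal.span {s ^ (M + 1)} * I ^ (M + 1 + c)
          = Ideal.span {s} * (Ideal.span {s ^ M} * I ^ (M + c)) * I := by
            rw [← Ideal.span_singleton_pow, ← Ideal.span_singleton_pow]; ring
        _ ≤ Ideal.span {s} * (J ^ M * I ^ c) * I :=
            Ideal.mul_mono_left (Ideal.mul_mono_right ih)
        _ = J ^ M * (Ideal.span {s} * I ^ (c + 1)) := by ring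
        _ ≤ J ^ M * (J * I ^ c) := Ideal.mul_mono_right h
        _ = J ^ (M + 1) * I ^ c := by ring
  exact ((Ideal.mul_mono_right (Ideal.pow_le_pow_right (by omega))).trans (key M)).trans
    Ideal.mul_le_left

lemma red_at [IsRegularRing R] {I P : Ideal R} [hP : P.IsPrime] (hI : I ≤ P)
    [Infinite (ResidueField (Localization.AtPrime P))] :
    ∃ (c : ℕ) (s : R) (n : ℕ) (x : Fin n → R), s ∉ P ∧ (n : ℕ∞) ≤ P.height ∧ (∀ i, x i ∈ I) ∧
      Ideal.span {s} * I ^ (c + 1) ≤ Ideal.span (Set.range x) * I ^ c := by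
  set A := Localization.AtPrime P
  have := (regular_seq A).1
  obtain ⟨n, hn⟩ := ENat.ne_top_iff_exists.mp (Ideal.height_ne_top hP.ne_top)
  have hd : ringKrullDim A = n := by
    rw [IsLocalization.AtPrime.ringKrullDim_eq_height P, ← hn]
    rfl
  obtain ⟨y, c, hy, h⟩ := exists_reduction hd (I.map (algebraMap R A))
    ((Ideal.map_mono hI).trans Localization.AtPrime.map_eq_maximalIdeal.le)
  have h3 : ∀ i, ∃ x : I × P.primeCompl, y i * algebraMap R A x.2 = algebraMap R A x.1 :=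
    fun i => (IsLocalization.mem_map_algebraMap_iff P.primeCompl A).mp (hy i)
  choose x hx using h3
  obtain ⟨s, hs, hs'⟩ := exists_mul_le_of_loc P (I ^ (c + 1))
    (Ideal.span (Set.range fun i => ((x i).1 : R)) * I ^ c) (IsNoetherian.noetherian _) (by
      rw [Ideal.map_pow, Ideal.map_mul, Ideal.map_pow]
      refine h.trans (Ideal.mul_mono_left (Ideal.span_le.mpr ?_))
      rintro _ ⟨i, rfl⟩
      refine (Ideal.mul_unit_mem_iff_mem _ (IsLocalization.map_units A (x i).2)).mp ?_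
      rw [hx]
      exact Ideal.mem_map_of_mem _ (Ideal.subset_span ⟨i, rfl⟩))
  refine ⟨c, s, n, fun i => (x i).1, hs, hn.le, fun i => (x i).1.2, fun z hz => ?_⟩
  obtain ⟨y, hy, rfl⟩ := Ideal.mem_span_singleton_mul.mp hz
  exact hs' y hy

lemma C_mem_map_C {K : Ideal R} {r : R} : C r ∈ K.map (C : R →+* R[X]) ↔ r ∈ K :=
  ⟨fun h => by simpa using Ideal.mem_map_C_iff.mp h 0, Ideal.mem_map_of_mem _⟩

lemma infinite_res (P : Ideal R) [hP : P.IsPrime] :
    Infinite (ResidueField (Localization.AtPrime (P.map (C : R →+* R[X])))) := by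
  refine Infinite.of_injective (fun n : ℕ => residue _
    (algebraMap R[X] (Localization.AtPrime (P.map (C : R →+* R[X]))) (X ^ n))) fun n m h => ?_
  by_contra hne
  rw [← sub_eq_zero, ← map_sub, ← map_sub, residue_eq_zero_iff,
    IsLocalization.AtPrime.to_map_mem_maximal_iff _ (P.map (C : R →+* R[X]))] at h
  have := Ideal.mem_map_C_iff.mp h n
  rw [coeff_sub, coeff_X_pow, coeff_X_pow, if_pos rfl, if_neg hne, sub_zero] at this
  exact hP.ne_top ((Ideal.eq_top_iff_one _).mpr this)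

lemma height_comap_le [IsNoetherianRing R] (Q : Ideal R[X]) [Q.IsPrime] :
    (Q.comap (C : R →+* R[X])).height ≤ Q.height := by
  have : Q.LiesOver (Q.comap (C : R →+* R[X])) := ⟨rfl⟩
  rw [Ideal.height_eq_height_add_of_liesOver_of_hasGoingDown (Q.comap (C : R →+* R[X])) Q]
  exact le_self_add

lemma height_map_C' [IsNoetherianRing R] (P : Ideal R) [P.IsPrime] :
    (P.map (C : R →+* R[X])).height = P.height := by
  have : (P.map (C : R →+* R[X])).LiesOver P := ⟨by
    ext x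
    exact C_mem_map_C.symm⟩
  rw [Ideal.height_eq_height_add_of_liesOver_of_hasGoingDown P (P.map (C : R →+* R[X]))]
  have : Nontrivial (R[X] ⧸ P.map (algebraMap R R[X])) :=
    Ideal.Quotient.nontrivial_iff.mpr (Ideal.IsPrime.ne_top' (I := P.map (C : R →+* R[X])))
  have e : (P.map (C : R →+* R[X])).map (Ideal.Quotient.mk (P.map (algebraMap R R[X]))) = ⊥ :=
    Ideal.map_quotient_self _
  rw [e, Ideal.height_bot, add_zero]

lemma two_le_of_sat {I P Q : Ideal R} [hP : P.IsPrime] [hQ : Q.IsPrime] (h2 : 2 ≤ P.height)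
    (H : ∀ Q ∈ I.minimalPrimes, Q < P → 2 ≤ Q.height)
    (h : ∀ t a, t ∉ P → t * a ∈ I → a ∈ Q) : 2 ≤ Q.height := by
  have hS : ∀ P' ∈ ({P} : Set (Ideal R)), P'.IsPrime := fun _ h => h ▸ hP
  have hL : sat {P} hS I ≤ Q := fun a ha =>
    let ⟨t, ht, h1⟩ := ha P rfl
    h t a ht h1
  obtain ⟨Q₀, hQ₀, hle⟩ := Ideal.exists_minimalPrimes_le hL
  have hQP : Q₀ ≤ P := by
    intro x hx
    by_contra hxP
    obtain ⟨y, hy, h1⟩ := Ideal.exists_mul_mem_of_mem_minimalPrimes hQ₀ hx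
    obtain ⟨t, ht, h3⟩ := h1 P rfl
    refine hy ?_
    rintro _ rfl
    exact ⟨t * x, fun h => (hP.mem_or_mem h).elim ht hxP, by rwa [mul_assoc]⟩
  have hmin : Q₀ ∈ I.minimalPrimes := by
    refine ⟨⟨hQ₀.1.1, (le_sat I).trans hQ₀.1.2⟩, fun Q₁ hQ₁ h1 => hQ₀.2 ⟨hQ₁.1, ?_⟩ h1⟩
    intro a ha
    obtain ⟨t, ht, h3⟩ := ha P rfl
    exact (hQ₁.1.mem_or_mem (hQ₁.2 h3)).resolve_left fun h => ht (hQP (h1 h))
  refine le_trans ?_ (Ideal.height_mono hle)
  rcases hQP.eq_or_lt with e | e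
  · rwa [e]
  · exact H Q₀ hmin e

theorem gen_all [IsRegularRing R] {I : Ideal R} {S : Set (Ideal R)} {h : ℕ} (h2 : 2 ≤ h)
    (hfin : S.Finite) (hS : ∀ P ∈ S, P.IsPrime) (hI : ∀ P ∈ S, I ≤ P)
    (hnzd : ∀ t a, (∀ P ∈ S, t ∉ P) → t * a ∈ I → a ∈ I)
    (hh : ∀ P ∈ S, P.height ≤ (h : ℕ∞))
    (H : ∀ P ∈ S, ∀ Q ∈ I.minimalPrimes, Q < P → 2 ≤ Q.height) :
    ∃ B : ℕ, 2 ≤ B ∧ ∀ n, sat S hS (I ^ (h * (n - n / B))) ≤ I ^ n := by
  classical
  have hred := fun P (hP : P ∈ S) =>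
    haveI := hS P hP
    haveI := infinite_res P
    red_at (Ideal.map_mono (f := (C : R →+* R[X])) (hI P hP))
  choose! c hc using hred
  have d : Data (I.map (C : R →+* R[X])) (Ideal.map (C : R →+* R[X]) '' S) h
      (hfin.toFinset.sup c) := by
    refine ⟨hfin.image _, ?_, fun t a ht ha => ?_, ?_, ?_, ?_⟩
    · rintro _ ⟨P, hP, rfl⟩
      have := hS P hP
      infer_instance
    · obtain ⟨g, hg, hg'⟩ := avoid hfin hS (Ideal.span (Set.range t.coeff)) fun P hP hle =>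
        ht _ ⟨P, hP, rfl⟩ (Ideal.mem_map_C_iff.mpr fun n => hle (Ideal.subset_span ⟨n, rfl⟩))
      have h1 : t.map (Ideal.Quotient.mk I) ∈ nonZeroDivisors (R ⧸ I)[X] := by
        by_contra hcon
        obtain ⟨b, hb, h1⟩ := Polynomial.notMem_nonZeroDivisors_iff.mp hcon
        obtain ⟨b, rfl⟩ := Ideal.Quotient.mk_surjective b
        refine hb (Ideal.Quotient.eq_zero_iff_mem.mpr (hnzd g b hg' ?_))
        have : Ideal.span (Set.range t.coeff) ≤ I.colon {b} := by
          rw [Ideal.span_le]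
          rintro _ ⟨n, rfl⟩
          have h3 := congrArg (fun p => coeff p n) h1
          simp only [coeff_smul, coeff_map, coeff_zero, smul_eq_mul, ← map_mul] at h3
          simpa [mul_comm] using Ideal.Quotient.eq_zero_iff_mem.mp h3
        simpa using this hg
      have h3 : t.map (Ideal.Quotient.mk I) * a.map (Ideal.Quotient.mk I) = 0 := by
        rw [← Polynomial.map_mul]
        ext n
        rw [coeff_map, coeff_zero]
        exact Ideal.Quotient.eq_zero_iff_mem.mpr (Ideal.mem_map_C_iff.mp ha n)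
      have h4 := (mem_nonZeroDivisors_iff.mp h1).1 _ h3
      refine Ideal.mem_map_C_iff.mpr fun n => Ideal.Quotient.eq_zero_iff_mem.mp ?_
      rw [← coeff_map, h4, coeff_zero]
    · rintro _ ⟨P, hP, rfl⟩
      have := hS P hP
      rw [height_map_C']
      exact hh P hP
    · rintro _ ⟨P, hP, rfl⟩
      obtain ⟨s, n, x, h1, h3, h4, h5⟩ := hc P hP
      exact ⟨s, n, x, h1, h3, h4,
        red_pow h5 (Finset.le_sup (f := c) (hfin.mem_toFinset.mpr hP))⟩
    · rintro _ ⟨P, hP, rfl⟩ hP' Q hQ h1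
      have := hS P hP
      rw [height_map_C'] at hP'
      refine le_trans (two_le_of_sat (I := I) (P := P) ?_ (H P hP) fun t a ht ha => ?_)
        (height_comap_le Q)
      · rw [hP']
        exact_mod_cast h2
      · refine h1 (C t) (C a) (fun h => ht (C_mem_map_C.mp h)) ?_
        rw [← map_mul]
        exact C_mem_map_C.mpr ha
  obtain ⟨B, hB, hB'⟩ := gen_two' d h2
  refine ⟨B, hB, fun n r hr => C_mem_map_C.mp ?_⟩
  rw [Ideal.map_pow]
  refine hB' n ?_
  rintro _ ⟨P, hP, rfl⟩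
  obtain ⟨t, ht, h1⟩ := hr P hP
  refine ⟨C t, fun h => ht (C_mem_map_C.mp h), ?_⟩
  rw [← map_mul, ← Ideal.map_pow]
  exact C_mem_map_C.mpr h1

theorem gen_ass [IsRegularRing R] (I : Ideal R) {h : ℕ} (h2 : 2 ≤ h)
    (hh : ∀ P ∈ associatedPrimes R (R ⧸ I), P.height ≤ (h : ℕ∞))
    (H : ∀ P ∈ associatedPrimes R (R ⧸ I), ∀ Q ∈ I.minimalPrimes, Q < P → 2 ≤ Q.height) :
    ∃ B : ℕ, 2 ≤ B ∧ ∀ n, sat (associatedPrimes R (R ⧸ I)) (fun _ hP => hP.1)
      (I ^ (h * (n - n / B))) ≤ I ^ n := by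
  refine gen_all h2 (associatedPrimes.finite R (R ⧸ I)) _ (fun P hP x hx => ?_)
    (fun t a ht ha => ?_) hh H
  · refine IsAssociatedPrime.annihilator_le hP (Submodule.mem_annihilator.mpr fun y _ => ?_)
    obtain ⟨y, rfl⟩ := Ideal.Quotient.mk_surjective y
    exact Ideal.Quotient.eq_zero_iff_mem.mpr (Ideal.mul_mem_right _ _ hx)
  · by_contra hna
    have : t ∈ ⋃ p ∈ associatedPrimes R (R ⧸ I), (p : Set R) := by
      rw [biUnion_associatedPrimes_eq_zero_divisors]
      exact ⟨Ideal.Quotient.mk I a, fun h => hna (Ideal.Quotient.eq_zero_iff_mem.mp h),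
        Ideal.Quotient.eq_zero_iff_mem.mpr ha⟩
    obtain ⟨P, hP, hgP⟩ := Set.mem_iUnion₂.mp this
    exact ht P hP hgP

end Pool.Agent.P.MP_fcbc4b_ag
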