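import Pool.Agent.P.MP_fcbc4b_ag.Witt

/-! An elementary form of the flatness lemma for adjoining compatible roots. -/

set_option autoImplicit false

namespace Pool.Agent.P.MP_fcbc4b_ag

open IsLocalRing WittVector MvPolynomial

attribute [local instance] Classical.propDecidable

variable (p : ℕ) [Fact p.Prime] {κ : Type} [Field κ] [CharP κ p] {d : ℕ}

/-- Polynomials over the Witt vectors. -/
abbrev R0 (κ : Type) [Field κ] (d : ℕ) : Type := MvPolynomial (Fin d) (WittVector p κ)

/-- Evaluation at Teichmueller lifts. -/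
noncomputable def psi {T : Type*} [CommRing T] (χ : κ →+* T) (t : Fin d → T) :
    R0 p κ d →+* WittVector p T :=
  eval₂Hom (WittVector.map χ) fun i => teichmuller p (t i)

omit [CharP κ p] in
lemma psi_X {T : Type*} [CommRing T] (χ : κ →+* T) (t : Fin d → T) (i : Fin d) :
    psi p χ t (X i) = teichmuller p (t i) := by simp [psi]

omit [CharP κ p] in
lemma map_psi {T T' : Type*} [CommRing T] [CommRing T'] (f : T →+* T') (χ : κ →+* T)
    (t : Fin d → T) (g : R0 p κ d) :
    WittVector.map f (psi p χ t g) = psi p (f.comp χ) (fun i => f (t i)) g := by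
  have : (WittVector.map f).comp (psi p χ t) = psi p (f.comp χ) (fun i => f (t i)) := by
    refine MvPolynomial.ringHom_ext (fun w => ?_) (fun i => ?_)
    · ext n; simp [psi]
    · simp [psi, map_teichmuller]
  exact congrArg (fun F => F g) this

/-- The distinguished element. -/
noncomputable def xi (a : Fin d → R0 p κ d) : R0 p κ d := p - ∑ i, a i * X i

omit [CharP κ p] in
lemma psi_xi {T : Type*} [CommRing T] (χ : κ →+* T) (t : Fin d → T) (a : Fin d → R0 p κ d) :
    psi p χ t (xi p a) = p - ∑ i, psi p χ t (a i) * teichmuller p (t i) := by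
  simp [xi, psi_X]

/-- Variables. -/
abbrev Var (κ : Type) [Field κ] (d : ℕ) : Type := Fin d ⊕ (R0 p κ d × Option ℕ)

/-- The big polynomial ring. -/
abbrev PP (κ : Type) [Field κ] (d : ℕ) : Type := MvPolynomial (Var p κ d) κ

/-- Evaluation into the big polynomial ring. -/
noncomputable def psiP : R0 p κ d →+* WittVector p (PP p κ d) := psi p C fun i => X (Sum.inl i)

/-- The difference to be made divisible. -/
noncomputable def ff (D : ℕ) (g : R0 p κ d) : WittVector p (PP p κ d) :=
  teichmuller p (X (Sum.inr (g, none)) ^ D) - psiP p g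

/-- The universal quotient. -/
noncomputable def yy (g : R0 p κ d) : WittVector p (PP p κ d) :=
  WittVector.mk p fun n => X (Sum.inr (g, some n))

/-- The relations. -/
noncomputable def rr (a : Fin d → R0 p κ d) (D : ℕ) (g : R0 p κ d) (j : ℕ) : PP p κ d :=
  (psiP p (xi p a) * yy p g - ff p D g).coeff j

/-- The relations modulo the parameters. -/
noncomputable def rho (D : ℕ) (g : R0 p κ d) (j : ℕ) : PP p κ d :=
  (yy p g * p).coeff j - (ff p D g).coeff j

/-- Leading variable of a relation. -/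
def lv (g : R0 p κ d) : ℕ → Var p κ d
  | 0 => Sum.inr (g, none)
  | j + 1 => Sum.inr (g, some j)

variable {p} (a : Fin d → R0 p κ d) (D : ℕ)

omit [CharP κ p] in
lemma rr_iff (g : R0 p κ d) (J : Ideal (PP p κ d)) (hX : ∀ i, X (Sum.inl i) ∈ J) (n : ℕ) :
    (∀ j < n, rr p a D g j ∈ J) ↔ ∀ j < n, rho p D g j ∈ J := by
  set π := Ideal.Quotient.mk J
  have h0 : ∀ i, π (X (Sum.inl i)) = 0 := fun i => Ideal.Quotient.eq_zero_iff_mem.mpr (hX i)
  have h1 : WittVector.map π (psiP p (xi p a) * yy p g - ff p D g) =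
      WittVector.map π (yy p g * (p : WittVector p (PP p κ d))) -
        WittVector.map π (ff p D g) := by
    rw [map_sub, map_mul, map_mul, psiP, psi_xi]
    simp [map_teichmuller, h0, mul_comm]
  simp only [← Ideal.Quotient.eq_zero_iff_mem, rr, rho, map_sub, sub_eq_zero]
  simp only [← map_coeff]
  rw [h1]
  exact le_coeff_eq_iff_le_sub_coeff_eq_zero.symm

omit [CharP κ p] in
lemma Phi_psiP {v : Var p κ d} (hv : ∀ i, Sum.inl i ≠ v) (g : R0 p κ d) :
    WittVector.map (Phi κ v) (psiP p g) = WittVector.map Polynomial.C (psiP p g) := by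
  rw [psiP, map_psi, map_psi]
  congr 2
  · ext1 w; simp [Phi_C]
  · ext1 i; exact Phi_X_ne (hv i)

omit [CharP κ p] in
lemma Phi_ff {v : Var p κ d} (hv : ∀ i, Sum.inl i ≠ v) (g : R0 p κ d)
    (hg : Sum.inr (g, none) ≠ v) (j : ℕ) :
    Phi κ v ((ff p D g).coeff j) = Polynomial.C ((ff p D g).coeff j) := by
  rw [← map_coeff, ← map_coeff, ff, map_sub, map_sub, Phi_psiP hv, map_teichmuller,
    map_teichmuller, map_pow (Phi κ v), map_pow Polynomial.C, Phi_X_ne hg]

lemma rho_zero (g : R0 p κ d) :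
    rho p D g 0 = -(X (Sum.inr (g, none)) ^ D - (psiP p g).coeff 0) := by
  rw [rho, mul_charP_coeff_zero, ff, zero_sub]
  congr 1
  have := map_sub WittVector.constantCoeff
    (teichmuller p (X (Sum.inr (g, none)) ^ D : PP p κ d)) (psiP p g)
  exact this

lemma rho_succ (g : R0 p κ d) (j : ℕ) :
    rho p D g (j + 1) = X (Sum.inr (g, some j)) ^ p - (ff p D g).coeff (j + 1) := by
  rw [rho, mul_charP_coeff_succ]
  rfl

lemma Phi_rho {v : Var p κ d} (hv : ∀ i, Sum.inl i ≠ v) (g : R0 p κ d)
    (hg : Sum.inr (g, none) ≠ v) (j : ℕ) (hj : lv p g j ≠ v) :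
    Phi κ v (rho p D g j) = Polynomial.C (rho p D g j) := by
  cases j with
  | zero => rw [rho, mul_charP_coeff_zero, zero_sub, map_neg, map_neg, Phi_ff D hv g hg]
  | succ j =>
    rw [lv] at hj
    rw [rho_succ, map_sub, map_sub, Phi_ff D hv g hg, map_pow, map_pow, Phi_X_ne hj]

lemma rho_nzd (hD : 1 ≤ D) (g : R0 p κ d) (j : ℕ) {J : Ideal (PP p κ d)}
    (hJ : Const (lv p g j) J) (b : PP p κ d) (hb : rho p D g j * b ∈ J) : b ∈ J := by
  cases j with
  | zero =>
    rw [rho_zero, neg_mul, neg_mem_iff] at hb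
    refine hJ.nzd ?_ b hb
    have h1 := congrArg (fun x => WittVector.coeff x 0)
      (Phi_psiP (v := lv p g 0) (fun i => by simp [lv]) g)
    simp only [map_coeff] at h1
    rw [map_sub, map_pow, h1]
    rw [lv, Phi_X_self]
    exact Polynomial.monic_X_pow_sub_C _ (by omega)
  | succ j =>
    rw [rho_succ] at hb
    refine hJ.nzd ?_ b hb
    rw [map_sub, map_pow, Phi_ff D (fun i => by simp [lv]) g (by simp [lv]), lv, Phi_X_self]
    exact Polynomial.monic_X_pow_sub_C _ (Fact.out : p.Prime).ne_zero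

lemma ofList_range_map {R : Type*} [CommRing R] (f : ℕ → R) (n : ℕ) :
    Ideal.ofList ((List.range n).map f) = Ideal.span (f '' Set.Iio n) := by
  unfold Ideal.ofList
  congr 1
  ext y
  simp

omit [CharP κ p] in
lemma sup_rr_eq (g : R0 p κ d) (J : Ideal (PP p κ d)) (hX : ∀ i, X (Sum.inl i) ∈ J) (n : ℕ) :
    J ⊔ Ideal.span (rr p a D g '' Set.Iio n) = J ⊔ Ideal.span (rho p D g '' Set.Iio n) := by
  apply le_antisymm
  · refine sup_le le_sup_left (Ideal.span_le.mpr ?_)
    rintro _ ⟨j, hj, rfl⟩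
    exact (rr_iff a D g _ (fun i => Submodule.mem_sup_left (hX i)) n).mpr
      (fun j hj => Submodule.mem_sup_right (Ideal.subset_span (Set.mem_image_of_mem _ hj))) j hj
  · refine sup_le le_sup_left (Ideal.span_le.mpr ?_)
    rintro _ ⟨j, hj, rfl⟩
    exact (rr_iff a D g _ (fun i => Submodule.mem_sup_left (hX i)) n).mp
      (fun j hj => Submodule.mem_sup_right (Ideal.subset_span (Set.mem_image_of_mem _ hj))) j hj

lemma regSeq_block (hD : 1 ≤ D) (g : R0 p κ d) (J : Ideal (PP p κ d))
    (hX : ∀ i, X (Sum.inl i) ∈ J) (hJ : ∀ j, Const (lv p g j) J) (n : ℕ) :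
    RegSeq J ((List.range n).map (rr p a D g)) := by
  induction n with
  | zero => trivial
  | succ n ih =>
    rw [List.range_succ, List.map_append, regSeq_append]
    refine ⟨ih, fun b hb => ?_, trivial⟩
    rw [ofList_range_map] at hb ⊢
    have h1 : rho p D g n ∈ J ⊔ Ideal.span (rr p a D g '' Set.Iio n) ⊔
        Ideal.span {rr p a D g n} := by
      have : rho p D g n ∈ J ⊔ Ideal.span (rho p D g '' Set.Iio (n + 1)) :=
        Submodule.mem_sup_right (Ideal.subset_span ⟨n, by simp, rfl⟩)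
      rw [← sup_rr_eq a D g J hX, ← ofList_range_map, List.range_succ, List.map_append,
        Ideal.ofList_append, ofList_range_map, ← sup_assoc] at this
      simpa using this
    obtain ⟨c, hc⟩ := mem_sup_span_singleton.mp h1
    have h2 : rho p D g n * b ∈ J ⊔ Ideal.span (rr p a D g '' Set.Iio n) := by
      have : rho p D g n * b = (rho p D g n - c * rr p a D g n) * b + c * (rr p a D g n * b) := by
        ring
      rw [this]
      exact Ideal.add_mem _ (Ideal.mul_mem_right _ _ hc) (Ideal.mul_mem_left _ _ hb)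
    rw [sup_rr_eq a D g J hX] at h2 ⊢
    refine rho_nzd D hD g n ((hJ n).sup (const_span ?_)) b h2
    rintro _ ⟨j, hj, rfl⟩
    have hj' : j < n := hj
    obtain ⟨n, rfl⟩ : ∃ n', n = n' + 1 := ⟨n - 1, by omega⟩
    refine Phi_rho D (fun i => by simp [lv]) g (by simp [lv]) j ?_
    cases j with
    | zero => simp [lv]
    | succ j => simp only [lv, ne_eq, Sum.inr.injEq, Prod.mk.injEq, true_and, Option.some.injEq]
                omega

lemma regSeq_blocks (hD : 1 ≤ D) (n : ℕ) (gs : List (R0 p κ d)) (hgs : gs.Nodup) :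
    ∀ J : Ideal (PP p κ d), (∀ i, X (Sum.inl i) ∈ J) → (∀ g ∈ gs, ∀ j, Const (lv p g j) J) →
    RegSeq J (gs.flatMap fun g => (List.range n).map (rr p a D g)) := by
  induction gs with
  | nil => intros; trivial
  | cons g gs ih =>
    intro J hX hJ
    rw [List.flatMap_cons, regSeq_append]
    refine ⟨regSeq_block a D hD g J hX (hJ g (by simp)) n, ih (List.nodup_cons.mp hgs).2 _
      (fun i => Submodule.mem_sup_left (hX i)) fun g' hg' j => ?_⟩
    rw [ofList_range_map, sup_rr_eq a D g J hX]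
    have hne : g ≠ g' := fun h => (List.nodup_cons.mp hgs).1 (h ▸ hg')
    refine (hJ g' (by simp [hg']) j).sup (const_span ?_)
    rintro _ ⟨i, -, rfl⟩
    refine Phi_rho D (fun i => ?_) g ?_ i ?_
    · cases j <;> simp [lv]
    · cases j <;> simp [lv, hne]
    · cases i <;> cases j <;> simp [lv, hne]

omit [CharP κ p] in
lemma regSeq_X (l : List (Fin d)) (hl : l.Nodup) : ∀ J : Ideal (PP p κ d),
    (∀ i ∈ l, Const (Sum.inl i) J) → RegSeq J (l.map fun i => X (Sum.inl i)) := by
  induction l with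
  | nil => intros; trivial
  | cons i l ih =>
    intro J hJ
    refine ⟨(hJ i (by simp)).nzd (by rw [Phi_X_self]; exact Polynomial.monic_X),
      ih (List.nodup_cons.mp hl).2 _ fun i' hi' => (hJ i' (by simp [hi'])).sup (const_span ?_)⟩
    rintro _ rfl
    refine Phi_X_ne fun h => (List.nodup_cons.mp hl).1 ?_
    rwa [Sum.inl_injective h]

/-- The ideal of all relations. -/
noncomputable def RI : Ideal (PP p κ d) :=
  Ideal.span (Set.range fun x : R0 p κ d × ℕ => rr p a D x.1 x.2)

lemma h1_RI (hD : 1 ≤ D) (q : ℕ) (hq : 1 ≤ q) :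
    H1 (RI a D) fun i : Fin d => (X (Sum.inl i) : PP p κ d) ^ q := by
  intro s hs
  have key : ∀ z ∈ RI a D, ∃ (G : Finset (R0 p κ d)) (n : ℕ),
      z ∈ Ideal.span ((fun x : R0 p κ d × ℕ => rr p a D x.1 x.2) '' {x | x.1 ∈ G ∧ x.2 < n}) := by
    intro z hz
    induction hz using Submodule.span_induction with
    | mem _ h =>
      obtain ⟨x, rfl⟩ := h
      exact ⟨{x.1}, x.2 + 1, Ideal.subset_span ⟨x, by simp, rfl⟩⟩
    | zero => exact ⟨∅, 0, Submodule.zero_mem _⟩
    | add x y _ _ hx hy =>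
      obtain ⟨G, n, hx⟩ := hx
      obtain ⟨G', n', hy⟩ := hy
      refine ⟨G ∪ G', n + n', Ideal.add_mem _ (Ideal.span_mono (Set.image_mono ?_) hx)
        (Ideal.span_mono (Set.image_mono ?_) hy)⟩
      · rintro x ⟨h1, h2⟩; exact ⟨Finset.mem_union_left _ h1, by omega⟩
      · rintro x ⟨h1, h2⟩; exact ⟨Finset.mem_union_right _ h1, by omega⟩
    | smul c x _ hx =>
      obtain ⟨G, n, hx⟩ := hx
      exact ⟨G, n, Ideal.mul_mem_left _ _ hx⟩
  obtain ⟨G, n, hG⟩ := key _ hs
  set L := G.toList.flatMap fun g => (List.range n).map (rr p a D g) with hL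
  have hL1 : Ideal.ofList L =
      Ideal.span ((fun x : R0 p κ d × ℕ => rr p a D x.1 x.2) '' {x | x.1 ∈ G ∧ x.2 < n}) := by
    unfold Ideal.ofList
    congr 1
    ext y
    simp [hL, and_assoc]
  have h1 : RegSeq ⊥ (List.ofFn (fun i : Fin d => (X (Sum.inl i) : PP p κ d)) ++ L) := by
    rw [regSeq_append]
    constructor
    · rw [List.ofFn_eq_map]
      exact regSeq_X _ (List.nodup_finRange d) _ fun _ _ => bot_le
    · rw [ofList_ofFn, bot_sup_eq]
      refine regSeq_blocks a D hD n _ G.nodup_toList _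
        (fun i => Ideal.subset_span (Set.mem_range_self i)) fun g _ j => const_span ?_
      rintro _ ⟨i, rfl⟩
      exact Phi_X_ne (by cases j <;> simp [lv])
  have h2 := regSeq_pow_prefix q hq _ _ _ h1
  rw [List.map_ofFn, regSeq_append, ofList_ofFn] at h2
  have h3 := H1.add_list L ⊥ (h1_of_regSeq _ _ h2.1) h2.2
  rw [bot_sup_eq, hL1] at h3
  obtain ⟨c, hc⟩ := h3 s hG
  exact ⟨c, fun i => Ideal.span_mono (Set.image_subset_range _ _) (hc i)⟩

lemma exists_point (hD : 1 ≤ D) : ∃ ev : PP p κ d →+* AlgebraicClosure κ,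
    (∀ i, ev (X (Sum.inl i)) = 0) ∧ ∀ z ∈ RI a D, ev z = 0 := by
  set K := AlgebraicClosure κ
  let ψ : R0 p κ d →+* WittVector p K := psi p (algebraMap κ K) fun _ => 0
  choose s hs using fun g : R0 p κ d => IsAlgClosed.exists_pow_nat_eq ((ψ g).coeff 0) hD
  choose y hy using fun (g : R0 p κ d) (n : ℕ) => IsAlgClosed.exists_pow_nat_eq
    ((teichmuller p (s g ^ D) - ψ g).coeff (n + 1)) (Fact.out : p.Prime).pos
  let ev : PP p κ d →+* K := eval₂Hom (algebraMap κ K) fun v => match v with
    | Sum.inl _ => 0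
    | Sum.inr (g, none) => s g
    | Sum.inr (g, some n) => y g n
  have hX : ∀ i, ev (X (Sum.inl i)) = 0 := fun i => by simp [ev]
  have hψ : ∀ g, WittVector.map ev (psiP p g) = ψ g := by
    intro g
    rw [psiP, map_psi]
    simp only [hX, ψ]
    congr 2
    ext1 w; simp [ev]
  have hff : ∀ g j, ev ((ff p D g).coeff j) = (teichmuller p (s g ^ D) - ψ g).coeff j := by
    intro g j
    rw [← map_coeff, ff, map_sub, hψ, map_teichmuller]
    simp [ev]
  refine ⟨ev, hX, fun z hz => ?_⟩
  have : RI a D ≤ RingHom.ker ev := by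
    rw [RI, Ideal.span_le]
    rintro _ ⟨⟨g, j⟩, rfl⟩
    refine (rr_iff a D g (RingHom.ker ev) hX (j + 1)).mpr (fun i _ => ?_) j (Nat.lt_succ_self j)
    rw [RingHom.mem_ker]
    cases i with
    | zero =>
      rw [rho_zero, map_neg, map_sub, ← map_coeff, hψ, ← hs g]
      simp [ev]
    | succ i =>
      rw [rho_succ, map_sub, hff, ← hy g i]
      simp [ev]
  exact this hz

theorem exists_perfect (hD : 1 ≤ D) : ∃ (C : Type) (_ : CommRing C) (_ : CharP C p)
    (_ : PerfectRing C p) (χ : κ →+* C) (Y : Fin d → C) (S : R0 p κ d → C),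
    H1 ⊥ Y ∧ (∀ g, psi p χ Y (xi p a) ∣ teichmuller p (S g) ^ D - psi p χ Y g) ∧
      1 ∉ Ideal.span (Set.range Y) := by
  obtain ⟨ev, hev, hev'⟩ := exists_point a D hD
  let E := PP p κ d ⧸ RI a D
  let ev' : E →+* AlgebraicClosure κ := Ideal.Quotient.lift _ ev hev'
  have : Nontrivial E := ev'.domain_nontrivial
  have : CharP E p := by
    rw [CharP.charP_iff_prime_eq_zero Fact.out, ← map_natCast (Ideal.Quotient.mk (RI a D)),
      CharP.cast_eq_zero, map_zero]
  let ι : PP p κ d →+* PerfectClosure E p :=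
    (PerfectClosure.of E p).comp (Ideal.Quotient.mk (RI a D))
  refine ⟨PerfectClosure E p, inferInstance, inferInstance, inferInstance, ι.comp C,
    fun i => ι (X (Sum.inl i)), fun g => ι (X (Sum.inr (g, none))), ?_, ?_, ?_⟩
  · intro s hs
    have h1 : ∀ i, ∀ᶠ e in Filter.atTop, ∃ t, s i ^ p ^ e = ι t := by
      intro i
      obtain ⟨e, t, h⟩ := pc_pow_mem (s i)
      obtain ⟨t, rfl⟩ := Ideal.Quotient.mk_surjective t
      refine Filter.eventually_atTop.mpr ⟨e, fun e' he' => ?_⟩
      obtain ⟨c, rfl⟩ := Nat.exists_eq_add_of_le he'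
      exact ⟨t ^ p ^ c, by rw [pow_add, pow_mul, h, map_pow]; rfl⟩
    obtain ⟨e, he⟩ := (Filter.eventually_all.mpr h1).exists
    choose t ht using he
    have h2 : PerfectClosure.of E p (Ideal.Quotient.mk (RI a D)
        (∑ i, X (Sum.inl i) ^ p ^ e * t i)) = 0 := by
      have := congrArg (fun x => x ^ p ^ e) (Ideal.mem_bot.mp hs)
      simp only [sum_pow_char_pow, mul_pow, ht] at this
      rw [zero_pow (pow_ne_zero _ (Fact.out : p.Prime).ne_zero)] at this
      rw [← this]
      change ι _ = _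
      simp
    obtain ⟨e', he'⟩ := pc_ker h2
    rw [← map_pow, Ideal.Quotient.eq_zero_iff_mem, sum_pow_char_pow] at he'
    simp only [mul_pow, ← pow_mul, ← pow_add] at he'
    obtain ⟨c, hc⟩ := h1_RI a D hD (p ^ (e + e')) (Nat.one_le_pow _ _ (Fact.out : p.Prime).pos)
      _ he'
    let Φ := iterateFrobeniusEquiv (PerfectClosure E p) p (e + e')
    refine ⟨fun i j => Φ.symm (ι (c i j)), fun i => ?_⟩
    rw [Ideal.mem_bot]
    apply Φ.injective
    have h3 : ι (t i ^ p ^ e' - ∑ j, (c i j - c j i) * X (Sum.inl j) ^ p ^ (e + e')) = 0 := by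
      simp only [ι, RingHom.comp_apply, Ideal.Quotient.eq_zero_iff_mem.mpr (hc i), map_zero]
    rw [map_zero, ← h3]
    simp only [map_sub, map_sum, map_mul, RingEquiv.apply_symm_apply, map_pow, ← ht, ← pow_mul,
      ← pow_add, Φ, iterateFrobeniusEquiv_def]
  · intro g
    refine ⟨WittVector.map ι (yy p g), ?_⟩
    have h1 : WittVector.map ι (psiP p (xi p a) * yy p g - ff p D g) = 0 := by
      ext n
      rw [map_coeff, zero_coeff]
      have : Ideal.Quotient.mk (RI a D) (rr p a D g n) = 0 :=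
        Ideal.Quotient.eq_zero_iff_mem.mpr (Ideal.subset_span ⟨(g, n), rfl⟩)
      change PerfectClosure.of E p (Ideal.Quotient.mk (RI a D) (rr p a D g n)) = 0
      rw [this, map_zero]
    rw [map_sub, map_mul, ff, map_sub, psiP, map_psi, map_psi, map_teichmuller, map_pow,
      map_pow, sub_eq_zero] at h1
    exact h1.symm
  · intro h
    let ev'' := PerfectClosure.lift E p (AlgebraicClosure κ) ev'
    have h1 : Ideal.span (Set.range fun i => ι (X (Sum.inl i))) ≤ RingHom.ker ev'' := by
      rw [Ideal.span_le]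
      rintro _ ⟨i, rfl⟩
      have := (PerfectClosure.lift E p (AlgebraicClosure κ)).symm_apply_apply ev'
      have h2 := congrArg (fun f : E →+* AlgebraicClosure κ =>
        f (Ideal.Quotient.mk (RI a D) (X (Sum.inl i)))) this
      exact h2.trans (hev i)
    simpa using h1 h

end Pool.Agent.P.MP_fcbc4b_ag
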