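import Pool.Agent.P.MP_fcbc4b_ag.Sop

/-! Adic closures in big algebras; the local two-step lemma. -/

set_option autoImplicit false

namespace Pool.Agent.P.MP_fcbc4b_ag

open IsLocalRing

lemma inf_AR {A : Type*} [CommRing A] [IsNoetherianRing A] (J₁ J₂ a : Ideal A) :
    ∃ c, ∀ n, (J₁ ⊔ a ^ (n + c)) ⊓ (J₂ ⊔ a ^ (n + c)) ≤ J₁ ⊓ J₂ ⊔ a ^ n := by
  obtain ⟨k, hk⟩ := Ideal.exists_pow_inf_eq_pow_smul a (M := A) (J₁ ⊔ J₂ : Ideal A)
  refine ⟨k, fun n y hy => ?_⟩
  obtain ⟨j₁, hj₁, μ₁, hμ₁, h1⟩ := Submodule.mem_sup.mp hy.1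
  obtain ⟨j₂, hj₂, μ₂, hμ₂, h2⟩ := Submodule.mem_sup.mp hy.2
  have h3 : j₁ - j₂ ∈ a ^ (n + k) • (⊤ : Ideal A) ⊓ (J₁ ⊔ J₂) := by
    refine ⟨?_, Ideal.sub_mem _ (Submodule.mem_sup_left hj₁) (Submodule.mem_sup_right hj₂)⟩
    have : j₁ - j₂ = μ₂ - μ₁ := by linear_combination h1 - h2
    rw [this, smul_eq_mul, Ideal.mul_top]
    exact Ideal.sub_mem _ hμ₂ hμ₁
  rw [hk _ (by omega), Nat.add_sub_cancel] at h3
  have h4 : j₁ - j₂ ∈ a ^ n * J₁ ⊔ a ^ n * J₂ := by
    rw [← Ideal.mul_sup]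
    exact Ideal.mul_mono_right inf_le_right h3
  obtain ⟨ν₁, hν₁, ν₂, hν₂, h5⟩ := Submodule.mem_sup.mp h4
  have : y = (j₁ - ν₁) + (ν₁ + μ₁) := by linear_combination -h1
  rw [this]
  refine Submodule.add_mem_sup ⟨Ideal.sub_mem _ hj₁ (Ideal.mul_le_right hν₁), ?_⟩
    (Ideal.add_mem _ (Ideal.mul_le_left hν₁) (Ideal.pow_le_pow_right (by omega) hμ₁))
  have : j₁ - ν₁ = j₂ + ν₂ := by linear_combination -h5
  rw [this]
  exact Ideal.add_mem _ hj₂ (Ideal.mul_le_right hν₂)

lemma Mon_split {R ι : Type*} [CommRing R] (x : ι → R) (ν : ι → ℕ) (j : ι) {z : R}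
    (hz : z ∈ Mon x ν) : ∃ c, ∀ ν' : ι → ℕ, (∀ i, i ≠ j → ν' i = ν i) →
      z - c * x j ^ ν j ∈ Mon x ν' := by
  have h1 : Mon x ν ≤ (⨅ ν' : {ν' : ι → ℕ // ∀ i, i ≠ j → ν' i = ν i}, Mon x ν') ⊔
      Ideal.span {x j ^ ν j} := by
    refine Ideal.span_le.mpr ?_
    rintro _ ⟨i, rfl⟩
    by_cases h : i = j
    · subst h
      exact Submodule.mem_sup_right (Ideal.mem_span_singleton_self _)
    · refine Submodule.mem_sup_left ((Submodule.mem_iInf _).mpr fun ν' => ?_)
      simpa [ν'.2 i h] using pow_mem_Mon x ν' i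
  obtain ⟨c, hc⟩ := mem_sup_span_singleton.mp (h1 hz)
  exact ⟨c, fun ν' h => (Submodule.mem_iInf _).mp hc ⟨ν', h⟩⟩

/-- From the colon property for exponents divisible by `D` to all exponents. -/
lemma monColon_frac {R ι : Type*} [CommRing R] [Fintype ι] (x : ι → R) (D : ℕ) (hD : 1 ≤ D)
    (H : ∀ (ν ν' : ι → ℕ) (i : ι) (b : ℕ) (z : R), (∀ j, j ≠ i → ν' j = ν j) → ν' i = ν i + b →
      x i ^ (D * b) * z ∈ Mon x (fun j => D * ν' j) → z ∈ Mon x (fun j => D * ν j)) :
    MonColon x := by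
  classical
  have key : ∀ S : Finset ι, ∀ (ν ν' : ι → ℕ) (i : ι) (b : ℕ) (z : R), (∀ j, j ∉ S → D ∣ ν j) →
      (i ∉ S → D ∣ b) → (∀ j, j ≠ i → ν' j = ν j) → ν' i = ν i + b →
      x i ^ b * z ∈ Mon x ν' → z ∈ Mon x ν := by
    intro S
    induction S using Finset.induction_on with
    | empty =>
      intro ν ν' i b z h1 h2 h3 h4 h5
      choose μ hμ using fun j => h1 j (by simp)
      obtain ⟨b, rfl⟩ := h2 (by simp)
      obtain rfl : ν = fun j => D * μ j := funext hμ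
      refine H μ (Function.update μ i (μ i + b)) i b z (fun j hj => by simp [hj]) (by simp) ?_
      convert h5 using 2
      ext j
      by_cases hj : j = i
      · subst hj; simp [h4, mul_add]
      · simp [hj, h3 j hj]
    | insert j S hj ih =>
      have ha : ∀ (ν ν' : ι → ℕ) (b : ℕ) (z : R), (∀ i, i ∉ insert j S → D ∣ ν i) →
          (∀ i, i ≠ j → ν' i = ν i) → ν' j = ν j + b → x j ^ b * z ∈ Mon x ν' → z ∈ Mon x ν := by
        intro ν ν' b z h1 h3 h4 h5
        obtain ⟨c, hc⟩ := Mon_split x ν' j h5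
        have h6 : z - c * x j ^ ν j ∈ Mon x (Function.update ν j (D * ν j)) := by
          refine ih _ (Function.update ν j (D * ν j + D * b)) j (D * b) _ (fun i hi => ?_)
            (fun _ => dvd_mul_right _ _) (fun i hi => by simp [hi]) (by simp) ?_
          · by_cases hij : i = j
            · subst hij; simp
            · simpa [hij] using h1 i (by simp [hij, hi])
          · obtain ⟨e, he⟩ := Nat.exists_eq_add_of_le (Nat.le_mul_of_pos_left b hD)
            have h7 := Ideal.mul_mem_left _ (x j ^ e)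
              (hc (Function.update ν j (D * ν j + D * b)) fun i hi => by simp [hi, h3 i hi])
            convert h7 using 1
            rw [he, h4]; ring
        have h8 := Mon_anti x (ν := ν) (ν' := Function.update ν j (D * ν j)) (fun i => by
          by_cases hij : i = j
          · subst hij; simpa using Nat.le_mul_of_pos_left _ hD
          · simp [hij]) h6
        simpa using Ideal.add_mem _ h8 (Ideal.mul_mem_left _ c (pow_mem_Mon x ν j))
      intro ν ν' i b z h1 h2 h3 h4 h5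
      by_cases hij : i = j
      · subst hij; exact ha ν ν' b z h1 h3 h4 h5
      · obtain ⟨e, he⟩ := Nat.exists_eq_add_of_le (Nat.le_mul_of_pos_left (ν j) hD)
        refine ha ν (Function.update ν j (D * ν j)) e z h1 (fun i hi => by simp [hi])
          (by simp [he]) ?_
        refine ih _ (Function.update ν' j (D * ν j)) i b _ (fun i' hi' => ?_)
          (fun hi => h2 (by simp [hij, hi])) (fun i' hi' => ?_) (by simp [hij, h4]) ?_
        · by_cases h : i' = j
          · subst h; simp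
          · simpa [h] using h1 i' (by simp [h, hi'])
        · by_cases h : i' = j
          · subst h; simp
          · simp [h, h3 i' hi']
        · obtain ⟨c, hc⟩ := Mon_split x ν' j h5
          have h7 := Ideal.add_mem _ (Ideal.mul_mem_left _ (x j ^ e)
            (hc (Function.update ν' j (D * ν j)) fun i hi => by simp [hi]))
            (Ideal.mul_mem_left _ c (pow_mem_Mon x (Function.update ν' j (D * ν j)) j))
          convert h7 using 1
          rw [Function.update_self, he, h3 j (Ne.symm hij)]; ring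
  intro ν ν' i b z
  exact key Finset.univ ν ν' i b z (by simp) (by simp)

variable {A B : Type} [CommRing A] [IsLocalRing A] [CommRing B]

/-- The adic closure of an ideal of a big algebra. -/
def cl (φ : A →+* B) (K : Ideal B) : Ideal B := ⨅ N : ℕ, K ⊔ (maximalIdeal A).map φ ^ N

variable {φ : A →+* B}

lemma mem_cl {K : Ideal B} {z : B} :
    z ∈ cl φ K ↔ ∀ N : ℕ, z ∈ K ⊔ (maximalIdeal A).map φ ^ N := Submodule.mem_iInf _

lemma le_cl (K : Ideal B) : K ≤ cl φ K := fun _ h => mem_cl.mpr fun _ => Submodule.mem_sup_left h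

lemma cl_mono {K K' : Ideal B} (h : K ≤ K') : cl φ K ≤ cl φ K' := fun _ hz =>
  mem_cl.mpr fun N => sup_le_sup_right h _ (mem_cl.mp hz N)

lemma cl_mul {K K' : Ideal B} {a b : B} (ha : a ∈ cl φ K) (hb : b ∈ cl φ K') :
    a * b ∈ cl φ (K * K') := by
  refine mem_cl.mpr fun N => ?_
  refine SetLike.le_def.mp ?_ (Ideal.mul_mem_mul (mem_cl.mp ha N) (mem_cl.mp hb N))
  rw [Ideal.sup_mul, Ideal.mul_sup]
  exact sup_le (sup_le le_sup_left (le_sup_of_le_right Ideal.mul_le_right))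
    (le_sup_of_le_right Ideal.mul_le_left)

lemma cl_pow {K : Ideal B} {a : B} (ha : a ∈ cl φ K) (n : ℕ) : a ^ n ∈ cl φ (K ^ n) := by
  induction n with
  | zero => exact le_cl _ (by simp)
  | succ n ih => rw [pow_succ, pow_succ]; exact cl_mul ih ha

lemma cl_le_max {K : Ideal B} (h : K ≤ (maximalIdeal A).map φ) :
    cl φ K ≤ (maximalIdeal A).map φ := fun _ hz =>
  SetLike.le_def.mp (sup_le h (by simp)) (mem_cl.mp hz 1)

variable [IsNoetherianRing A] {D : ℕ} {σ : A → B} (H : IsBig D φ σ)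
include H

lemma IsBig.colon_cl (J : Ideal A) (x : A) (s : B) (hs : φ x * s ∈ cl φ (J.map φ)) :
    s ∈ cl φ ((J.colon {x}).map φ) := by
  obtain ⟨c, hc⟩ := colon_AR J (maximalIdeal A) x
  refine mem_cl.mpr fun N => ?_
  have h1 := mem_cl.mp hs (N + c)
  rw [← Ideal.map_pow, ← Ideal.map_sup] at h1 ⊢
  exact Ideal.map_mono (hc N) (H.colon _ _ le_sup_right x s h1)

lemma IsBig.mem_of_cl (J : Ideal A) (z : A) (hz : φ z ∈ cl φ (J.map φ)) : z ∈ J := by
  by_contra h
  refine H.ne (cl_le_max (Ideal.map_mono (le_maximalIdeal fun h1 => h ?_))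
    (H.colon_cl J z 1 (by simpa using hz)))
  have : (1 : A) ∈ J.colon {z} := by rw [h1]; trivial
  simpa using this

lemma IsBig.inf_fin (J₁ : Ideal A) (n : ℕ) (hn : maximalIdeal A ^ n ≤ J₁) (J₂ : Ideal A) :
    J₁.map φ ⊓ J₂.map φ ≤ (J₁ ⊓ J₂).map φ := by
  classical
  obtain ⟨t, rfl⟩ := (IsNoetherian.noetherian J₂ : J₂.FG)
  change _ ⊓ (Ideal.span (t : Set A)).map φ ≤ (_ ⊓ Ideal.span (t : Set A)).map φ
  induction t using Finset.induction_on with
  | empty => simp
  | insert x t _ ih =>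
    rw [Finset.coe_insert, Ideal.span_insert, sup_comm]
    set J := Ideal.span (t : Set A)
    rintro s ⟨h1, h2⟩
    rw [Ideal.map_sup, Ideal.map_span φ {x}, Set.image_singleton] at h2
    obtain ⟨c, hc⟩ := mem_sup_span_singleton.mp h2
    have h3 := H.colon (J₁ ⊔ J) n (le_sup_of_le_left hn) x c (by
      rw [Ideal.map_sup]
      convert Ideal.sub_mem _ (Submodule.mem_sup_left h1) (Submodule.mem_sup_right hc) using 1
      ring)
    have h4 : (J₁ ⊔ J).colon {x} * Ideal.span {x} ≤ J₁ ⊓ (J ⊔ Ideal.span {x}) ⊔ J := by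
      intro z hz
      obtain ⟨y, hy, rfl⟩ := Ideal.mem_mul_span_singleton.mp hz
      rw [Submodule.mem_colon_singleton, smul_eq_mul] at hy
      obtain ⟨a, ha, b, hb, hab⟩ := Submodule.mem_sup.mp hy
      rw [← hab]
      refine Submodule.add_mem_sup ⟨ha, mem_sup_span_singleton.mpr ⟨y, ?_⟩⟩ hb
      rw [← hab]; simpa using hb
    have h5 := Ideal.map_mono (f := φ) h4 (by
      rw [Ideal.map_mul]
      exact Ideal.mul_mem_mul h3 (Ideal.mem_map_of_mem φ (Ideal.mem_span_singleton_self x)))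
    rw [Ideal.map_sup] at h5
    obtain ⟨a, ha, b, hb, hab⟩ := Submodule.mem_sup.mp h5
    have h6 : s - a ∈ (J₁ ⊓ J).map φ := by
      refine ih ⟨Ideal.sub_mem _ h1 (Ideal.map_mono inf_le_left ha), ?_⟩
      have : s - a = s - c * φ x + b := by rw [← hab]; ring
      rw [this]
      exact Ideal.add_mem _ hc hb
    simpa using Ideal.add_mem _ (Ideal.map_mono (inf_le_inf_left _ le_sup_left) h6) ha

lemma IsBig.inf_cl (J₁ J₂ : Ideal A) {s : B} (h1 : s ∈ cl φ (J₁.map φ))
    (h2 : s ∈ cl φ (J₂.map φ)) : s ∈ cl φ ((J₁ ⊓ J₂).map φ) := by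
  obtain ⟨c, hc⟩ := inf_AR J₁ J₂ (maximalIdeal A)
  refine mem_cl.mpr fun N => ?_
  have h3 := mem_cl.mp h1 (N + c)
  have h4 := mem_cl.mp h2 (N + c)
  rw [← Ideal.map_pow, ← Ideal.map_sup] at h3 h4 ⊢
  exact Ideal.map_mono (hc N) (H.inf_fin _ _ le_sup_right _ ⟨h3, h4⟩)

omit [IsNoetherianRing A] in
lemma IsBig.monColon (hD : 1 ≤ D) {n : ℕ} {y : Fin n → A} (hy : MonColon y) {C : ℕ}
    (hC : maximalIdeal A ^ C ≤ Ideal.span (Set.range y)) : MonColon fun i => σ (y i) := by
  have h1 : ∀ ν : Fin n → ℕ, Mon (fun i => σ (y i)) (fun j => D * ν j) = (Mon y ν).map φ := by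
    intro ν
    rw [Mon_map]
    exact Mon_congr fun i => by rw [pow_mul, H.root]
  refine monColon_frac _ D hD fun ν ν' i b z h2 h3 h4 => ?_
  rw [h1] at h4 ⊢
  rw [pow_mul, H.root, ← map_pow] at h4
  refine Ideal.map_mono (fun a ha => hy ν ν' i b a h2 h3 ?_)
    (H.colon _ (C * (n * ∑ j, ν' j + 1)) ?_ _ _ h4)
  · rw [mul_comm]; simpa using ha
  · rw [pow_mul]
    exact (Ideal.pow_right_mono hC _).trans ((span_pow_le_Mon y _).trans (Mon_anti _ fun j =>
      Finset.single_le_sum (f := ν') (fun _ _ => Nat.zero_le _) (Finset.mem_univ j)))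

omit H in
/-- The local two-step lemma. -/
theorem two_step (A : Type) [CommRing A] [IsRegularLocalRing A] (J : Ideal A)
    (hJ : ∀ P : Ideal A, P.IsPrime → J ≤ P → 2 ≤ P.height) :
    ∃ c₁ c₂ : ℕ, 1 ≤ c₁ ∧ ∀ (q l : ℕ), 1 ≤ q → l ≤ q → ∀ (B : Type) [CommRing B] (φ : A →+* B)
      (σ : A → B), IsBig (c₁ * q) φ σ → ∃ E : Ideal B, E ^ c₂ ≤ (maximalIdeal A).map φ ∧
        ∀ r w : B, (∀ γ ∈ J, ∃ ρ, r * σ γ ^ l - ρ * w ∈ (maximalIdeal A).map φ) →
          r ^ 2 ∈ Ideal.span {w} ⊔ E := by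
  classical
  by_cases htop : J = ⊤
  · refine ⟨1, 1, le_rfl, fun q l hq hl B _ φ σ H =>
      ⟨(maximalIdeal A).map φ, by simp, fun r w h => ?_⟩⟩
    obtain ⟨ρ, hρ⟩ := h 1 (by simp [htop])
    obtain ⟨e, rfl⟩ := Nat.exists_eq_add_of_le hl
    have h1 := H.root 1
    rw [one_mul, map_one, pow_add] at h1
    rw [sup_comm]
    refine mem_sup_span_singleton.mpr ⟨r * ρ * σ 1 ^ e, ?_⟩
    convert Ideal.mul_mem_left _ (r * σ 1 ^ e) hρ using 1
    linear_combination (-r ^ 2) * h1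
  obtain ⟨n, y, C, hy, hym, hC1, hC, i₁, i₂, hne, hi₁, hi₂⟩ :=
    exists_sop A J (le_maximalIdeal htop) hJ
  have hc₁ : 1 ≤ C * (2 * n + 1) := Nat.mul_pos hC1 (by omega)
  refine ⟨C * (2 * n + 1), n * (C * (2 * n + 1)) + 1, hc₁, fun q l hq hl B _ φ σ H => ?_⟩
  set η : Fin n → B := fun i => σ (y i) with hη
  have hcol : MonColon η := H.monColon (Nat.mul_pos hc₁ hq) hy hC
  have hroot : ∀ i, η i ^ (C * (2 * n + 1) * q) = φ (y i) := fun i => H.root _
  have hm : (maximalIdeal A).map φ ≤ Mon η fun _ => q + q := by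
    rw [Ideal.map_le_iff_le_comap]
    intro x hx
    have h1 := H.bs n y (Multiset.replicate (C * (2 * n + 1) * q) x) ((2 * n + 1) * q) 0 (q + q) C
      (by
        rw [Multiset.prod_replicate, mul_assoc, pow_mul x]
        exact Ideal.pow_mem_pow (hC (Ideal.pow_mem_pow hx C)) _) (by nlinarith)
    rw [Multiset.map_replicate, Multiset.prod_replicate, H.root, zero_add, pow_one,
      ← Ideal.map_pow] at h1
    rw [Ideal.mem_comap]
    refine SetLike.le_def.mp (sup_le le_rfl ((Ideal.map_mono hC).trans ?_)) h1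
    rw [← Mon_one, Mon_map, Mon_congr (y := η) (ν' := fun _ => C * (2 * n + 1) * q)
      fun i => by rw [pow_one, hroot]]
    refine Mon_anti _ fun i => ?_
    have : 1 ≤ n := Nat.pos_of_ne_zero (by rintro rfl; exact i.elim0)
    have : 2 ≤ C * (2 * n + 1) := by nlinarith
    nlinarith
  refine ⟨Mon η fun _ => q, ?_, fun r w h => ?_⟩
  · refine (span_pow_le_Mon (fun i => η i ^ q) _).trans (Ideal.span_le.mpr ?_)
    rintro _ ⟨i, rfl⟩
    change (η i ^ q) ^ _ ∈ _
    rw [← pow_mul, mul_comm q, hroot]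
    exact Ideal.mem_map_of_mem _ (hym i)
  obtain ⟨ρ₁, h1⟩ := h _ hi₁
  obtain ⟨ρ₂, h2⟩ := h _ hi₂
  replace h1 : r * η i₁ ^ l - ρ₁ * w ∈ Mon η fun _ => q + l :=
    Mon_anti _ (fun _ => by omega) (hm h1)
  replace h2 : r * η i₂ ^ l - ρ₂ * w ∈ Mon η fun _ => q + l :=
    Mon_anti _ (fun _ => by omega) (hm h2)
  have h3 : r * ρ₂ ∈ Mon η (Function.update (Function.update (fun _ => q + l) i₁ q) i₂ l) := by
    refine hcol _ (Function.update (fun _ => q + l) i₂ l) i₁ l _ (fun j hj => ?_)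
      (by simp [hne]) ?_
    · by_cases h : j = i₂
      · subst h; simp
      · simp [h, hj]
    · have h4 : (Mon η fun _ => q + l) ≤ Mon η (Function.update (fun _ => q + l) i₂ l) :=
        Mon_anti _ fun j => by
          by_cases h : j = i₂
          · subst h; simp
          · simp [h]
      have h5 := pow_mem_Mon η (Function.update (fun _ => q + l) i₂ l) i₂
      rw [Function.update_self] at h5
      convert Ideal.add_mem _ (Ideal.sub_mem _ (Ideal.mul_mem_left _ ρ₂ (h4 h1))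
        (Ideal.mul_mem_left _ ρ₁ (h4 h2))) (Ideal.mul_mem_left _ (r * ρ₁) h5) using 1
      ring
  obtain ⟨c, hc⟩ := Mon_split η _ i₂ h3
  rw [Function.update_self] at hc
  have h4 := hc (Function.update (fun _ => q + l) i₁ q) fun i hi => by simp [hi]
  have h5 : (Mon η fun _ => q + l) ≤ Mon η (Function.update (fun _ => q + l) i₁ q) :=
    Mon_anti _ fun j => by
      by_cases h : j = i₁
      · subst h; simp
      · simp [h]
  have h6 : r ^ 2 - c * w ∈
      Mon η (Function.update (Function.update (fun _ => q + l) i₁ q) i₂ q) := by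
    refine hcol _ (Function.update (fun _ => q + l) i₁ q) i₂ l _ (fun j hj => by simp [hj])
      (by simp [hne.symm]) ?_
    convert Ideal.add_mem _ (Ideal.mul_mem_left _ r (h5 h2)) (Ideal.mul_mem_left _ w h4) using 1
    ring
  rw [sup_comm]
  refine mem_sup_span_singleton.mpr ⟨c, Mon_anti _ (fun j => ?_) h6⟩
  by_cases h : j = i₂
  · subst h; simp
  · by_cases h' : j = i₁
    · subst h'; simp [h]
    · simp [h, h']

end Pool.Agent.P.MP_fcbc4b_ag
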