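import Pool.Agent.P.MP_fcbc4b_ag.Glob

/-! The containment theorem in all regular rings. -/

set_option autoImplicit false

namespace Pool.Agent.P.MP_fcbc4b_ag

open IsLocalRing Polynomial

section rees

variable {R : Type*} [CommRing R] [IsNoetherianRing R] (I : Ideal R)

lemma rees_val (𝔓 : Ideal (reesAlgebra I))
    (h𝔓 : 𝔓 ∈ (I.map (algebraMap R (reesAlgebra I))).minimalPrimes) :
    ∃ C : ℕ, ∀ (k : ℕ) (u : R) (hu : u ∈ I ^ k) (n' n β : ℕ) (s : R),
      s ∉ 𝔓.comap (algebraMap R (reesAlgebra I)) → k * n' + 1 ≤ n + β →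
      s * u ^ n' ∈ I ^ (k * n' + 1) ⊔ 𝔓.comap (algebraMap R (reesAlgebra I)) ^ (C * β) * I ^ n →
      (⟨_, reesAlgebra.monomial_mem.mpr hu⟩ : reesAlgebra I) ∈ 𝔓 := by
  have hP := h𝔓.1.1
  set L : Ideal (reesAlgebra I) := I.map (algebraMap R (reesAlgebra I)) with hL
  set 𝔮 := 𝔓.comap (algebraMap R (reesAlgebra I)) with h𝔮
  obtain ⟨C, hC⟩ := Ideal.exists_radical_pow_le_of_fg
    (L.map (algebraMap _ (Localization.AtPrime 𝔓))) (IsNoetherian.noetherian _)
  rw [IsLocalization.AtPrime.radical_map_of_mem_minimalPrimes _ 𝔓 L h𝔓, ← Ideal.map_pow] at hC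
  obtain ⟨w, hw, hw'⟩ := exists_mul_le_of_loc 𝔓 _ _ (IsNoetherian.noetherian _) hC
  have ha : ∃ a, (⟨_, reesAlgebra.monomial_mem.mpr (w.2 a)⟩ : reesAlgebra I) ∉ 𝔓 := by
    by_contra h
    push Not at h
    apply hw
    have : w = ∑ a ∈ (w : R[X]).support,
        (⟨_, reesAlgebra.monomial_mem.mpr (w.2 a)⟩ : reesAlgebra I) := by
      apply Subtype.ext
      rw [AddSubmonoidClass.coe_finsetSum]
      exact as_sum_support _
    rw [this]
    exact Ideal.sum_mem _ fun a _ => h a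
  obtain ⟨a, ha⟩ := ha
  set σ₀ := (w : R[X]).coeff a with hσ₀
  have h1 : Ideal.span {σ₀} * 𝔮 ^ C ≤ I ^ (a + 1) := by
    intro z hz
    obtain ⟨y, hy, rfl⟩ := Ideal.mem_span_singleton_mul.mp hz
    have h2 := mem_map_coeff I _ (hw' _ (Ideal.le_comap_pow _ C hy)) a
    rwa [Subalgebra.coe_mul, show ((algebraMap R (reesAlgebra I) y : reesAlgebra I) : R[X]) =
      Polynomial.C y from rfl, coeff_mul_C] at h2
  refine ⟨C, fun k u hu n' n β s hs hn h2 => ?_⟩
  have h3 : σ₀ ^ β * (s * u ^ n') ∈ 𝔮 * I ^ (a * β + k * n') := by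
    refine Ideal.mul_mono_left (Ideal.map_le_iff_le_comap.mp h𝔓.1.2 : I ≤ 𝔮) ?_
    rw [← pow_succ']
    refine SetLike.le_def.mp ?_
      (Ideal.mul_mem_mul (Ideal.pow_mem_pow (Ideal.mem_span_singleton_self σ₀) β) h2)
    rw [Ideal.mul_sup]
    refine sup_le ?_ ?_
    · rw [add_assoc, pow_add I (a * β), pow_mul I a]
      exact Ideal.mul_mono_left (Ideal.pow_right_mono
        ((Ideal.span_singleton_le_iff_mem _).mpr (w.2 a)) _)
    · rw [← mul_assoc, pow_mul, ← mul_pow]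
      refine (Ideal.mul_mono_left (Ideal.pow_right_mono h1 _)).trans ?_
      rw [← pow_mul, ← pow_add]
      exact Ideal.pow_le_pow_right (by rw [add_mul]; omega)
  obtain ⟨h4, h5⟩ := monomial_mem_prime I 𝔓 _ _ h3
  have h6 : (⟨_, reesAlgebra.monomial_mem.mpr (w.2 a)⟩ : reesAlgebra I) ^ β *
      (algebraMap R _ s * (⟨_, reesAlgebra.monomial_mem.mpr hu⟩ : reesAlgebra I) ^ n') ∈ 𝔓 := by
    convert h5 using 1
    apply Subtype.ext
    change monomial a σ₀ ^ β * (Polynomial.C s * monomial k u ^ n') = _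
    rw [monomial_pow, monomial_pow, C_mul_monomial, monomial_mul_monomial]
  exact hP.mem_of_pow_mem _ (((hP.mem_or_mem h6).resolve_left
    fun h => ha (hP.mem_of_pow_mem _ h)) |> hP.mem_or_mem |>.resolve_left hs)

theorem rees_step' (𝔠 : ℕ → Ideal R) (hc : ∀ k, 𝔠 k ≤ I ^ k)
    (H : ∀ 𝔓 ∈ (I.map (algebraMap R (reesAlgebra I))).minimalPrimes, ∀ᶠ k in Filter.atTop,
      ∀ u (hu : u ∈ 𝔠 k), (⟨_, reesAlgebra.monomial_mem.mpr (hc k hu)⟩ : reesAlgebra I) ∈ 𝔓) :
    ∃ k N, 1 ≤ k ∧ 𝔠 k ^ (N + 1) ≤ I ^ (k * (N + 1) + 1) := by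
  set L : Ideal (reesAlgebra I) := I.map (algebraMap R (reesAlgebra I)) with hL
  obtain ⟨N, hN⟩ := Ideal.exists_radical_pow_le_of_fg L (IsNoetherian.noetherian _)
  have hfin := Ideal.finite_minimalPrimes_of_isNoetherianRing _ L
  obtain ⟨k, he, hk⟩ :=
    (((Filter.eventually_all_finite hfin).mpr H).and (Filter.eventually_ge_atTop 1)).exists
  have hrad : ∀ u (hu : u ∈ 𝔠 k),
      (⟨_, reesAlgebra.monomial_mem.mpr (hc k hu)⟩ : reesAlgebra I) ∈ L.radical := by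
    intro u hu
    rw [← Ideal.sInf_minimalPrimes, Submodule.mem_sInf]
    exact fun 𝔓 h𝔓 => he 𝔓 h𝔓 u hu
  have hpow : ∀ j, ∀ z ∈ 𝔠 k ^ j, ∃ h : monomial (k * j) z ∈ reesAlgebra I,
      (⟨_, h⟩ : reesAlgebra I) ∈ L.radical ^ j := by
    intro j
    induction j with
    | zero => intro z _; exact ⟨reesAlgebra.monomial_mem.mpr (by simp), by simp⟩
    | succ j ih =>
      intro z hz
      rw [pow_succ] at hz
      refine Submodule.mul_induction_on hz ?_ ?_
      · intro a ha b hb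
        obtain ⟨h1, h2⟩ := ih a ha
        have h3 := Ideal.mul_mem_mul h2 (hrad b hb)
        have h4 : monomial (k * (j + 1)) (a * b) = monomial (k * j) a * monomial k b := by
          rw [monomial_mul_monomial, mul_add, mul_one]
        refine ⟨by
          rw [h4]; exact Subalgebra.mul_mem _ h1 (reesAlgebra.monomial_mem.mpr (hc k hb)), ?_⟩
        rw [pow_succ]
        convert h3 using 1
        exact Subtype.ext h4
      · rintro x y ⟨hx, hx'⟩ ⟨hy, hy'⟩
        refine ⟨by rw [map_add]; exact Subalgebra.add_mem _ hx hy, ?_⟩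
        have := Ideal.add_mem _ hx' hy'
        convert this using 1
        apply Subtype.ext
        simp
  refine ⟨k, N, hk, fun z hz => ?_⟩
  obtain ⟨h1, h2⟩ := hpow _ z hz
  have := mem_map_coeff I _ (hN (Ideal.pow_le_pow_right (Nat.le_succ N) h2)) (k * (N + 1))
  simpa using this

end rees

variable {R : Type} [CommRing R] [IsRegularRing R] {I : Ideal R} (hI : I.IsRadical) (h : ℕ)
  (hh : ∀ P ∈ I.minimalPrimes, P.height ≤ (h : ℕ∞))
include hI hh

theorem fin_step (k a₁ a₂ n m : ℕ) (hk : 1 ≤ k) (hm : 1 ≤ m) (hα : h * (k * a₁ + a₂) ≤ m)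
    (hc : (symb I (h * k - h + 1) ⊓ I ^ k) ^ a₁ * I ^ a₂ ≤ I ^ n) : symb I m ≤ I ^ n := by
  intro u hu
  by_contra hu'
  have hne : (I ^ n).colon {u} ≠ ⊤ := fun h => hu' (by
    have : (1 : R) ∈ (I ^ n).colon {u} := by rw [h]; trivial
    simpa using this)
  obtain ⟨𝔪, h𝔪, hle⟩ := Ideal.exists_le_maximal _ hne
  set A := Localization.AtPrime 𝔪
  set ι := algebraMap R A with hι
  obtain ⟨r, hr⟩ : ∃ r, ι u ∉ maximalIdeal A ^ r := by
    by_contra hcon
    push Not at hcon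
    obtain ⟨t, ht⟩ := (IsLocalization.map_eq_zero_iff 𝔪.primeCompl A u).mp
      (krull_sup ⊥ (ι u) fun n => by simpa using hcon n)
    exact t.2 (hle (by simp [ht]))
  set α := k * a₁ + a₂ with hα'
  set D := α * r + 1 with hD
  obtain ⟨B, _, φ, σ, H⟩ := exists_big A D (by omega)
  set z := σ (ι u) with hz
  set j := h * D / m + 1 with hj
  have hj' : h * D < m * j := Nat.lt_mul_div_succ _ hm
  have h1 : z ^ j ∈ cl φ ((I.map ι).map φ) :=
    root_mem 𝔪.primeCompl H (by omega) hI h hh hu j hj'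
  have h2 : z ^ (j * k) ∈ cl φ (((symb I (h * k - h + 1) ⊓ I ^ k).map ι).map φ) := by
    rw [IsLocalization.map_inf 𝔪.primeCompl]
    refine H.inf_cl _ _ (root_mem_symb 𝔪.primeCompl H (by omega) hI h hh hu _ _ ?_) ?_
    · rw [Nat.add_sub_cancel' (Nat.le_mul_of_pos_right h hk), ← mul_assoc, mul_right_comm]
      exact Nat.mul_lt_mul_of_pos_right hj' hk
    · rw [Ideal.map_pow, Ideal.map_pow, pow_mul]
      exact cl_pow h1 k
  have h3 : z ^ (j * α) ∈ cl φ (((I ^ n).map ι).map φ) := by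
    have := cl_mul (cl_pow h2 a₁) (cl_pow h1 a₂)
    rw [← pow_mul, ← pow_mul, ← pow_add, ← Ideal.map_pow, ← Ideal.map_pow, ← Ideal.map_pow,
      ← Ideal.map_pow, ← Ideal.map_mul, ← Ideal.map_mul, mul_assoc, ← mul_add] at this
    exact cl_mono (Ideal.map_mono (Ideal.map_mono hc)) this
  have h4 : j * α ≤ D + α := by
    rw [hj, add_mul, one_mul, Nat.add_le_add_iff_right]
    apply Nat.le_of_mul_le_mul_left _ hm
    calc m * (h * D / m * α) = m * (h * D / m) * α := by ring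
      _ ≤ h * D * α := Nat.mul_le_mul_right _ (Nat.mul_div_le _ _)
      _ = h * α * D := by ring
      _ ≤ m * D := by gcongr
  obtain ⟨e, he⟩ := Nat.exists_eq_add_of_le h4
  have h5 : z ^ α ∈ (maximalIdeal A).map φ := by
    refine cl_le_max (Ideal.map_mono ((colon_map_loc 𝔪.primeCompl A _ u).trans ?_))
      (H.colon_cl ((I ^ n).map ι) (ι u) _ ?_)
    · rw [← Localization.AtPrime.map_eq_maximalIdeal]
      exact Ideal.map_mono hle
    · rw [← H.root, ← pow_add, he, pow_add]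
      exact Ideal.mul_mem_right _ _ h3
  refine hr (H.mem_of_cl _ _ (le_cl _ ?_))
  rw [← H.root, hD, pow_succ, pow_mul, Ideal.map_pow]
  exact Ideal.mul_mem_right _ _ (Ideal.pow_mem_pow h5 r)

theorem key_claim (h2 : 2 ≤ h) (𝔮 : Ideal R) [𝔮.IsPrime] (C : ℕ) :
    ∀ᶠ k in Filter.atTop, ∀ u ∈ symb I (h * k - h + 1) ⊓ I ^ k, ∃ (n' n β : ℕ) (s : R), s ∉ 𝔮 ∧
      k * n' + 1 ≤ n + β ∧ s * u ^ n' ∈ I ^ (k * n' + 1) ⊔ 𝔮 ^ (C * β) * I ^ n := by
  classical
  have hfin := Ideal.finite_minimalPrimes_of_isNoetherianRing R I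
  set J : Ideal R := (hfin.toFinset.filter fun P => P.height = (h : ℕ∞)).inf id with hJ
  set A := Localization.AtPrime 𝔮
  set ι := algebraMap R A with hι
  obtain ⟨c₁, c₂, hc₁, H2⟩ := two_step A (J.map ι) (by
    intro P hP hle
    obtain ⟨P', hP', h1⟩ := (hP.comap ι).inf_le'.mp (Ideal.map_le_iff_le_comap.mp hle)
    have := Ideal.height_mono (show P' ≤ P.under R from h1)
    rw [(Finset.mem_filter.mp hP').2, IsLocalization.height_under 𝔮.primeCompl] at this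
    exact le_trans (by exact_mod_cast h2) this)
  obtain ⟨c₃, H3⟩ := key_big (I.map ι)
  obtain ⟨h', rfl⟩ : ∃ h', h = h' + 1 := ⟨h - 1, by omega⟩
  set c₄ := c₃ * (1 + c₂ * C) with hc₄
  set b := (1 + c₁ * h') * c₄ + 1 with hb
  filter_upwards [Filter.eventually_ge_atTop b] with k hk u hu
  obtain ⟨k', rfl⟩ : ∃ k', k = k' + 1 := ⟨k - 1, by omega⟩
  have hm₀ : (h' + 1) * (k' + 1) - (h' + 1) + 1 = (h' + 1) * k' + 1 := by
    rw [mul_add, mul_one, Nat.add_sub_cancel]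
  rw [hm₀] at hu
  set k := k' + 1 with hk'
  set m := (h' + 1) * k' + 1 with hm
  set D := c₁ * (m * k) with hD
  have hkm : k ≤ m := by rw [hm, hk']; nlinarith
  have hk1 : 1 ≤ k := by omega
  have hq : 1 ≤ m * k := Nat.mul_pos (by omega) hk1
  have hD1 : 1 ≤ D := Nat.mul_pos hc₁ hq
  have hbk : b ≤ c₁ * k := hk.trans (Nat.le_mul_of_pos_left _ hc₁)
  obtain ⟨j, hj⟩ : ∃ j, c₁ * k + 1 = b + j := Nat.exists_eq_add_of_le (by omega)
  obtain ⟨B, _, φ, σ, H⟩ := exists_big A D hD1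
  obtain ⟨E, hE, H4⟩ := H2 (m * k) (m * b) hq (by gcongr) B φ σ H
  set z := σ (ι u) with hz
  have hT : (h' + 1) * D < m * (h' * c₁ * k + j) + m * b := by
    rw [← mul_add, add_assoc, add_comm j, ← hj, hD]
    nlinarith
  have h3 := H3 B φ σ D H (z ^ (h' * c₁ * k + j)) (z ^ b) ((fun γ => σ γ ^ (m * b)) '' (J.map ι))
    (Ideal.span {z ^ b} ⊔ E)
    (by
      rw [← pow_add]
      exact root_mem 𝔮.primeCompl H hD1 hI _ hh hu.1 _ (by rwa [mul_add m]))
    (by
      rintro _ ⟨γ, hγ, rfl⟩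
      refine root_mul_mem 𝔮.primeCompl H hD1 hI _ hh hu.1 _ _ hT ?_ γ fun P hP hP' =>
        Ideal.map_mono (Finset.inf_le (f := id)
          (Finset.mem_filter.mpr ⟨hfin.mem_toFinset.mpr hP, hP'⟩) : J ≤ P) hγ
      have : 1 ≤ j := by omega
      rw [Nat.add_sub_cancel, hD]
      nlinarith)
    (fun r hr => H4 r _ fun γ hγ => hr _ ⟨γ, hγ, rfl⟩)
  set T := h' * c₁ * k + j + b with hT'
  have h4 := cl_pow h3 (D + c₂ * (C * D))
  have h5 : φ (ι (u ^ (T * c₄))) ∈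
      cl φ ((((I ^ (k * b) ⊔ 𝔮 ^ (C * D)) * I ^ (D * c₄)).map ι).map φ) := by
    rw [← pow_add, ← pow_mul, ← pow_mul, show T * (c₃ * (D + c₂ * (C * D))) = D * (T * c₄) by
      rw [hc₄]; ring, pow_mul, H.root, ← map_pow, ← map_pow, mul_pow, ← pow_mul,
      show c₃ * (D + c₂ * (C * D)) = D * c₄ by rw [hc₄]; ring] at h4
    refine cl_mono ?_ h4
    rw [Ideal.map_mul, Ideal.map_mul, Ideal.map_sup, Ideal.map_sup, Ideal.map_pow, Ideal.map_pow,
      Ideal.map_pow, Ideal.map_pow, Ideal.map_pow, Ideal.map_pow]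
    refine Ideal.mul_mono_left (Ideal.sup_pow_add_le_pow_sup_pow.trans (sup_le_sup ?_ ?_))
    · rw [Ideal.span_singleton_pow, Ideal.span_singleton_le_iff_mem, ← pow_mul, mul_comm b,
        pow_mul z, H.root, pow_mul, ← Ideal.map_pow φ _ k, ← Ideal.map_pow ι]
      exact Ideal.pow_mem_pow (Ideal.mem_map_of_mem φ (Ideal.mem_map_of_mem ι hu.2)) _
    · rw [pow_mul, Localization.AtPrime.map_eq_maximalIdeal]
      exact Ideal.pow_right_mono hE _
  obtain ⟨s, hs, h6⟩ := (IsLocalization.algebraMap_mem_map_algebraMap_iff 𝔮.primeCompl _ _ _).mp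
    (H.mem_of_cl _ _ h5)
  have hkT : k * (T * c₄) + k = k * b + D * c₄ := by
    have e1 : T = h' * c₁ * k + (c₁ * k + 1) := by rw [hT', hj]; ring
    rw [e1, hD, hb, hm, hk']
    ring
  refine ⟨T * c₄, D * c₄, D, s, hs, ?_, ?_⟩
  · have : k * b ≤ D := by
      rw [hD, mul_comm m, mul_left_comm]
      gcongr
      exact hk.trans (hkm.trans (Nat.le_mul_of_pos_left _ hc₁))
    omega
  · rw [Ideal.sup_mul, ← pow_add] at h6
    have h7 : I ^ (k * b + D * c₄) ≤ I ^ (k * (T * c₄) + 1) := Ideal.pow_le_pow_right (by omega)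
    exact SetLike.le_def.mp (sup_le_sup_right h7 _) h6

theorem gen_two (h2 : 2 ≤ h) :
    ∃ B : ℕ, 2 ≤ B ∧ ∀ n, symb I (h * (n - n / B)) ≤ I ^ n := by
  obtain ⟨k, N, hk, hN⟩ := rees_step' I (fun k => symb I (h * k - h + 1) ⊓ I ^ k)
    (fun k => inf_le_right) (fun 𝔓 h𝔓 => by
      obtain ⟨C, hC⟩ := rees_val I 𝔓 h𝔓
      have := h𝔓.1.1
      filter_upwards [key_claim hI h hh h2 (𝔓.comap (algebraMap R (reesAlgebra I))) C] with k hk u hu
      obtain ⟨n', n, β, s, h1, h3, h4⟩ := hk u hu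
      exact hC k u hu.2 n' n β s h1 h3 h4)
  set B := k * (N + 1) + 1 with hB
  have hB2 : 2 ≤ B := by
    have : 0 < k * (N + 1) := Nat.mul_pos hk (Nat.succ_pos N)
    omega
  refine ⟨B, hB2, fun n => ?_⟩
  rcases Nat.eq_zero_or_pos n with rfl | hn
  · simp
  have hdm := Nat.div_add_mod n B
  refine fin_step hI h hh k ((N + 1) * (n / B)) (n % B) n _ hk ?_ ?_ ?_
  · have : n / B < n := Nat.div_lt_self hn (by omega)
    exact Nat.mul_pos (by omega) (by omega)
  · have : n - n / B = k * ((N + 1) * (n / B)) + n % B := by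
      apply Nat.sub_eq_of_eq_add
      rw [← hdm]
      conv_rhs => rw [hdm]
      rw [hB]; ring
    rw [this]
  · rw [pow_mul]
    refine (Ideal.mul_mono_left (Ideal.pow_right_mono hN _)).trans ?_
    rw [← pow_mul, ← pow_add, hdm]

theorem gen_stable : ∃ N : ℕ, ∀ n, N ≤ n → symb I (h * n - h + 1) ≤ I ^ n := by
  rcases Nat.lt_or_ge h 2 with h2 | h2
  · refine ⟨1, fun n hn => fin_step hI h hh 1 0 n n _ le_rfl (by omega) ?_ (by simp)⟩
    interval_cases h <;> omega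
  · obtain ⟨B, hB, H⟩ := gen_two hI h hh h2
    refine ⟨B, fun n hn => (symb_anti I ?_).trans (H n)⟩
    have : 1 ≤ n / B := (Nat.one_le_div_iff (by omega)).mpr hn
    calc h * (n - n / B) ≤ h * (n - 1) := Nat.mul_le_mul_left _ (by omega)
      _ = h * n - h := by rw [Nat.mul_sub, mul_one]
      _ ≤ _ := Nat.le_succ _

end Pool.Agent.P.MP_fcbc4b_ag
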