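import Pool.Agent.P.MP_fcbc4b_ag.Symb

/-! The containment theorem in prime characteristic. -/

set_option autoImplicit false

namespace Pool.Agent.P.MP_fcbc4b_ag

open IsLocalRing

section pair

variable {R : Type*} [CommRing R] [IsRegularRing R]

omit [IsRegularRing R] in
lemma loc_ne_zero {P : Ideal R} [P.IsPrime] {g : R} (hg : ∀ a, g * a = 0 → a = 0) :
    algebraMap R (Localization.AtPrime P) g ≠ 0 := by
  intro h
  obtain ⟨t, ht⟩ := (IsLocalization.map_eq_zero_iff P.primeCompl _ _).mp h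
  have : (t : R) = 0 := hg _ (by rwa [mul_comm])
  exact t.2 (this ▸ P.zero_mem)

lemma exists_pair (J : Ideal R) (hJ : ∀ P : Ideal R, P.IsPrime → J ≤ P → 2 ≤ P.height) :
    ∃ g' ∈ J, ∃ g ∈ J, (∀ a, g' * a = 0 → a = 0) ∧
      ∀ a, g * a ∈ Ideal.span {g'} → a ∈ Ideal.span {g'} := by
  have main : ∀ (K : Ideal R) (y : R) [hP : (K.colon {y}).IsPrime], J ≤ K.colon {y} →
      ∃ x₁ x₂ : Localization.AtPrime (K.colon {y}), x₁ ≠ 0 ∧
        (∀ a, x₂ * a ∈ Ideal.span {x₁} → a ∈ Ideal.span {x₁}) ∧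
        x₁ * algebraMap R _ y ∈ K.map (algebraMap R _) ∧
        x₂ * algebraMap R _ y ∈ K.map (algebraMap R _) ∧
        algebraMap R (Localization.AtPrime (K.colon {y})) y ∉ K.map (algebraMap R _) := by
    intro K y hP hle
    obtain ⟨hD, l, hl, hreg, hgen⟩ := regular_seq (Localization.AtPrime (K.colon {y}))
    rw [IsLocalization.AtPrime.ringKrullDim_eq_height (K.colon {y})] at hl
    have h2 : 2 ≤ l.length := by
      have := hJ _ hP hle
      rw [← WithBot.coe_eq_coe.mp hl] at this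
      exact_mod_cast this
    have hm : ∀ x ∈ maximalIdeal (Localization.AtPrime (K.colon {y})),
        x * algebraMap R _ y ∈ K.map (algebraMap R (Localization.AtPrime (K.colon {y}))) := by
      intro x hx
      rw [← Localization.AtPrime.map_eq_maximalIdeal] at hx
      have : (K.colon {y}).map (algebraMap R (Localization.AtPrime (K.colon {y}))) ≤
          (K.map (algebraMap R (Localization.AtPrime (K.colon {y})))).colon {algebraMap R _ y} := by
        rw [Ideal.map_le_iff_le_comap]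
        intro a ha
        rw [Ideal.mem_comap, Submodule.mem_colon_singleton, smul_eq_mul, ← map_mul]
        exact Ideal.mem_map_of_mem _ (by simpa using ha)
      simpa using this hx
    match l, h2 with
    | x₁ :: x₂ :: l, _ =>
      refine ⟨x₁, x₂, ?_, ?_, hm _ ?_, hm _ ?_, ?_⟩
      · intro h
        have := hreg.1 1 (by simp [h])
        simp at this
      · simpa using hreg.2.1
      · rw [← hgen]; exact Ideal.subset_span (by simp)
      · rw [← hgen]; exact Ideal.subset_span (by simp)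
      · intro h
        obtain ⟨t, ht, h1⟩ :=
          (IsLocalization.algebraMap_mem_map_algebraMap_iff (K.colon {y}).primeCompl _ _ _).mp h
        exact ht (by simpa using h1)
  obtain ⟨g', hg', h1⟩ := nzd_exists ⊥ J (by
    intro y hP hle
    obtain ⟨x₁, -, hx, -, h1, -, h2⟩ := main ⊥ y hle
    have := (regular_seq (Localization.AtPrime ((⊥ : Ideal R).colon {y}))).1
    rw [Ideal.map_bot, Ideal.mem_bot] at h1 h2
    exact h2 ((mul_eq_zero.mp h1).resolve_left hx))
  have h1' : ∀ a, g' * a = 0 → a = 0 := by simpa using h1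
  obtain ⟨g, hg, h2⟩ := nzd_exists (Ideal.span {g'}) J (by
    intro y hP hle
    obtain ⟨x₁, x₂, hx, hx2, h3, h4, h5⟩ := main (Ideal.span {g'}) y hle
    have := (regular_seq (Localization.AtPrime ((Ideal.span {g'} : Ideal R).colon {y}))).1
    rw [Ideal.map_span, Set.image_singleton] at h3 h4 h5
    have h0 := loc_ne_zero (P := (Ideal.span {g'} : Ideal R).colon {y}) h1'
    obtain ⟨a, ha⟩ := Ideal.mem_span_singleton'.mp h3
    obtain ⟨b, hb⟩ := Ideal.mem_span_singleton'.mp h4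
    have h6 : x₂ * a = b * x₁ := by
      apply mul_right_cancel₀ h0
      linear_combination x₂ * ha - x₁ * hb
    obtain ⟨c, hc⟩ := Ideal.mem_span_singleton'.mp (hx2 a (Ideal.mem_span_singleton'.mpr ⟨b, h6.symm⟩))
    refine h5 (Ideal.mem_span_singleton'.mpr ⟨c, ?_⟩)
    apply mul_left_cancel₀ hx
    rw [← ha, ← hc]; ring)
  exact ⟨g', hg', g, hg, h1', h2⟩

end pair

variable {p : ℕ} [Fact p.Prime] {R : Type*} [CommRing R] [CharP R p] [IsRegularRing R]

lemma map_eq_max {R : Type*} [CommRing R] {I : Ideal R} (hI : I.IsRadical) {P : Ideal R}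
    [P.IsPrime] (hP : P ∈ I.minimalPrimes) :
    I.map (algebraMap R (Localization.AtPrime P)) = maximalIdeal _ := by
  rw [← Localization.AtPrime.map_eq_maximalIdeal,
    ← IsLocalization.AtPrime.radical_map_of_mem_minimalPrimes _ P I hP,
    ← IsLocalization.map_radical P.primeCompl, hI.radical]

lemma symb_loc {R : Type*} [CommRing R] {I : Ideal R} {P : Ideal R} [P.IsPrime]
    (hP : P ∈ I.minimalPrimes) {k : ℕ} {z : R} (hz : z ∈ symb I k) :
    algebraMap R (Localization.AtPrime P) z ∈ maximalIdeal _ ^ k := by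
  rw [← Localization.AtPrime.map_eq_maximalIdeal, ← Ideal.map_pow]
  obtain ⟨t, ht, h⟩ := hz P hP
  exact (IsLocalization.algebraMap_mem_map_algebraMap_iff P.primeCompl _ _ _).mpr
    ⟨t, ht, Ideal.pow_right_mono hP.1.2 _ h⟩

lemma ph_loc {I : Ideal R} (hI : I.IsRadical) {P : Ideal R} [P.IsPrime] (hP : P ∈ I.minimalPrimes)
    (h : ℕ) (hh : P.height ≤ (h : ℕ∞)) (e k M : ℕ) (hM : k * p ^ e + h * (p ^ e - 1) + 1 ≤ M)
    (z : R) (hz : algebraMap R (Localization.AtPrime P) z ∈ maximalIdeal _ ^ M) :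
    ∃ t, t ∉ P ∧ t * z ∈ fpow p e (I ^ (k + 1)) := by
  have := charP_loc (p := p) P
  obtain ⟨s, hs, hspan⟩ := Submodule.FG.exists_span_finset_card_eq_spanFinrank
    (IsNoetherian.noetherian (maximalIdeal (Localization.AtPrime P)))
  have h1 := (inferInstance : IsRegularLocalRing (Localization.AtPrime P)).spanFinrank_maximalIdeal
  rw [IsLocalization.AtPrime.ringKrullDim_eq_height P, ← hs] at h1
  have h2 : s.card ≤ h := by
    have : ((s.card : ℕ∞)) = P.height := WithBot.coe_eq_coe.mp h1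
    rw [← this] at hh
    exact_mod_cast hh
  have h3 := pigeon (p := p) e s k M (le_trans (by gcongr) hM)
  have hspan' : Ideal.span (s : Set (Localization.AtPrime P)) = maximalIdeal _ := hspan
  rw [hspan'] at h3
  have h4 := h3 hz
  rw [← map_eq_max hI hP, ← Ideal.map_pow, ← fpow_map] at h4
  exact (IsLocalization.algebraMap_mem_map_algebraMap_iff P.primeCompl _ _ _).mp h4

lemma mem_fpow_of_loc {I K : Ideal R}
    (hK : ∀ t a, (∀ P ∈ I.minimalPrimes, t ∉ P) → t * a ∈ K → a ∈ K) (e : ℕ) (z : R)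
    (hz : ∀ P ∈ I.minimalPrimes, ∃ t, t ∉ P ∧ t * z ∈ fpow p e K) : z ∈ fpow p e K := by
  obtain ⟨t, ht, h1⟩ := avoid (Ideal.finite_minimalPrimes_of_isNoetherianRing R I)
    (fun P hP => hP.1.1) ((fpow p e K).colon {z}) (by
      intro P hP hle
      obtain ⟨t, ht, h1⟩ := hz P hP
      exact ht (hle (by simpa using h1)))
  have h2 : t ^ p ^ e * z ∈ fpow p e K := by
    obtain ⟨j, hj⟩ : ∃ j, p ^ e = j + 1 :=
      Nat.exists_eq_succ_of_ne_zero (pow_ne_zero _ (Fact.out : p.Prime).ne_zero)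
    rw [hj, pow_succ, mul_assoc]
    exact Ideal.mul_mem_left _ _ (by simpa using ht)
  refine Ideal.map_mono (fun a ha => hK t a h1 ?_) (cp_global R e K t z h2)
  rw [mul_comm]; simpa using ha

lemma symb_le_fpow {I : Ideal R} (hI : I.IsRadical) (h : ℕ)
    (hh : ∀ P ∈ I.minimalPrimes, P.height ≤ (h : ℕ∞)) (e M : ℕ) (hM : h * (p ^ e - 1) + 1 ≤ M) :
    symb I M ≤ fpow p e I := by
  intro z hz
  refine mem_fpow_of_loc (I := I) (fun t a ht => radical_nzd hI ht) e z fun P hP => ?_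
  have := hP.1.1
  simpa using ph_loc hI hP h (hh P hP) e 0 M (by omega) z (symb_loc hP hz)

lemma symb_le_fpow_symb {I : Ideal R} (hI : I.IsRadical) (h : ℕ)
    (hh : ∀ P ∈ I.minimalPrimes, P.height ≤ (h : ℕ∞)) (e k M : ℕ)
    (hM : k * p ^ e + h * (p ^ e - 1) + 1 ≤ M) :
    symb I M ≤ fpow p e (symb I (k + 1)) := by
  intro z hz
  refine mem_fpow_of_loc (I := I) (fun t a ht => symb_nzd ht) e z fun P hP => ?_
  have := hP.1.1
  obtain ⟨t, ht, h1⟩ := ph_loc hI hP h (hh P hP) e k M hM z (symb_loc hP hz)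
  exact ⟨t, ht, Ideal.map_mono (pow_le_symb I _) h1⟩

/-- Every ideal of a regular ring is tightly closed (the case needed). -/
lemma tight (J : Ideal R) (u : R) (b : ℕ) (h : ∀ e, u ^ (p ^ e + b) ∈ fpow p e J) : u ∈ J := by
  by_contra hu
  have hne : J.colon {u} ≠ ⊤ := fun h => hu (by
    have : (1 : R) ∈ J.colon {u} := by rw [h]; trivial
    simpa using this)
  obtain ⟨m, hm, hle⟩ := Ideal.exists_le_maximal _ hne
  have h1 : ∀ n, u ^ b ∈ m ^ n := by
    intro n
    have := cp_global R n J u (u ^ b) (by rw [← pow_add]; exact h n)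
    exact Ideal.pow_le_pow_right (Nat.lt_pow_self (Fact.out : p.Prime).one_lt).le
      (fpow_le_pow n m (Ideal.map_mono hle this))
  have hD := (regular_seq (Localization.AtPrime m)).1
  have h2 : algebraMap R (Localization.AtPrime m) (u ^ b) ∈ (⊥ : Ideal _) := by
    refine krull_sup ⊥ _ fun n => ?_
    rw [bot_sup_eq, ← Localization.AtPrime.map_eq_maximalIdeal, ← Ideal.map_pow]
    exact Ideal.mem_map_of_mem _ (h1 n)
  rw [Ideal.mem_bot, map_pow] at h2
  obtain ⟨t, ht⟩ := (IsLocalization.map_eq_zero_iff m.primeCompl _ _).mp (eq_zero_of_pow_eq_zero h2)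
  exact t.2 (hle (by simp [ht]))

lemma final_two {I c₁ c₂ J : Ideal R} {k₁ k₂ a₁ a₂ m : ℕ}
    (h₁ : ∀ e, symb I (k₁ * p ^ e) ≤ fpow p e c₁) (h₂ : ∀ e, symb I (k₂ * p ^ e) ≤ fpow p e c₂)
    (hJ : c₁ ^ a₁ * c₂ ^ a₂ ≤ J) (hm : k₁ * a₁ + k₂ * a₂ ≤ m) (hm0 : 0 < m) : symb I m ≤ J := by
  intro u hu
  refine tight (p := p) J u (a₁ + a₂) fun e => ?_
  set q := p ^ e
  have key : ∀ k, u ^ (k * q / m + 1) ∈ symb I (k * q) := fun k =>
    symb_anti I (Nat.lt_mul_div_succ _ hm0).le (symb_pow hu _)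
  have h3 : (u ^ (k₁ * q / m + 1)) ^ a₁ * (u ^ (k₂ * q / m + 1)) ^ a₂ ∈ fpow p e J := by
    refine Ideal.map_mono hJ ?_
    rw [Ideal.map_mul, Ideal.map_pow, Ideal.map_pow]
    exact Ideal.mul_mem_mul (Ideal.pow_mem_pow (h₁ e (key _)) _) (Ideal.pow_mem_pow (h₂ e (key _)) _)
  rw [← pow_mul, ← pow_mul, ← pow_add] at h3
  have h4 : (k₁ * q / m) * a₁ + (k₂ * q / m) * a₂ ≤ q := by
    apply Nat.le_of_mul_le_mul_left _ hm0
    have e1 := Nat.mul_div_le (k₁ * q) m
    have e2 := Nat.mul_div_le (k₂ * q) m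
    calc m * ((k₁ * q / m) * a₁ + (k₂ * q / m) * a₂)
        = m * (k₁ * q / m) * a₁ + m * (k₂ * q / m) * a₂ := by ring
      _ ≤ k₁ * q * a₁ + k₂ * q * a₂ := by gcongr
      _ = (k₁ * a₁ + k₂ * a₂) * q := by ring
      _ ≤ m * q := by gcongr
  obtain ⟨d, hd⟩ := Nat.exists_eq_add_of_le (show (k₁ * q / m + 1) * a₁ + (k₂ * q / m + 1) * a₂
    ≤ q + (a₁ + a₂) by rw [add_mul, add_mul]; omega)
  rw [hd, pow_add]
  exact Ideal.mul_mem_right _ _ h3

lemma symb_mul_le_fpow {I : Ideal R} (hI : I.IsRadical) (h : ℕ) (h1 : 1 ≤ h)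
    (hh : ∀ P ∈ I.minimalPrimes, P.height ≤ (h : ℕ∞)) (e : ℕ) :
    symb I (h * p ^ e) ≤ fpow p e I := by
  refine symb_le_fpow hI h hh e _ ?_
  obtain ⟨j, hj⟩ : ∃ j, p ^ e = j + 1 :=
    Nat.exists_eq_succ_of_ne_zero (pow_ne_zero _ (Fact.out : p.Prime).ne_zero)
  rw [hj, Nat.add_sub_cancel, mul_add]; omega

theorem key_global {I : Ideal R} (hI : I.IsRadical) (h : ℕ) (h2 : 2 ≤ h)
    (hh : ∀ P ∈ I.minimalPrimes, P.height ≤ (h : ℕ∞)) (𝔮 : Ideal R) [𝔮.IsPrime] (hq : I ≤ 𝔮) :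
    ∃ e₁, ∀ e, e₁ ≤ e → ∀ u ∈ symb I (h * (p ^ e - 1) + 1),
      ∃ s, s ∉ 𝔮 ∧ s * u ∈ 𝔮 * I ^ p ^ e := by
  classical
  have hfin := Ideal.finite_minimalPrimes_of_isNoetherianRing R I
  set J : Ideal R := (hfin.toFinset.filter fun P => P.height = (h : ℕ∞)).inf id with hJ
  obtain ⟨g', hg', g, hg, h3, h4⟩ := exists_pair J (by
    intro P hP hle
    obtain ⟨P', hP', h1⟩ := hP.inf_le'.mp hle
    have := Ideal.height_mono (show P' ≤ P from h1)
    rw [(Finset.mem_filter.mp hP').2] at this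
    exact le_trans (by exact_mod_cast h2) this)
  have := charP_loc (p := p) 𝔮
  set A := Localization.AtPrime 𝔮
  obtain ⟨e₁, he₁⟩ := key_local (p := p) (cp_local A) (I.map (algebraMap R A))
    (by rw [← Localization.AtPrime.map_eq_maximalIdeal]; exact Ideal.map_mono hq)
    (algebraMap R A g) (algebraMap R A g') (loc_ne_zero h3) (by
      intro a ha
      rw [← Set.image_singleton, ← Ideal.map_span] at ha ⊢
      refine Ideal.map_mono (fun b hb => h4 b ?_)
        (colon_map_loc 𝔮.primeCompl A (Ideal.span {g'}) g ?_)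
      · rw [mul_comm]; simpa using hb
      · rw [mul_comm] at ha; simpa using ha) (2 * h)
  refine ⟨max e₁ (2 * h), fun e he u hu => ?_⟩
  have hp1 := (Fact.out : p.Prime).one_lt
  have hmem : ∀ γ ∈ J, u ^ (p ^ e - 1) * γ ^ p ^ (2 * h + e) ∈ fpow p (e + e) I := by
    intro γ hγ
    refine mem_fpow_of_loc (I := I) (fun t a ht => radical_nzd hI ht) _ _ fun P hP => ?_
    have := hP.1.1
    have hu' := symb_loc hP (symb_pow hu (p ^ e - 1))
    have hQ : 2 * h < p ^ e :=
      (Nat.lt_pow_self hp1).trans_le (Nat.pow_le_pow_right hp1.le (le_of_max_le_right he))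
    have hq0 : 2 * h < p ^ (2 * h) := Nat.lt_pow_self hp1
    obtain ⟨Q, hQ'⟩ : ∃ Q, p ^ e = Q + 1 := ⟨p ^ e - 1, by omega⟩
    have hQQ : p ^ (e + e) - 1 = Q * Q + 2 * Q := by
      rw [pow_add, hQ']; apply Nat.sub_eq_of_eq_add; ring
    obtain ⟨h', rfl⟩ : ∃ h', h = h' + 1 := ⟨h - 1, by omega⟩
    by_cases hP' : P.height = ((h' + 1 : ℕ) : ℕ∞)
    · have hγP : γ ∈ P := (Finset.inf_le (f := id)
        (Finset.mem_filter.mpr ⟨hfin.mem_toFinset.mpr hP, hP'⟩) : J ≤ P) hγ
      have hγ' : algebraMap R (Localization.AtPrime P) (γ ^ p ^ (2 * (h' + 1) + e)) ∈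
          maximalIdeal _ ^ p ^ (2 * (h' + 1) + e) := by
        rw [map_pow]
        exact Ideal.pow_mem_pow ((IsLocalization.AtPrime.to_map_mem_maximal_iff _ P γ).mpr hγP) _
      have h5 := Ideal.mul_mem_mul hu' hγ'
      rw [← map_mul, ← pow_add] at h5
      have := ph_loc (p := p) hI hP _ (hh P hP) (e + e) 0 _ (by
        rw [hQQ, pow_add p (2 * (h' + 1)), hQ', Nat.add_sub_cancel]
        nlinarith) _ h5
      simpa using this
    · have hle : P.height ≤ (h' : ℕ∞) := by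
        have := lt_of_le_of_ne (hh P hP) hP'
        rw [Nat.cast_add, Nat.cast_one] at this
        exact Order.le_of_lt_add_one this
      have h5 := Ideal.mul_mem_right
        (algebraMap R (Localization.AtPrime P) (γ ^ p ^ (2 * (h' + 1) + e))) _ hu'
      rw [← map_mul] at h5
      have := ph_loc (p := p) hI hP _ hle (e + e) 0 _ (by
        rw [hQQ, hQ', Nat.add_sub_cancel]
        nlinarith) _ h5
      simpa using this
  have hmem' : ∀ γ ∈ J, algebraMap R A u ^ (p ^ e - 1) * algebraMap R A γ ^ p ^ (2 * h + e) ∈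
      fpow p (e + e) (I.map (algebraMap R A)) := by
    intro γ hγ
    have := Ideal.mem_map_of_mem (algebraMap R A) (hmem γ hγ)
    rwa [fpow_map, map_mul, map_pow, map_pow] at this
  have h5 := he₁ e (le_of_max_le_left he) (algebraMap R A u) (by
    rw [← fpow_map]
    exact Ideal.mem_map_of_mem _ (symb_le_fpow hI h hh e _ le_rfl hu)) (hmem' g hg) (hmem' g' hg')
  have h6 := Ideal.mul_mono_right (fpow_le_pow e _) h5
  rw [← Localization.AtPrime.map_eq_maximalIdeal, ← Ideal.map_pow, ← Ideal.map_mul] at h6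
  exact (IsLocalization.algebraMap_mem_map_algebraMap_iff 𝔮.primeCompl _ _ _).mp h6

include p in
theorem main_two {I : Ideal R} (hI : I.IsRadical) (h : ℕ) (h2 : 2 ≤ h)
    (hh : ∀ P ∈ I.minimalPrimes, P.height ≤ (h : ℕ∞)) :
    ∃ B : ℕ, 2 ≤ B ∧ ∀ n, symb I (h * (n - n / B)) ≤ I ^ n := by
  obtain ⟨e, N, hN⟩ := rees_step I (fun e => p ^ e) (fun e => symb I (h * (p ^ e - 1) + 1))
    (fun e => (symb_le_fpow hI h hh e _ le_rfl).trans (fpow_le_pow e I))
    (fun 𝔮 _ hq => key_global hI h h2 hh 𝔮 hq)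
  have hpos : ∀ e, 0 < p ^ e := fun e => Nat.pow_pos (Fact.out : p.Prime).pos
  set B := p ^ e * (N + 1) + 1 with hB
  have hB2 : 2 ≤ B := by
    have : 0 < p ^ e * (N + 1) := Nat.mul_pos (hpos e) (Nat.succ_pos N)
    omega
  refine ⟨B, hB2, fun n => ?_⟩
  rcases Nat.eq_zero_or_pos n with rfl | hn
  · simp
  have hdm := Nat.div_add_mod n B
  refine final_two (p := p) (k₁ := h * p ^ e) (k₂ := h) (a₁ := (N + 1) * (n / B)) (a₂ := n % B)
    (c₁ := symb I (h * (p ^ e - 1) + 1)) (c₂ := I) (fun e' => ?_)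
    (symb_mul_le_fpow hI h (by omega) hh) ?_ ?_ ?_
  · refine symb_le_fpow_symb hI h hh e' _ _ ?_
    obtain ⟨Q, hQ⟩ : ∃ Q, p ^ e = Q + 1 := ⟨p ^ e - 1, by have := hpos e; omega⟩
    obtain ⟨q, hq⟩ : ∃ q, p ^ e' = q + 1 := ⟨p ^ e' - 1, by have := hpos e'; omega⟩
    rw [hQ, hq, Nat.add_sub_cancel, Nat.add_sub_cancel]
    nlinarith
  · rw [pow_mul]
    refine (Ideal.mul_mono_left (Ideal.pow_right_mono hN _)).trans ?_
    rw [← pow_mul, ← pow_add, hdm]
  · have : n - n / B = p ^ e * ((N + 1) * (n / B)) + n % B := by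
      apply Nat.sub_eq_of_eq_add
      rw [← hdm]
      conv_rhs => rw [hdm]
      rw [hB]; ring
    rw [this]; nlinarith
  · have : n / B < n := Nat.div_lt_self hn (by omega)
    exact Nat.mul_pos (by omega) (by omega)

include p in
theorem main_stable {I : Ideal R} (hI : I.IsRadical) (h : ℕ)
    (hh : ∀ P ∈ I.minimalPrimes, P.height ≤ (h : ℕ∞)) :
    ∃ N : ℕ, ∀ n, N ≤ n → symb I (h * n - h + 1) ≤ I ^ n := by
  rcases Nat.lt_or_ge h 2 with h2 | h2
  · interval_cases h
    · refine ⟨0, fun n _ => ?_⟩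
      refine (symb_le_fpow (p := p) hI 0 hh n _ (by simp)).trans ((fpow_le_pow n I).trans ?_)
      exact Ideal.pow_le_pow_right (Nat.lt_pow_self (Fact.out : p.Prime).one_lt).le
    · refine ⟨1, fun n hn => ?_⟩
      exact final_two (p := p) (k₁ := 1) (k₂ := 1) (a₁ := n) (a₂ := 0) (c₁ := I) (c₂ := I)
        (symb_mul_le_fpow hI 1 le_rfl hh) (symb_mul_le_fpow hI 1 le_rfl hh) (by simp) (by omega)
        (by omega)
  · obtain ⟨B, hB, H⟩ := main_two (p := p) hI h h2 hh
    refine ⟨B, fun n hn => (symb_anti I ?_).trans (H n)⟩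
    have : 1 ≤ n / B := (Nat.one_le_div_iff (by omega)).mpr hn
    calc h * (n - n / B) ≤ h * (n - 1) := Nat.mul_le_mul_left _ (by omega)
      _ = h * n - h := by rw [Nat.mul_sub, mul_one]
      _ ≤ _ := Nat.le_succ _

end Pool.Agent.P.MP_fcbc4b_ag
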