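import Pool.Agent.P.MP_fcbc4b_ag.Cl
import Pool.Agent.P.MP_fcbc4b_ag.Main

/-! Symbolic powers in big algebras. -/

set_option autoImplicit false

namespace Pool.Agent.P.MP_fcbc4b_ag

open IsLocalRing

lemma exists_min_gens {A : Type*} [CommRing A] [IsNoetherianRing A] (I : Ideal A) :
    ∃ (n : ℕ) (g : Fin n → A), Ideal.span (Set.range g) = I ∧
      ∀ i, g i ∉ Ideal.span (g '' {i}ᶜ) := by
  classical
  have hex : ∃ n, ∃ g : Fin n → A, Ideal.span (Set.range g) = I :=
    Submodule.fg_iff_exists_fin_generating_family.mp (IsNoetherian.noetherian I)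
  obtain ⟨g, hg⟩ := Nat.find_spec hex
  refine ⟨_, g, hg, fun i hi => ?_⟩
  have hmin : ∀ m, m < Nat.find hex → ¬ ∃ g : Fin m → A, Ideal.span (Set.range g) = I :=
    fun m hm => Nat.find_min hex hm
  generalize Nat.find hex = n at g hg i hi hmin
  obtain ⟨n, rfl⟩ : ∃ n', n = n' + 1 := ⟨n - 1, by have := i.pos; omega⟩
  refine hmin n (by omega) ⟨g ∘ i.succAbove, ?_⟩
  rw [Set.range_comp, Fin.range_succAbove, ← hg]
  refine le_antisymm (Ideal.span_mono (Set.image_subset_range _ _)) (Ideal.span_le.mpr ?_)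
  rintro _ ⟨j, rfl⟩
  by_cases h : j = i
  · subst h; exact hi
  · exact Ideal.subset_span ⟨j, h, rfl⟩

theorem key_big {A : Type} [CommRing A] [IsLocalRing A] [IsNoetherianRing A] (I : Ideal A) :
    ∃ c₃ : ℕ, ∀ (B : Type) [CommRing B] (φ : A →+* B) (σ : A → B) (D : ℕ), IsBig D φ σ →
      ∀ (v w : B) (S : Set B) (F : Ideal B), v * w ∈ cl φ (I.map φ) →
      (∀ Γ ∈ S, v * Γ ∈ cl φ (I.map φ)) →
      (∀ r, (∀ Γ ∈ S, ∃ ρ, r * Γ - ρ * w ∈ (maximalIdeal A).map φ) → r ^ 2 ∈ F) →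
      (v * w) ^ c₃ ∈ cl φ (F * I.map φ ^ c₃) := by
  classical
  obtain ⟨n, g, hg, hmin⟩ := exists_min_gens I
  have h0 : ∀ i, ∃ N, g i ∉ Ideal.span (g '' {i}ᶜ) ⊔ maximalIdeal A ^ N := fun i => by
    by_contra h
    push Not at h
    exact hmin i (krull_sup _ _ h)
  choose N₀ hN₀ using h0
  refine ⟨n * 2 + 1, fun B _ φ σ D H v w S F h1 h2 h3 => mem_cl.mpr fun N => ?_⟩
  set N' := N + ∑ i, N₀ i with hN'
  have hI : I.map φ = Ideal.span (Set.range fun i => φ (g i)) := by
    rw [← hg, Ideal.map_span, ← Set.range_comp]; rfl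
  have hdec : ∀ z ∈ cl φ (I.map φ), ∃ r : Fin n → B,
      z - ∑ i, r i * φ (g i) ∈ (maximalIdeal A).map φ ^ N' := by
    intro z hz
    obtain ⟨a, ha, b, hb, hab⟩ := Submodule.mem_sup.mp (mem_cl.mp hz N')
    rw [hI] at ha
    obtain ⟨r, rfl⟩ := Ideal.mem_span_range_iff_exists_fun.mp ha
    exact ⟨r, by rw [← hab]; simpa using hb⟩
  obtain ⟨r, hr⟩ := hdec _ h1
  have h4 : ∀ i, r i ^ 2 ∈ F := by
    intro i
    refine h3 _ fun Γ hΓ => ?_
    obtain ⟨ρ, hρ⟩ := hdec _ (h2 Γ hΓ)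
    refine ⟨ρ i, Ideal.map_mono (le_maximalIdeal fun h => hN₀ i ?_)
      (H.colon (Ideal.span (g '' {i}ᶜ) ⊔ maximalIdeal A ^ N₀ i) _ le_sup_right (g i) _ ?_)⟩
    · have : (1 : A) ∈ (Ideal.span (g '' {i}ᶜ) ⊔ maximalIdeal A ^ N₀ i).colon {g i} := by
        rw [h]; trivial
      simpa using this
    · have h5 : ∑ j, (r j * Γ - ρ j * w) * φ (g j) ∈ (maximalIdeal A).map φ ^ N₀ i := by
        refine Ideal.pow_le_pow_right (le_add_left (Finset.single_le_sum (f := N₀)
          (fun _ _ => Nat.zero_le _) (Finset.mem_univ i)) : N₀ i ≤ N') ?_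
        convert Ideal.sub_mem _ (Ideal.mul_mem_left _ w hρ) (Ideal.mul_mem_left _ Γ hr) using 1
        simp only [mul_sub, Finset.mul_sum, sub_mul, Finset.sum_sub_distrib]
        have e1 : ∑ j, r j * Γ * φ (g j) = ∑ j, Γ * (r j * φ (g j)) :=
          Finset.sum_congr rfl fun j _ => by ring
        have e2 : ∑ j, ρ j * w * φ (g j) = ∑ j, w * (ρ j * φ (g j)) :=
          Finset.sum_congr rfl fun j _ => by ring
        rw [e1, e2]; ring
      rw [← Finset.add_sum_erase _ _ (Finset.mem_univ i)] at h5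
      rw [Ideal.map_sup, Ideal.map_pow, mul_comm]
      have h6 : ∑ j ∈ Finset.univ.erase i, (r j * Γ - ρ j * w) * φ (g j) ∈
          (Ideal.span (g '' {i}ᶜ)).map φ :=
        Ideal.sum_mem _ fun j hj => Ideal.mul_mem_left _ _ (Ideal.mem_map_of_mem _
          (Ideal.subset_span ⟨j, Finset.ne_of_mem_erase hj, rfl⟩))
      simpa using Ideal.sub_mem _ (Submodule.mem_sup_right h5) (Submodule.mem_sup_left h6)
  have h5 : v * w ∈ (maximalIdeal A).map φ ^ N ⊔ Ideal.span (Set.range r) * I.map φ := by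
    have h6 : ∑ i, r i * φ (g i) ∈ Ideal.span (Set.range r) * I.map φ :=
      Ideal.sum_mem _ fun i _ => Ideal.mul_mem_mul (Ideal.subset_span ⟨i, rfl⟩)
        (by rw [hI]; exact Ideal.subset_span ⟨i, rfl⟩)
    simpa using Submodule.add_mem_sup (Ideal.pow_le_pow_right (Nat.le_add_right N _) hr) h6
  have h7 := sup_pow_le_sup _ _ _ (Ideal.pow_mem_pow h5 (n * 2 + 1))
  rw [sup_comm, mul_pow] at h7
  refine sup_le_sup_right (Ideal.mul_mono_left ((span_pow_le_Mon r 2).trans ?_)) _ h7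
  refine Ideal.span_le.mpr ?_
  rintro _ ⟨i, rfl⟩
  exact h4 i

lemma exists_mul_le_of_loc {R : Type*} [CommRing R] (P : Ideal R) [hP : P.IsPrime] (N K : Ideal R)
    (hN : N.FG) (h : N.map (algebraMap R (Localization.AtPrime P)) ≤ K.map (algebraMap R _)) :
    ∃ s, s ∉ P ∧ ∀ y ∈ N, s * y ∈ K := by
  obtain ⟨t, rfl⟩ := hN
  have h1 : ∀ y ∈ t, ∃ s, s ∉ P ∧ s * y ∈ K := fun y hy =>
    (IsLocalization.algebraMap_mem_map_algebraMap_iff P.primeCompl _ _ _).mp
      (h (Ideal.mem_map_of_mem _ (Ideal.subset_span hy)))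
  choose! s hs hs' using h1
  refine ⟨∏ y ∈ t, s y, fun h => ?_, fun y hy => ?_⟩
  · obtain ⟨y, hy, h2⟩ := hP.prod_mem_iff.mp h
    exact hs y hy h2
  · have : Ideal.span (t : Set R) ≤ K.colon {∏ y ∈ t, s y} := by
      classical
      refine Ideal.span_le.mpr fun y hy => ?_
      rw [SetLike.mem_coe, Submodule.mem_colon_singleton, smul_eq_mul,
        ← Finset.mul_prod_erase t s hy, ← mul_assoc, mul_comm y]
      exact Ideal.mul_mem_right _ _ (hs' y hy)
    rw [mul_comm]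
    simpa using this hy

variable {R : Type} [CommRing R] [IsRegularRing R] {I : Ideal R}

lemma gen_data (hI : I.IsRadical) {P : Ideal R} (hP : P ∈ I.minimalPrimes) (h : ℕ)
    (hh : P.height ≤ (h : ℕ∞)) : ∃ (s : R) (n : ℕ) (x : Fin n → R), s ∉ P ∧ n ≤ h ∧
      (∀ i, x i ∈ I) ∧ Ideal.span {s} * P ≤ Ideal.span (Set.range x) := by
  have := hP.1.1
  set A := Localization.AtPrime P
  obtain ⟨t, ht, hspan⟩ := Submodule.FG.exists_span_finset_card_eq_spanFinrank
    (IsNoetherian.noetherian (maximalIdeal A))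
  have h1 := (inferInstance : IsRegularLocalRing A).spanFinrank_maximalIdeal
  rw [IsLocalization.AtPrime.ringKrullDim_eq_height P, ← ht] at h1
  have h2 : t.card ≤ h := by
    have : ((t.card : ℕ∞)) = P.height := WithBot.coe_eq_coe.mp h1
    rw [← this] at hh
    exact_mod_cast hh
  have h3 : ∀ i : Fin t.card, ∃ x : I × P.primeCompl,
      (t.equivFin.symm i : A) * algebraMap R A x.2 = algebraMap R A x.1 := fun i => by
    rw [← IsLocalization.mem_map_algebraMap_iff P.primeCompl, map_eq_max hI hP, ← hspan]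
    exact Submodule.subset_span (t.equivFin.symm i).2
  choose x hx using h3
  obtain ⟨s, hs, hs'⟩ := exists_mul_le_of_loc P P (Ideal.span (Set.range fun i => ((x i).1 : R)))
    (IsNoetherian.noetherian _) (by
      rw [Localization.AtPrime.map_eq_maximalIdeal, ← hspan, Submodule.span_le]
      intro y hy
      obtain ⟨i, hi⟩ := t.equivFin.symm.surjective ⟨y, hy⟩
      have h4 := hx i
      rw [hi] at h4
      refine (Ideal.mul_unit_mem_iff_mem _ (IsLocalization.map_units A (x i).2)).mp ?_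
      rw [h4]
      exact Ideal.mem_map_of_mem _ (Ideal.subset_span ⟨i, rfl⟩))
  refine ⟨s, _, fun i => (x i).1, hs, h2, fun i => (x i).1.2, ?_⟩
  intro z hz
  obtain ⟨y, hy, rfl⟩ := Ideal.mem_span_singleton_mul.mp hz
  exact hs' y hy

variable {A B : Type} [CommRing A] [IsLocalRing A] [CommRing B] {φ : A →+* B} {σ : A → B} {D : ℕ}

lemma bs_at (H : IsBig D φ σ) (hD : 1 ≤ D) (ι : R →+* A) (hI : I.IsRadical) {P : Ideal R}
    (hP : P ∈ I.minimalPrimes) (h : ℕ) (hh : P.height ≤ (h : ℕ∞)) {m : ℕ} {u : R}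
    (hu : u ∈ symb I m) (j l k : ℕ) {γ : A} (hγ : γ ∈ P.map ι) (hM : (h + k) * D < m * j + l) :
    ∃ s, s ∉ P ∧ φ (ι s) * (σ (ι u) ^ j * σ γ ^ l) ∈ cl φ (((I ^ (k + 1)).map ι).map φ) := by
  obtain ⟨s, n, x, hs, hn, hx, hsx⟩ := gen_data hI hP h hh
  obtain ⟨t, ht, htu⟩ := hu P hP
  have hPp := hP.1.1
  refine ⟨(s ^ m * t) ^ j * s ^ l, fun h1 => ?_, mem_cl.mpr fun N => ?_⟩
  · rcases hPp.mem_or_mem h1 with h1 | h1
    · exact (hPp.mem_or_mem (hPp.mem_of_pow_mem _ h1)).elim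
        (fun h1 => hs (hPp.mem_of_pow_mem _ h1)) ht
    · exact hs (hPp.mem_of_pow_mem _ h1)
  set s₁ := (s ^ m * t) ^ j * s ^ l with hs₁
  have hX : Ideal.span (Set.range fun i => ι (x i)) = (Ideal.span (Set.range x)).map ι := by
    rw [Ideal.map_span, ← Set.range_comp]; rfl
  have h1 := H.bs n (fun i => ι (x i))
    (ι s₁ ::ₘ (Multiset.replicate j (ι u) + Multiset.replicate l γ)) (m * j + l) k D N (by
      have h2 : s ^ m * (t * u) ∈ Ideal.span (Set.range x) ^ m := by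
        refine Ideal.pow_right_mono hsx m ?_
        rw [mul_pow]
        exact Ideal.mul_mem_mul (Ideal.pow_mem_pow (Ideal.mem_span_singleton_self s) m)
          (Ideal.pow_right_mono hP.1.2 m htu)
      have h3 : ι s * γ ∈ (Ideal.span (Set.range x)).map ι := by
        refine Ideal.map_mono hsx ?_
        rw [Ideal.map_mul]
        exact Ideal.mul_mem_mul (Ideal.mem_map_of_mem _ (Ideal.mem_span_singleton_self s)) hγ
      have h4 := Ideal.mem_map_of_mem ι h2
      rw [Ideal.map_pow] at h4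
      rw [hX, pow_add, pow_mul]
      convert Ideal.mul_mem_mul (Ideal.pow_mem_pow h4 j) (Ideal.pow_mem_pow h3 l) using 1
      simp only [Multiset.prod_cons, Multiset.prod_add, Multiset.prod_replicate, hs₁, map_mul,
        map_pow]
      ring) (lt_of_le_of_lt (by gcongr) hM)
  simp only [Multiset.map_cons, Multiset.map_add, Multiset.map_replicate, Multiset.prod_cons,
    Multiset.prod_add, Multiset.prod_replicate] at h1
  obtain ⟨D', rfl⟩ : ∃ D', D = D' + 1 := ⟨D - 1, by omega⟩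
  rw [← H.root, pow_succ (σ _), mul_assoc]
  refine Ideal.mul_mem_left _ _ (SetLike.le_def.mp (sup_le_sup_right ?_ _) h1)
  rw [Ideal.map_pow, Ideal.map_pow]
  refine Ideal.pow_right_mono (Ideal.span_le.mpr ?_) _
  rintro _ ⟨i, rfl⟩
  simp only [H.root]
  exact Ideal.mem_map_of_mem _ (Ideal.mem_map_of_mem _ (hx i))

variable [IsNoetherianRing A] [Algebra R A] (M : Submonoid R) [IsLocalization M A]
  (H : IsBig D φ σ)
include M H

lemma remove_s (K K' : Ideal R) (hK : ∀ t a, (∀ P ∈ I.minimalPrimes, t ∉ P) → t * a ∈ K → a ∈ K')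
    (w : B) (hw : ∀ P ∈ I.minimalPrimes, ∃ s, s ∉ P ∧
      φ (algebraMap R A s) * w ∈ cl φ ((K.map (algebraMap R A)).map φ)) :
    w ∈ cl φ ((K'.map (algebraMap R A)).map φ) := by
  obtain ⟨t, ht, h1⟩ := avoid (Ideal.finite_minimalPrimes_of_isNoetherianRing R I)
    (fun P hP => hP.1.1) (((cl φ ((K.map (algebraMap R A)).map φ)).colon {w}).comap
      (φ.comp (algebraMap R A))) (by
      intro P hP hle
      obtain ⟨t, ht, h1⟩ := hw P hP
      exact ht (hle (by simpa using h1)))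
  refine cl_mono (Ideal.map_mono ((colon_map_loc M A K t).trans (Ideal.map_mono fun a ha => ?_)))
    (H.colon_cl _ _ _ (by simpa using ht))
  exact hK t a h1 (by rw [mul_comm]; simpa using ha)

variable (hD : 1 ≤ D) (hI : I.IsRadical) (h : ℕ)
  (hh : ∀ P ∈ I.minimalPrimes, P.height ≤ (h : ℕ∞)) {m : ℕ} {u : R} (hu : u ∈ symb I m)
include hD hI hh hu

lemma root_mem (j : ℕ) (hM : h * D < m * j) :
    σ (algebraMap R A u) ^ j ∈ cl φ ((I.map (algebraMap R A)).map φ) := by
  refine remove_s M H I I (fun t a ht => radical_nzd hI ht) _ fun P hP => ?_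
  simpa using bs_at H hD (algebraMap R A) hI hP h (hh P hP) hu j 0 0 (Submodule.zero_mem _)
    (by simpa using hM)

lemma root_mem_symb (j k : ℕ) (hM : (h + k) * D < m * j) :
    σ (algebraMap R A u) ^ j ∈ cl φ (((symb I (k + 1)).map (algebraMap R A)).map φ) := by
  refine remove_s M H (I ^ (k + 1)) _ (fun t a ht ha => symb_nzd ht (pow_le_symb _ _ ha)) _
    fun P hP => ?_
  simpa using bs_at H hD (algebraMap R A) hI hP h (hh P hP) hu j 0 k (Submodule.zero_mem _)
    (by simpa using hM)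

lemma root_mul_mem (j l : ℕ) (hM : h * D < m * j + l) (hM' : (h - 1) * D < m * j) (γ : A)
    (hγ : ∀ P ∈ I.minimalPrimes, P.height = (h : ℕ∞) → γ ∈ P.map (algebraMap R A)) :
    σ (algebraMap R A u) ^ j * σ γ ^ l ∈ cl φ ((I.map (algebraMap R A)).map φ) := by
  refine remove_s M H I I (fun t a ht => radical_nzd hI ht) _ fun P hP => ?_
  by_cases hP' : P.height = (h : ℕ∞)
  · simpa using bs_at H hD (algebraMap R A) hI hP h (hh P hP) hu j l 0 (hγ P hP hP')
      (by simpa using hM)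
  · have hle : P.height ≤ ((h - 1 : ℕ) : ℕ∞) := by
      have := lt_of_le_of_ne (hh P hP) hP'
      cases h with
      | zero => simp at this
      | succ h =>
        rw [Nat.cast_add, Nat.cast_one] at this
        exact Order.le_of_lt_add_one this
    obtain ⟨s, hs, h1⟩ := bs_at H hD (algebraMap R A) hI hP _ hle hu j 0 0 (Submodule.zero_mem _)
      (by simpa using hM')
    refine ⟨s, hs, ?_⟩
    rw [← mul_assoc]
    exact Ideal.mul_mem_right _ _ (by simpa using h1)

end Pool.Agent.P.MP_fcbc4b_ag
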