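import Pool.Agent.P.MP_fcbc4b_ag.Level

/-! Enlarging the residue field of a local ring to an algebraically closed field. -/

set_option autoImplicit false

namespace Pool.Agent.P.MP_fcbc4b_ag

open IsLocalRing MvPolynomial

lemma regSeq_map_C {A τ : Type*} [CommRing A] (l : List A) : ∀ J : Ideal A, RegSeq J l →
    RegSeq (J.map (C : A →+* MvPolynomial τ A)) (l.map C) := by
  induction l with
  | nil => intros; trivial
  | cons x l ih =>
    intro J h
    refine ⟨fun a ha => ?_, ?_⟩
    · rw [MvPolynomial.mem_map_C_iff] at ha ⊢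
      exact fun m => h.1 _ (by simpa using ha m)
    · have := ih _ h.2
      rwa [Ideal.map_sup, Ideal.map_span, Set.image_singleton] at this

lemma Phi_supported {A τ : Type*} [CommRing A] [DecidableEq τ] {s : Set τ} {v : τ} (hv : v ∉ s)
    {G : MvPolynomial τ A} (hG : G ∈ supported A s) : Phi A v G = Polynomial.C G := by
  induction hG using Algebra.adjoin_induction with
  | mem _ h =>
    obtain ⟨w, hw, rfl⟩ := h
    exact Phi_X_ne fun h => hv (h ▸ hw)
  | algebraMap a => exact Phi_C v a
  | add x y _ _ hx hy => rw [map_add, map_add, hx, hy]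
  | mul x y _ _ hx hy => rw [map_mul, map_mul, hx, hy]

theorem gonfle {A : Type} [CommRing A] [IsLocalRing A] {d : ℕ} (x : Fin d → A)
    (hx : Ideal.span (Set.range x) = maximalIdeal A) (hreg : RegSeq ⊥ (List.ofFn x)) :
    ∃ (A' : Type) (_ : CommRing A') (ι : A →+* A') (π : A' →+* AlgebraicClosure (ResidueField A)),
      Function.Surjective π ∧ RingHom.ker π = Ideal.span (Set.range fun i => ι (x i)) ∧
      H1 ⊥ fun i => ι (x i) := by
  set k := ResidueField A
  set K := AlgebraicClosure k
  obtain ⟨_, _⟩ := exists_wellFoundedLT K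
  let ev : MvPolynomial K A →ₐ[A] K := aeval id
  let S : K → Subalgebra A (MvPolynomial K A) := fun α => supported A (Set.Iio α)
  let E : K → IntermediateField k K := fun α => IntermediateField.adjoin k (Set.Iio α)
  have halg : ∀ a : A, algebraMap A K a = algebraMap k K (residue A a) := fun a => rfl
  have h1 : ∀ α, ∀ G ∈ S α, ev G ∈ E α := by
    intro α G hG
    induction hG using Algebra.adjoin_induction with
    | mem _ h =>
      obtain ⟨w, hw, rfl⟩ := h
      simpa [ev] using IntermediateField.subset_adjoin k _ hw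
    | algebraMap a => rw [AlgHom.commutes, halg]; exact IntermediateField.algebraMap_mem _ _
    | add x y _ _ hx hy => rw [map_add]; exact add_mem hx hy
    | mul x y _ _ hx hy => rw [map_mul]; exact mul_mem hx hy
  have h2 : ∀ α, ∀ e ∈ E α, ∃ G ∈ S α, ev G = e := by
    intro α e he
    have he' : e ∈ Algebra.adjoin k (Set.Iio α) := by
      rw [← IntermediateField.adjoin_toSubalgebra_of_isAlgebraic
        fun x _ => Algebra.IsAlgebraic.isAlgebraic x]
      exact he
    clear he
    induction he' using Algebra.adjoin_induction with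
    | mem w hw => exact ⟨X w, X_mem_supported.mpr hw, by simp [ev]⟩
    | algebraMap a =>
      obtain ⟨a, rfl⟩ := residue_surjective a
      exact ⟨algebraMap A _ a, Subalgebra.algebraMap_mem _ _, by rw [AlgHom.commutes, halg]⟩
    | add x y _ _ hx hy =>
      obtain ⟨G, hG, rfl⟩ := hx
      obtain ⟨G', hG', rfl⟩ := hy
      exact ⟨G + G', add_mem hG hG', map_add _ _ _⟩
    | mul x y _ _ hx hy =>
      obtain ⟨G, hG, rfl⟩ := hx
      obtain ⟨G', hG', rfl⟩ := hy
      exact ⟨G * G', mul_mem hG hG', map_mul _ _ _⟩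
  let val : ∀ α, S α →+* MvPolynomial K A := fun α => (S α).val.toRingHom
  let eva : ∀ α, S α →+* E α := fun α =>
    (ev.toRingHom.comp (val α)).codRestrict _ fun G => h1 α G.1 G.2
  have heva : ∀ α, Function.Surjective (eva α) := by
    intro α e
    obtain ⟨G, hG, h⟩ := h2 α e.1 e.2
    exact ⟨⟨G, hG⟩, Subtype.ext h⟩
  have hint : ∀ α : K, IsIntegral (E α) α := fun α => (Algebra.IsIntegral.isIntegral (R := k) α).tower_top
  choose F hF1 _ hF2 using fun α => Polynomial.lifts_and_natDegree_eq_and_monic
    (f := eva α) (p := minpoly (E α) α) (Polynomial.map_surjective _ (heva α) _)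
    (minpoly.monic (hint α))
  have hev : ∀ α (H : Polynomial (S α)), ev (H.eval₂ (val α) (X α)) =
      Polynomial.aeval α (H.map (eva α)) := by
    intro α H
    rw [Polynomial.aeval_def, Polynomial.eval₂_map]
    have := Polynomial.hom_eval₂ H (val α) ev.toRingHom (X α)
    refine this.trans ?_
    congr 1
    simp [ev]
  let f : K → MvPolynomial K A := fun α => (F α).eval₂ (val α) (X α)
  have hf0 : ∀ α, ev (f α) = 0 := fun α => by rw [hev, hF1, minpoly.aeval]
  have hf1 : ∀ α, (Phi A α (f α)).Monic := by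
    intro α
    rw [Polynomial.hom_eval₂, Phi_X_self]
    have : (Phi A α).comp (val α) = Polynomial.C.comp (val α) :=
      RingHom.ext fun G => Phi_supported (by simp) G.2
    rw [this]
    exact (hF2 α).map (val α)
  have hf2 : ∀ α, f α ∈ supported A (Set.Iic α) := by
    intro α
    simp only [f, Polynomial.eval₂_eq_sum_range]
    exact Subalgebra.sum_mem _ fun i _ => mul_mem
      (supported_mono Set.Iio_subset_Iic_self ((F α).coeff i).2)
      (pow_mem (X_mem_supported.mpr (Set.mem_Iic.mpr le_rfl)) _)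
  set cx : Fin d → MvPolynomial K A := fun i => C (x i) with hcx
  have hH : ∀ T : Finset K, H1 (Ideal.span (f '' (T : Set K))) cx := by
    intro T
    induction T using Finset.induction_on_max with
    | empty =>
      have := regSeq_map_C (τ := K) _ _ hreg
      rw [Ideal.map_bot, List.map_ofFn] at this
      rw [Finset.coe_empty, Set.image_empty, Ideal.span_empty]
      exact h1_of_regSeq _ _ this
    | insert α T hT ih =>
      rw [Finset.coe_insert, Set.image_insert_eq, Ideal.span_insert, sup_comm]
      refine ih.add _ (Const.nzd (v := α) ((const_span ?_).sup (const_span ?_)) (hf1 α))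
      · rintro _ ⟨β, hβ, rfl⟩
        exact Phi_supported (by simpa using hT β hβ) (hf2 β)
      · rintro _ ⟨i, rfl⟩
        exact Phi_C _ _
  set 𝔞 : Ideal (MvPolynomial K A) := Ideal.span (Set.range f) with h𝔞
  set 𝔎 := Ideal.span (Set.range cx) ⊔ 𝔞 with h𝔎
  have step : ∀ β, (∀ G ∈ S β, ev G = 0 → G ∈ 𝔎) →
      ∀ G ∈ supported A (Set.Iic β), ev G = 0 → G ∈ 𝔎 := by
    intro β hβ G hG h0
    obtain ⟨H, rfl⟩ : ∃ H : Polynomial (S β), H.eval₂ (val β) (X β) = G := by
      clear h0
      induction hG using Algebra.adjoin_induction with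
      | mem _ h =>
        obtain ⟨w, hw, rfl⟩ := h
        rcases (show w ≤ β from hw).eq_or_lt with rfl | h
        · exact ⟨Polynomial.X, by simp⟩
        · exact ⟨Polynomial.C ⟨X w, X_mem_supported.mpr h⟩, by simp [val]⟩
      | algebraMap a =>
        exact ⟨Polynomial.C ⟨_, Subalgebra.algebraMap_mem _ a⟩, by simp [val]⟩
      | add x y _ _ hx hy =>
        obtain ⟨H, rfl⟩ := hx
        obtain ⟨H', rfl⟩ := hy
        exact ⟨H + H', Polynomial.eval₂_add _ _⟩
      | mul x y _ _ hx hy =>
        obtain ⟨H, rfl⟩ := hx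
        obtain ⟨H', rfl⟩ := hy
        exact ⟨H * H', Polynomial.eval₂_mul _ _⟩
    have hdiv := Polynomial.modByMonic_add_div H (F β)
    have h3 : H.eval₂ (val β) (X β) = (H %ₘ F β).eval₂ (val β) (X β) +
        f β * (H /ₘ F β).eval₂ (val β) (X β) := by
      conv_lhs => rw [← hdiv]
      rw [Polynomial.eval₂_add, Polynomial.eval₂_mul]
    have h4 : (H %ₘ F β).map (eva β) = 0 := by
      by_contra hne
      have h5 := minpoly.degree_le_of_ne_zero (E β) β hne (by
        rw [← hev]
        rw [h3, map_add, map_mul, hf0, zero_mul, add_zero] at h0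
        exact h0)
      rw [← hF1, (hF2 β).degree_map] at h5
      exact absurd (Polynomial.degree_modByMonic_lt H (hF2 β))
        (not_lt.mpr (h5.trans Polynomial.degree_map_le))
    rw [h3]
    refine Ideal.add_mem _ ?_ (Submodule.mem_sup_right
      (Ideal.mul_mem_right _ _ (Ideal.subset_span (Set.mem_range_self β))))
    rw [Polynomial.eval₂_eq_sum_range]
    refine Ideal.sum_mem _ fun i _ => Ideal.mul_mem_right _ _ (hβ _ ((H %ₘ F β).coeff i).2 ?_)
    have := congrArg (fun q => ((Polynomial.coeff q i : E β) : K)) h4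
    simp only [Polynomial.coeff_map, Polynomial.coeff_zero] at this
    exact this
  have gen : ∀ G : MvPolynomial K A, (∀ β ∈ G.vars, ∀ G ∈ S β, ev G = 0 → G ∈ 𝔎) →
      ev G = 0 → G ∈ 𝔎 := by
    intro G hG h0
    rcases G.vars.eq_empty_or_nonempty with h | h
    · have : G ∈ supported A (∅ : Set K) := mem_supported.mpr (by simp [h])
      rw [supported_empty] at this
      obtain ⟨a, rfl⟩ := Algebra.mem_bot.mp this
      rw [AlgHom.commutes, halg, map_eq_zero, residue_eq_zero_iff, ← hx] at h0
      have := Ideal.mem_map_of_mem (C : A →+* MvPolynomial K A) h0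
      rw [Ideal.map_span, ← Set.range_comp] at this
      exact Submodule.mem_sup_left this
    · exact step _ (hG _ (G.vars.max'_mem h)) G
        (mem_supported.mpr fun β hβ => G.vars.le_max' β hβ) h0
  have hall : ∀ α, ∀ G ∈ S α, ev G = 0 → G ∈ 𝔎 := by
    intro α
    induction α using WellFoundedLT.induction with
    | ind α ih => exact fun G hG => gen G fun β hβ => ih β (mem_supported.mp hG hβ)
  have h𝔞0 : ∀ z ∈ 𝔞, ev z = 0 := by
    have : 𝔞 ≤ RingHom.ker ev.toRingHom := by
      rw [h𝔞, Ideal.span_le]; rintro _ ⟨α, rfl⟩; exact hf0 α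
    exact this
  refine ⟨MvPolynomial K A ⧸ 𝔞, inferInstance, (Ideal.Quotient.mk 𝔞).comp C,
    Ideal.Quotient.lift 𝔞 ev.toRingHom h𝔞0, fun α => ⟨Ideal.Quotient.mk 𝔞 (X α), by simp [ev]⟩,
    ?_, ?_⟩
  · have e : Ideal.span (Set.range fun i => ((Ideal.Quotient.mk 𝔞).comp C) (x i)) =
        (Ideal.span (Set.range cx)).map (Ideal.Quotient.mk 𝔞) := by
      rw [Ideal.map_span, ← Set.range_comp]; rfl
    rw [e]
    apply le_antisymm
    · intro z hz
      obtain ⟨G, rfl⟩ := Ideal.Quotient.mk_surjective z
      rw [← Ideal.mem_comap, Ideal.comap_map_of_surjective _ Ideal.Quotient.mk_surjective,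
        ← RingHom.ker_eq_comap_bot, Ideal.mk_ker]
      exact gen G (fun β _ => hall β) hz
    · rw [← e, Ideal.span_le]
      rintro _ ⟨i, rfl⟩
      change ev (algebraMap A _ (x i)) = 0
      rw [AlgHom.commutes, halg, map_eq_zero, residue_eq_zero_iff, ← hx]
      exact Ideal.subset_span (Set.mem_range_self i)
  · intro s hs
    choose s' hs' using fun i => Ideal.Quotient.mk_surjective (I := 𝔞) (s i)
    have h5 : ∑ i, cx i * s' i ∈ 𝔞 := by
      rw [← Ideal.Quotient.eq_zero_iff_mem, map_sum, ← Ideal.mem_bot.mp hs]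
      simp only [map_mul, hs']
      rfl
    obtain ⟨T, hT, h6⟩ := Submodule.mem_span_finite_of_mem_span h5
    obtain ⟨T', hT'⟩ : ∃ T' : Finset K, f '' (T' : Set K) = T := by
      classical
      rw [← Set.image_univ] at hT
      obtain ⟨T', -, h⟩ := Finset.subset_set_image_iff.mp hT
      exact ⟨T', by rw [← h, Finset.coe_image]⟩
    obtain ⟨c, hc⟩ := hH T' s' (by rw [hT']; exact h6)
    refine ⟨fun i j => Ideal.Quotient.mk 𝔞 (c i j), fun i => ?_⟩
    have := Ideal.Quotient.eq_zero_iff_mem.mpr
      (Ideal.span_mono (Set.image_subset_range _ _) (hc i) : _ ∈ 𝔞)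
    simp only [map_sub, map_sum, map_mul] at this
    rw [← hs']
    exact this

end Pool.Agent.P.MP_fcbc4b_ag
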