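import Pool.Agent.P.MP_fcbc4b_ag.Symb

/-! Koszul relations, monomial ideals in a regular sequence, triangular relations. -/

set_option autoImplicit false

namespace Pool.Agent.P.MP_fcbc4b_ag

open IsLocalRing TensorProduct Function

section seq

variable {R : Type*} [CommRing R]

lemma regSeq_append (l l' : List R) : ∀ J : Ideal R,
    RegSeq J (l ++ l') ↔ RegSeq J l ∧ RegSeq (J ⊔ Ideal.ofList l) l' := by
  induction l with
  | nil => intro J; simp [regSeq_nil]
  | cons x l ih =>
    intro J
    rw [List.cons_append, regSeq_cons, regSeq_cons, ih, Ideal.ofList_cons, sup_assoc, and_assoc]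

lemma regSeq_pow_prefix (q : ℕ) (hq : 1 ≤ q) (l l' : List R) : ∀ J : Ideal R, RegSeq J (l ++ l') →
    RegSeq J (l.map (· ^ q) ++ l') := by
  induction l with
  | nil => intro J h; exact h
  | cons x l ih =>
    intro J h
    obtain ⟨v, rfl⟩ : ∃ v, q = v + 1 := ⟨q - 1, by omega⟩
    exact ⟨nzd_pow h.1 _, ih _ (regSeq_pow_head h v)⟩

lemma colon_ext (l : List R) : ∀ (J₁ K : Ideal R) (z : R), (∀ b, z * b ∈ J₁ → b ∈ K) →
    RegSeq (J₁ ⊔ Ideal.span {z}) l →
    ∀ b, z * b ∈ J₁ ⊔ Ideal.ofList l → b ∈ K ⊔ Ideal.ofList l := by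
  induction l with
  | nil => intro J₁ K z h _; simpa using h
  | cons y l ih =>
    intro J₁ K z hK h2
    rw [Ideal.ofList_cons, ← sup_assoc, ← sup_assoc]
    refine ih _ _ z ?_ ?_
    · intro b hb
      obtain ⟨c, hc⟩ := mem_sup_span_singleton.mp hb
      have h3 : y * c ∈ J₁ ⊔ Ideal.span {z} := by
        refine mem_sup_span_singleton.mpr ⟨b, ?_⟩
        have : y * c - b * z = -(z * b - c * y) := by ring
        rw [this]; exact J₁.neg_mem hc
      obtain ⟨c', hc'⟩ := mem_sup_span_singleton.mp (h2.1 c h3)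
      refine mem_sup_span_singleton.mpr ⟨c', hK _ ?_⟩
      have : z * (b - c' * y) = (z * b - c * y) + y * (c - c' * z) := by ring
      rw [this]; exact J₁.add_mem hc (J₁.mul_mem_left _ hc')
    · have := h2.2
      rwa [sup_right_comm] at this

lemma ofList_ofFn {d : ℕ} (x : Fin d → R) :
    Ideal.ofList (List.ofFn x) = Ideal.span (Set.range x) := by
  unfold Ideal.ofList
  congr 1
  ext y
  simp [List.mem_ofFn]

/-- The ideal generated by the powers `x i ^ ν i`. -/
def Mon {ι : Type*} (x : ι → R) (ν : ι → ℕ) : Ideal R := Ideal.span (Set.range fun i => x i ^ ν i)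

lemma pow_mem_Mon {ι : Type*} (x : ι → R) (ν : ι → ℕ) (i : ι) : x i ^ ν i ∈ Mon x ν :=
  Ideal.subset_span ⟨i, rfl⟩

lemma Mon_anti {ι : Type*} (x : ι → R) {ν ν' : ι → ℕ} (h : ∀ i, ν i ≤ ν' i) :
    Mon x ν' ≤ Mon x ν := by
  rw [Mon, Ideal.span_le]
  rintro _ ⟨i, rfl⟩
  obtain ⟨c, hc⟩ := Nat.exists_eq_add_of_le (h i)
  simp only [hc, pow_add]
  exact Ideal.mul_mem_right _ _ (pow_mem_Mon x ν i)

lemma Mon_map {ι S : Type*} [CommRing S] (f : R →+* S) (x : ι → R) (ν : ι → ℕ) :
    (Mon x ν).map f = Mon (fun i => f (x i)) ν := by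
  rw [Mon, Mon, Ideal.map_span, ← Set.range_comp]
  congr 2
  ext i
  simp

lemma Mon_one {ι : Type*} (x : ι → R) : Mon x (fun _ => 1) = Ideal.span (Set.range x) := by
  simp [Mon]

lemma Mon_eq_top {ι : Type*} (x : ι → R) {ν : ι → ℕ} {i : ι} (h : ν i = 0) : Mon x ν = ⊤ := by
  rw [Ideal.eq_top_iff_one]
  simpa [h] using pow_mem_Mon x ν i

lemma Mon_succ {d : ℕ} (x : Fin (d + 1) → R) (ν : Fin (d + 1) → ℕ) :
    Mon x ν = Ideal.span {x 0 ^ ν 0} ⊔ Mon (fun i : Fin d => x i.succ) (fun i : Fin d => ν i.succ) := by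
  rw [Mon, Mon, Fin.range_fin_succ, Ideal.span_insert]
  rfl

lemma regSeq_ofFn_pow {d : ℕ} : ∀ (x : Fin d → R) (ν : Fin d → ℕ) (J : Ideal R),
    (∀ i, 1 ≤ ν i) → RegSeq J (List.ofFn x) → RegSeq J (List.ofFn fun i => x i ^ ν i) := by
  induction d with
  | zero => intro x ν J _ _; simp [regSeq_nil]
  | succ d ih =>
    intro x ν J hν h
    rw [List.ofFn_succ] at h ⊢
    obtain ⟨v, hv⟩ : ∃ v, ν 0 = v + 1 := ⟨ν 0 - 1, by have := hν 0; omega⟩
    refine ⟨nzd_pow h.1 _, ih (fun i => x i.succ) (fun i => ν i.succ) _ (fun i => hν _) ?_⟩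
    rw [hv]
    exact regSeq_pow_head h v

lemma mon_colon_one {d : ℕ} : ∀ (x : Fin d → R) (J : Ideal R), RegSeq J (List.ofFn x) →
    ∀ (ν ν' : Fin d → ℕ) (i : Fin d) (z : R), (∀ j, 1 ≤ ν j) → (∀ j, j ≠ i → ν' j = ν j) →
      ν' i = ν i + 1 → x i * z ∈ J ⊔ Mon x ν' → z ∈ J ⊔ Mon x ν := by
  induction d with
  | zero => intro x J _ ν ν' i; exact i.elim0
  | succ d ih =>
    intro x J h ν ν' i z hν h1 h2 hz
    rw [List.ofFn_succ] at h
    rw [Mon_succ, ← sup_assoc] at hz ⊢
    induction i using Fin.cases with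
    | zero =>
      have e : (fun i : Fin d => ν' i.succ) = fun i => ν i.succ :=
        funext fun j => h1 _ (Fin.succ_ne_zero j)
      rw [e, h2] at hz
      rw [Mon, ← ofList_ofFn] at hz ⊢
      refine colon_ext _ _ _ (x 0) ?_ ?_ z hz
      · intro b hb
        obtain ⟨c, hc⟩ := mem_sup_span_singleton.mp hb
        refine mem_sup_span_singleton.mpr ⟨c, h.1 _ ?_⟩
        have : x 0 * (b - c * x 0 ^ ν 0) = x 0 * b - c * x 0 ^ (ν 0 + 1) := by ring
        rwa [this]
      · have : J ⊔ Ideal.span {x 0 ^ (ν 0 + 1)} ⊔ Ideal.span {x 0} = J ⊔ Ideal.span {x 0} := by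
          rw [sup_assoc]; congr 1
          apply sup_eq_right.mpr
          rw [Ideal.span_singleton_le_span_singleton]
          exact ⟨x 0 ^ ν 0, by ring⟩
        rw [this]
        exact regSeq_ofFn_pow _ _ _ (fun j => hν _) h.2
    | succ i =>
      rw [h1 0 (Fin.succ_ne_zero i).symm] at hz
      obtain ⟨v, hv⟩ : ∃ v, ν 0 = v + 1 := ⟨ν 0 - 1, by have := hν 0; omega⟩
      refine ih (fun i => x i.succ) _ ?_ _ _ i z (fun j => hν _)
        (fun j hj => h1 _ (fun h => hj (Fin.succ_injective _ h))) h2 hz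
      rw [hv]
      exact regSeq_pow_head h v

/-- The monomial colon property. -/
def MonColon {ι : Type*} (x : ι → R) : Prop :=
  ∀ (ν ν' : ι → ℕ) (i : ι) (b : ℕ) (z : R), (∀ j, j ≠ i → ν' j = ν j) → ν' i = ν i + b →
    x i ^ b * z ∈ Mon x ν' → z ∈ Mon x ν

lemma monColon_of_regSeq {d : ℕ} (x : Fin d → R) (h : RegSeq ⊥ (List.ofFn x)) : MonColon x := by
  intro ν ν' i b
  induction b generalizing ν' with
  | zero =>
    intro z h1 h2 hz
    have : ν' = ν := funext fun j => by
      by_cases hj : j = i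
      · rw [hj, h2]; rfl
      · exact h1 j hj
    simpa [this] using hz
  | succ b ih =>
    intro z h1 h2 hz
    by_cases h0 : ∃ j, ν j = 0
    · obtain ⟨j, hj⟩ := h0
      rw [Mon_eq_top x hj]; trivial
    push Not at h0
    refine ih (Function.update ν i (ν i + b)) z (fun j hj => by simp [hj]) (by simp) ?_
    have := mon_colon_one x ⊥ h (Function.update ν i (ν i + b)) ν' i (x i ^ b * z)
      (fun j => by
        have := h0 j
        by_cases hj : j = i
        · subst hj; simp; omega
        · simp [hj]; omega)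
      (fun j hj => by simp [hj, h1 j hj]) (by simp [h2, add_assoc])
      (by rwa [bot_sup_eq, ← mul_assoc, ← pow_succ'])
    simpa using this

lemma MonColon.prod {ι : Type*} [Fintype ι] {x : ι → R} (h : MonColon x) (ν β : ι → ℕ) (z : R)
    (hz : (∏ i, x i ^ β i) * z ∈ Mon x (fun i => ν i + β i)) : z ∈ Mon x ν := by
  classical
  have key : ∀ s : Finset ι, ∀ z, (∏ i ∈ s, x i ^ β i) * z ∈
      Mon x (fun i => ν i + if i ∈ s then β i else 0) → z ∈ Mon x ν := by
    intro s
    induction s using Finset.induction_on with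
    | empty => intro z hz; simpa using hz
    | insert a s ha ih =>
      intro z hz
      rw [Finset.prod_insert ha, mul_assoc] at hz
      refine ih z (h _ _ a (β a) _ ?_ ?_ hz)
      · intro j hj; simp [hj]
      · simp [ha]
  exact key Finset.univ z (by simpa using hz)

/-- All relations among the `x i` modulo `J` are Koszul relations. -/
def H1 {d : ℕ} (J : Ideal R) (x : Fin d → R) : Prop :=
  ∀ s : Fin d → R, ∑ i, x i * s i ∈ J →
    ∃ c : Fin d → Fin d → R, ∀ i, s i - ∑ j, (c i j - c j i) * x j ∈ J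

lemma kos_sum {d : ℕ} (x : Fin d → R) (c : Fin d → Fin d → R) :
    ∑ i, x i * ∑ j, (c i j - c j i) * x j = 0 := by
  simp only [Finset.mul_sum, sub_mul, mul_sub, Finset.sum_sub_distrib]
  rw [sub_eq_zero, Finset.sum_comm]
  refine Finset.sum_congr rfl fun i _ => Finset.sum_congr rfl fun j _ => by ring

lemma h1_of_regSeq {d : ℕ} : ∀ (x : Fin d → R) (J : Ideal R), RegSeq J (List.ofFn x) → H1 J x := by
  induction d with
  | zero => intro x J _ s _; exact ⟨fun i => i.elim0, fun i => i.elim0⟩
  | succ d ih =>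
    intro x J h s hs
    rw [List.ofFn_succ] at h
    rw [Fin.sum_univ_succ] at hs
    obtain ⟨c, hc⟩ := ih (fun i => x i.succ) _ h.2 (fun i => s i.succ)
      (mem_sup_span_singleton.mpr ⟨-s 0, by
        have : ∑ i : Fin d, x i.succ * s i.succ - -s 0 * x 0
            = x 0 * s 0 + ∑ i : Fin d, x i.succ * s i.succ := by ring
        rwa [this]⟩)
    choose t ht using fun i => mem_sup_span_singleton.mp (hc i)
    have h1 : s 0 + ∑ i : Fin d, t i * x i.succ ∈ J := by
      apply h.1
      have e := kos_sum (fun i : Fin d => x i.succ) c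
      have : x 0 * (s 0 + ∑ i : Fin d, t i * x i.succ) =
          (x 0 * s 0 + ∑ i : Fin d, x i.succ * s i.succ) - ∑ i : Fin d, x i.succ *
            (s i.succ - ∑ j, (c i j - c j i) * x j.succ - t i * x 0) := by
        simp only [mul_sub, Finset.sum_sub_distrib, mul_add, Finset.mul_sum]
        have : ∑ i : Fin d, x 0 * (t i * x i.succ) = ∑ i : Fin d, x i.succ * (t i * x 0) :=
          Finset.sum_congr rfl fun i _ => by ring
        rw [this]
        simp only [← Finset.mul_sum]
        rw [e]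
        ring
      rw [this]
      exact J.sub_mem hs (J.sum_mem fun i _ => J.mul_mem_left _ (ht i))
    refine ⟨Fin.cons (fun _ => 0) (fun i => Fin.cons (t i) (c i)), fun i => ?_⟩
    induction i using Fin.cases with
    | zero =>
      simpa [Fin.sum_univ_succ] using h1
    | succ i =>
      have := ht i
      simp only [Fin.sum_univ_succ, Fin.cons_succ, Fin.cons_zero, sub_zero]
      convert this using 1
      ring

lemma H1.add {d : ℕ} {J : Ideal R} {x : Fin d → R} (h : H1 J x) (ρ : R)
    (hρ : ∀ a, ρ * a ∈ J ⊔ Ideal.span (Set.range x) → a ∈ J ⊔ Ideal.span (Set.range x)) :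
    H1 (J ⊔ Ideal.span {ρ}) x := by
  intro s hs
  obtain ⟨a, ha⟩ := mem_sup_span_singleton.mp hs
  have h1 : ρ * a ∈ J ⊔ Ideal.span (Set.range x) := by
    have : ρ * a = -(∑ i, x i * s i - a * ρ) + ∑ i, x i * s i := by ring
    rw [this]
    exact Submodule.add_mem_sup (J.neg_mem ha)
      (Ideal.sum_mem _ fun i _ => Ideal.mul_mem_right _ _ (Ideal.subset_span ⟨i, rfl⟩))
  obtain ⟨j, hj, w, hw, rfl⟩ := Submodule.mem_sup.mp (hρ a h1)
  obtain ⟨t, rfl⟩ := Ideal.mem_span_range_iff_exists_fun.mp hw
  obtain ⟨c, hc⟩ := h (fun i => s i - ρ * t i) (by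
    have : ∑ i, x i * (s i - ρ * t i) = (∑ i, x i * s i - (j + ∑ i, t i * x i) * ρ) + j * ρ := by
      simp only [mul_sub, Finset.sum_sub_distrib, add_mul, Finset.sum_mul]
      have : ∑ i, x i * (ρ * t i) = ∑ i, t i * x i * ρ := Finset.sum_congr rfl fun i _ => by ring
      rw [this]; ring
    rw [this]
    exact J.add_mem ha (J.mul_mem_right _ hj))
  refine ⟨c, fun i => mem_sup_span_singleton.mpr ⟨t i, ?_⟩⟩
  convert hc i using 1
  ring

lemma H1.add_list {d : ℕ} {x : Fin d → R} (l : List R) : ∀ J : Ideal R, H1 J x →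
    RegSeq (J ⊔ Ideal.span (Set.range x)) l → H1 (J ⊔ Ideal.ofList l) x := by
  induction l with
  | nil => intro J h _; simpa using h
  | cons ρ l ih =>
    intro J h hr
    rw [Ideal.ofList_cons, ← sup_assoc]
    refine ih _ (h.add ρ hr.1) ?_
    have := hr.2
    rwa [sup_right_comm] at this

end seq

section colon

variable {R S : Type*} [CommRing R] [CommRing S]

theorem colon_of_H1 [IsNoetherianRing R] (φ : R →+* S) {d : ℕ} (x w : Fin d → R)
    (m : Ideal R) [m.IsMaximal] (hm : Ideal.span (Set.range x) = m) (hw : ∀ i, w i * x i = 0)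
    (H : ∀ s : Fin d → S, ∑ i, φ (x i) * s i = 0 → ∃ (c : Fin d → Fin d → S) (c' : Fin d → S),
      ∀ i, s i = ∑ j, (c i j - c j i) * φ (x j) + φ (w i) * c' i)
    (J : Ideal R) (n : ℕ) (hn : m ^ n ≤ J) (y : R) (s : S) (hs : φ y * s ∈ J.map φ) :
    s ∈ (J.colon {y}).map φ := by
  let _ := φ.toAlgebra
  have hx : ∀ i, x i ∈ m := fun i => hm ▸ Ideal.subset_span ⟨i, rfl⟩
  have hinj : Injective (m.subtype.lTensor S) := by
    rw [injective_iff_map_eq_zero]
    intro z hz
    obtain ⟨s, rfl⟩ : ∃ s : Fin d → S, z = ∑ i, s i ⊗ₜ[R] (⟨x i, hx i⟩ : m) := by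
      clear hz
      induction z using TensorProduct.induction_on with
      | zero => exact ⟨0, by simp⟩
      | tmul a k =>
        obtain ⟨t, ht⟩ := Ideal.mem_span_range_iff_exists_fun.mp (hm ▸ k.2 :
          (k : R) ∈ Ideal.span (Set.range x))
        refine ⟨fun i => t i • a, ?_⟩
        simp only [smul_tmul, ← tmul_sum]
        congr 1
        apply Subtype.ext
        simp [← ht]
      | add z₁ z₂ h₁ h₂ =>
        obtain ⟨s₁, rfl⟩ := h₁
        obtain ⟨s₂, rfl⟩ := h₂
        exact ⟨s₁ + s₂, by simp [add_tmul, Finset.sum_add_distrib]⟩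
    have h1 : ∑ i, φ (x i) * s i = 0 := by
      have := congrArg (TensorProduct.rid R S) hz
      have h2 : ∑ i, algebraMap R S (x i) * s i = 0 := by simpa [Algebra.smul_def] using this
      exact h2
    obtain ⟨c, c', hc⟩ := H s h1
    have e1 : ∀ (a : S) i j, (a * φ (x j)) ⊗ₜ[R] (⟨x i, hx i⟩ : m)
        = (a * φ (x i)) ⊗ₜ[R] (⟨x j, hx j⟩ : m) := by
      intro a i j
      have h2 : ∀ r : R, a * φ r = r • a := fun r => by rw [mul_comm]; rfl
      rw [h2, h2, smul_tmul, smul_tmul]
      congr 1
      apply Subtype.ext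
      simp [mul_comm]
    have e2 : ∀ i, (φ (w i) * c' i) ⊗ₜ[R] (⟨x i, hx i⟩ : m) = 0 := by
      intro i
      have h2 : φ (w i) * c' i = w i • c' i := rfl
      rw [h2, smul_tmul]
      have : w i • (⟨x i, hx i⟩ : m) = 0 := Subtype.ext (hw i)
      rw [this, tmul_zero]
    simp only [hc, add_tmul, e2, add_zero, sum_tmul, sub_mul, sub_tmul, Finset.sum_sub_distrib]
    rw [sub_eq_zero, Finset.sum_comm]
    exact Finset.sum_congr rfl fun i _ => Finset.sum_congr rfl fun j _ => e1 _ _ _
  have h1 := colon_finlen m hinj J n hn y s (by rw [Ideal.smul_top_eq_map]; exact hs)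
  rwa [Ideal.smul_top_eq_map] at h1

theorem ker_le_of_socle {d : ℕ} (Θ : R →+* S) (X : Fin d → R) (K : Ideal R) (N : ℕ) (hN : 1 ≤ N)
    (hK : ∀ z ∈ K, Θ z = 0) (hX : ∀ i, Θ (X i) ^ N = 0)
    (H : ∀ c, Θ c * ∏ i, Θ (X i) ^ (N - 1) = 0 → c ∈ K ⊔ Ideal.span (Set.range X)) :
    RingHom.ker Θ ≤ K ⊔ Mon X (fun _ => N) := by
  classical
  set K₀ := K ⊔ Mon X (fun _ => N) with hK₀
  have hK₀' : K₀ ≤ RingHom.ker Θ := by
    refine sup_le (fun z hz => hK z hz) ?_
    rw [Mon, Ideal.span_le]
    rintro _ ⟨i, rfl⟩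
    simpa using hX i
  have key : ∀ T : Finset (Fin d → ℕ), (∀ α ∈ T, ∀ i, α i < N) →
      (∀ α ∈ T, ∀ i, α i + 1 < N → Function.update α i (α i + 1) ∈ T) →
      ∀ z ∈ K₀ ⊔ Ideal.span ((fun α : Fin d → ℕ => ∏ i, X i ^ α i) '' (T : Set (Fin d → ℕ))),
        Θ z = 0 → z ∈ K₀ := by
    intro T
    induction T using Finset.induction_on_min_value (fun α : Fin d → ℕ => ∑ i, α i) with
    | empty => intro _ _ z hz _; simpa using hz
    | insert α T hα hmin ih =>
      intro hbox hup z hz hz0
      have hsum : ∀ (β : Fin d → ℕ) i, ∑ j, Function.update β i (β i + 1) j = ∑ j, β j + 1 := by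
        intro β i
        rw [Finset.sum_update_of_mem (Finset.mem_univ i),
          ← Finset.add_sum_erase _ _ (Finset.mem_univ i), Finset.sdiff_singleton_eq_erase]
        ring
      rw [Finset.coe_insert, Set.image_insert_eq, Ideal.span_insert, sup_comm (Ideal.span {_}),
        ← sup_assoc] at hz
      obtain ⟨c, hc⟩ := mem_sup_span_singleton.mp hz
      set U := K₀ ⊔ Ideal.span ((fun α : Fin d → ℕ => ∏ i, X i ^ α i) '' (T : Set (Fin d → ℕ)))
      have hkill : ∀ u ∈ U, Θ u * ∏ i, Θ (X i) ^ (N - 1 - α i) = 0 := by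
        intro u hu
        have : U ≤ ((⊥ : Ideal S).colon {∏ i, Θ (X i) ^ (N - 1 - α i)}).comap Θ := by
          refine sup_le (fun z hz => ?_) ?_
          · have : Θ z = 0 := hK₀' hz
            simp [this]
          · rw [Ideal.span_le]
            rintro _ ⟨β, hβ, rfl⟩
            obtain ⟨i, hi⟩ : ∃ i, α i < β i := by
              by_contra hcon
              push Not at hcon
              have h1 := hmin β hβ
              have : β = α := funext fun i =>
                (Finset.sum_eq_sum_iff_of_le (fun i _ => hcon i)).mp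
                  (le_antisymm (Finset.sum_le_sum fun i _ => hcon i) h1) i (Finset.mem_univ i)
              exact hα (this ▸ hβ)
            simp only [SetLike.mem_coe, Ideal.mem_comap, Submodule.mem_colon_singleton,
              smul_eq_mul, map_prod, map_pow, Ideal.mem_bot, ← Finset.prod_mul_distrib, ← pow_add]
            refine Finset.prod_eq_zero (Finset.mem_univ i) ?_
            have := hbox α (Finset.mem_insert_self _ _) i
            exact pow_eq_zero_of_le (by omega) (hX i)
        simpa using this hu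
      have hc1 : c ∈ K ⊔ Ideal.span (Set.range X) := by
        apply H
        have := hkill _ hc
        rw [map_sub, hz0, zero_sub, neg_mul, neg_eq_zero, map_mul, map_prod, mul_assoc,
          ← Finset.prod_mul_distrib] at this
        rw [← this]
        congr 1
        refine Finset.prod_congr rfl fun i _ => ?_
        rw [map_pow, ← pow_add]
        have := hbox α (Finset.mem_insert_self _ _) i
        congr 1; omega
      have hc2 : c * ∏ i, X i ^ α i ∈ U := by
        have : K ⊔ Ideal.span (Set.range X) ≤ U.colon {∏ i, X i ^ α i} := by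
          refine sup_le (fun z hz => ?_) ?_
          · rw [Submodule.mem_colon_singleton, smul_eq_mul]
            exact Submodule.mem_sup_left (Submodule.mem_sup_left (K.mul_mem_right _ hz))
          · rw [Ideal.span_le]
            rintro _ ⟨i, rfl⟩
            rw [SetLike.mem_coe, Submodule.mem_colon_singleton, smul_eq_mul]
            by_cases hi : α i + 1 < N
            · have h1 := hup α (Finset.mem_insert_self _ _) i hi
              rcases Finset.mem_insert.mp h1 with h | h
              · have := congrFun h i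
                simp at this
              · refine Submodule.mem_sup_right (Ideal.subset_span ⟨_, h, ?_⟩)
                simp only
                rw [← Finset.mul_prod_erase _ _ (Finset.mem_univ i),
                  ← Finset.mul_prod_erase _ (fun j => X j ^ α j) (Finset.mem_univ i),
                  Function.update_self, pow_succ', mul_assoc]
                congr 2
                exact Finset.prod_congr rfl fun j hj => by
                  rw [Function.update_of_ne (Finset.ne_of_mem_erase hj)]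
            · refine Submodule.mem_sup_left (Submodule.mem_sup_right ?_)
              have := hbox α (Finset.mem_insert_self _ _) i
              rw [← Finset.mul_prod_erase _ (fun j => X j ^ α j) (Finset.mem_univ i), ← mul_assoc,
                ← pow_succ', show α i + 1 = N by omega]
              exact Ideal.mul_mem_right _ _ (pow_mem_Mon X (fun _ => N) i)
        simpa using this hc1
      refine ih (fun β hβ => hbox β (Finset.mem_insert_of_mem hβ)) (fun β hβ i hi => ?_) z ?_ hz0
      · rcases Finset.mem_insert.mp (hup β (Finset.mem_insert_of_mem hβ) i hi) with h | h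
        · have h1 := hmin β hβ
          have h2 := hsum β i
          rw [h] at h2
          omega
        · exact h
      · have : z = (z - c * ∏ i, X i ^ α i) + c * ∏ i, X i ^ α i := by ring
        rw [this]; exact U.add_mem hc hc2
  intro z hz
  refine key (Fintype.piFinset fun _ => Finset.range N) (by simp) ?_ z ?_ hz
  · intro α hα i hi
    rw [Fintype.mem_piFinset] at hα ⊢
    intro j
    by_cases hj : j = i
    · subst hj; simpa using hi
    · simpa [hj] using hα j
  · refine Submodule.mem_sup_right ?_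
    have : (1 : R) ∈ Ideal.span ((fun α : Fin d → ℕ => ∏ i, X i ^ α i) ''
        ((Fintype.piFinset fun _ : Fin d => Finset.range N : Finset (Fin d → ℕ)) : Set _)) :=
      Ideal.subset_span ⟨0, by simp; omega, by simp⟩
    simpa using Ideal.mul_mem_left _ z this

end colon

section tri

variable {Λ τ : Type*} [CommRing Λ] [DecidableEq τ]

open MvPolynomial

/-- Single out the variable `v`. -/
noncomputable def Phi (Λ : Type*) [CommRing Λ] (v : τ) :
    MvPolynomial τ Λ →+* Polynomial (MvPolynomial τ Λ) :=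
  eval₂Hom (Polynomial.C.comp C) fun w => if w = v then Polynomial.X else Polynomial.C (X w)

lemma Phi_C (v : τ) (a : Λ) : Phi Λ v (C a) = Polynomial.C (C a) := by simp [Phi]

lemma Phi_X_self (v : τ) : Phi Λ v (X v) = Polynomial.X := by simp [Phi]

lemma Phi_X_ne {v w : τ} (h : w ≠ v) : Phi Λ v (X w) = Polynomial.C (X w) := by simp [Phi, h]

lemma eval_Phi (v : τ) (a : MvPolynomial τ Λ) : (Phi Λ v a).eval (X v) = a := by
  have : (Polynomial.evalRingHom (X v)).comp (Phi Λ v) = RingHom.id _ := by
    ext w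
    · simp [Phi_C]
    · by_cases h : w = v
      · subst h; simp [Phi_X_self]
      · simp [Phi_X_ne h]
  exact congrArg (fun f => f a) this

/-- The ideal `J` is generated by elements that do not involve `v`. -/
def Const (v : τ) (J : Ideal (MvPolynomial τ Λ)) : Prop :=
  J ≤ (J.map Polynomial.C).comap (Phi Λ v)

lemma const_span {v : τ} {s : Set (MvPolynomial τ Λ)}
    (h : ∀ a ∈ s, Phi Λ v a = Polynomial.C a) : Const v (Ideal.span s) := by
  rw [Const, Ideal.span_le]
  intro a ha
  rw [SetLike.mem_coe, Ideal.mem_comap, h a ha]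
  exact Ideal.mem_map_of_mem _ (Ideal.subset_span ha)

lemma Const.sup {v : τ} {J K : Ideal (MvPolynomial τ Λ)} (hJ : Const v J) (hK : Const v K) :
    Const v (J ⊔ K) :=
  sup_le (hJ.trans (Ideal.comap_mono (Ideal.map_mono le_sup_left)))
    (hK.trans (Ideal.comap_mono (Ideal.map_mono le_sup_right)))

lemma Const.nzd {v : τ} {J : Ideal (MvPolynomial τ Λ)} (hJ : Const v J) {ρ : MvPolynomial τ Λ}
    (hρ : (Phi Λ v ρ).Monic) (a : MvPolynomial τ Λ) (ha : ρ * a ∈ J) : a ∈ J := by
  have h1 : Phi Λ v ρ * Phi Λ v a ∈ J.map Polynomial.C := by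
    rw [← map_mul]; exact hJ ha
  have hker : ∀ f : Polynomial (MvPolynomial τ Λ),
      f ∈ J.map Polynomial.C ↔ f.map (Ideal.Quotient.mk J) = 0 := by
    intro f
    rw [Ideal.mem_map_C_iff, Polynomial.ext_iff]
    simp [Ideal.Quotient.eq_zero_iff_mem]
  rw [hker, Polynomial.map_mul] at h1
  have h2 := (hker _).mpr ((hρ.map _).mul_right_eq_zero_iff.mp h1)
  rw [← eval_Phi v a, Polynomial.eval_eq_sum_range]
  exact Ideal.sum_mem _ fun i _ => J.mul_mem_right _ (Ideal.mem_map_C_iff.mp h2 i)

end tri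

end Pool.Agent.P.MP_fcbc4b_ag
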