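import Pool.Agent.P.MP_fcbc4b_ag.Kunz

/-! The key local lemma. -/

set_option autoImplicit false

namespace Pool.Agent.P.MP_fcbc4b_ag

open IsLocalRing

variable {p : ℕ} [Fact p.Prime]

lemma fpow_sup_span {A : Type*} [CommRing A] [CharP A p] (e : ℕ) (J : Ideal A) (x : A) :
    fpow p e (J ⊔ Ideal.span {x}) = fpow p e J ⊔ Ideal.span {x ^ p ^ e} := by
  unfold fpow
  rw [Ideal.map_sup, Ideal.map_span, Set.image_singleton, iterateFrobenius_def]

lemma mem_of_pow_mem_fpow {A : Type*} [CommRing A] [CharP A p] (hCP : CP p A) (e : ℕ)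
    {J : Ideal A} {x : A} (h : x ^ p ^ e ∈ fpow p e J) : x ∈ J := by
  have := fpow_le e _ (hCP e J x 1 (by simpa using h))
  simpa using this

variable {A : Type*} [CommRing A] [IsLocalRing A] [IsNoetherianRing A] [CharP A p]

/-- An element of `I^[Q]` outside `m I^[Q]` involves a minimal generator with unit coefficient. -/
lemma exists_min_gen (e : ℕ) (I : Ideal A) (u : A) (hu : u ∈ fpow p e I)
    (hu' : u ∉ maximalIdeal A * fpow p e I) :
    ∃ (I₀ : Ideal A) (g r : A), I = I₀ ⊔ Ideal.span {g} ∧ g ∉ I₀ ∧ IsUnit r ∧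
      u - r * g ^ p ^ e ∈ fpow p e I₀ := by
  classical
  have hex : ∃ n, ∃ s : Finset A, s.card = n ∧ Ideal.span (s : Set A) = I := by
    obtain ⟨s, hs⟩ := (IsNoetherian.noetherian I : I.FG)
    exact ⟨_, s, rfl, hs⟩
  obtain ⟨s, hcard, hs⟩ := Nat.find_spec hex
  have hu2 : u ∈ Submodule.span A ((fun x : A => x ^ p ^ e) '' (s : Set A)) := by
    have := hu
    unfold fpow at this
    rw [← hs, Ideal.map_span] at this
    exact this
  obtain ⟨c, hc⟩ := (Submodule.mem_span_image_finset_iff_exists_fun' A).mp hu2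
  have hy : ∃ y ∈ s, IsUnit (c y) := by
    by_contra hcon
    push Not at hcon
    apply hu'
    rw [← hc]
    refine Ideal.sum_mem _ fun y hy => Ideal.mul_mem_mul (hcon y hy) (pow_mem_fpow e ?_)
    rw [← hs]; exact Ideal.subset_span hy
  obtain ⟨y, hys, hyu⟩ := hy
  have hI : I = Ideal.span ((s.erase y : Finset A) : Set A) ⊔ Ideal.span {y} := by
    rw [← hs, ← Ideal.span_union]
    congr 1
    ext z
    by_cases hz : z = y <;> simp [hz, hys]
  refine ⟨_, y, c y, hI, ?_, hyu, ?_⟩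
  · intro hy
    have : Ideal.span ((s.erase y : Finset A) : Set A) = I := by
      rw [hI, sup_eq_left.mpr ((Ideal.span_singleton_le_iff_mem _).mpr hy)]
    have h1 := Nat.find_min' hex ⟨_, rfl, this⟩
    rw [← hcard, Finset.card_erase_of_mem hys] at h1
    have := Finset.card_pos.mpr ⟨y, hys⟩
    omega
  · rw [← hc, ← Finset.add_sum_erase s _ hys, smul_eq_mul, add_sub_cancel_left]
    refine Ideal.sum_mem _ fun z hz => ?_
    exact Ideal.mul_mem_left _ _ (pow_mem_fpow e (Ideal.subset_span hz))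

omit [IsNoetherianRing A] in
lemma key_step (hCP : CP p A) (e : ℕ) (I₀ : Ideal A) (g r u γ : A) (hg : g ∉ I₀) (hr : IsUnit r)
    (hu : u - r * g ^ p ^ e ∈ fpow p e I₀)
    (hγ : u ^ (p ^ e - 1) * γ ∈ fpow p (e + e) (I₀ ⊔ Ideal.span {g})) :
    ∃ ρ, γ - ρ * u ∈ fpow p (e + e) (maximalIdeal A) := by
  rw [fpow_sup_span] at hγ
  obtain ⟨ρ', hρ'⟩ := mem_sup_span_singleton.mp hγ
  obtain ⟨r, rfl⟩ := hr
  have hQ : p ^ e = (p ^ e - 1) + 1 := by
    have := Nat.one_le_pow e p (Fact.out : p.Prime).pos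
    omega
  have h1 : u ^ p ^ e - (r : A) ^ p ^ e * g ^ p ^ (e + e) ∈ fpow p (e + e) I₀ := by
    have := pow_mem_fpow (p := p) e hu
    rwa [fpow_fpow, sub_pow_char_pow, mul_pow, ← pow_mul, ← pow_add] at this
  set w : A := ((r⁻¹ : Aˣ) : A) ^ p ^ e with hw
  have hrw : w * (r : A) ^ p ^ e = 1 := by
    rw [hw, ← mul_pow, Units.inv_mul, one_pow]
  refine ⟨ρ' * w, ?_⟩
  have h2 : u ^ p ^ e * (γ - ρ' * w * u) ∈ fpow p (e + e) I₀ := by
    have : u ^ p ^ e * (γ - ρ' * w * u) = u * (u ^ (p ^ e - 1) * γ - ρ' * g ^ p ^ (e + e))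
        - ρ' * w * u * (u ^ p ^ e - (r : A) ^ p ^ e * g ^ p ^ (e + e)) := by
      have h3 : u ^ p ^ e = u ^ (p ^ e - 1) * u := by rw [← pow_succ, ← hQ]
      linear_combination γ * h3 - ρ' * u * g ^ p ^ (e + e) * hrw
    rw [this]
    exact Ideal.sub_mem _ (Ideal.mul_mem_left _ _ hρ') (Ideal.mul_mem_left _ _ h1)
  have h3 : g ^ p ^ (e + e) * (γ - ρ' * w * u) ∈ fpow p (e + e) I₀ := by
    have : g ^ p ^ (e + e) * (γ - ρ' * w * u) = w * (u ^ p ^ e * (γ - ρ' * w * u))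
        - w * (γ - ρ' * w * u) * (u ^ p ^ e - (r : A) ^ p ^ e * g ^ p ^ (e + e)) := by
      linear_combination (-(g ^ p ^ (e + e) * (γ - ρ' * w * u))) * hrw
    rw [this]
    exact Ideal.sub_mem _ (Ideal.mul_mem_left _ _ h2) (Ideal.mul_mem_left _ _ h1)
  refine Ideal.map_mono (IsLocalRing.le_maximalIdeal fun h => hg ?_) (hCP _ _ _ _ h3)
  have : (1 : A) ∈ I₀.colon {g} := by rw [h]; trivial
  simpa using this

omit [IsLocalRing A] [IsNoetherianRing A] in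
lemma fpow_add_le (e e' : ℕ) (J : Ideal A) (k : ℕ) (hk : k ≤ p ^ e') :
    fpow p (e + e') J ≤ fpow p e (J ^ k) := by
  rw [← fpow_fpow]
  exact Ideal.map_mono ((fpow_le_pow e' J).trans (Ideal.pow_le_pow_right hk))

theorem key_local (hCP : CP p A) (I : Ideal A) (hI : I ≤ maximalIdeal A) (g g' : A) (hg' : g' ≠ 0)
    (hg : ∀ a, g * a ∈ Ideal.span {g'} → a ∈ Ideal.span {g'}) (e₀ : ℕ) :
    ∃ e₁, ∀ e, e₁ ≤ e → ∀ u ∈ fpow p e I,
      u ^ (p ^ e - 1) * g ^ p ^ (e₀ + e) ∈ fpow p (e + e) I →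
      u ^ (p ^ e - 1) * g' ^ p ^ (e₀ + e) ∈ fpow p (e + e) I →
      u ∈ maximalIdeal A * fpow p e I := by
  obtain ⟨k, hk⟩ : ∃ k, g' ∉ maximalIdeal A ^ k := by
    by_contra hcon
    push Not at hcon
    exact hg' (krull_sup ⊥ g' fun n => by simpa using hcon n)
  obtain ⟨c, hc⟩ := colon_AR (Ideal.span {g'}) (maximalIdeal A) g
  refine ⟨e₀ + (k + c), fun e he u hu h1 h2 => ?_⟩
  by_contra hu'
  obtain ⟨I₀, y, r, rfl, hy, hr, hur⟩ := exists_min_gen e I u hu hu'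
  obtain ⟨ρ, hρ⟩ := key_step hCP e I₀ y r u _ hy hr hur h1
  obtain ⟨ρ', hρ'⟩ := key_step hCP e I₀ y r u _ hy hr hur h2
  obtain ⟨e₂, rfl⟩ : ∃ e₂, e = e₀ + e₂ := ⟨e - e₀, by omega⟩
  set E := e₀ + (e₀ + e₂) with hE
  have hEE : e₀ + e₂ + (e₀ + e₂) = E + e₂ := by omega
  have hkc : k + c ≤ p ^ e₂ :=
    (show k + c ≤ e₂ by omega).trans (Nat.lt_pow_self (Fact.out : p.Prime).one_lt).le
  rw [hEE] at hρ hρ'
  have hμ := fpow_add_le E e₂ _ _ hkc hρ
  have hμ' := fpow_add_le E e₂ _ _ hkc hρ'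
  have h3 : g ^ p ^ E * ρ' ∈ fpow p E (Ideal.span {g'} ⊔ maximalIdeal A ^ (k + c)) := by
    rw [sup_comm, fpow_sup_span]
    refine mem_sup_span_singleton.mpr ⟨ρ, ?_⟩
    have : g ^ p ^ E * ρ' - ρ * g' ^ p ^ E
        = ρ' * (g ^ p ^ E - ρ * u) - ρ * (g' ^ p ^ E - ρ' * u) := by ring
    rw [this]
    exact Ideal.sub_mem _ (Ideal.mul_mem_left _ _ hμ) (Ideal.mul_mem_left _ _ hμ')
  have h4 : ρ' ∈ fpow p E (maximalIdeal A ^ k ⊔ Ideal.span {g'}) := by
    refine Ideal.map_mono ((hc k).trans ?_) (hCP _ _ _ _ h3)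
    rw [sup_comm]
    refine sup_le_sup_left (fun a ha => hg a ?_) _
    rw [mul_comm]; simpa using ha
  rw [fpow_sup_span] at h4
  obtain ⟨s, hs⟩ := mem_sup_span_singleton.mp h4
  have hum : u ∈ maximalIdeal A := hI (fpow_le _ _ hu)
  have hunit : IsUnit (1 - s * u) :=
    IsLocalRing.isUnit_one_sub_self_of_mem_nonunits _ (Ideal.mul_mem_left _ _ hum)
  have h5 : (1 - s * u) * g' ^ p ^ E ∈ fpow p E (maximalIdeal A ^ k) := by
    have : (1 - s * u) * g' ^ p ^ E = (g' ^ p ^ E - ρ' * u) + u * (ρ' - s * g' ^ p ^ E) := by ring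
    rw [this]
    refine Ideal.add_mem _ (Ideal.map_mono (Ideal.pow_le_pow_right (by omega)) hμ')
      (Ideal.mul_mem_left _ _ hs)
  exact hk (mem_of_pow_mem_fpow hCP E ((Ideal.unit_mul_mem_iff_mem _ hunit).mp h5))

end Pool.Agent.P.MP_fcbc4b_ag
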