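import Pool.Agent.P.MP_fcbc4b_ag.RegSeq

/-! The colon property for local maps sending a regular system of parameters to a regular
sequence (flatness, in the form needed), and for the Frobenius map of a regular ring. -/

set_option autoImplicit false

namespace Pool.Agent.P.MP_fcbc4b_ag

open IsLocalRing TensorProduct Function

section tensor

variable {R : Type*} [CommRing R] {M : Type*} [AddCommGroup M] [Module R M]

lemma tinj_step (J : Ideal R) (x : R) (hJ : Injective (J.subtype.lTensor M))
    (hx : ∀ s : M, x • s ∈ J • (⊤ : Submodule R M) → s ∈ J • (⊤ : Submodule R M)) :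
    Injective ((J ⊔ Ideal.span {x}).subtype.lTensor M) := by
  set K : Ideal R := J ⊔ Ideal.span {x} with hK
  have hxK : x ∈ K := Submodule.mem_sup_right (Ideal.mem_span_singleton_self x)
  let ι : J →ₗ[R] K := Submodule.inclusion le_sup_left
  have hcomp : ∀ w, (K.subtype.lTensor M) (ι.lTensor M w) = J.subtype.lTensor M w := by
    intro w
    rw [← LinearMap.comp_apply, ← LinearMap.lTensor_comp]; rfl
  have hdec : ∀ z : M ⊗[R] K, ∃ (w : M ⊗[R] J) (s : M),
      z = ι.lTensor M w + s ⊗ₜ[R] (⟨x, hxK⟩ : K) := by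
    intro z
    induction z using TensorProduct.induction_on with
    | zero => exact ⟨0, 0, by simp⟩
    | tmul m k =>
      obtain ⟨c, hc⟩ := mem_sup_span_singleton.mp k.2
      refine ⟨m ⊗ₜ ⟨_, hc⟩, c • m, ?_⟩
      rw [LinearMap.lTensor_tmul, smul_tmul, ← tmul_add]
      congr 1
      apply Subtype.ext
      simp [ι]
    | add z₁ z₂ h₁ h₂ =>
      obtain ⟨w₁, s₁, rfl⟩ := h₁
      obtain ⟨w₂, s₂, rfl⟩ := h₂
      exact ⟨w₁ + w₂, s₁ + s₂, by rw [map_add, add_tmul]; abel⟩
  have hmem : ∀ w : M ⊗[R] J,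
      TensorProduct.rid R M (J.subtype.lTensor M w) ∈ J • (⊤ : Submodule R M) := by
    intro w
    induction w using TensorProduct.induction_on with
    | zero => simp
    | tmul m k => simpa using Submodule.smul_mem_smul k.2 Submodule.mem_top
    | add z₁ z₂ h₁ h₂ => rw [map_add, map_add]; exact Submodule.add_mem _ h₁ h₂
  have hrange : ∀ s ∈ J • (⊤ : Submodule R M),
      ∃ w, s ⊗ₜ[R] (⟨x, hxK⟩ : K) = ι.lTensor M w := by
    intro s hs
    induction hs using Submodule.smul_induction_on' with
    | smul r hr n _ =>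
      refine ⟨n ⊗ₜ ⟨r * x, J.mul_mem_right _ hr⟩, ?_⟩
      rw [LinearMap.lTensor_tmul, smul_tmul]
      rfl
    | add a _ b _ h₁ h₂ =>
      obtain ⟨w₁, h₁⟩ := h₁
      obtain ⟨w₂, h₂⟩ := h₂
      exact ⟨w₁ + w₂, by rw [add_tmul, map_add, h₁, h₂]⟩
  rw [injective_iff_map_eq_zero]
  intro z hz
  obtain ⟨w, s, rfl⟩ := hdec z
  have h1 : x • s ∈ J • (⊤ : Submodule R M) := by
    have := congrArg (TensorProduct.rid R M) hz
    rw [map_add, map_add, hcomp, LinearMap.lTensor_tmul, map_zero, TensorProduct.rid_tmul] at this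
    have h2 : x • s = - TensorProduct.rid R M (J.subtype.lTensor M w) :=
      eq_neg_of_add_eq_zero_right this
    rw [h2]; exact Submodule.neg_mem _ (hmem w)
  obtain ⟨w', hw'⟩ := hrange s (hx s h1)
  rw [hw', ← map_add, hcomp] at hz
  rw [hw', ← map_add, hJ (hz.trans (map_zero _).symm), map_zero]

lemma tinj_coker' (m : Ideal R) (hm : Injective (m.subtype.lTensor M))
    {A B : Type*} [AddCommGroup A] [Module R A] [AddCommGroup B] [Module R B]
    (f : A →ₗ[R] B) (g : B →ₗ[R] R ⧸ m) (hf : Injective f) (hg : Surjective g) (hfg : Exact f g)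
    {F : Type*} [AddCommGroup F] [Module R F] [Module.Flat R F] (π : F →ₗ[R] M)
    (hπ : Surjective π) : Injective (f.lTensor M) := by
  have hex : Exact (LinearMap.ker π).subtype π := LinearMap.exact_subtype_ker_map π
  have h1 : Injective ((LinearMap.ker π).subtype.lTensor (R ⧸ m)) := by
    refine lTensor_injective_of_exact_of_exact_of_rTensor_injective (f₁ := m.subtype)
      (f₂ := m.mkQ) (LinearMap.exact_subtype_mkQ m) (Submodule.mkQ_surjective m) hex hπ
      ((LinearMap.lTensor_inj_iff_rTensor_inj _ _).mp hm) ?_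
    exact Module.Flat.lTensor_preserves_injective_linearMap _ (Submodule.injective_subtype _)
  refine lTensor_injective_of_exact_of_exact_of_rTensor_injective hex hπ hfg hg
    ((LinearMap.lTensor_inj_iff_rTensor_inj _ _).mp h1) ?_
  exact Module.Flat.lTensor_preserves_injective_linearMap _ hf

lemma tinj_coker (m : Ideal R) (hm : Injective (m.subtype.lTensor M))
    {A B : Type*} [AddCommGroup A] [Module R A] [AddCommGroup B] [Module R B]
    (f : A →ₗ[R] B) (g : B →ₗ[R] R ⧸ m) (hf : Injective f) (hg : Surjective g) (hfg : Exact f g) :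
    Injective (f.lTensor M) :=
  tinj_coker' m hm f g hf hg hfg (F := M →₀ R) (Finsupp.linearCombination R id)
    (Finsupp.linearCombination_id_surjective R M)

lemma tinj_finlen (m : Ideal R) [hmax : m.IsMaximal] (hm : Injective (m.subtype.lTensor M))
    {B : Type*} [AddCommGroup B] [Module R B] [IsNoetherian R B] (n : ℕ)
    (hn : m ^ n • (⊤ : Submodule R B) = ⊥) (N : Submodule R B) :
    Injective (N.subtype.lTensor M) := by
  induction N using WellFoundedGT.induction with
  | ind N ih =>
  by_cases hN : N = ⊤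
  · subst hN
    exact ((Submodule.topEquiv (R := R) (M := B)).lTensor M).injective
  have hz : ∃ z : B, z ∉ N ∧ ∀ a ∈ m, a • z ∈ N := by
    classical
    have hex : ∃ j, m ^ j • (⊤ : Submodule R B) ≤ N := ⟨n, by rw [hn]; exact bot_le⟩
    have h0 : Nat.find hex ≠ 0 := by
      intro h
      have := Nat.find_spec hex
      rw [h] at this
      exact hN (by simpa using this)
    obtain ⟨j, hj⟩ := Nat.exists_eq_succ_of_ne_zero h0
    have h1 : ¬ m ^ j • (⊤ : Submodule R B) ≤ N := Nat.find_min hex (by omega)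
    have h2 := Nat.find_spec hex
    rw [hj] at h2
    obtain ⟨z, hz1, hz2⟩ := SetLike.not_le_iff_exists.mp h1
    refine ⟨z, hz2, fun a ha => h2 ?_⟩
    rw [pow_succ', Submodule.mul_smul]
    exact Submodule.smul_mem_smul ha hz1
  obtain ⟨z, hzN, hzm⟩ := hz
  set N' : Submodule R B := N ⊔ Submodule.span R {z} with hN'
  have hzN' : z ∈ N' := Submodule.mem_sup_right (Submodule.mem_span_singleton_self z)
  have hlt : N < N' := lt_of_le_of_ne le_sup_left (fun h => hzN (h ▸ hzN'))
  have h1 := ih N' hlt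
  let N₀ : Submodule R N' := N.comap N'.subtype
  let t : R →ₗ[R] N' ⧸ N₀ := LinearMap.toSpanSingleton R _ (N₀.mkQ ⟨z, hzN'⟩)
  have ht : Surjective t := by
    intro y
    obtain ⟨⟨y, hy⟩, rfl⟩ := N₀.mkQ_surjective y
    obtain ⟨a, ha, b, hb, rfl⟩ := Submodule.mem_sup.mp hy
    obtain ⟨c, rfl⟩ := Submodule.mem_span_singleton.mp hb
    refine ⟨c, ?_⟩
    simp only [t, LinearMap.toSpanSingleton_apply, Submodule.mkQ_apply]
    rw [← Submodule.Quotient.mk_smul, Submodule.Quotient.eq]
    simpa [N₀] using ha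
  have hker : m = LinearMap.ker t := by
    apply hmax.eq_of_le
    · intro h
      have : (1 : R) ∈ LinearMap.ker t := by rw [h]; trivial
      simp only [t, LinearMap.mem_ker, LinearMap.toSpanSingleton_apply, one_smul,
        Submodule.mkQ_apply, Submodule.Quotient.mk_eq_zero] at this
      exact hzN this
    · intro a ha
      simp only [t, LinearMap.mem_ker, LinearMap.toSpanSingleton_apply, Submodule.mkQ_apply]
      rw [← Submodule.Quotient.mk_smul, Submodule.Quotient.mk_eq_zero]
      exact hzm a ha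
  let e : (R ⧸ m) ≃ₗ[R] N' ⧸ N₀ :=
    (Submodule.quotEquivOfEq _ _ hker).trans (t.quotKerEquivOfSurjective ht)
  have h2 : Injective ((Submodule.inclusion hlt.le).lTensor M) := by
    refine tinj_coker m hm _ (e.symm.toLinearMap ∘ₗ N₀.mkQ) (Submodule.inclusion_injective _)
      (e.symm.surjective.comp N₀.mkQ_surjective) ?_
    intro y
    simp only [LinearMap.comp_apply, LinearEquiv.coe_coe, EmbeddingLike.map_eq_zero_iff,
      Submodule.mkQ_apply, Submodule.Quotient.mk_eq_zero]
    constructor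
    · intro hy; exact ⟨⟨y.1, hy⟩, rfl⟩
    · rintro ⟨w, rfl⟩; exact w.2
  have : N.subtype.lTensor M = N'.subtype.lTensor M ∘ₗ (Submodule.inclusion hlt.le).lTensor M := by
    rw [← LinearMap.lTensor_comp]; rfl
  rw [this]
  exact h1.comp h2

lemma colon_finlen [IsNoetherianRing R] (m : Ideal R) [m.IsMaximal]
    (hm : Injective (m.subtype.lTensor M)) (J : Ideal R) (n : ℕ) (hn : m ^ n ≤ J) (x : R) (s : M)
    (hs : x • s ∈ J • (⊤ : Submodule R M)) : s ∈ J.colon {x} • (⊤ : Submodule R M) := by
  let t : R →ₗ[R] R ⧸ J := LinearMap.toSpanSingleton R _ (Ideal.Quotient.mk J x)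
  have hker : J.colon {x} = LinearMap.ker t := by
    ext a
    simp only [t, LinearMap.mem_ker, LinearMap.toSpanSingleton_apply,
      Submodule.mem_colon_singleton]
    rw [← Ideal.Quotient.eq_zero_iff_mem]; rfl
  let e : (R ⧸ J.colon {x}) ≃ₗ[R] LinearMap.range t :=
    (Submodule.quotEquivOfEq _ _ hker).trans t.quotKerEquivRange
  have h1 := tinj_finlen m hm (B := R ⧸ J) n (by
    rw [eq_bot_iff]
    refine Submodule.smul_le.mpr fun a ha y _ => ?_
    obtain ⟨y, rfl⟩ := Ideal.Quotient.mk_surjective y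
    rw [Submodule.mem_bot]
    exact Ideal.Quotient.eq_zero_iff_mem.mpr (J.mul_mem_right _ (hn ha))) (LinearMap.range t)
  have h2 := h1.comp (e.lTensor M).injective
  have h3 : (s ⊗ₜ[R] (Ideal.Quotient.mk (J.colon {x}) 1)) = 0 := by
    apply h2
    simp only [Function.comp_apply, LinearEquiv.lTensor_tmul, LinearMap.lTensor_tmul, map_zero]
    have : (LinearMap.range t).subtype (e (Ideal.Quotient.mk (J.colon {x}) 1))
        = Ideal.Quotient.mk J x := by
      change t 1 = _
      simp [t]
    rw [this]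
    apply (tensorQuotEquivQuotSMul M J).injective
    rw [tensorQuotEquivQuotSMul_tmul_mk, map_zero, Submodule.Quotient.mk_eq_zero]
    exact hs
  have := congrArg (tensorQuotEquivQuotSMul M (J.colon {x})) h3
  rwa [tensorQuotEquivQuotSMul_tmul_mk, map_zero, Submodule.Quotient.mk_eq_zero, one_smul] at this

end tensor

section AR

variable {A : Type*} [CommRing A] [IsNoetherianRing A]

lemma colon_AR (J a : Ideal A) (x : A) :
    ∃ c, ∀ n, (J ⊔ a ^ (n + c)).colon {x} ≤ J.colon {x} ⊔ a ^ n := by
  obtain ⟨k, hk⟩ := Ideal.exists_pow_inf_eq_pow_smul a (M := A) (J ⊔ Ideal.span {x} : Ideal A)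
  refine ⟨k, fun n y hy => ?_⟩
  rw [Submodule.mem_colon_singleton, smul_eq_mul] at hy
  obtain ⟨j, hj, μ, hμ, h⟩ := Submodule.mem_sup.mp hy
  have h0 := hk (n + k) (Nat.le_add_left _ _)
  rw [Nat.add_sub_cancel, Ideal.smul_eq_mul, Ideal.smul_eq_mul, Ideal.mul_top] at h0
  have h1 : μ ∈ a ^ (n + k) ⊓ (J ⊔ Ideal.span {x}) := by
    refine ⟨hμ, mem_sup_span_singleton.mpr ⟨y, ?_⟩⟩
    have : μ - y * x = -j := by rw [← h]; ring
    rw [this]; exact J.neg_mem hj
  rw [h0] at h1
  have h2 : μ ∈ a ^ n * J ⊔ a ^ n * Ideal.span {x} := by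
    rw [← Ideal.mul_sup]
    exact Ideal.mul_mono_right inf_le_right h1
  obtain ⟨j', hj', w, hw, h3⟩ := Submodule.mem_sup.mp h2
  obtain ⟨b, hb, h4⟩ := Ideal.mem_mul_span_singleton.mp hw
  have : y = (y - b) + b := by ring
  rw [this]
  refine Submodule.add_mem_sup ?_ hb
  rw [Submodule.mem_colon_singleton, smul_eq_mul]
  have : (y - b) * x = j + j' := by rw [sub_mul, ← h, ← h3, ← h4]; ring
  rw [this]
  exact J.add_mem hj (Ideal.mul_le_right hj')

lemma krull_sup [IsLocalRing A] (K : Ideal A) (s : A) (h : ∀ n, s ∈ K ⊔ maximalIdeal A ^ n) :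
    s ∈ K := by
  obtain ⟨c, hc⟩ := colon_AR K (maximalIdeal A) s
  have h1 : (1 : A) ∈ K.colon {s} ⊔ maximalIdeal A ^ 1 :=
    hc 1 (by simpa using h (1 + c))
  by_contra hs
  have : K.colon {s} ≤ maximalIdeal A := IsLocalRing.le_maximalIdeal (fun h => hs (by
    have : (1 : A) ∈ K.colon {s} := by rw [h]; trivial
    simpa using this))
  rw [pow_one, sup_eq_right.mpr this] at h1
  exact (IsLocalRing.maximalIdeal.isMaximal A).ne_top ((Ideal.eq_top_iff_one _).mpr h1)

end AR

section alg

variable {R S : Type*} [CommRing R] [CommRing S]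

lemma tinj_regSeq [Algebra R S] (l : List R) : ∀ J : Ideal R, Injective (J.subtype.lTensor S) →
    RegSeq (J.map (algebraMap R S)) (l.map (algebraMap R S)) →
    Injective ((J ⊔ Ideal.ofList l).subtype.lTensor S) := by
  induction l with
  | nil => intro J h _; rw [Ideal.ofList_nil, sup_bot_eq]; exact h
  | cons x l ih =>
    intro J h hr
    rw [Ideal.ofList_cons, ← sup_assoc]
    refine ih _ (tinj_step J x h ?_) ?_
    · intro s hs
      rw [Ideal.smul_top_eq_map] at hs ⊢
      exact hr.1 s (by simpa [Algebra.smul_def] using hs)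
    · have := hr.2
      rwa [Ideal.map_sup, Ideal.map_span, Set.image_singleton]

theorem colon_local [IsLocalRing R] [IsNoetherianRing R] [IsLocalRing S] [IsNoetherianRing S]
    (φ : R →+* S) (hφ : (maximalIdeal R).map φ ≤ maximalIdeal S) (l : List R)
    (hl : Ideal.ofList l = maximalIdeal R) (hreg : RegSeq ⊥ (l.map φ)) (J : Ideal R) (x : R) (s : S)
    (hs : φ x * s ∈ J.map φ) : s ∈ (J.colon {x}).map φ := by
  let _ := φ.toAlgebra
  have hm : Injective ((maximalIdeal R).subtype.lTensor S) := by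
    have := tinj_regSeq (S := S) l ⊥ (by
      intro a b _; exact Subsingleton.elim _ _) (by rw [Ideal.map_bot]; exact hreg)
    rwa [bot_sup_eq, hl] at this
  obtain ⟨c, hc⟩ := colon_AR J (maximalIdeal R) x
  apply krull_sup
  intro n
  have h1 := colon_finlen (maximalIdeal R) hm (J ⊔ maximalIdeal R ^ (n + c)) (n + c) le_sup_right
    x s (by
      rw [Ideal.smul_top_eq_map]
      exact Ideal.map_mono le_sup_left hs)
  rw [Ideal.smul_top_eq_map] at h1
  have h2 : s ∈ (J.colon {x} ⊔ maximalIdeal R ^ n).map φ := Ideal.map_mono (hc n) h1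
  rw [Ideal.map_sup, Ideal.map_pow] at h2
  exact sup_le_sup_left (Ideal.pow_right_mono hφ n) _ h2

end alg

section frob

variable (p : ℕ) [Fact p.Prime]

/-- Frobenius power. -/
noncomputable abbrev fpow {R : Type*} [CommRing R] [CharP R p] (e : ℕ) (J : Ideal R) : Ideal R :=
  J.map (iterateFrobenius R p e)

/-- The colon property. -/
def CP (R : Type*) [CommRing R] [CharP R p] : Prop :=
  ∀ (e : ℕ) (J : Ideal R) (x s : R), x ^ p ^ e * s ∈ fpow p e J → s ∈ fpow p e (J.colon {x})

variable {p}

lemma fpow_le_pow {R : Type*} [CommRing R] [CharP R p] (e : ℕ) (J : Ideal R) :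
    fpow p e J ≤ J ^ p ^ e := by
  rw [Ideal.map_le_iff_le_comap]
  intro x hx
  rw [Ideal.mem_comap, iterateFrobenius_def]
  exact Ideal.pow_mem_pow hx _

lemma fpow_le {R : Type*} [CommRing R] [CharP R p] (e : ℕ) (J : Ideal R) : fpow p e J ≤ J :=
  (fpow_le_pow e J).trans (Ideal.pow_le_self (pow_ne_zero _ (Fact.out : p.Prime).ne_zero))

lemma pow_mem_fpow {R : Type*} [CommRing R] [CharP R p] (e : ℕ) {J : Ideal R} {x : R}
    (hx : x ∈ J) : x ^ p ^ e ∈ fpow p e J := by
  have := Ideal.mem_map_of_mem (iterateFrobenius R p e) hx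
  rwa [iterateFrobenius_def] at this

lemma fpow_map {R S : Type*} [CommRing R] [CharP R p] [CommRing S] [CharP S p] (f : R →+* S)
    (e : ℕ) (J : Ideal R) : (fpow p e J).map f = fpow p e (J.map f) := by
  unfold fpow
  rw [Ideal.map_map, Ideal.map_map]
  congr 1
  ext x
  simp [iterateFrobenius_def]

lemma fpow_fpow {R : Type*} [CommRing R] [CharP R p] (e e' : ℕ) (J : Ideal R) :
    fpow p e (fpow p e' J) = fpow p (e + e') J := by
  unfold fpow
  rw [Ideal.map_map, iterateFrobenius_add]

theorem cp_local (R : Type*) [CommRing R] [CharP R p] [IsRegularLocalRing R] : CP p R := by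
  intro e J x s hs
  obtain ⟨-, l, -, hreg, hl⟩ := regular_seq R
  refine colon_local (iterateFrobenius R p e) (fpow_le e _) l hl ?_ J x s hs
  exact regSeq_pow (p ^ e) (Nat.one_le_pow _ _ (Fact.out : p.Prime).pos) l _ hreg

lemma charP_loc {R : Type*} [CommRing R] [CharP R p] (P : Ideal R) [P.IsPrime] :
    CharP (Localization.AtPrime P) p := by
  rw [CharP.charP_iff_prime_eq_zero Fact.out]
  rw [← map_natCast (algebraMap R (Localization.AtPrime P)), CharP.cast_eq_zero, map_zero]

lemma colon_map_loc {R : Type*} [CommRing R] (M : Submonoid R) (A : Type*) [CommRing A]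
    [Algebra R A] [IsLocalization M A] (J : Ideal R) (x : R) :
    (J.map (algebraMap R A)).colon {algebraMap R A x} ≤ (J.colon {x}).map (algebraMap R A) := by
  intro y hy
  obtain ⟨a, t, rfl⟩ := IsLocalization.exists_mk'_eq M y
  rw [Submodule.mem_colon_singleton, smul_eq_mul, mul_comm, IsLocalization.mul_mk'_eq_mk'_of_mul,
    IsLocalization.mk'_mem_map_algebraMap_iff] at hy
  rw [IsLocalization.mk'_mem_map_algebraMap_iff]
  obtain ⟨t', ht', h⟩ := hy
  refine ⟨t', ht', ?_⟩
  rw [Submodule.mem_colon_singleton, smul_eq_mul, mul_assoc, mul_comm a]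
  exact h

theorem cp_global (R : Type*) [CommRing R] [CharP R p] [IsRegularRing R] : CP p R := by
  intro e J x s hs
  refine Ideal.mem_of_localization_maximal fun P hP => ?_
  have := charP_loc (p := p) P
  rw [fpow_map]
  refine Ideal.map_mono (colon_map_loc P.primeCompl _ J x) (cp_local _ e _ _ _ ?_)
  have := Ideal.mem_map_of_mem (algebraMap R (Localization.AtPrime P)) hs
  rwa [fpow_map, map_mul, map_pow] at this

end frob

end Pool.Agent.P.MP_fcbc4b_ag
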