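import Pool.Agent.P.MP_fcbc4b_ag.Andre

/-! Big algebras at finite level, and their filter products. -/

set_option autoImplicit false

namespace Pool.Agent.P.MP_fcbc4b_ag

open IsLocalRing WittVector

/-- Koszul relations modulo `n`-th powers. -/
def H1' {B : Type*} [CommRing B] {d : ℕ} (x : Fin d → B) (n : ℕ) : Prop :=
  ∀ s : Fin d → B, ∑ i, x i * s i ∈ Mon x (fun _ => n) →
    ∃ (c : Fin d → Fin d → B) (c' : Fin d → B),
      ∀ i, s i = ∑ j, (c i j - c j i) * x j + x i ^ (n - 1) * c' i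

/-- The Briancon-Skoda property for products of roots. -/
def BS {B ι : Type*} [CommRing B] {d : ℕ} (x : Fin d → B) (σ : ι → B) (D h M k e N' : ℕ) : Prop :=
  ∀ (xs : Fin h → ι) (μ : Multiset ι),
    (μ.map σ).prod ^ D ∈ Mon (fun i => σ (xs i)) (fun _ => D) ^ M →
    (μ.map σ).prod ∈ Mon (fun i => σ (xs i)) (fun _ => e) ^ (k + 1) ⊔
      Ideal.span (Set.range x) ^ N'

variable {p : ℕ} [Fact p.Prime]

lemma h1_witt {C : Type*} [CommRing C] [CharP C p] [PerfectRing C p] {d : ℕ} (Y : Fin d → C)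
    (hY : H1 ⊥ Y) (a : Fin d → WittVector p C) :
    H1 (Ideal.span {(p : WittVector p C) - ∑ i, a i * teichmuller p (Y i)})
      fun i => teichmuller p (Y i) := by
  intro s hs
  obtain ⟨s₀, hs₀⟩ := Ideal.mem_span_singleton'.mp hs
  have h1 : ∑ i, teichmuller p (Y i) * (s i + a i * s₀) = p * s₀ := by
    simp only [mul_add, Finset.sum_add_distrib, ← hs₀, mul_sub, Finset.mul_sum]
    have : ∑ i, teichmuller p (Y i) * (a i * s₀) = ∑ i, s₀ * (a i * teichmuller p (Y i)) :=
      Finset.sum_congr rfl fun i _ => by ring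
    rw [this]; ring
  obtain ⟨c, hc⟩ := hY (fun i => constantCoeff (s i + a i * s₀)) (by
    have := congrArg constantCoeff h1
    rw [map_mul, cc_p, zero_mul, map_sum] at this
    simp only [map_mul] at this
    exact this)
  have h2 : ∀ i, ∃ t, s i + a i * s₀ - ∑ j, (teichmuller p (c i j) - teichmuller p (c j i)) *
      teichmuller p (Y j) = p * t := by
    intro i
    refine dvd_of_coeff_eq ?_
    have := sub_eq_zero.mp (Ideal.mem_bot.mp (hc i))
    refine this.trans ?_
    change _ = constantCoeff _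
    rw [map_sum]
    simp only [map_mul, map_sub]
    rfl
  choose t ht using h2
  have h3 : s₀ = ∑ j, teichmuller p (Y j) * t j := by
    rw [← sub_eq_zero]
    apply eq_zero_of_p_mul_eq_zero
    have e := kos_sum (fun i => teichmuller p (Y i)) fun i j => teichmuller p (c i j)
    have : ∑ j, teichmuller p (Y j) * (p * t j) = p * s₀ := by
      simp only [← ht, mul_sub (teichmuller p (Y _)), Finset.sum_sub_distrib, h1, e, sub_zero]
    rw [sub_mul, Finset.sum_mul, mul_comm s₀, ← this, sub_eq_zero]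
    exact Finset.sum_congr rfl fun i _ => by ring
  refine ⟨fun i j => teichmuller p (c i j) + a j * t i, fun i => ?_⟩
  refine Ideal.mem_span_singleton'.mpr ⟨t i, ?_⟩
  have h4 := ht i
  have e1 : ∑ j, (teichmuller p (c i j) + a j * t i - (teichmuller p (c j i) + a i * t j)) *
      teichmuller p (Y j) = ∑ j, (teichmuller p (c i j) - teichmuller p (c j i)) *
      teichmuller p (Y j) + t i * ∑ j, a j * teichmuller p (Y j)
      - a i * ∑ j, teichmuller p (Y j) * t j := by
    simp only [Finset.mul_sum, ← Finset.sum_add_distrib, ← Finset.sum_sub_distrib]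
    exact Finset.sum_congr rfl fun j _ => by ring
  simp only
  rw [e1, ← h3]
  linear_combination -h4

theorem level {κ : Type} [Field κ] [CharP κ p] {d : ℕ} (a : Fin d → R0 p κ d) (D N : ℕ)
    (hD : 1 ≤ D) {S : Type} [CommRing S] (Θ : R0 p κ d →+* S) (hΘ : Function.Surjective Θ)
    (hker : RingHom.ker Θ ≤ Ideal.span {xi p a} ⊔ Mon MvPolynomial.X (fun _ => N)) :
    ∃ (B : Type) (_ : CommRing B) (χ : S →+* B) (σ : S → B), (∀ s, σ s ^ D = χ s) ∧
      (∀ n, 1 ≤ n → n ≤ N → H1' (fun i => χ (Θ (MvPolynomial.X i))) n) ∧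
      (1 ≤ N → 1 ∉ Ideal.span (Set.range fun i => χ (Θ (MvPolynomial.X i)))) ∧
      (∀ h M k e N', (h + k) * e < M → 2 * D * M * (d + N' + 1) ≤ N →
        BS (fun i => χ (Θ (MvPolynomial.X i))) σ D h M k e N') ∧
      ∀ i, χ (Θ (MvPolynomial.X i)) ^ N = 0 := by
  obtain ⟨C, _, _, _, χ₀, Y, T, hY, hT, hne⟩ := exists_perfect a D hD
  set ψ := psi p χ₀ Y with hψ
  set ξ : WittVector p C := p - ∑ i, ψ (a i) * teichmuller p (Y i) with hξ
  have hξ' : ψ (xi p a) = ξ := psi_xi p χ₀ Y a
  set y : Fin d → WittVector p C := fun i => teichmuller p (Y i) with hy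
  set 𝔎 : Ideal (WittVector p C) := Ideal.span {ξ} ⊔ Mon y (fun _ => N) with h𝔎
  set π := Ideal.Quotient.mk 𝔎 with hπ
  have hle : RingHom.ker Θ ≤ RingHom.ker (π.comp ψ) := by
    refine hker.trans ?_
    rw [← RingHom.comap_ker, hπ, Ideal.mk_ker, ← Ideal.map_le_iff_le_comap, Ideal.map_sup,
      Ideal.map_span, Set.image_singleton, hξ', Mon_map]
    simp only [hψ, psi_X]
    exact le_rfl
  let χ : S →+* WittVector p C ⧸ 𝔎 := RingHom.liftOfSurjective Θ hΘ ⟨π.comp ψ, hle⟩
  have hχ : ∀ g, χ (Θ g) = π (ψ g) := fun g => RingHom.liftOfSurjective_comp_apply _ _ _ _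
  have hχX : (fun i => χ (Θ (MvPolynomial.X i))) = fun i => π (y i) :=
    funext fun i => by rw [hχ, hψ, psi_X]
  have hξ𝔎 : Ideal.span {ξ} ≤ 𝔎 := le_sup_left
  have hmem : ∀ (L : Ideal (WittVector p C)) z, π z ∈ L.map π ↔ z ∈ L ⊔ 𝔎 := by
    intro L z
    rw [← Ideal.mem_comap, Ideal.comap_map_of_surjective _ Ideal.Quotient.mk_surjective,
      ← RingHom.ker_eq_comap_bot, Ideal.mk_ker]
  refine ⟨WittVector p C ⧸ 𝔎, inferInstance, χ,
    fun s => π (teichmuller p (T (Function.surjInv hΘ s))), fun s => ?_, fun n hn hnN => ?_,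
    fun hN h => hne ?_, fun h M k e N' hM hN xs μ hμ => ?_, fun i => ?_⟩
  · conv_rhs => rw [← Function.surjInv_eq hΘ s, hχ]
    rw [← map_pow, hπ, Ideal.Quotient.eq]
    refine hξ𝔎 (Ideal.mem_span_singleton.mpr ?_)
    rw [← hξ']
    exact hT _
  · rw [hχX]
    intro s hs
    choose s' hs' using fun i => Ideal.Quotient.mk_surjective (I := 𝔎) (s i)
    have h1 : ∑ i, y i * s' i ∈ Mon y (fun _ => n) ⊔ Ideal.span {ξ} := by
      have : π (∑ i, y i * s' i) ∈ (Mon y (fun _ => n)).map π := by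
        rw [Mon_map, map_sum]
        simp only [map_mul, hπ, hs']
        exact hs
      refine SetLike.le_def.mp (sup_le le_sup_left (sup_le le_sup_right
        (le_sup_of_le_left (Mon_anti _ fun _ => hnN)))) ((hmem _ _).mp this)
    obtain ⟨u, hu, v, hv, huv⟩ := Submodule.mem_sup.mp h1
    obtain ⟨c', rfl⟩ := Ideal.mem_span_range_iff_exists_fun.mp hu
    obtain ⟨c, hc⟩ := h1_witt Y hY (fun i => ψ (a i)) (fun i => s' i - y i ^ (n - 1) * c' i) (by
      have : ∑ i, teichmuller p (Y i) * (s' i - y i ^ (n - 1) * c' i) = v := by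
        rw [← add_right_inj (∑ i, c' i * y i ^ n), huv, ← Finset.sum_add_distrib]
        refine Finset.sum_congr rfl fun i _ => ?_
        obtain ⟨n, rfl⟩ : ∃ m, n = m + 1 := ⟨n - 1, by omega⟩
        simp only [hy, Nat.add_sub_cancel]
        ring
      rw [this]; exact hv)
    refine ⟨fun i j => π (c i j), fun i => π (c' i), fun i => ?_⟩
    have := Ideal.Quotient.eq_zero_iff_mem.mpr (hξ𝔎 (hc i))
    simp only [map_sub, map_mul, map_pow, map_sum, hs'] at this
    simp only [hπ, hy]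
    linear_combination this
  · rw [hχX, Set.range_comp' π y, ← Ideal.map_span, ← map_one π, hmem] at h
    have h1 : Ideal.span (Set.range y) ⊔ 𝔎 ≤ (Ideal.span (Set.range Y)).comap constantCoeff := by
      have h2 : Ideal.span (Set.range y) ≤ (Ideal.span (Set.range Y)).comap constantCoeff := by
        rw [Ideal.span_le]
        rintro _ ⟨i, rfl⟩
        exact Ideal.subset_span (Set.mem_range_self i)
      refine sup_le h2 (sup_le ?_ ?_)
      · rw [Ideal.span_singleton_le_iff_mem, hξ]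
        refine Ideal.sub_mem _ ?_ (h2 (Ideal.sum_mem _ fun i _ =>
          Ideal.mul_mem_left _ _ (Ideal.subset_span (Set.mem_range_self i))))
        rw [Ideal.mem_comap, cc_p]; exact Submodule.zero_mem _
      · exact (Mon_anti y fun _ => hN).trans (Mon_one y ▸ h2)
    simpa using h1 h
  · set z : C := (μ.map fun s => T (Function.surjInv hΘ s)).prod with hz
    have hz' : (μ.map fun s => π (teichmuller p (T (Function.surjInv hΘ s)))).prod
        = π (teichmuller p z) := by
      rw [hz, map_multiset_prod, map_multiset_prod, Multiset.map_map, Multiset.map_map]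
      rfl
    rw [hz', ← Mon_map π fun i => teichmuller p (T (Function.surjInv hΘ (xs i))),
      ← Ideal.map_pow] at hμ ⊢
    rw [← map_pow, hmem] at hμ
    have := bs_witt Y (fun i => ψ (a i)) (fun i => T (Function.surjInv hΘ (xs i))) z D M k e N N'
      hD hM hN hμ
    rw [hχX, Set.range_comp' π y, ← Ideal.map_span, ← Ideal.map_pow, ← Ideal.map_sup, hmem,
      sup_assoc]
    exact sup_le_sup_left (sup_le_sup_left hξ𝔎 _) _ this
  · rw [congrFun hχX i, ← map_pow]
    exact Ideal.Quotient.eq_zero_iff_mem.mpr (Submodule.mem_sup_right (pow_mem_Mon y (fun _ => N) i))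

/-- A big algebra over a local ring, with `D`-th roots. -/
structure IsBig {A B : Type} [CommRing A] [IsLocalRing A] [CommRing B] (D : ℕ) (φ : A →+* B)
    (σ : A → B) : Prop where
  root : ∀ g, σ g ^ D = φ g
  colon : ∀ (J : Ideal A) (n : ℕ), maximalIdeal A ^ n ≤ J → ∀ (x : A) (s : B),
    φ x * s ∈ J.map φ → s ∈ (J.colon {x}).map φ
  ne : 1 ∉ (maximalIdeal A).map φ
  bs : ∀ (h : ℕ) (xs : Fin h → A) (μ : Multiset A) (M k e N' : ℕ),
    μ.prod ∈ Ideal.span (Set.range xs) ^ M → (h + k) * e < M →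
    (μ.map σ).prod ∈ Mon (fun i => σ (xs i)) (fun _ => e) ^ (k + 1) ⊔
      (maximalIdeal A).map φ ^ N'

section prod

variable {Λ : Type} (F : Filter Λ) (B : Λ → Type) [∀ l, CommRing (B l)]

/-- Families that vanish eventually. -/
def evZero : Ideal (∀ l, B l) where
  carrier := {z | ∀ᶠ l in F, z l = 0}
  zero_mem' := Filter.Eventually.of_forall fun _ => rfl
  add_mem' := by
    intro a b ha hb
    filter_upwards [ha, hb] with l h1 h2
    simp [h1, h2]
  smul_mem' := by
    intro c a ha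
    filter_upwards [ha] with l h1
    simp [h1]

variable {F B}

lemma mk_eq_mk {a b : ∀ l, B l} : Ideal.Quotient.mk (evZero F B) a =
    Ideal.Quotient.mk (evZero F B) b ↔ ∀ᶠ l in F, a l = b l := by
  rw [Ideal.Quotient.eq]
  change (∀ᶠ l in F, (a - b) l = 0) ↔ _
  simp only [Pi.sub_apply, sub_eq_zero]

lemma ev_of_mem {𝔞 : Ideal (∀ l, B l)} {z : ∀ l, B l}
    (h : Ideal.Quotient.mk (evZero F B) z ∈ 𝔞.map (Ideal.Quotient.mk (evZero F B))) :
    ∀ᶠ l in F, z l ∈ 𝔞.map (Pi.evalRingHom B l) := by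
  obtain ⟨w, hw, h1⟩ := (Ideal.mem_map_iff_of_surjective _ Ideal.Quotient.mk_surjective).mp h
  filter_upwards [mk_eq_mk.mp h1] with l hl
  rw [← hl]
  exact Ideal.mem_map_of_mem (Pi.evalRingHom B l) hw

lemma mem_of_ev {𝔞 : Ideal (∀ l, B l)} (h𝔞 : 𝔞.FG) {z : ∀ l, B l}
    (h : ∀ᶠ l in F, z l ∈ 𝔞.map (Pi.evalRingHom B l)) :
    Ideal.Quotient.mk (evZero F B) z ∈ 𝔞.map (Ideal.Quotient.mk (evZero F B)) := by
  obtain ⟨n, g, hg⟩ := Submodule.fg_iff_exists_fin_generating_family.mp h𝔞
  have h1 : ∀ᶠ l in F, ∃ c : Fin n → B l, ∑ i, c i * g i l = z l := by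
    filter_upwards [h] with l hl
    rw [← hg, Ideal.submodule_span_eq, Ideal.map_span, ← Set.range_comp] at hl
    exact Ideal.mem_span_range_iff_exists_fun.mp hl
  obtain ⟨c, hc⟩ := Filter.skolem.mp h1
  have : Ideal.Quotient.mk (evZero F B) z =
      Ideal.Quotient.mk (evZero F B) (∑ i, (fun l => c l i) * g i) := by
    rw [mk_eq_mk]
    filter_upwards [hc] with l hl
    rw [← hl, Finset.sum_apply]
    rfl
  rw [this]
  refine Ideal.mem_map_of_mem _ (Ideal.sum_mem _ fun i _ => Ideal.mul_mem_left _ _ ?_)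
  rw [← hg]
  exact Submodule.subset_span (Set.mem_range_self i)

lemma Mon_fg {R ι : Type*} [CommRing R] [Finite ι] (x : ι → R) (ν : ι → ℕ) : (Mon x ν).FG :=
  Submodule.fg_span (Set.finite_range _)

theorem big_of_approx [F.NeBot] {A : Type} [CommRing A] [IsLocalRing A] [IsNoetherianRing A]
    {d : ℕ} (x : Fin d → A) (hx : Ideal.span (Set.range x) = maximalIdeal A) (D : ℕ)
    (f σ : ∀ l, A → B l) (hadd : ∀ a b, ∀ᶠ l in F, f l (a + b) = f l a + f l b)
    (hmul : ∀ a b, ∀ᶠ l in F, f l (a * b) = f l a * f l b) (hone : ∀ᶠ l in F, f l 1 = 1)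
    (hσ : ∀ g, ∀ᶠ l in F, σ l g ^ D = f l g)
    (hH : ∀ n, 1 ≤ n → ∀ᶠ l in F, H1' (fun i => f l (x i)) n)
    (hne : ∀ᶠ l in F, 1 ∉ Ideal.span (Set.range fun i => f l (x i)))
    (hBS : ∀ h M k e N', (h + k) * e < M → ∀ᶠ l in F,
      BS (fun i => f l (x i)) (σ l) D h M k e N') :
    ∃ (B' : Type) (_ : CommRing B') (φ : A →+* B') (σ' : A → B'), IsBig D φ σ' := by
  set π := Ideal.Quotient.mk (evZero F B) with hπ
  let φ : A →+* (∀ l, B l) ⧸ evZero F B := RingHom.mk'
    { toFun := fun a => π fun l => f l a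
      map_one' := by rw [← map_one π]; exact mk_eq_mk.mpr hone
      map_mul' := fun a b => by rw [← map_mul π]; exact mk_eq_mk.mpr (hmul a b) }
    fun a b => by
      change π _ = π _ + π _
      rw [← map_add π]; exact mk_eq_mk.mpr (hadd a b)
  have hφ : ∀ a, φ a = π fun l => f l a := fun a => rfl
  let σ' : A → (∀ l, B l) ⧸ evZero F B := fun g => π fun l => σ l g
  have hroot : ∀ g, σ' g ^ D = φ g := fun g => by
    rw [hφ, ← map_pow]; exact mk_eq_mk.mpr (hσ g)
  set xx : Fin d → ∀ l, B l := fun i l => f l (x i) with hxx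
  have hm : (maximalIdeal A).map φ = (Ideal.span (Set.range xx)).map π := by
    rw [← hx, Ideal.map_span, Ideal.map_span, ← Set.range_comp, ← Set.range_comp]; rfl
  have hH' : ∀ n, 1 ≤ n → H1' (fun i => φ (x i)) n := by
    intro n hn s hs
    choose s' hs' using fun i => Ideal.Quotient.mk_surjective (I := evZero F B) (s i)
    have h1 : π (∑ i, xx i * s' i) ∈ (Mon xx (fun _ => n)).map π := by
      rw [Mon_map, map_sum]
      simp only [map_mul, hπ, hs']
      exact hs
    have h2 : ∀ᶠ l in F, ∃ c : (Fin d → Fin d → B l) × (Fin d → B l), ∀ i, s' i l =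
        ∑ j, (c.1 i j - c.1 j i) * f l (x j) + f l (x i) ^ (n - 1) * c.2 i := by
      filter_upwards [ev_of_mem h1, hH n hn] with l h3 h4
      rw [Mon_map, Finset.sum_apply] at h3
      obtain ⟨c, c', h5⟩ := h4 (fun i => s' i l) h3
      exact ⟨(c, c'), h5⟩
    obtain ⟨c, hc⟩ := Filter.skolem.mp h2
    refine ⟨fun i j => π fun l => (c l).1 i j, fun i => π fun l => (c l).2 i, fun i => ?_⟩
    simp only [hφ, ← hs', ← map_sub π, ← map_mul π, ← map_sum π, ← map_pow π, ← map_add π]
    refine mk_eq_mk.mpr ?_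
    filter_upwards [hc] with l hl
    rw [hl i, Pi.add_apply, Finset.sum_apply]
    rfl
  refine ⟨_, inferInstance, φ, σ', hroot, fun J n hn y s hs => ?_, fun h => ?_,
    fun h xs μ M k e N' hμ hM => ?_⟩
  · set 𝔫 : Ideal A := Mon x (fun _ => n + 1) with h𝔫
    have h𝔫J : 𝔫 ≤ J := (Mon_le_pow x _).trans
      (by rw [hx]; exact (Ideal.pow_le_pow_right (Nat.le_succ n)).trans hn)
    have h𝔫m : 𝔫 ≤ maximalIdeal A := by
      rw [← hx, ← Mon_one]; exact Mon_anti x fun _ => by omega
    set ρ := Ideal.Quotient.mk 𝔫 with hρ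
    set ρ' := Ideal.Quotient.mk (𝔫.map φ) with hρ'
    let φ' : A ⧸ 𝔫 →+* _ ⧸ 𝔫.map φ := Ideal.quotientMap _ φ Ideal.le_comap_map
    have hφ'' : ∀ a, φ' (ρ a) = ρ' (φ a) := fun a => rfl
    have hφ' : φ'.comp ρ = ρ'.comp φ := RingHom.ext hφ''
    have hmax : ((maximalIdeal A).map ρ).IsMaximal :=
      Ideal.IsMaximal.map_of_surjective_of_ker_le Ideal.Quotient.mk_surjective
        (by rw [Ideal.mk_ker]; exact h𝔫m)
    have key := colon_of_H1 φ' (fun i => ρ (x i)) (fun i => ρ (x i ^ n))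
      ((maximalIdeal A).map ρ) (by rw [← hx, Ideal.map_span, ← Set.range_comp]; rfl)
      (fun i => by
        rw [← map_mul, ← pow_succ]
        exact Ideal.Quotient.eq_zero_iff_mem.mpr (pow_mem_Mon x (fun _ => n + 1) i))
      (fun s hs => by
        choose s' hs' using fun i => Ideal.Quotient.mk_surjective (I := 𝔫.map φ) (s i)
        obtain ⟨c, c', hc⟩ := hH' (n + 1) (by omega) s' (by
          rw [← Mon_map, ← Ideal.Quotient.eq_zero_iff_mem, map_sum, ← hs]
          simp only [map_mul, hφ'', ← hs', hρ']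
          rfl)
        refine ⟨fun i j => ρ' (c i j), fun i => ρ' (c' i), fun i => ?_⟩
        rw [← hs', hc i]
        simp [hφ'', hρ'])
      (J.map ρ) n (by rw [← Ideal.map_pow]; exact Ideal.map_mono hn) (ρ y) (ρ' s) (by
        rw [hφ'', ← map_mul, Ideal.map_map, hφ', ← Ideal.map_map]
        exact Ideal.mem_map_of_mem _ hs)
    have h1 : (J.map ρ).colon {ρ y} ≤ (J.colon {y}).map ρ := by
      intro t ht
      obtain ⟨t, rfl⟩ := Ideal.Quotient.mk_surjective t
      refine Ideal.mem_map_of_mem _ ?_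
      rw [Submodule.mem_colon_singleton, smul_eq_mul, ← hρ, ← map_mul, ← Ideal.mem_comap,
        Ideal.comap_map_of_surjective _ Ideal.Quotient.mk_surjective,
        ← RingHom.ker_eq_comap_bot, Ideal.mk_ker, sup_eq_left.mpr h𝔫J] at ht
      simpa using ht
    have h2 := Ideal.map_mono (f := φ') h1 key
    rw [Ideal.map_map, hφ', ← Ideal.map_map, ← Ideal.mem_comap,
      Ideal.comap_map_of_surjective _ Ideal.Quotient.mk_surjective,
      ← RingHom.ker_eq_comap_bot, Ideal.mk_ker, sup_eq_left.mpr (Ideal.map_mono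
        (h𝔫J.trans Ideal.le_colon))] at h2
    exact h2
  · rw [hm, ← map_one π] at h
    obtain ⟨l, h1, h2⟩ := ((ev_of_mem h).and hne).exists
    rw [Ideal.map_span, ← Set.range_comp] at h1
    exact h2 h1
  · set z : ∀ l, B l := (μ.map fun g l => σ l g).prod with hz
    have hz' : (μ.map σ').prod = π z := by
      rw [hz, map_multiset_prod, Multiset.map_map]; rfl
    have hzl : ∀ l, z l = (μ.map (σ l)).prod := by
      intro l
      change Pi.evalRingHom B l z = _
      rw [hz, map_multiset_prod, Multiset.map_map]; rfl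
    have h1 : π (z ^ D) ∈ (Mon (fun i l => σ l (xs i)) (fun _ => D) ^ M).map π := by
      have := Ideal.mem_map_of_mem φ hμ
      rw [Ideal.map_pow, ← Mon_one, Mon_map, map_multiset_prod] at this
      rw [map_pow, ← hz', Ideal.map_pow, Mon_map, ← Multiset.prod_map_pow,
        Mon_congr (y := fun i => φ (xs i)) (ν' := fun _ => 1)
          fun i => (hroot _).trans (pow_one _).symm]
      simp only [hroot]
      exact this
    rw [hz', hm, ← Mon_map π fun i l => σ l (xs i), ← Ideal.map_pow, ← Ideal.map_pow,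
      ← Ideal.map_sup]
    refine mem_of_ev (Submodule.FG.sup (Submodule.FG.pow (Mon_fg _ _) _)
      (Submodule.FG.pow (Submodule.fg_span (Set.finite_range _)) _)) ?_
    filter_upwards [ev_of_mem h1, hBS h M k e N' hM] with l h2 h3
    rw [Ideal.map_pow, Mon_map, Pi.pow_apply, hzl] at h2
    rw [Ideal.map_sup, Ideal.map_pow, Ideal.map_pow, Mon_map, Ideal.map_span, ← Set.range_comp, hzl]
    exact h3 xs μ h2

end prod

end Pool.Agent.P.MP_fcbc4b_ag
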