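import Pool.Agent.P.MP_fcbc4b_ag.Gonf

/-! Existence of big algebras over regular local rings of any characteristic. -/

set_option autoImplicit false

namespace Pool.Agent.P.MP_fcbc4b_ag

open IsLocalRing MvPolynomial Filter

lemma sub_C_mem {Λ : Type*} [CommRing Λ] {d : ℕ} (c : MvPolynomial (Fin d) Λ) :
    c - C (constantCoeff c) ∈ Ideal.span (Set.range (X : Fin d → MvPolynomial (Fin d) Λ)) := by
  induction c using MvPolynomial.induction_on with
  | C a => simp
  | add f g hf hg =>
    have := Ideal.add_mem _ hf hg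
    rw [map_add, map_add]
    convert this using 1
    ring
  | mul_X f i _ =>
    simpa using Ideal.mul_mem_left _ f (Ideal.subset_span (Set.mem_range_self i))

lemma span_pow_le_Mon {R : Type*} [CommRing R] {d : ℕ} (x : Fin d → R) (N : ℕ) :
    Ideal.span (Set.range x) ^ (d * N + 1) ≤ Mon x (fun _ => N) := by
  simpa using pigeon'' N x 0 (d * N + 1) (by simp)

lemma surjective_eval {S Λ : Type*} [CommRing S] [CommRing Λ] {d : ℕ} (y : Fin d → S) (n : ℕ)
    (hn : Ideal.span (Set.range y) ^ n = ⊥) (θ : Λ →+* S)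
    (hθ : ∀ s, ∃ w, s - θ w ∈ Ideal.span (Set.range y)) :
    Function.Surjective (eval₂Hom θ y) := by
  set m := Ideal.span (Set.range y)
  have h1 : ∀ j, ∀ s ∈ m ^ j, ∃ r, s - eval₂Hom θ y r ∈ m ^ (j + 1) := by
    intro j
    induction j with
    | zero =>
      intro s _
      obtain ⟨w, hw⟩ := hθ s
      exact ⟨C w, by simpa using hw⟩
    | succ j ih =>
      intro s hs
      rw [pow_succ] at hs
      refine Submodule.mul_induction_on hs ?_ ?_
      · intro a ha b hb
        obtain ⟨c, rfl⟩ := Ideal.mem_span_range_iff_exists_fun.mp hb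
        choose r hr using fun i => ih (a * c i) (Ideal.mul_mem_right _ _ ha)
        refine ⟨∑ i, r i * X i, ?_⟩
        rw [map_sum, Finset.mul_sum, ← Finset.sum_sub_distrib, pow_succ]
        refine Ideal.sum_mem _ fun i _ => ?_
        rw [map_mul, eval₂Hom_X', ← mul_assoc, ← sub_mul]
        exact Ideal.mul_mem_mul (hr i) (Ideal.subset_span (Set.mem_range_self i))
      · rintro a b ⟨r, hr⟩ ⟨r', hr'⟩
        refine ⟨r + r', ?_⟩
        rw [map_add, add_sub_add_comm]
        exact Ideal.add_mem _ hr hr'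
  have h2 : ∀ j s, ∃ r, s - eval₂Hom θ y r ∈ m ^ j := by
    intro j
    induction j with
    | zero => intro s; exact ⟨0, by simp⟩
    | succ j ih =>
      intro s
      obtain ⟨r, hr⟩ := ih s
      obtain ⟨r', hr'⟩ := h1 j _ hr
      exact ⟨r + r', by rwa [map_add, ← sub_sub]⟩
  intro s
  obtain ⟨r, hr⟩ := h2 n s
  rw [hn, Ideal.mem_bot, sub_eq_zero] at hr
  exact ⟨r, hr.symm⟩

section core

variable {A A' : Type} [CommRing A] [IsLocalRing A] [IsNoetherianRing A] [CommRing A'] {d : ℕ}
  (x : Fin d → A) (ι : A →+* A') (N : ℕ)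

/-- The parameters in the truncated ring. -/
abbrev xbar : Fin d → A' ⧸ Mon (fun i => ι (x i)) (fun _ => N) :=
  fun i => Ideal.Quotient.mk _ (ι (x i))

omit [IsLocalRing A] [IsNoetherianRing A] in
lemma xbar_pow (i : Fin d) : xbar x ι N i ^ N = 0 := by
  rw [← map_pow]
  exact Ideal.Quotient.eq_zero_iff_mem.mpr (pow_mem_Mon (fun i => ι (x i)) (fun _ => N) i)

omit [IsLocalRing A] [IsNoetherianRing A] in
lemma xbar_nil : Ideal.span (Set.range (xbar x ι N)) ^ (d * N + 1) = ⊥ := by
  rw [eq_bot_iff]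
  refine (span_pow_le_Mon _ N).trans ?_
  refine Ideal.span_le.mpr ?_
  rintro _ ⟨i, rfl⟩
  exact xbar_pow x ι N i

omit [IsLocalRing A] [IsNoetherianRing A] in
lemma span_xbar : Ideal.span (Set.range (xbar x ι N)) =
    (Ideal.span (Set.range fun i => ι (x i))).map (Ideal.Quotient.mk _) := by
  rw [Ideal.map_span, ← Set.range_comp]; rfl

theorem ker_eval (hx : Ideal.span (Set.range x) = maximalIdeal A) (hreg : RegSeq ⊥ (List.ofFn x))
    (hH : H1 ⊥ fun i => ι (x i)) (hN : 1 ≤ N) {Λ : Type} [CommRing Λ]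
    (θ : Λ →+* A' ⧸ Mon (fun i => ι (x i)) (fun _ => N)) (K : Ideal (MvPolynomial (Fin d) Λ))
    (hK : ∀ z ∈ K, eval₂Hom θ (xbar x ι N) z = 0)
    (hθ : ∀ w, θ w ∈ Ideal.span (Set.range (xbar x ι N)) → C w ∈ K ⊔ Ideal.span (Set.range X)) :
    RingHom.ker (eval₂Hom θ (xbar x ι N)) ≤ K ⊔ Mon X (fun _ => N) := by
  refine ker_le_of_socle _ X K N hN hK (fun i => by rw [eval₂Hom_X']; exact xbar_pow x ι N i)
    fun c hc => ?_
  have h1 : eval₂Hom θ (xbar x ι N) c ∈ Ideal.span (Set.range (xbar x ι N)) := by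
    obtain ⟨s, hs⟩ := Ideal.Quotient.mk_surjective (eval₂Hom θ (xbar x ι N) c)
    rw [← hs] at hc ⊢
    simp only [eval₂Hom_X'] at hc
    rw [span_xbar]
    refine Ideal.mem_map_of_mem _ ?_
    have h2 := colon_of_H1 ι x 0 (maximalIdeal A) hx (by simp) (fun s hs => by
      obtain ⟨c, hc⟩ := hH s hs
      exact ⟨c, 0, fun i => by simpa [sub_eq_zero] using hc i⟩)
      (Mon x fun _ => N) (d * N + 1) (hx ▸ span_pow_le_Mon x N) (∏ i, x i ^ (N - 1)) s (by
        rw [Mon_map, ← Ideal.Quotient.eq_zero_iff_mem, mul_comm, ← hc]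
        simp)
    have h3 : (Mon x fun _ => N).colon {∏ i, x i ^ (N - 1)} ≤ Ideal.span (Set.range x) := by
      intro z hz
      rw [← Mon_one]
      refine (monColon_of_regSeq x hreg).prod _ (fun _ => N - 1) z ?_
      rw [Submodule.mem_colon_singleton, smul_eq_mul, mul_comm] at hz
      simpa [show 1 + (N - 1) = N by omega] using hz
    have := Ideal.map_mono (f := ι) h3 h2
    rwa [Ideal.map_span, ← Set.range_comp] at this
  have h4 : eval₂Hom θ (xbar x ι N) (c - C (constantCoeff c)) ∈
      Ideal.span (Set.range (xbar x ι N)) := by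
    have := Ideal.mem_map_of_mem (eval₂Hom θ (xbar x ι N)) (sub_C_mem c)
    rw [Ideal.map_span, ← Set.range_comp] at this
    simpa [Function.comp_def] using this
  have h5 : θ (constantCoeff c) ∈ Ideal.span (Set.range (xbar x ι N)) := by
    have := Ideal.sub_mem _ h1 h4
    simpa using this
  have := Ideal.add_mem _ (Submodule.mem_sup_right (sub_C_mem c)) (hθ _ h5)
  simpa using this

end core

lemma exists_theta {p : ℕ} [Fact p.Prime] {S K : Type} [CommRing S] [CommRing K] [CharP K p]
    [PerfectRing K p] (π : S →+* K) (hπ : Function.Surjective π) (n : ℕ)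
    (hn : RingHom.ker π ^ (n + 1) = ⊥) :
    ∃ θ : WittVector p K →+* S, ∀ w, π (θ w) = w.coeff 0 := by
  have hp : (p : S) ∈ RingHom.ker π := by rw [RingHom.mem_ker, map_natCast, CharP.cast_eq_zero]
  have hle : RingHom.ker (WittVector.map π) ≤
      RingHom.ker (WittVector.ghostComponent (p := p) (R := S) n) := by
    intro a ha
    rw [RingHom.mem_ker, WittVector.ghostComponent_apply, aeval_wittPolynomial, ← Ideal.mem_bot,
      ← hn]
    refine Ideal.sum_mem _ fun i hi => ?_
    have h1 : a.coeff i ∈ RingHom.ker π := by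
      have := congrArg (fun w => WittVector.coeff w i) (RingHom.mem_ker.mp ha)
      simpa using this
    have h2 := Ideal.mul_mem_mul (Ideal.pow_mem_pow hp i) (Ideal.pow_mem_pow h1 (p ^ (n - i)))
    rw [← pow_add] at h2
    have h3 : n - i < p ^ (n - i) := Nat.lt_pow_self (Fact.out : p.Prime).one_lt
    have := Finset.mem_range.mp hi
    exact Ideal.pow_le_pow_right (by omega) h2
  have hs := WittVector.map_surjective (p := p) π hπ
  let θ₀ : WittVector p K →+* S := RingHom.liftOfSurjective _ hs ⟨_, hle⟩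
  refine ⟨θ₀.comp (WittVector.map (iterateFrobeniusEquiv K p n).symm.toRingHom), fun w => ?_⟩
  obtain ⟨a, ha⟩ := hs (WittVector.map (iterateFrobeniusEquiv K p n).symm.toRingHom w)
  have h1 : θ₀ (WittVector.map π a) = WittVector.ghostComponent n a :=
    RingHom.liftOfSurjective_comp_apply _ _ _ _
  rw [RingHom.comp_apply, ← ha, h1, WittVector.ghostComponent_apply, aeval_wittPolynomial, map_sum,
    Finset.sum_eq_single 0 (fun i _ hi => by simp [hi]) (by simp)]
  have h2 := congrArg (fun w => WittVector.coeff w 0) ha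
  simp only [WittVector.map_coeff] at h2
  rw [pow_zero, one_mul, map_pow, h2, Nat.sub_zero]
  have := (iterateFrobeniusEquiv K p n).apply_symm_apply (w.coeff 0)
  rwa [iterateFrobeniusEquiv_def] at this

lemma BS.comp {B ι ι' : Type*} [CommRing B] {d : ℕ} {y : Fin d → B} {σ : ι → B}
    {D h M k e N' : ℕ} (H : BS y σ D h M k e N') (t : ι' → ι) :
    BS y (fun a => σ (t a)) D h M k e N' := by
  intro xs μ hμ
  have := H (fun i => t (xs i)) (μ.map t) (by rwa [Multiset.map_map])
  rwa [Multiset.map_map] at this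

section main

variable {A : Type} [CommRing A] [IsLocalRing A] [IsNoetherianRing A] {d : ℕ} (x : Fin d → A)
  (hx : Ideal.span (Set.range x) = maximalIdeal A) (hreg : RegSeq ⊥ (List.ofFn x))
  (D : ℕ) (hD : 1 ≤ D)

include hx hreg hD

theorem big_mixed (p : ℕ) [Fact p.Prime] [CharP (ResidueField A) p] :
    ∃ (B : Type) (_ : CommRing B) (φ : A →+* B) (σ : A → B), IsBig D φ σ := by
  obtain ⟨A', _, ι, π, hπ, hker, hH⟩ := gonfle x hx hreg
  set K := AlgebraicClosure (ResidueField A)
  have key : ∀ N : ℕ, ∃ (B : Type) (_ : CommRing B) (f : A →+* B) (σ : A → B),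
      (∀ s, σ s ^ D = f s) ∧ (∀ n, 1 ≤ n → n ≤ N + 1 → H1' (fun i => f (x i)) n) ∧
      (1 ∉ Ideal.span (Set.range fun i => f (x i))) ∧
      ∀ h M k e N', (h + k) * e < M → 2 * D * M * (d + N' + 1) ≤ N + 1 →
        BS (fun i => f (x i)) σ D h M k e N' := by
    intro N
    have h1 : Mon (fun i => ι (x i)) (fun _ => N + 1) ≤ RingHom.ker π := by
      rw [hker, ← Mon_one]; exact Mon_anti _ fun _ => by omega
    let π' := Ideal.Quotient.lift _ π h1
    have hker' : RingHom.ker π' = Ideal.span (Set.range (xbar x ι (N + 1))) := by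
      rw [span_xbar, ← hker]; exact Ideal.ker_quotient_lift π h1
    have hπ' : Function.Surjective π' := Ideal.Quotient.lift_surjective_of_surjective _ h1 hπ
    obtain ⟨θ, hθ⟩ := exists_theta (p := p) π' hπ' (d * (N + 1)) (by rw [hker']; exact xbar_nil _ _ _)
    have hs := surjective_eval (xbar x ι (N + 1)) _ (xbar_nil _ _ _) θ fun s =>
      ⟨WittVector.teichmuller p (π' s), by rw [← hker', RingHom.mem_ker, map_sub, hθ]; simp⟩
    obtain ⟨c, hc⟩ := Ideal.mem_span_range_iff_exists_fun.mp
      (show ((p : ℕ) : A' ⧸ Mon (fun i => ι (x i)) (fun _ => N + 1)) ∈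
        Ideal.span (Set.range (xbar x ι (N + 1))) by
        rw [← hker', RingHom.mem_ker, map_natCast, CharP.cast_eq_zero])
    choose a ha using fun i => hs (c i)
    have hk := ker_eval x ι (N + 1) hx hreg hH (by omega) θ (Ideal.span {xi p a}) (by
      intro z hz
      obtain ⟨t, rfl⟩ := Ideal.mem_span_singleton'.mp hz
      rw [map_mul, xi, map_sub, map_natCast, map_sum]
      simp only [map_mul, ha, eval₂Hom_X', hc, sub_self, mul_zero]) (by
      intro w hw
      rw [← hker', RingHom.mem_ker, hθ] at hw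
      obtain ⟨w', hw'⟩ := exists_eq_teich_add w
      rw [hw', hw, WittVector.teichmuller_zero, zero_add, map_mul, map_natCast]
      refine Ideal.mul_mem_right _ _ ?_
      have : ((p : ℕ) : R0 p K d) = xi p a + ∑ i, a i * X i := by rw [xi]; ring
      rw [this]
      exact Submodule.add_mem_sup (Ideal.mem_span_singleton_self _)
        (Ideal.sum_mem _ fun i _ => Ideal.mul_mem_left _ _
          (Ideal.subset_span (Set.mem_range_self i))))
    obtain ⟨B, _, χ, σ, h2, h3, h4, h5, -⟩ := level a D (N + 1) hD _ hs hk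
    simp only [eval₂Hom_X'] at h3 h4 h5
    exact ⟨B, inferInstance, χ.comp ((Ideal.Quotient.mk _).comp ι),
      fun s => σ (Ideal.Quotient.mk _ (ι s)), fun s => h2 _, h3, h4 (by omega),
      fun h M k e N' h6 h7 => (h5 h M k e N' h6 h7).comp _⟩
  choose B hB f σ h1 h2 h3 h4 using key
  refine big_of_approx (F := atTop) (B := B) x hx D (fun l => f l) σ
    (fun a b => .of_forall fun l => map_add _ _ _) (fun a b => .of_forall fun l => map_mul _ _ _)
    (.of_forall fun l => map_one _) (fun g => .of_forall fun l => h1 l g)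
    (fun n hn => ?_) (.of_forall h3) fun h M k e N' hM => ?_
  · filter_upwards [eventually_ge_atTop n] with l hl using h2 l n hn (by omega)
  · filter_upwards [eventually_ge_atTop (2 * D * M * (d + N' + 1))] with l hl
      using h4 l h M k e N' hM (by omega)

end main

lemma int_jacobson : IsJacobsonRing ℤ := by
  rw [isJacobsonRing_iff_prime_eq]
  intro P hP
  rcases eq_or_ne P ⊥ with rfl | h
  · rw [eq_bot_iff]
    intro a ha
    rw [Ideal.mem_bot]
    by_contra h
    obtain ⟨q, hq, hq'⟩ := Nat.exists_infinite_primes (a.natAbs + 1)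
    have hm : (Ideal.span {(q : ℤ)}).IsMaximal :=
      PrincipalIdealRing.isMaximal_of_irreducible (Nat.prime_iff_prime_int.mp hq').irreducible
    have h1 : a ∈ Ideal.span {(q : ℤ)} := Submodule.mem_sInf.mp ha _ ⟨bot_le, hm⟩
    have h2 := Nat.le_of_dvd (Int.natAbs_pos.mpr h)
      (Int.natCast_dvd.mp (Ideal.mem_span_singleton.mp h1))
    omega
  · exact Ideal.jacobson_eq_self_of_isMaximal (H := Ideal.IsPrime.isMaximal hP h)

lemma exists_special' (T : Type) [CommRing T] [Nontrivial T] [Algebra.FiniteType ℤ T] :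
    ∃ (p : ℕ) (_ : Fact p.Prime) (κ : Type) (_ : Field κ) (_ : CharP κ p) (_ : PerfectRing κ p),
      Nonempty (T →+* κ) := by
  have := int_jacobson
  obtain ⟨m, hm⟩ := Ideal.exists_maximal T
  let _ := Ideal.Quotient.field m
  have hfin := finite_of_finite_type_of_isJacobsonRing ℤ (T ⧸ m)
  obtain ⟨p, hp⟩ := CharP.exists (T ⧸ m)
  rcases CharP.char_is_prime_or_zero (T ⧸ m) p with h | h
  · have : Fact p.Prime := ⟨h⟩
    exact ⟨p, this, AlgebraicClosure (T ⧸ m), inferInstance, inferInstance, inferInstance,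
      ⟨(algebraMap (T ⧸ m) _).comp (Ideal.Quotient.mk m)⟩⟩
  · subst h
    have := CharP.charP_to_charZero (T ⧸ m)
    exact absurd (isField_of_isIntegral_of_isField (R := ℤ) (S := T ⧸ m)
      (RingHom.injective_int _) (Field.toIsField _)) Int.not_isField

lemma exists_special {k : Type} [Field k] (s : Finset k) :
    ∃ (T : Type) (_ : CommRing T) (v : T →+* k), Function.Injective v ∧
      (s : Set k) ⊆ Set.range v ∧
    ∃ (p : ℕ) (_ : Fact p.Prime) (κ : Type) (_ : Field κ) (_ : CharP κ p) (_ : PerfectRing κ p),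
      Nonempty (T →+* κ) := by
  let f : MvPolynomial s ℤ →+* k := eval₂Hom (Int.castRingHom k) fun c => (c : k)
  refine ⟨f.range, inferInstance, Subring.subtype _, Subtype.val_injective,
    fun c hc => ⟨⟨c, X ⟨c, hc⟩, by simp [f]⟩, rfl⟩, ?_⟩
  have h : Algebra.FiniteType ℤ (MvPolynomial s ℤ) := inferInstance
  have : Algebra.FiniteType ℤ f.range :=
    @Algebra.FiniteType.of_surjective _ _ _ _ _ _ _ _ (by convert h <;> rfl)
      f.rangeRestrict.toIntAlgHom
      f.rangeRestrict_surjective
  exact exists_special' _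

lemma level_charP {p : ℕ} [Fact p.Prime] (κ : Type) [Field κ] [CharP κ p] [PerfectRing κ p]
    (d D N : ℕ) (hD : 1 ≤ D) :
    ∃ (B : Type) (_ : CommRing B) (χ : MvPolynomial (Fin d) κ →+* B)
      (σ : MvPolynomial (Fin d) κ → B), (∀ s, σ s ^ D = χ s) ∧
      (∀ n, 1 ≤ n → n ≤ N → H1' (fun i => χ (X i)) n) ∧
      (1 ≤ N → 1 ∉ Ideal.span (Set.range fun i => χ (X i))) ∧
      (∀ h M k e N', (h + k) * e < M → 2 * D * M * (d + N' + 1) ≤ N →
        BS (fun i => χ (X i)) σ D h M k e N') ∧
      ∀ i, χ (X i) ^ N = 0 := by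
  have := level (p := p) (κ := κ) (d := d) 0 D N hD (MvPolynomial.map WittVector.constantCoeff)
    (map_surjective _ (WittVector.constantCoeff_surjective p)) (by
      rw [MvPolynomial.ker_map, WittVector.ker_constantCoeff, Ideal.map_span, Set.image_singleton]
      refine le_sup_of_le_left (le_of_eq ?_)
      simp [xi])
  simpa only [map_X] using this

section zero

variable {A : Type} [CommRing A] [IsLocalRing A] [IsNoetherianRing A] {d : ℕ} (x : Fin d → A)
  (hx : Ideal.span (Set.range x) = maximalIdeal A) (hreg : RegSeq ⊥ (List.ofFn x))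

include hx hreg

lemma exists_coord [CharZero (ResidueField A)] (N : ℕ) (hN : 1 ≤ N) :
    ∃ ℓ : A → MvPolynomial (Fin d) (ResidueField A),
      (∀ a b, ℓ (a + b) - (ℓ a + ℓ b) ∈ Mon X (fun _ => N)) ∧
      (∀ a b, ℓ (a * b) - ℓ a * ℓ b ∈ Mon X (fun _ => N)) ∧ ℓ 1 - 1 ∈ Mon X (fun _ => N) ∧
      ∀ i, ℓ (x i) - X i ∈ Mon X (fun _ => N) := by
  set k := ResidueField A
  have : Algebra.FormallySmooth ℚ k := by
    obtain ⟨s, hs⟩ := exists_isTranscendenceBasis ℚ k
    have := hs.isAlgebraic_field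
    exact Algebra.FormallySmooth.of_algebraicIndependent_of_isSeparable hs.1
  set S := A ⧸ Mon (fun i => RingHom.id A (x i)) (fun _ => N)
  have h1 : Mon (fun i => RingHom.id A (x i)) (fun _ => N) ≤ RingHom.ker (residue A) := by
    rw [ker_residue, ← hx, ← Mon_one]; exact Mon_anti _ fun _ => hN
  let π' : S →+* k := Ideal.Quotient.lift _ (residue A) h1
  have hker' : RingHom.ker π' = Ideal.span (Set.range (xbar x (RingHom.id A) N)) := by
    rw [span_xbar]
    refine (Ideal.ker_quotient_lift _ h1).trans ?_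
    rw [ker_residue, ← hx]; rfl
  have hπ' : Function.Surjective π' :=
    Ideal.Quotient.lift_surjective_of_surjective _ h1 residue_surjective
  let _ : Algebra ℚ S := ((Ideal.Quotient.mk _).comp (IsLocalization.lift (M := nonZeroDivisors ℤ)
    (S := ℚ) (g := Int.castRingHom A) fun y => by
      by_contra h
      have h2 : residue A ((y : ℤ) : A) = 0 := (residue_eq_zero_iff _).mpr h
      rw [map_intCast, Int.cast_eq_zero] at h2
      exact nonZeroDivisors.ne_zero y.2 h2)).toAlgebra
  let θ := Algebra.FormallySmooth.liftOfSurjective (AlgHom.id ℚ k) π'.toRatAlgHom hπ'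
    ⟨d * N + 1, by
      change RingHom.ker π' ^ _ = _
      rw [hker']; exact xbar_nil _ _ _⟩
  have hθ : ∀ w, π' (θ.toRingHom w) = w := fun w =>
    Algebra.FormallySmooth.liftOfSurjective_apply (AlgHom.id ℚ k) π'.toRatAlgHom hπ' _ w
  have hs := surjective_eval (xbar x (RingHom.id A) N) _ (xbar_nil _ _ _) θ.toRingHom fun s =>
    ⟨π' s, by rw [← hker', RingHom.mem_ker, map_sub, hθ, sub_self]⟩
  have hk := ker_eval x (RingHom.id A) N hx hreg (h1_of_regSeq x ⊥ hreg) hN θ.toRingHom ⊥
    (by simp) (by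
      intro w hw
      rw [← hker', RingHom.mem_ker, hθ] at hw
      simp [hw])
  rw [bot_sup_eq] at hk
  choose ℓ hℓ using fun a : A => hs (Ideal.Quotient.mk _ a)
  refine ⟨ℓ, fun a b => hk ?_, fun a b => hk ?_, hk ?_, fun i => hk ?_⟩ <;>
    simp only [RingHom.mem_ker, map_sub, map_add, map_mul, map_one, hℓ, sub_self, eval₂Hom_X']
  exact sub_self _

theorem big_zero [CharZero (ResidueField A)] (D : ℕ) (hD : 1 ≤ D) :
    ∃ (B : Type) (_ : CommRing B) (φ : A →+* B) (σ : A → B), IsBig D φ σ := by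
  classical
  set k := ResidueField A
  choose ℓ hℓ1 hℓ2 hℓ3 hℓ4 using fun N => exists_coord x hx hreg (N + 1) (by omega)
  choose T hT v hv hsv p hp κ hκ hκ1 hκ2 r using fun s : Finset k => exists_special s
  choose B hB χ σ h1 h2 h3 h4 h5 using fun l : ℕ × Finset k =>
    level_charP (p := p l.2) (κ l.2) d D (l.1 + 1) hD
  let val : ∀ s : Finset k, MvPolynomial (Fin d) (T s) →+*
      MvPolynomial (Fin d) k := fun s => MvPolynomial.map (v s)
  have hval : ∀ s, Function.Injective (val s) := fun s => map_injective _ (hv s)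
  let SP : ∀ s : Finset k, MvPolynomial (Fin d) k → MvPolynomial (Fin d) (κ s) := fun s G =>
    if h : ∃ G', val s G' = G then MvPolynomial.map (r s).some h.choose else 0
  have hSP : ∀ s G', SP s (val s G') = MvPolynomial.map (r s).some G' := by
    intro s G'
    have h : ∃ G'', val s G'' = val s G' := ⟨G', rfl⟩
    simp only [SP, dif_pos h, hval s h.choose_spec]
  have hev : ∀ G, ∀ᶠ s in atTop, ∃ G', val s G' = G := by
    intro G
    filter_upwards [eventually_ge_atTop G.coeffs] with s hs
    refine mem_range_map_iff_coeffs_subset.mpr fun c hc => ?_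
    exact hsv s (hs hc)
  have hkey : ∀ N G G₀, G - G₀ ∈ Mon X (fun _ => N + 1) → ∀ᶠ s in atTop, ∀ G', val s G' = G₀ →
      χ (N, s) (SP s G) = χ (N, s) (MvPolynomial.map (r s).some G') := by
    intro N G G₀ hG
    obtain ⟨c, hc⟩ := Ideal.mem_span_range_iff_exists_fun.mp hG
    filter_upwards [eventually_all.mpr fun i => hev (c i)] with s hs G' hG'
    choose c' hc' using hs
    have : G = val s (G' + ∑ i, c' i * X i ^ (N + 1)) := by
      simp only [map_add, map_sum, map_mul, map_pow, hG', hc', val, map_X]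
      simp only [hc]
      ring
    rw [this, hSP]
    simp [h5 (N, s)]
  have hX : ∀ N, ∀ᶠ s in atTop, (fun i => χ (N, s) (SP s (ℓ N (x i)))) = fun i => χ (N, s) (X i) := by
    intro N
    filter_upwards [eventually_all.mpr fun i => hkey N _ _ (hℓ4 N i)] with s hs
    ext i
    rw [hs i (X i) (by simp [val]), map_X]
  have : (atTop.curry atTop : Filter (ℕ × Finset k)).NeBot := by
    rw [neBot_iff, Ne, ← eventually_false_iff_eq_bot, eventually_curry_iff]
    simp only [eventually_false_iff_eq_bot, atTop_neBot.ne, not_false_eq_true]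
  refine big_of_approx (F := atTop.curry atTop) (B := B) x hx D
    (fun l a => χ l (SP l.2 (ℓ l.1 a))) (fun l a => σ l (SP l.2 (ℓ l.1 a)))
    (fun a b => ?_) (fun a b => ?_) ?_ (fun g => .of_forall fun l => h1 l _)
    (fun n hn => ?_) ?_ fun h M k' e N' hM => ?_
  all_goals rw [eventually_curry_iff]
  · refine .of_forall fun N => ?_
    filter_upwards [hkey N _ _ (hℓ1 N a b), hev (ℓ N a), hev (ℓ N b)] with s hs ⟨G, hG⟩ ⟨G', hG'⟩
    rw [hs (G + G') (by rw [map_add, hG, hG']), ← hG, ← hG', hSP, hSP, map_add, map_add]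
  · refine .of_forall fun N => ?_
    filter_upwards [hkey N _ _ (hℓ2 N a b), hev (ℓ N a), hev (ℓ N b)] with s hs ⟨G, hG⟩ ⟨G', hG'⟩
    rw [hs (G * G') (by rw [map_mul, hG, hG']), ← hG, ← hG', hSP, hSP, map_mul, map_mul]
  · refine .of_forall fun N => ?_
    filter_upwards [hkey N _ _ (hℓ3 N)] with s hs
    rw [hs 1 (map_one _), map_one, map_one]
  · filter_upwards [eventually_ge_atTop n] with N hN
    filter_upwards [hX N] with s hs
    rw [hs]
    exact h2 (N, s) n hn (by simp only; omega)
  · refine .of_forall fun N => ?_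
    filter_upwards [hX N] with s hs
    rw [hs]
    exact h3 (N, s) (by simp only; omega)
  · filter_upwards [eventually_ge_atTop (2 * D * M * (d + N' + 1))] with N hN
    filter_upwards [hX N] with s hs
    rw [hs]
    exact (h4 (N, s) h M k' e N' hM (by simp only; omega)).comp _

end zero

theorem exists_big (A : Type) [CommRing A] [IsRegularLocalRing A] (D : ℕ) (hD : 1 ≤ D) :
    ∃ (B : Type) (_ : CommRing B) (φ : A →+* B) (σ : A → B), IsBig D φ σ := by
  obtain ⟨-, l, -, hreg, hl⟩ := regular_seq A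
  have h1 : RegSeq ⊥ (List.ofFn l.get) := by rwa [List.ofFn_get]
  have h2 : Ideal.span (Set.range l.get) = maximalIdeal A := by
    rw [← ofList_ofFn, List.ofFn_get, hl]
  obtain ⟨p, hp⟩ := CharP.exists (ResidueField A)
  rcases CharP.char_is_prime_or_zero (ResidueField A) p with h | h
  · have : Fact p.Prime := ⟨h⟩
    exact big_mixed _ h2 h1 D hD p
  · subst h
    have := CharP.charP_to_charZero (ResidueField A)
    exact big_zero _ h2 h1 D hD

end Pool.Agent.P.MP_fcbc4b_ag
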