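import Pool.Agent.P.MP_fcbc4b_ag.Pres

/-! Regular systems of parameters with two members in a given ideal of height at least two. -/

set_option autoImplicit false

namespace Pool.Agent.P.MP_fcbc4b_ag

open IsLocalRing

universe u

lemma quot_step {R : Type u} [CommRing R] [IsLocalRing R] [IsNoetherianRing R] (d : ℕ)
    (s : Finset R) (hs : s.card ≤ d + 1) (hspan : Ideal.span (s : Set R) = maximalIdeal R)
    (hdim : (((d + 1 : ℕ) : ℕ∞) : WithBot ℕ∞) ≤ ringKrullDim R) (x : R) (hxm : x ∈ maximalIdeal R)
    (hx2 : x ∉ maximalIdeal R ^ 2) :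
    ∃ (_ : IsLocalRing (R ⧸ Ideal.span {x})) (s' : Finset (R ⧸ Ideal.span {x})), s'.card ≤ d ∧
      Ideal.span (s' : Set (R ⧸ Ideal.span {x})) = maximalIdeal _ ∧
      ((d : ℕ∞) : WithBot ℕ∞) ≤ ringKrullDim (R ⧸ Ideal.span {x}) := by
  classical
  obtain ⟨c, -, hc⟩ := Submodule.mem_span_finset.mp (hspan ▸ hxm : x ∈ Ideal.span (s : Set R))
  have hy : ∃ y ∈ s, IsUnit (c y) := by
    by_contra hcon
    push Not at hcon
    apply hx2
    rw [← hc, pow_two]
    refine Ideal.sum_mem _ fun y hy => Ideal.mul_mem_mul (hcon y hy) ?_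
    rw [← hspan]; exact Ideal.subset_span hy
  obtain ⟨y, hys, hyu⟩ := hy
  set I : Ideal R := Ideal.span {x} with hI
  have hIm : I ≤ maximalIdeal R := by rwa [hI, Ideal.span_singleton_le_iff_mem]
  have hItop : I ≠ ⊤ := fun h =>
    (IsLocalRing.maximalIdeal.isMaximal R).ne_top (top_le_iff.mp (h ▸ hIm))
  have : Nontrivial (R ⧸ I) := Ideal.Quotient.nontrivial_iff.mpr hItop
  have : IsLocalRing (R ⧸ I) := IsLocalRing.of_surjective' (Ideal.Quotient.mk I)
    Ideal.Quotient.mk_surjective
  have hmap : (maximalIdeal R).map (Ideal.Quotient.mk I) = maximalIdeal (R ⧸ I) :=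
    IsLocalRing.map_maximalIdeal_of_surjective _ Ideal.Quotient.mk_surjective
  refine ⟨this, (s.erase y).image (Ideal.Quotient.mk I), ?_, ?_, ?_⟩
  · refine Finset.card_image_le.trans ?_
    rw [Finset.card_erase_of_mem hys]; omega
  · rw [← hmap, ← hspan, Ideal.map_span]
    apply le_antisymm
    · apply Ideal.span_mono
      intro z hz
      simp only [Finset.coe_image, Set.mem_image, Finset.mem_coe] at hz ⊢
      obtain ⟨w, hw, rfl⟩ := hz
      exact ⟨w, Finset.mem_of_mem_erase hw, rfl⟩
    · rw [Ideal.span_le]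
      rintro _ ⟨w, hw, rfl⟩
      by_cases hwy : w = y
      · subst hwy
        have h0 : Ideal.Quotient.mk I x = 0 :=
          Ideal.Quotient.eq_zero_iff_mem.mpr (Ideal.mem_span_singleton_self x)
        rw [← hc, ← Finset.add_sum_erase s _ hys, map_add, smul_eq_mul, map_mul] at h0
        have h1 : Ideal.Quotient.mk I (c w) * Ideal.Quotient.mk I w ∈
            Ideal.span (((s.erase w).image (Ideal.Quotient.mk I) : Finset (R ⧸ I)) :
              Set (R ⧸ I)) := by
          rw [eq_neg_of_add_eq_zero_left h0]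
          apply Submodule.neg_mem
          rw [map_sum]
          refine Ideal.sum_mem _ fun z hz => ?_
          rw [smul_eq_mul, map_mul]
          exact Ideal.mul_mem_left _ _
            (Ideal.subset_span (by simpa using ⟨z, by simpa [and_comm] using hz, rfl⟩))
        exact (Ideal.unit_mul_mem_iff_mem _ (hyu.map _)).mp h1
      · exact Ideal.subset_span (by simpa using ⟨w, ⟨hw, hwy⟩, rfl⟩)
  · have h1 := ringKrullDim_le_ringKrullDim_quotient_add_encard ({x} : Set R) (by
      intro z hz
      rw [Set.mem_singleton_iff.mp hz]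
      exact (IsLocalRing.maximalIdeal_le_jacobson (⊥ : Ideal R)).trans
        (by rw [Ideal.jacobson_bot]) hxm)
    rw [Set.encard_singleton] at h1
    have h2 := hdim.trans h1
    rw [← hI] at h2
    generalize ringKrullDim (R ⧸ I) = k at h2
    induction k with
    | bot => simp at h2
    | coe k =>
      norm_cast at h2 ⊢
      induction k with
      | top => simp
      | coe k => norm_cast at h2 ⊢; omega

theorem sop_aux (d : ℕ) : ∀ (R : Type u) [CommRing R] [IsLocalRing R] [IsNoetherianRing R]
    (s : Finset R), s.card ≤ d → Ideal.span (s : Set R) = maximalIdeal R →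
    ((d : ℕ∞) : WithBot ℕ∞) ≤ ringKrullDim R → ∀ J : Ideal R, J ≤ maximalIdeal R →
    (∀ P : Ideal R, P.IsPrime → J ≤ P → 2 ≤ P.height) →
    ∃ (n : ℕ) (y : Fin n → R), RegSeq ⊥ (List.ofFn y) ∧ (∀ i, y i ∈ maximalIdeal R) ∧
      maximalIdeal R ≤ (Ideal.span (Set.range y)).radical ∧
      ∃ i₁ i₂, i₁ ≠ i₂ ∧ y i₁ ∈ J ∧ y i₂ ∈ J := by
  have hd : ∀ (d : ℕ) (R : Type u) [CommRing R] [IsLocalRing R] [IsNoetherianRing R]
      (s : Finset R), s.card ≤ d → Ideal.span (s : Set R) = maximalIdeal R →
      2 ≤ (maximalIdeal R).height → 2 ≤ d := by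
    intro d R _ _ _ s hs hspan h2
    have := Ideal.height_le_card_of_mem_minimalPrimes_span_finset (p := maximalIdeal R) (s := s)
      (by rw [hspan, Ideal.minimalPrimes_eq_subsingleton_self]; rfl)
    have h3 : ((2 : ℕ) : ℕ∞) ≤ s.card := h2.trans this
    have h4 : 2 ≤ s.card := by exact_mod_cast h3
    omega
  induction d with
  | zero =>
    intro R _ _ _ s hs hspan _ J hJ H
    have := hd 0 R s hs hspan (H _ inferInstance hJ)
    omega
  | succ d ih =>
    intro R _ _ _ s hs hspan hdim J hJ H
    classical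
    have h2 := hd _ R s hs hspan (H _ inferInstance hJ)
    obtain ⟨hD, l, hl, hreg, hgen⟩ := regular_aux _ R s hs hspan hdim
    by_cases hP : ∀ P : Ideal R, P.IsPrime → J ≤ P → P = maximalIdeal R
    · have h3 : maximalIdeal R ≤ J.radical := by
        rw [Ideal.radical_eq_sInf]
        exact le_sInf fun P h => (hP P h.2 h.1).ge
      obtain ⟨c, hc⟩ := Ideal.exists_pow_le_of_le_radical_of_fg h3 (IsNoetherian.noetherian _)
      have hlm : ∀ i, l.get i ∈ maximalIdeal R := fun i => by
        rw [← hgen]; exact Ideal.subset_span (List.get_mem l i)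
      have hJ' : ∀ i, l.get i ^ (c + 1) ∈ J := fun i => by
        rw [pow_succ]; exact Ideal.mul_mem_right _ _ (hc (Ideal.pow_mem_pow (hlm i) c))
      refine ⟨l.length, fun i => l.get i ^ (c + 1), regSeq_ofFn_pow l.get (fun _ => c + 1) ⊥
        (fun _ => by omega) (by rwa [List.ofFn_get]), fun i => hJ (hJ' i), ?_,
        ⟨0, by omega⟩, ⟨1, by omega⟩, by simp, hJ' _, hJ' _⟩
      have h4 : Ideal.span (Set.range l.get) = maximalIdeal R := by
        rw [← ofList_ofFn, List.ofFn_get, hgen]
      rw [← h4, Ideal.span_le]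
      rintro _ ⟨i, rfl⟩
      exact ⟨c + 1, Ideal.subset_span ⟨i, rfl⟩⟩
    · push Not at hP
      obtain ⟨P₀, hP₀, hJP₀, hne⟩ := hP
      have hlt : P₀ < maximalIdeal R := lt_of_le_of_ne (le_maximalIdeal hP₀.ne_top) hne
      have hfin := Ideal.finite_minimalPrimes_of_isNoetherianRing R J
      have hx : ∃ x ∈ maximalIdeal R, x ∉ maximalIdeal R ^ 2 ∧
          ∀ P ∈ J.minimalPrimes, P ≠ maximalIdeal R → x ∉ P := by
        by_contra hcon
        push Not at hcon
        have hsub : ((maximalIdeal R : Ideal R) : Set R) ⊆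
            ⋃ i ∈ ((insert (maximalIdeal R ^ 2) (hfin.toFinset.erase (maximalIdeal R)) :
              Finset (Ideal R)) : Set (Ideal R)), ((id i : Ideal R) : Set R) := by
          intro x hx
          simp only [Set.mem_iUnion]
          by_cases h2 : x ∈ maximalIdeal R ^ 2
          · exact ⟨_, by simp, h2⟩
          · obtain ⟨P, hP, hP', hxP⟩ := hcon x hx h2
            exact ⟨P, by simp [hP, hP'], hxP⟩
        obtain ⟨i, hi, hle⟩ := (Ideal.subset_union_prime (maximalIdeal R ^ 2) (maximalIdeal R ^ 2)
          (fun i hi h1 _ => by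
            rcases Finset.mem_insert.mp hi with h | h
            · exact absurd h h1
            · exact (hfin.mem_toFinset.mp (Finset.mem_of_mem_erase h)).1.1)).mp hsub
        rcases Finset.mem_insert.mp hi with h | h
        · subst h
          have : maximalIdeal R = ⊥ := by
            refine Submodule.eq_bot_of_le_smul_of_le_jacobson_bot (maximalIdeal R) _
              (IsNoetherian.noetherian _) ?_ (IsLocalRing.maximalIdeal_le_jacobson _)
            simpa [pow_two] using hle
          rw [this] at hlt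
          exact not_lt_bot hlt
        · have hP := hfin.mem_toFinset.mp (Finset.mem_of_mem_erase h)
          exact Finset.ne_of_mem_erase h
            ((IsLocalRing.maximalIdeal.isMaximal R).eq_of_le hP.1.1.ne_top hle).symm
      obtain ⟨x, hxm, hx2, hxP⟩ := hx
      have hq := quot_step d s hs hspan hdim x hxm hx2
      set I : Ideal R := Ideal.span {x} with hI
      obtain ⟨_, s', hs', hspan', hdim'⟩ := hq
      set π := Ideal.Quotient.mk I with hπ
      have hsurj : Function.Surjective π := Ideal.Quotient.mk_surjective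
      have hmap : (maximalIdeal R).map π = maximalIdeal (R ⧸ I) :=
        IsLocalRing.map_maximalIdeal_of_surjective _ hsurj
      have hIm : I ≤ maximalIdeal R := by rwa [hI, Ideal.span_singleton_le_iff_mem]
      obtain ⟨n, y, h3, h4, h5, i₁, i₂, h6, h7, h8⟩ := ih (R ⧸ I) s' hs' hspan' hdim' (J.map π)
        (hmap ▸ Ideal.map_mono hJ) (by
          intro Q' hQ' hle
          have hxQ : x ∈ Q'.comap π := by
            rw [Ideal.mem_comap, Ideal.Quotient.eq_zero_iff_mem.mpr
              (Ideal.mem_span_singleton_self x)]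
            exact Q'.zero_mem
          have h3 := Ideal.height_le_height_add_one_of_mem hxQ
          rw [Ideal.map_comap_of_surjective _ hsurj] at h3
          have h4 : 2 + 1 ≤ (Q'.comap π).height := by
            obtain ⟨P, hP, hPQ⟩ := Ideal.exists_minimalPrimes_le
              (Ideal.map_le_iff_le_comap.mp hle)
            have := hP.1.1
            by_cases hPm : P = maximalIdeal R
            · refine le_trans ?_ (Ideal.height_mono (hPm ▸ hPQ))
              refine le_trans ?_ (Ideal.height_add_one_le_of_lt_of_isPrime hlt)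
              gcongr
              exact H _ hP₀ hJP₀
            · refine le_trans ?_ (Ideal.height_add_one_le_of_lt_of_isPrime
                (lt_of_le_of_ne hPQ fun h => hxP P hP hPm (h ▸ hxQ)))
              gcongr
              exact H _ this hP.1.2
          exact (ENat.add_le_add_iff_right (by simp)).mp (h4.trans h3))
      have hlift : ∀ z : R ⧸ I, ∃ w, π w = z ∧ (z ∈ J.map π → w ∈ J) := by
        intro z
        by_cases hz : z ∈ J.map π
        · obtain ⟨w, hw, h⟩ := (Ideal.mem_map_iff_of_surjective _ hsurj).mp hz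
          exact ⟨w, h, fun _ => hw⟩
        · obtain ⟨w, h⟩ := hsurj z
          exact ⟨w, h, fun h => absurd h hz⟩
      choose g hg hgJ using hlift
      have hx0 : x ≠ 0 := fun h => hx2 (h ▸ Submodule.zero_mem _)
      have hcomap : ∀ K : Ideal R, (K.map π).comap π = K ⊔ I := fun K => by
        rw [Ideal.comap_map_of_surjective _ hsurj, ← RingHom.ker_eq_comap_bot, Ideal.mk_ker]
      refine ⟨n + 1, Fin.cons x fun i => g (y i), ?_, ?_, ?_, i₁.succ, i₂.succ,
        fun h => h6 (Fin.succ_injective _ h), hgJ _ h7, hgJ _ h8⟩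
      · rw [List.ofFn_succ]
        refine ⟨fun a ha => by simpa [hx0] using ha, ?_⟩
        have := regSeq_comap π hsurj (List.ofFn fun i => g (y i)) ⊥ (by
          rw [List.map_ofFn]
          simpa [Function.comp_def, hg] using h3)
        rwa [← RingHom.ker_eq_comap_bot, Ideal.mk_ker, ← bot_sup_eq I] at this
      · refine Fin.cases hxm fun i => ?_
        have := h4 i
        rw [← hg (y i), ← hmap, ← Ideal.mem_comap, hcomap, sup_eq_left.mpr hIm] at this
        exact this
      · intro z hz
        obtain ⟨k, hk⟩ := h5 (hmap ▸ Ideal.mem_map_of_mem π hz)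
        refine ⟨k, ?_⟩
        have h9 : Ideal.span (Set.range y) = (Ideal.span (Set.range fun i => g (y i))).map π := by
          rw [Ideal.map_span, ← Set.range_comp]
          simp [Function.comp_def, hg]
        rw [h9, ← map_pow, ← Ideal.mem_comap, hcomap] at hk
        rw [Fin.range_cons, Ideal.span_insert, sup_comm]
        exact hk

theorem exists_sop (A : Type u) [CommRing A] [IsRegularLocalRing A] (J : Ideal A)
    (hJ : J ≤ maximalIdeal A) (H : ∀ P : Ideal A, P.IsPrime → J ≤ P → 2 ≤ P.height) :
    ∃ (n : ℕ) (y : Fin n → A) (C : ℕ), MonColon y ∧ (∀ i, y i ∈ maximalIdeal A) ∧ 1 ≤ C ∧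
      maximalIdeal A ^ C ≤ Ideal.span (Set.range y) ∧
      ∃ i₁ i₂, i₁ ≠ i₂ ∧ y i₁ ∈ J ∧ y i₂ ∈ J := by
  obtain ⟨s, hs, hspan⟩ := Submodule.FG.exists_span_finset_card_eq_spanFinrank
    (IsNoetherian.noetherian (maximalIdeal A))
  have h := IsRegularLocalRing.spanFinrank_maximalIdeal (R := A)
  obtain ⟨n, y, h1, h2, h3, h4⟩ := sop_aux s.card A s le_rfl hspan (by rw [hs, ← h]; rfl) J hJ H
  obtain ⟨c, hc⟩ := Ideal.exists_pow_le_of_le_radical_of_fg h3 (IsNoetherian.noetherian _)
  exact ⟨n, y, c + 1, monColon_of_regSeq y h1, h2, by omega,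
    (Ideal.pow_le_pow_right (by omega)).trans hc, h4⟩

end Pool.Agent.P.MP_fcbc4b_ag
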