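import Pool.Agent.P.MP_fcbc4b_ag.Key

/-! Symbolic powers, pigeonhole, Rees algebra step. -/

set_option autoImplicit false

namespace Pool.Agent.P.MP_fcbc4b_ag

open IsLocalRing Polynomial

section general

variable {R : Type*} [CommRing R]

/-- Symbolic power. -/
def symb (I : Ideal R) (k : ℕ) : Ideal R where
  carrier := {r | ∀ P ∈ I.minimalPrimes, ∃ t : R, t ∉ P ∧ t * r ∈ I ^ k}
  zero_mem' := fun P hP => ⟨1, (Ideal.ne_top_iff_one _).mp hP.1.1.ne_top, by simp⟩
  add_mem' := by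
    intro a b ha hb P hP
    obtain ⟨s, hs, h1⟩ := ha P hP
    obtain ⟨t, ht, h2⟩ := hb P hP
    refine ⟨s * t, fun h => (hP.1.1.mem_or_mem h).elim hs ht, ?_⟩
    have : s * t * (a + b) = t * (s * a) + s * (t * b) := by ring
    rw [this]
    exact Ideal.add_mem _ (Ideal.mul_mem_left _ _ h1) (Ideal.mul_mem_left _ _ h2)
  smul_mem' := by
    intro c a ha P hP
    obtain ⟨s, hs, h1⟩ := ha P hP
    refine ⟨s, hs, ?_⟩
    rw [smul_eq_mul, mul_left_comm]
    exact Ideal.mul_mem_left _ _ h1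

lemma mem_symb {I : Ideal R} {k : ℕ} {r : R} :
    r ∈ symb I k ↔ ∀ P ∈ I.minimalPrimes, ∃ t : R, t ∉ P ∧ t * r ∈ I ^ k := Iff.rfl

lemma pow_le_symb (I : Ideal R) (k : ℕ) : I ^ k ≤ symb I k := fun r hr P hP =>
  ⟨1, (Ideal.ne_top_iff_one _).mp hP.1.1.ne_top, by simpa using hr⟩

lemma symb_anti (I : Ideal R) {k l : ℕ} (h : k ≤ l) : symb I l ≤ symb I k := fun _ hr P hP =>
  let ⟨t, ht, h1⟩ := hr P hP
  ⟨t, ht, Ideal.pow_le_pow_right h h1⟩

lemma symb_mul {I : Ideal R} {k l : ℕ} {a b : R} (ha : a ∈ symb I k) (hb : b ∈ symb I l) :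
    a * b ∈ symb I (k + l) := by
  intro P hP
  obtain ⟨s, hs, h1⟩ := ha P hP
  obtain ⟨t, ht, h2⟩ := hb P hP
  refine ⟨s * t, fun h => (hP.1.1.mem_or_mem h).elim hs ht, ?_⟩
  rw [mul_mul_mul_comm, pow_add]
  exact Ideal.mul_mem_mul h1 h2

lemma symb_pow {I : Ideal R} {k : ℕ} {a : R} (ha : a ∈ symb I k) (j : ℕ) :
    a ^ j ∈ symb I (k * j) := by
  induction j with
  | zero => exact pow_le_symb I _ (by simp)
  | succ j ih => rw [pow_succ, mul_add, mul_one]; exact symb_mul ih ha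

lemma symb_nzd {I : Ideal R} {k : ℕ} {t a : R} (ht : ∀ P ∈ I.minimalPrimes, t ∉ P)
    (h : t * a ∈ symb I k) : a ∈ symb I k := by
  intro P hP
  obtain ⟨s, hs, h1⟩ := h P hP
  exact ⟨s * t, fun h => (hP.1.1.mem_or_mem h).elim hs (ht P hP), by rwa [mul_assoc]⟩

lemma radical_nzd {I : Ideal R} (hI : I.IsRadical) {t a : R} (ht : ∀ P ∈ I.minimalPrimes, t ∉ P)
    (h : t * a ∈ I) : a ∈ I := by
  apply hI
  rw [← Ideal.sInf_minimalPrimes, Submodule.mem_sInf]
  intro P hP
  exact (hP.1.1.mem_or_mem (hP.1.2 h)).resolve_left (ht P hP)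

lemma avoid {S : Set (Ideal R)} (hS : S.Finite) (hp : ∀ P ∈ S, P.IsPrime) (J : Ideal R)
    (h : ∀ P ∈ S, ¬ J ≤ P) : ∃ t ∈ J, ∀ P ∈ S, t ∉ P := by
  by_contra hcon
  push Not at hcon
  obtain ⟨P, hP, hle⟩ := (Ideal.subset_union_prime_finite (I := J) hS (f := id) 0 0
    fun i hi _ _ => hp i hi).mp (by
      intro x hx
      obtain ⟨P, hP, hxP⟩ := hcon x hx
      exact Set.mem_iUnion₂.mpr ⟨P, hP, hxP⟩)
  exact h P hP hle

lemma nzd_exists [IsNoetherianRing R] (K J : Ideal R)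
    (h : ∀ y, (K.colon {y}).IsPrime → ¬ J ≤ K.colon {y}) :
    ∃ g ∈ J, ∀ a, g * a ∈ K → a ∈ K := by
  obtain ⟨g, hg, h1⟩ := avoid (associatedPrimes.finite R (R ⧸ K)) (fun P hP => hP.1) J (by
    intro P hP
    obtain ⟨hP1, y, hy⟩ := isAssociatedPrime_iff.mp hP
    obtain ⟨y, rfl⟩ := Ideal.Quotient.mk_surjective y
    have : P = K.colon {y} := by
      rw [hy]; ext a
      rw [Submodule.mem_colon_singleton, Submodule.mem_colon_singleton, Submodule.mem_bot,
        ← Ideal.Quotient.eq_zero_iff_mem]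
      rfl
    rw [this] at hP1 ⊢
    exact h y hP1)
  refine ⟨g, hg, fun a ha => ?_⟩
  by_contra hna
  have : g ∈ ⋃ p ∈ associatedPrimes R (R ⧸ K), (p : Set R) := by
    rw [biUnion_associatedPrimes_eq_zero_divisors]
    exact ⟨Ideal.Quotient.mk K a, fun h => hna (Ideal.Quotient.eq_zero_iff_mem.mp h),
      Ideal.Quotient.eq_zero_iff_mem.mpr ha⟩
  obtain ⟨P, hP, hgP⟩ := Set.mem_iUnion₂.mp this
  exact h1 P hP hgP

lemma mem_map_coeff (I : Ideal R) (z : reesAlgebra I)
    (hz : z ∈ I.map (algebraMap R (reesAlgebra I))) (j : ℕ) : (z : R[X]).coeff j ∈ I ^ (j + 1) := by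
  refine Submodule.span_induction
    (p := fun (z : reesAlgebra I) _ => ∀ j, (z : R[X]).coeff j ∈ I ^ (j + 1)) ?_ ?_ ?_ ?_ hz j
  · rintro _ ⟨r, hr, rfl⟩ j
    change (C r).coeff j ∈ _
    rw [coeff_C]
    split_ifs with h
    · subst h; simpa using hr
    · simp
  · simp
  · intro x y _ _ hx hy j
    simpa using Ideal.add_mem _ (hx j) (hy j)
  · intro a x _ hx j
    rw [smul_eq_mul, Subalgebra.coe_mul, coeff_mul]
    refine Ideal.sum_mem _ fun c hc => ?_
    rw [← Finset.HasAntidiagonal.mem_antidiagonal.mp hc, add_assoc, pow_add]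
    exact Ideal.mul_mem_mul (a.2 _) (hx _)

lemma monomial_mem_prime (I : Ideal R) (𝔓 : Ideal (reesAlgebra I)) (k : ℕ) (v : R)
    (hv : v ∈ 𝔓.comap (algebraMap R (reesAlgebra I)) * I ^ k) :
    ∃ h : monomial k v ∈ reesAlgebra I, (⟨_, h⟩ : reesAlgebra I) ∈ 𝔓 := by
  refine Submodule.mul_induction_on hv ?_ ?_
  · intro a ha b hb
    refine ⟨reesAlgebra.monomial_mem.mpr (Ideal.mul_mem_left _ _ hb), ?_⟩
    have := 𝔓.mul_mem_right (⟨_, reesAlgebra.monomial_mem.mpr hb⟩ : reesAlgebra I) ha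
    convert this using 1
    apply Subtype.ext
    change _ = C a * monomial k b
    rw [C_mul_monomial]
  · rintro x y ⟨hx, hx'⟩ ⟨hy, hy'⟩
    refine ⟨by rw [map_add]; exact Subalgebra.add_mem _ hx hy, ?_⟩
    have := 𝔓.add_mem hx' hy'
    convert this using 1
    apply Subtype.ext
    simp

theorem rees_step [IsNoetherianRing R] (I : Ideal R) (Q : ℕ → ℕ) (𝔠 : ℕ → Ideal R)
    (hc : ∀ e, 𝔠 e ≤ I ^ Q e)
    (H : ∀ 𝔮 : Ideal R, 𝔮.IsPrime → I ≤ 𝔮 → ∃ e₁, ∀ e, e₁ ≤ e → ∀ u ∈ 𝔠 e,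
      ∃ s, s ∉ 𝔮 ∧ s * u ∈ 𝔮 * I ^ Q e) :
    ∃ e N, 𝔠 e ^ (N + 1) ≤ I ^ (Q e * (N + 1) + 1) := by
  set L : Ideal (reesAlgebra I) := I.map (algebraMap R (reesAlgebra I)) with hL
  obtain ⟨N, hN⟩ := Ideal.exists_radical_pow_le_of_fg L (IsNoetherian.noetherian _)
  have hfin := Ideal.finite_minimalPrimes_of_isNoetherianRing _ L
  have H' : ∀ 𝔓 ∈ L.minimalPrimes, ∀ᶠ e in Filter.atTop, ∀ u ∈ 𝔠 e,
      ∃ s, s ∉ 𝔓.comap (algebraMap R (reesAlgebra I)) ∧
        s * u ∈ 𝔓.comap (algebraMap R (reesAlgebra I)) * I ^ Q e := by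
    intro 𝔓 h𝔓
    have := h𝔓.1.1
    obtain ⟨e₁, he₁⟩ := H (𝔓.comap (algebraMap R (reesAlgebra I))) inferInstance
      (Ideal.map_le_iff_le_comap.mp h𝔓.1.2)
    exact Filter.eventually_atTop.mpr ⟨e₁, he₁⟩
  obtain ⟨e, he⟩ := ((Filter.eventually_all_finite hfin).mpr H').exists
  have hrad : ∀ u (hu : u ∈ 𝔠 e),
      (⟨_, reesAlgebra.monomial_mem.mpr (hc e hu)⟩ : reesAlgebra I) ∈ L.radical := by
    intro u hu
    rw [← Ideal.sInf_minimalPrimes, Submodule.mem_sInf]
    intro 𝔓 h𝔓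
    obtain ⟨s, hs, h1⟩ := he 𝔓 h𝔓 u hu
    obtain ⟨h2, h3⟩ := monomial_mem_prime I 𝔓 _ _ h1
    refine (h𝔓.1.1.mem_or_mem (x := algebraMap R _ s) ?_).resolve_left hs
    convert h3 using 1
    apply Subtype.ext
    change C s * monomial _ u = _
    rw [C_mul_monomial]
  have hpow : ∀ j, ∀ z ∈ 𝔠 e ^ j, ∃ h : monomial (Q e * j) z ∈ reesAlgebra I,
      (⟨_, h⟩ : reesAlgebra I) ∈ L.radical ^ j := by
    intro j
    induction j with
    | zero => intro z _; exact ⟨reesAlgebra.monomial_mem.mpr (by simp), by simp⟩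
    | succ j ih =>
      intro z hz
      rw [pow_succ] at hz
      refine Submodule.mul_induction_on hz ?_ ?_
      · intro a ha b hb
        obtain ⟨h1, h2⟩ := ih a ha
        have h3 := Ideal.mul_mem_mul h2 (hrad b hb)
        have h4 : monomial (Q e * (j + 1)) (a * b) = monomial (Q e * j) a * monomial (Q e) b := by
          rw [monomial_mul_monomial, mul_add, mul_one]
        refine ⟨by rw [h4]; exact Subalgebra.mul_mem _ h1 (reesAlgebra.monomial_mem.mpr (hc e hb)), ?_⟩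
        rw [pow_succ]
        convert h3 using 1
        exact Subtype.ext h4
      · rintro x y ⟨hx, hx'⟩ ⟨hy, hy'⟩
        refine ⟨by rw [map_add]; exact Subalgebra.add_mem _ hx hy, ?_⟩
        have := Ideal.add_mem _ hx' hy'
        convert this using 1
        apply Subtype.ext
        simp
  refine ⟨e, N, fun z hz => ?_⟩
  obtain ⟨h1, h2⟩ := hpow _ z hz
  have := mem_map_coeff I _ (hN (Ideal.pow_le_pow_right (Nat.le_succ N) h2)) (Q e * (N + 1))
  simpa using this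

end general

section pigeon

variable {p : ℕ} [Fact p.Prime] {A : Type*} [CommRing A] [CharP A p]

lemma pigeon_base (e : ℕ) (s : Finset A) : ∀ M, s.card * (p ^ e - 1) + 1 ≤ M →
    Ideal.span (s : Set A) ^ M ≤
      fpow p e (Ideal.span (s : Set A)) * Ideal.span (s : Set A) ^ (M - p ^ e) := by
  classical
  induction s using Finset.induction_on with
  | empty =>
    intro M hM
    rw [Finset.coe_empty, Ideal.span_empty, ← Ideal.zero_eq_bot, zero_pow (by omega)]
    exact bot_le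
  | insert x s hx ih =>
    intro M hM
    rw [Finset.card_insert_of_notMem hx] at hM
    set L : Ideal A := Ideal.span ((insert x s : Finset A) : Set A) with hL
    have hL' : L = Ideal.span {x} + Ideal.span (s : Set A) := by
      rw [hL, Finset.coe_insert, Ideal.span_insert]; rfl
    have h1 : Ideal.span {x} ≤ L := by rw [hL']; exact le_sup_left
    have h2 : Ideal.span (s : Set A) ≤ L := by rw [hL']; exact le_sup_right
    conv_lhs => rw [hL', add_pow]
    rw [Ideal.sum_eq_sup, Finset.sup_le_iff]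
    intro i hi
    have hi' : i ≤ M := by simpa [Nat.lt_succ_iff] using hi
    refine Ideal.mul_le_left.trans ?_
    by_cases hq : p ^ e ≤ i
    · obtain ⟨j, rfl⟩ := Nat.exists_eq_add_of_le hq
      rw [pow_add, mul_assoc]
      refine Ideal.mul_mono ?_ ?_
      · rw [Ideal.span_singleton_pow, Ideal.span_singleton_le_iff_mem]
        exact pow_mem_fpow e (h1 (Ideal.mem_span_singleton_self x))
      · refine (Ideal.mul_mono (Ideal.pow_right_mono h1 _) (Ideal.pow_right_mono h2 _)).trans ?_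
        rw [← pow_add]
        exact Ideal.pow_le_pow_right (by omega)
    · have h3 := ih (M - i) (by rw [add_mul] at hM; omega)
      refine (Ideal.mul_mono_right h3).trans ?_
      rw [mul_left_comm]
      refine Ideal.mul_mono (Ideal.map_mono h2) ?_
      refine (Ideal.mul_mono (Ideal.pow_right_mono h1 _) (Ideal.pow_right_mono h2 _)).trans ?_
      rw [← pow_add]
      exact Ideal.pow_le_pow_right (by omega)

lemma pigeon (e : ℕ) (s : Finset A) (k : ℕ) : ∀ M, k * p ^ e + s.card * (p ^ e - 1) + 1 ≤ M →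
    Ideal.span (s : Set A) ^ M ≤ fpow p e (Ideal.span (s : Set A) ^ (k + 1)) := by
  induction k with
  | zero =>
    intro M hM
    rw [zero_add, pow_one]
    exact (pigeon_base e s M (by omega)).trans Ideal.mul_le_left
  | succ k ih =>
    intro M hM
    rw [add_mul] at hM
    refine (pigeon_base e s M (by omega)).trans ?_
    refine (Ideal.mul_mono_right (ih _ (by omega))).trans ?_
    unfold fpow
    rw [← Ideal.map_mul, ← pow_succ']

end pigeon

end Pool.Agent.P.MP_fcbc4b_ag
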