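import Pool.Agent.P.MP_fcbc4b_ag.Final

set_option autoImplicit false

/-- Expected resurgence for every radical ideal of big height at least two in a regular ring. -/
theorem Pool.Agent.P.MP_fcbc4b_ag.variantResurgence :
    ∀ (R : Type) [CommRing R] [IsRegularRing R] (I : Ideal R), I.IsRadical → ∀ h : ℕ, 2 ≤ h →
      (∀ P ∈ I.minimalPrimes, P.height ≤ (h : ℕ∞)) →
      ∃ B : ℕ, 1 ≤ B ∧ ∀ n : ℕ, ∀ r : R,
        (∀ P ∈ I.minimalPrimes, ∃ t : R, t ∉ P ∧ t * r ∈ I ^ (h * (n - n / B))) → r ∈ I ^ n := by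
  intro R _ _ I hI h h2 hh
  obtain ⟨B, hB, H⟩ := Pool.Agent.P.MP_fcbc4b_ag.gen_two hI h hh h2
  exact ⟨B, by omega, fun n r hr => H n hr⟩
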