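import Pool.Agent.P.MP_fcbc4b_ag.H1

/-! Witt vectors of perfect rings: divisibility of Teichmueller elements modulo a distinguished
element, and a Briancon-Skoda type containment. -/

set_option autoImplicit false

namespace Pool.Agent.P.MP_fcbc4b_ag

open IsLocalRing WittVector

section pigeon

variable {T : Type*} [CommRing T]

lemma sup_pow_le_sup (A B : Ideal T) (n : ℕ) : (A ⊔ B) ^ n ≤ A ⊔ B ^ n := by
  induction n with
  | zero => simp
  | succ n ih =>
    rw [pow_succ, pow_succ]
    refine (Ideal.mul_mono_left ih).trans ?_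
    rw [Ideal.sup_mul, Ideal.mul_sup (B ^ n)]
    exact sup_le (Ideal.mul_le_left.trans le_sup_left)
      (sup_le (Ideal.mul_le_right.trans le_sup_left) le_sup_right)

lemma pigeon_base' (q : ℕ) {h : ℕ} : ∀ (x : Fin h → T) (M : ℕ), h * (q - 1) + 1 ≤ M →
    Ideal.span (Set.range x) ^ M ≤ Mon x (fun _ => q) * Ideal.span (Set.range x) ^ (M - q) := by
  induction h with
  | zero =>
    intro x M hM
    rw [Set.range_eq_empty, Ideal.span_empty, ← Ideal.zero_eq_bot, zero_pow (by omega)]
    exact bot_le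
  | succ h ih =>
    intro x M hM
    set L : Ideal T := Ideal.span (Set.range x) with hL
    have hL' : L = Ideal.span {x 0} + Ideal.span (Set.range fun i : Fin h => x i.succ) := by
      rw [hL, Fin.range_fin_succ, Ideal.span_insert]; rfl
    have h1 : Ideal.span {x 0} ≤ L := by rw [hL']; exact le_sup_left
    have h2 : Ideal.span (Set.range fun i : Fin h => x i.succ) ≤ L := by
      rw [hL']; exact le_sup_right
    conv_lhs => rw [hL', add_pow]
    rw [Ideal.sum_eq_sup, Finset.sup_le_iff]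
    intro i hi
    have hi' : i ≤ M := by simpa [Nat.lt_succ_iff] using hi
    refine Ideal.mul_le_left.trans ?_
    by_cases hq : q ≤ i
    · obtain ⟨j, rfl⟩ := Nat.exists_eq_add_of_le hq
      rw [pow_add, mul_assoc]
      refine Ideal.mul_mono ?_ ?_
      · rw [Ideal.span_singleton_pow, Ideal.span_singleton_le_iff_mem]
        exact pow_mem_Mon x (fun _ => q) 0
      · refine (Ideal.mul_mono (Ideal.pow_right_mono h1 _) (Ideal.pow_right_mono h2 _)).trans ?_
        rw [← pow_add]
        exact Ideal.pow_le_pow_right (by omega)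
    · have h3 := ih (fun i : Fin h => x i.succ) (M - i) (by rw [add_mul] at hM; omega)
      refine (Ideal.mul_mono_right h3).trans ?_
      rw [mul_left_comm]
      refine Ideal.mul_mono ?_ ?_
      · rw [Mon_succ]; exact le_sup_right
      refine (Ideal.mul_mono (Ideal.pow_right_mono h1 _) (Ideal.pow_right_mono h2 _)).trans ?_
      rw [← pow_add]
      exact Ideal.pow_le_pow_right (by omega)

lemma pigeon' (q : ℕ) {h : ℕ} (x : Fin h → T) (k : ℕ) : ∀ M, k * q + h * (q - 1) + 1 ≤ M →
    Ideal.span (Set.range x) ^ M ≤ Mon x (fun _ => q) ^ (k + 1) := by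
  induction k with
  | zero =>
    intro M hM
    rw [zero_add, pow_one]
    exact (pigeon_base' q x M (by omega)).trans Ideal.mul_le_left
  | succ k ih =>
    intro M hM
    rw [add_mul] at hM
    refine (pigeon_base' q x M (by omega)).trans ?_
    refine (Ideal.mul_mono_right (ih _ (by omega))).trans ?_
    rw [← pow_succ']

lemma pigeon'' (q : ℕ) {h : ℕ} (x : Fin h → T) (k M : ℕ) (hM : (h + k) * q < M) :
    Ideal.span (Set.range x) ^ M ≤ Mon x (fun _ => q) ^ (k + 1) := by
  refine pigeon' q x k M ?_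
  have : h * (q - 1) ≤ h * q := Nat.mul_le_mul_left _ (Nat.sub_le _ _)
  rw [add_mul] at hM
  omega

lemma Mon_le_pow {ι : Type*} (x : ι → T) (q : ℕ) :
    Mon x (fun _ => q) ≤ Ideal.span (Set.range x) ^ q := by
  rw [Mon, Ideal.span_le]
  rintro _ ⟨i, rfl⟩
  exact Ideal.pow_mem_pow (Ideal.subset_span (Set.mem_range_self i)) _

lemma Mon_congr {ι : Type*} {x y : ι → T} {ν ν' : ι → ℕ} (h : ∀ i, x i ^ ν i = y i ^ ν' i) :
    Mon x ν = Mon y ν' := by
  unfold Mon
  simp only [h]

end pigeon

variable {p : ℕ} [Fact p.Prime]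

/-- The ideal generated by the Teichmueller lifts of an ideal. -/
noncomputable def TI (p : ℕ) [Fact p.Prime] {C : Type*} [CommRing C] (K : Ideal C) : Ideal (WittVector p C) :=
  Ideal.span (teichmuller p '' (K : Set C))

lemma TI_mono {C : Type*} [CommRing C] {K K' : Ideal C} (h : K ≤ K') : TI p K ≤ TI p K' :=
  Ideal.span_mono (Set.image_mono h)

lemma TI_mul {C : Type*} [CommRing C] (K K' : Ideal C) : TI p K * TI p K' ≤ TI p (K * K') := by
  rw [TI, TI, Ideal.span_mul_span', Ideal.span_le]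
  rintro _ ⟨_, ⟨a, ha, rfl⟩, _, ⟨b, hb, rfl⟩, rfl⟩
  exact Ideal.subset_span ⟨a * b, Ideal.mul_mem_mul ha hb, by simp⟩

lemma TI_pow {C : Type*} [CommRing C] (K : Ideal C) (n : ℕ) : TI p K ^ n ≤ TI p (K ^ n) := by
  induction n with
  | zero =>
    rw [pow_zero, pow_zero, Ideal.one_eq_top, top_le_iff, Ideal.eq_top_iff_one]
    exact Ideal.subset_span ⟨1, by simp, by simp⟩
  | succ n ih => rw [pow_succ, pow_succ]; exact (Ideal.mul_mono_left ih).trans (TI_mul _ _)

lemma Mon_le_TI {C ι : Type*} [CommRing C] (x : ι → C) (ν : ι → ℕ) :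
    Mon (fun i => teichmuller p (x i)) ν ≤ TI p (Mon x ν) := by
  rw [Mon, Ideal.span_le]
  rintro _ ⟨i, rfl⟩
  exact Ideal.subset_span ⟨_, pow_mem_Mon x ν i, by simp⟩

section perfect

variable {C : Type*} [CommRing C] [CharP C p] [PerfectRing C p]

omit [PerfectRing C p] in
lemma cc_p : constantCoeff (p : WittVector p C) = 0 := by
  rw [map_natCast, CharP.cast_eq_zero]

lemma dvd_of_coeff_eq {a b : WittVector p C} (h : a.coeff 0 = b.coeff 0) :
    (p : WittVector p C) ∣ a - b := by
  rw [← Ideal.mem_span_singleton, ← ker_constantCoeff, RingHom.mem_ker, map_sub]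
  simpa [sub_eq_zero] using h

lemma exists_eq_teich_add (a : WittVector p C) :
    ∃ a', a = teichmuller p (a.coeff 0) + p * a' := by
  obtain ⟨a', h⟩ := dvd_of_coeff_eq (a := a) (b := teichmuller p (a.coeff 0)) (by simp)
  exact ⟨a', by rw [← h]; ring⟩

lemma isUnit_of_coeff_zero (a : WittVector p C) (h : IsUnit (a.coeff 0)) : IsUnit a := by
  obtain ⟨a', ha⟩ := exists_eq_teich_add a
  obtain ⟨v, hv⟩ := h.map (teichmuller p)
  have h1 : (p : WittVector p C) ∈ (⊥ : Ideal (WittVector p C)).jacobson :=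
    IsAdicComplete.le_jacobson_bot (Ideal.span {(p : WittVector p C)})
      (Ideal.mem_span_singleton_self _)
  have h2 := Ideal.mem_jacobson_bot.mp h1 (a' * ↑v⁻¹)
  have : a = v * (p * (a' * ↑v⁻¹) + 1) := by
    rw [ha, ← hv, mul_add, mul_one, add_comm]
    congr 1
    linear_combination (-(p * a')) * v.mul_inv
  rw [this]
  exact v.isUnit.mul h2

lemma pow_dvd_of_dvd_teich (ξ u : WittVector p C) (ϖ : C) (hξ : ξ = teichmuller p ϖ + p * u)
    (hu : IsUnit u) (M : ℕ) : ∀ z : C, ξ ∣ teichmuller p z → ϖ ^ M ∣ z := by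
  induction M with
  | zero => intro z _; simp
  | succ M ih =>
    rintro z ⟨a, ha⟩
    obtain ⟨a', ha'⟩ := exists_eq_teich_add a
    have h0 : z = ϖ * a.coeff 0 := by
      have := congrArg constantCoeff ha
      rw [hξ, map_mul, map_add, map_mul, cc_p] at this
      simpa using this
    have h1 : (u * teichmuller p (a.coeff 0) + ξ * a') * p = 0 := by
      have h2 : teichmuller p z = teichmuller p ϖ * teichmuller p (a.coeff 0) := by
        rw [h0, map_mul]
      rw [h2] at ha
      linear_combination (-1) * ha - ξ * ha' - teichmuller p (a.coeff 0) * hξ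
    have h3 := eq_zero_of_p_mul_eq_zero _ h1
    have h4 : ξ ∣ teichmuller p (a.coeff 0) := by
      rw [← hu.dvd_mul_left]
      exact ⟨-a', by linear_combination h3⟩
    rw [h0, pow_succ']
    exact mul_dvd_mul_left _ (ih _ h4)

end perfect

lemma claimV_local {C V : Type*} [CommRing C] [CommRing V] [CharP V p] [PerfectRing V p]
    [IsLocalRing V] (χ : C →+* V) {d : ℕ} (X : Fin d → C) (a : Fin d → WittVector p C) (z : C)
    (K : Ideal C) (N : ℕ) (hX : ∀ i, X i ^ N ∈ K)
    (hK : ∀ y ∈ K, ∃ w ∈ maximalIdeal V, χ y = χ z * w)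
    (h : teichmuller p z ∈ TI p K ⊔ Ideal.span {(p : WittVector p C) -
      ∑ i, a i * teichmuller p (X i)}) : χ z = 0 := by
  set ξ := WittVector.map χ ((p : WittVector p C) - ∑ i, a i * teichmuller p (X i)) with hξ
  have hξ' : ξ = p - ∑ i, WittVector.map χ (a i) * teichmuller p (χ (X i)) := by
    simp [hξ, map_teichmuller]
  have hXm : ∀ i, χ (X i) ∈ maximalIdeal V := by
    intro i
    obtain ⟨w, hw, h1⟩ := hK _ (hX i)
    refine (IsLocalRing.maximalIdeal.isMaximal V).isPrime.mem_of_pow_mem N ?_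
    rw [← map_pow, h1]
    exact Ideal.mul_mem_left _ _ hw
  obtain ⟨u, hu⟩ := exists_eq_teich_add ξ
  set ϖ := ξ.coeff 0 with hϖ
  have hϖ' : ϖ = -∑ i, χ ((a i).coeff 0) * χ (X i) := by
    have := congrArg constantCoeff hξ'
    rw [map_sub, cc_p, map_sum] at this
    simp only [map_mul] at this
    simpa using this
  have hunit : IsUnit u := by
    apply isUnit_of_coeff_zero
    set π := Ideal.Quotient.mk (maximalIdeal V)
    have h0 : ∀ i, π (χ (X i)) = 0 := fun i => Ideal.Quotient.eq_zero_iff_mem.mpr (hXm i)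
    have h1 : WittVector.map π (u * (p : WittVector p V)) =
        WittVector.map π (p : WittVector p V) := by
      have : u * (p : WittVector p V) = ξ - teichmuller p ϖ := by linear_combination -hu
      rw [this, hξ', hϖ']
      simp [map_teichmuller, h0]
    have h2 := congrArg (fun x => WittVector.coeff x 1) h1
    simp only [map_coeff, mul_charP_coeff_succ, coeff_p_one] at h2
    by_contra hcon
    have h3 : u.coeff 0 ^ p ∈ maximalIdeal V :=
      Ideal.pow_mem_of_mem _ hcon _ (Fact.out : p.Prime).pos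
    rw [Ideal.Quotient.eq_zero_iff_mem.mpr h3] at h2
    exact (IsLocalRing.maximalIdeal.isMaximal V).ne_top
      ((Ideal.eq_top_iff_one _).mpr (Ideal.Quotient.eq_zero_iff_mem.mp h2.symm))
  have hdvd : ξ ∣ teichmuller p (χ z) := by
    obtain ⟨c, hc⟩ := mem_sup_span_singleton.mp h
    have h1 : TI p K ≤ (Ideal.span {teichmuller p (χ z)} *
        (maximalIdeal V).comap constantCoeff).comap (WittVector.map χ) := by
      rw [TI, Ideal.span_le]
      rintro _ ⟨y, hy, rfl⟩
      obtain ⟨w, hw, h1⟩ := hK y hy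
      rw [SetLike.mem_coe, Ideal.mem_comap, map_teichmuller, h1, map_mul]
      exact Ideal.mul_mem_mul (Ideal.mem_span_singleton_self _) (by simpa using hw)
    have h2 := h1 hc
    rw [Ideal.mem_comap, map_sub, map_mul, map_teichmuller, ← hξ] at h2
    obtain ⟨w, hw, h3⟩ := Ideal.mem_span_singleton_mul.mp h2
    have h4 : IsUnit (1 - w) := by
      apply isUnit_of_coeff_zero
      have : (1 - w).coeff 0 = 1 - w.coeff 0 := by
        have := map_sub constantCoeff (1 : WittVector p V) w
        simpa using this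
      rw [this]
      exact IsLocalRing.isUnit_one_sub_self_of_mem_nonunits _ hw
    rw [← h4.dvd_mul_right]
    exact ⟨WittVector.map χ c, by linear_combination -h3⟩
  obtain ⟨c, hc⟩ := pow_dvd_of_dvd_teich ξ u ϖ hu hunit (d * N + 1) _ hdvd
  have h5 : ϖ ^ (d * N + 1) ∈ Ideal.span {χ z} * maximalIdeal V := by
    have h6 : ϖ ∈ Ideal.span (Set.range fun i => χ (X i)) := by
      rw [hϖ']
      exact Submodule.neg_mem _ (Ideal.sum_mem _ fun i _ =>
        Ideal.mul_mem_left _ _ (Ideal.subset_span ⟨i, rfl⟩))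
    have h7 := pigeon'' N (fun i => χ (X i)) 0 (d * N + 1) (by simp) (Ideal.pow_mem_pow h6 _)
    rw [zero_add, pow_one] at h7
    refine (?_ : Mon _ _ ≤ _) h7
    rw [Mon, Ideal.span_le]
    rintro _ ⟨i, rfl⟩
    obtain ⟨w, hw, h1⟩ := hK _ (hX i)
    simp only [← map_pow, h1]
    exact Ideal.mul_mem_mul (Ideal.mem_span_singleton_self _) hw
  obtain ⟨w, hw, h8⟩ := Ideal.mem_span_singleton_mul.mp h5
  have h9 : IsUnit (1 - w * c) :=
    IsLocalRing.isUnit_one_sub_self_of_mem_nonunits _ (Ideal.mul_mem_right _ _ hw)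
  rw [← h9.mul_left_eq_zero]
  linear_combination hc - c * h8

section closure

variable {K : Type*} [CommRing K] [CharP K p]

lemma pc_pow_mem (x : PerfectClosure K p) : ∃ e t, x ^ p ^ e = PerfectClosure.of K p t := by
  obtain ⟨e, t, h⟩ := IsPRadical.pow_mem (PerfectClosure.of K p) p x
  exact ⟨e, t, h.symm⟩

lemma pc_ker {t : K} (h : PerfectClosure.of K p t = 0) : ∃ e, t ^ p ^ e = 0 :=
  mem_pNilradical.mp (IsPRadical.ker_le (PerfectClosure.of K p) p h)

lemma pc_local [IsLocalRing K] : IsLocalRing (PerfectClosure K p) := by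
  have : Nontrivial (PerfectClosure K p) :=
    CharP.nontrivial_of_char_ne_one (Fact.out : p.Prime).ne_one
  refine IsLocalRing.of_isUnit_or_isUnit_one_sub_self fun w => ?_
  obtain ⟨e, t, h⟩ := pc_pow_mem w
  have hq : p ^ e ≠ 0 := pow_ne_zero _ (Fact.out : p.Prime).ne_zero
  rcases IsLocalRing.isUnit_or_isUnit_one_sub_self t with h1 | h1
  · left
    exact (isUnit_pow_iff hq).mp (h ▸ h1.map _)
  · right
    refine (isUnit_pow_iff hq).mp ?_
    rw [sub_pow_char_pow, one_pow, h]
    simpa using h1.map (PerfectClosure.of K p)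

lemma pc_isUnit {t : K} (h : IsUnit (PerfectClosure.of K p t)) : IsUnit t := by
  obtain ⟨w, hw⟩ := h.exists_right_inv
  obtain ⟨e, s, hs⟩ := pc_pow_mem w
  have h1 : PerfectClosure.of K p (t ^ p ^ e * s - 1) = 0 := by
    rw [map_sub, map_mul, map_pow, ← hs, ← mul_pow, hw]; simp
  obtain ⟨e', h2⟩ := pc_ker h1
  rw [sub_pow_char_pow, one_pow, sub_eq_zero, mul_pow, ← pow_mul] at h2
  exact (isUnit_pow_iff (mul_ne_zero (pow_ne_zero _ (Fact.out : p.Prime).ne_zero)
    (pow_ne_zero _ (Fact.out : p.Prime).ne_zero))).mp (IsUnit.of_mul_eq_one _ h2)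

end closure

section blow

variable {C : Type*} [CommRing C] (K : Ideal C) (z : C)

/-- A chart of the blow-up of `K + (z)`. -/
def chart : Subring (Localization.Away z) where
  carrier := {t | ∃ M, ∃ a ∈ (K ⊔ Ideal.span {z}) ^ M,
    algebraMap C _ a = algebraMap C _ z ^ M * t}
  zero_mem' := ⟨0, 0, by simp, by simp⟩
  one_mem' := ⟨0, 1, by simp, by simp⟩
  neg_mem' := by
    rintro t ⟨M, a, ha, h⟩
    exact ⟨M, -a, Submodule.neg_mem _ ha, by simp [h]⟩
  mul_mem' := by
    rintro s t ⟨M, a, ha, h⟩ ⟨M', a', ha', h'⟩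
    exact ⟨M + M', a * a', by rw [pow_add]; exact Ideal.mul_mem_mul ha ha', by
      rw [map_mul, h, h']; ring⟩
  add_mem' := by
    rintro s t ⟨M, a, ha, h⟩ ⟨M', a', ha', h'⟩
    have hz : z ∈ K ⊔ Ideal.span {z} := Submodule.mem_sup_right (Ideal.mem_span_singleton_self z)
    refine ⟨M + M', a * z ^ M' + z ^ M * a', ?_, ?_⟩
    · rw [pow_add]
      exact Ideal.add_mem _ (Ideal.mul_mem_mul ha (Ideal.pow_mem_pow hz _))
        (Ideal.mul_mem_mul (Ideal.pow_mem_pow hz _) ha')
    · simp only [map_add, map_mul, map_pow, h, h']; ring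

/-- The ideal of the chart generated by the fractions `y / z`. -/
def chartIdeal : Ideal (chart K z) where
  carrier := {t | ∃ M, ∃ a ∈ K * (K ⊔ Ideal.span {z}) ^ M,
    algebraMap C _ a = algebraMap C _ z ^ (M + 1) * (t : Localization.Away z)}
  zero_mem' := ⟨0, 0, by simp, by simp⟩
  add_mem' := by
    rintro s t ⟨M, a, ha, h⟩ ⟨M', a', ha', h'⟩
    have hz : z ∈ K ⊔ Ideal.span {z} := Submodule.mem_sup_right (Ideal.mem_span_singleton_self z)
    refine ⟨M + M', a * z ^ M' + a' * z ^ M, Ideal.add_mem _ ?_ ?_, ?_⟩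
    · rw [pow_add, ← mul_assoc]
      exact Ideal.mul_mem_mul ha (Ideal.pow_mem_pow hz _)
    · rw [add_comm, pow_add, ← mul_assoc]
      exact Ideal.mul_mem_mul ha' (Ideal.pow_mem_pow hz _)
    · simp only [map_add, map_mul, map_pow, h, h', Subring.coe_add]; ring
  smul_mem' := by
    rintro ⟨s, M, a, ha, h⟩ t ⟨M', a', ha', h'⟩
    refine ⟨M' + M, a' * a, ?_, ?_⟩
    · rw [pow_add, ← mul_assoc]
      exact Ideal.mul_mem_mul ha' ha
    · simp only [map_mul, h, h', smul_eq_mul, Subring.coe_mul]; ring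

lemma integral_of_chart (h : chartIdeal K z = ⊤) : ∃ M, ∀ j, z ^ (M + j) ∈ K ^ j := by
  obtain ⟨M, a, ha, h1⟩ := (Ideal.eq_top_iff_one _).mp h
  rw [OneMemClass.coe_one, mul_one, ← map_pow] at h1
  obtain ⟨⟨_, n, rfl⟩, h2⟩ := (IsLocalization.eq_iff_exists (Submonoid.powers z) _).mp h1
  have hz : z ∈ K ⊔ Ideal.span {z} := Submodule.mem_sup_right (Ideal.mem_span_singleton_self z)
  set L := K ⊔ Ideal.span {z} with hL
  have h3 : z ^ (M + n + 1) ∈ K * L ^ (M + n) := by
    have : z ^ (M + n + 1) = a * z ^ n := by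
      simp only at h2
      rw [mul_comm a, h2]; ring
    rw [this, pow_add, ← mul_assoc]
    exact Ideal.mul_mem_mul ha (Ideal.pow_mem_pow hz _)
  have h4 : L ^ (M + n + 1) ≤ K * L ^ (M + n) := by
    have h5 : ∀ i, L ^ (i + 1) ≤ K * L ^ i ⊔ Ideal.span {z ^ (i + 1)} := by
      intro i
      induction i with
      | zero => simp [hL]
      | succ i ih =>
        rw [pow_succ]
        refine (Ideal.mul_mono_left ih).trans ?_
        rw [Ideal.sup_mul, mul_assoc, ← pow_succ]
        refine sup_le le_sup_left ?_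
        conv_lhs => rw [hL, Ideal.mul_sup]
        refine sup_le (le_sup_of_le_left ?_) (le_sup_of_le_right ?_)
        · rw [mul_comm]
          refine Ideal.mul_mono_right ?_
          rw [Ideal.span_singleton_le_iff_mem]
          exact Ideal.pow_mem_pow hz _
        · rw [Ideal.span_singleton_mul_span_singleton, ← pow_succ]
    exact (h5 _).trans (sup_le le_rfl ((Ideal.span_singleton_le_iff_mem _).mpr h3))
  have h6 : ∀ j, L ^ (M + n + j) ≤ K ^ j * L ^ (M + n) := by
    intro j
    induction j with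
    | zero => simp
    | succ j ih =>
      rw [← add_assoc, pow_succ]
      refine (Ideal.mul_mono_left ih).trans ?_
      rw [mul_assoc, ← pow_succ, pow_succ K, mul_assoc]
      exact Ideal.mul_mono_right h4
  exact ⟨M + n, fun j => Ideal.mul_le_left (h6 j (Ideal.pow_mem_pow hz _))⟩

end blow

theorem claimV {C : Type*} [CommRing C] [CharP C p] {d : ℕ} (X : Fin d → C)
    (a : Fin d → WittVector p C) (z : C) (K : Ideal C) (N : ℕ) (hX : ∀ i, X i ^ N ∈ K)
    (h : teichmuller p z ∈ TI p K ⊔ Ideal.span {(p : WittVector p C) -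
      ∑ i, a i * teichmuller p (X i)}) : ∃ M, ∀ j, z ^ (M + j) ∈ K ^ j := by
  by_cases htop : chartIdeal K z = ⊤
  · exact integral_of_chart K z htop
  exfalso
  obtain ⟨m, hm, hle⟩ := Ideal.exists_le_maximal _ htop
  let ι : C →+* chart K z := (algebraMap C (Localization.Away z)).codRestrict _
    fun c => ⟨0, c, by simp, by simp⟩
  have : Nontrivial (chart K z) :=
    ⟨⟨0, 1, fun h => hm.ne_top ((Ideal.eq_top_iff_one _).mpr (h ▸ m.zero_mem))⟩⟩
  have : CharP (chart K z) p := by
    rw [CharP.charP_iff_prime_eq_zero Fact.out, ← map_natCast ι, CharP.cast_eq_zero, map_zero]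
  have := charP_loc (p := p) m
  have := pc_local (p := p) (K := Localization.AtPrime m)
  have hzu : IsUnit (algebraMap C (Localization.Away z) z) := IsLocalization.Away.algebraMap_isUnit z
  let χ : C →+* PerfectClosure (Localization.AtPrime m) p :=
    (PerfectClosure.of _ p).comp ((algebraMap (chart K z) (Localization.AtPrime m)).comp ι)
  have h0 := claimV_local χ X a z K N hX (by
    intro y hy
    obtain ⟨v, hv⟩ := hzu
    have h1 : algebraMap C (Localization.Away z) y
        = algebraMap C _ z * (↑v⁻¹ * algebraMap C _ y) := by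
      rw [← hv, Units.mul_inv_cancel_left]
    let w : chart K z := ⟨↑v⁻¹ * algebraMap C _ y, 1, y, by
      simpa using Submodule.mem_sup_left hy, by rw [pow_one]; exact h1⟩
    have hw : w ∈ chartIdeal K z := ⟨0, y, by simpa using hy, by rw [zero_add, pow_one]; exact h1⟩
    refine ⟨PerfectClosure.of _ p (algebraMap _ (Localization.AtPrime m) w), fun hu => ?_, ?_⟩
    · exact (IsLocalization.AtPrime.isUnit_to_map_iff _ m w).mp (pc_isUnit hu) (hle hw)
    · have : ι y = ι z * w := Subtype.ext h1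
      simp only [χ, RingHom.comp_apply, this, map_mul]) h
  obtain ⟨e, he⟩ := pc_ker h0
  rw [RingHom.comp_apply, ← map_pow] at he
  obtain ⟨t, ht⟩ := (IsLocalization.map_eq_zero_iff m.primeCompl _ _).mp he
  have h1 : ((t : chart K z) : Localization.Away z) = 0 := by
    have := congrArg (fun x : chart K z => (x : Localization.Away z)) ht
    simp only [Subring.coe_mul, Subring.coe_pow, ZeroMemClass.coe_zero] at this
    exact (hzu.pow _).mul_left_eq_zero.mp this
  exact t.2 ((Subtype.ext h1 : (t : chart K z) = 0) ▸ m.zero_mem)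

theorem bs_witt {C : Type*} [CommRing C] [CharP C p] [PerfectRing C p] {d h : ℕ} (X : Fin d → C)
    (a : Fin d → WittVector p C) (c : Fin h → C) (z : C) (D M k e N N' : ℕ) (hD : 1 ≤ D)
    (hM : (h + k) * e < M) (hN : 2 * D * M * (d + N' + 1) ≤ N)
    (hz : teichmuller p z ^ D ∈ Mon (fun i => teichmuller p (c i)) (fun _ => D) ^ M ⊔
      (Ideal.span {(p : WittVector p C) - ∑ i, a i * teichmuller p (X i)} ⊔
        Mon (fun i => teichmuller p (X i)) (fun _ => N))) :
    teichmuller p z ∈ Mon (fun i => teichmuller p (c i)) (fun _ => e) ^ (k + 1) ⊔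
      (Ideal.span (Set.range fun i => teichmuller p (X i)) ^ N' ⊔
        Ideal.span {(p : WittVector p C) - ∑ i, a i * teichmuller p (X i)}) := by
  obtain ⟨M₀, hM₀⟩ := claimV X a (z ^ D) (Mon c (fun _ => D) ^ M ⊔ Mon X (fun _ => N)) N
    (fun i => Submodule.mem_sup_right (pow_mem_Mon X (fun _ => N) i)) (by
      rw [map_pow]
      refine SetLike.le_def.mp
        (sup_le (le_sup_of_le_left ?_) (sup_le le_sup_right (le_sup_of_le_left ?_))) hz
      · exact (Ideal.pow_right_mono (Mon_le_TI _ _) _).trans ((TI_pow _ _).trans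
          (TI_mono le_sup_left))
      · exact (Mon_le_TI _ _).trans (TI_mono le_sup_right))
  have hp1 := (Fact.out : p.Prime).one_lt
  set f₀ := 2 * D * M * (M₀ + 3) with hf₀
  have hQ : f₀ < p ^ f₀ := Nat.lt_pow_self hp1
  set Q := p ^ f₀ with hQdef
  set q := p ^ N' with hq
  have hq1 : 1 ≤ q := Nat.one_le_pow _ _ (by omega)
  have hM1 : 1 ≤ M := by omega
  set j := Q / D - M₀ with hj
  have hDj : D * (M₀ + j) ≤ Q ∧ Q < D * (M₀ + j + 1) := by
    have h1 : M₀ ≤ Q / D := by
      rw [Nat.le_div_iff_mul_le (by omega)]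
      have : M₀ * D ≤ 2 * D * M * (M₀ + 3) := by nlinarith [Nat.mul_le_mul_left (M₀ * D) hM1]
      omega
    rw [hj, Nat.add_sub_cancel' h1]
    exact ⟨Nat.mul_div_le _ _, Nat.lt_mul_div_succ _ (by omega)⟩
  let Φ : C ≃+* C := (iterateFrobeniusEquiv C p (f₀ + N')).symm
  have hΦ : ∀ x, Φ x ^ (Q * q) = x := by
    intro x
    have := (iterateFrobeniusEquiv C p (f₀ + N')).apply_symm_apply x
    rwa [iterateFrobeniusEquiv_def, pow_add] at this
  set 𝔖 := Ideal.span (Set.range fun i => teichmuller p (Φ (c i))) with h𝔖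
  set 𝔛 := Ideal.span (Set.range fun i => teichmuller p (Φ (X i))) with h𝔛
  have h1 : Φ (z ^ Q) ∈ ((𝔖 ^ (D * M) ⊔ 𝔛 ^ N) ^ j).map constantCoeff := by
    have h2 : z ^ Q ∈ (Ideal.span (Set.range c) ^ (D * M) ⊔ Ideal.span (Set.range X) ^ N) ^ j := by
      obtain ⟨r, hr⟩ := Nat.exists_eq_add_of_le hDj.1
      rw [hr, pow_add, pow_mul z]
      refine Ideal.mul_mem_right _ _ (Ideal.pow_right_mono (sup_le_sup ?_ (Mon_le_pow _ _)) _ (hM₀ j))
      rw [pow_mul]
      exact Ideal.pow_right_mono (Mon_le_pow _ _) _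
    have h3 := Ideal.mem_map_of_mem Φ h2
    simp only [Ideal.map_pow, Ideal.map_sup, Ideal.map_span, ← Set.range_comp, h𝔖, h𝔛] at h3 ⊢
    exact h3
  obtain ⟨w, hw, hw'⟩ := (Ideal.mem_map_iff_of_surjective _ (constantCoeff_surjective p)).mp h1
  have h4 := dvd_sub_pow_of_dvd_sub (dvd_of_coeff_eq (a := teichmuller p (Φ (z ^ Q))) (b := w)
    (by rw [teichmuller_coeff_zero, ← hw']; rfl)) N'
  have h5 : teichmuller p (Φ (z ^ Q)) ^ q = teichmuller p z := by
    rw [← map_pow, map_pow Φ, ← pow_mul, hΦ]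
  rw [← hq, h5] at h4
  obtain ⟨t, ht⟩ := h4
  have h6 : teichmuller p z = w ^ q + (p ^ (N' + 1) : ℕ) * t := by
    push_cast
    linear_combination ht
  rw [h6]
  have hDM : 0 < D * M := Nat.mul_pos hD hM1
  set i := (h + k) * (e * (Q * q)) / (D * M) + 1 with hi
  set i' := Q * q / (2 * (D * M)) + 1 with hi'
  have hi1 : (h + k) * (e * (Q * q)) < D * M * i := Nat.lt_mul_div_succ _ hDM
  have hi2 : D * M * i ≤ (h + k) * (e * (Q * q)) + D * M := by
    rw [hi, mul_add, mul_one]
    exact Nat.add_le_add_right (Nat.mul_div_le _ _) _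
  have hi3 : Q * q < 2 * (D * M) * i' := Nat.lt_mul_div_succ _ (by omega)
  have hi4 : 2 * (D * M) * i' ≤ Q * q + 2 * (D * M) := by
    rw [hi', mul_add, mul_one]
    exact Nat.add_le_add_right (Nat.mul_div_le _ _) _
  have hsum : i + i' ≤ j * q := by
    apply Nat.le_of_mul_le_mul_left _ (show 0 < 2 * (D * M) by omega)
    have e1 : ((h + k) * e + 1) * (Q * q) ≤ M * (Q * q) := Nat.mul_le_mul_right _ hM
    have e2 : M * q * Q ≤ M * q * (D * (M₀ + j + 1)) := Nat.mul_le_mul_left _ hDj.2.le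
    have e3 : q * f₀ ≤ q * Q := Nat.mul_le_mul_left _ hQ.le
    have e4 : D * M * 1 ≤ D * M * q := Nat.mul_le_mul_left _ hq1
    rw [hf₀] at e3
    nlinarith
  refine Ideal.add_mem _ ?_ (Submodule.mem_sup_right (Ideal.mul_mem_right _ _ ?_))
  · have h7 := Ideal.pow_mem_pow hw q
    rw [← pow_mul] at h7
    have h8 := Ideal.sup_pow_add_le_pow_sup_pow (Ideal.pow_le_pow_right hsum h7)
    refine SetLike.le_def.mp (sup_le_sup ?_ (le_sup_of_le_left ?_)) h8
    · rw [← pow_mul]
      refine (pigeon'' (e * (Q * q)) _ k _ hi1).trans (le_of_eq ?_)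
      refine congrArg (fun I => I ^ (k + 1)) (Mon_congr fun i => ?_)
      rw [← map_pow, mul_comm e, pow_mul, hΦ, map_pow]
    · rw [← pow_mul]
      refine (pigeon'' (Q * q) _ N' _ ?_).trans ?_
      · have : 2 * D * M * (d + N' + 1) * i' ≤ N * i' := Nat.mul_le_mul_right _ hN
        nlinarith
      · refine le_trans (le_of_eq ?_) (Ideal.pow_le_pow_right (Nat.le_succ N'))
        rw [← Mon_one]
        refine congrArg (fun I => I ^ (N' + 1)) (Mon_congr fun i => ?_)
        rw [← map_pow, hΦ, pow_one]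
  · push_cast
    rw [sup_comm]
    refine sup_pow_le_sup _ _ N' (Ideal.pow_le_pow_right (Nat.le_succ N') (Ideal.pow_mem_pow ?_ _))
    have : (p : WittVector p C) = (p - ∑ i, a i * teichmuller p (X i)) +
      ∑ i, a i * teichmuller p (X i) := by ring
    rw [this]
    refine Submodule.add_mem_sup (by rw [← this]; exact Ideal.mem_span_singleton_self _) ?_
    exact Ideal.sum_mem _ fun i _ => Ideal.mul_mem_left _ _ (Ideal.subset_span ⟨i, rfl⟩)

end Pool.Agent.P.MP_fcbc4b_ag
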